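import Mathlib

/-! Two finite checks over the field with two elements. -/

set_option autoImplicit false

namespace Pool.Agent.Run7.h948.QF

/-- the functional of the first form -/
def fA (H1 H2 H3 G2 G3 N c1 c2 c3 c4 c5 c6 : ZMod 2) : ZMod 2 :=
  c1 * H1 + (c2 * H2 + c3 * G2) + (c4 * H3 + c5 * G3 + c6 * N)

/-- condition at `r` -/
def A1 (H1 H2 H3 G2 G3 N : ZMod 2) : Prop := ∃ c1 c2 c3 c4 c5 c6 : ZMod 2,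
  (c1 + c3 + c6 = 0 ∧ c1 = 0) ∧ fA H1 H2 H3 G2 G3 N c1 c2 c3 c4 c5 c6 = 1
/-- condition at `a` -/
def A2 (H1 H2 H3 G2 G3 N : ZMod 2) : Prop := ∃ c1 c2 c3 c4 c5 c6 : ZMod 2,
  (c1 + c3 + c6 = 0 ∧ c2 = 0 ∧ c3 = 0) ∧ fA H1 H2 H3 G2 G3 N c1 c2 c3 c4 c5 c6 = 1
/-- condition at `a + r` -/
def A3 (H1 H2 H3 G2 G3 N : ZMod 2) : Prop := ∃ c1 c2 c3 c4 c5 c6 : ZMod 2,
  (c1 + c3 + c6 = 0 ∧ c1 + c2 = 0 ∧ c3 = 0) ∧ fA H1 H2 H3 G2 G3 N c1 c2 c3 c4 c5 c6 = 1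
/-- condition at `b` -/
def A4 (H1 H2 H3 G2 G3 N : ZMod 2) : Prop := ∃ c1 c2 c3 c4 c5 c6 : ZMod 2,
  (c1 + c3 + c6 = 0 ∧ c4 = 0 ∧ c5 = 0 ∧ c6 = 0) ∧ fA H1 H2 H3 G2 G3 N c1 c2 c3 c4 c5 c6 = 1
/-- condition at `b + r` -/
def A5 (H1 H2 H3 G2 G3 N : ZMod 2) : Prop := ∃ c1 c2 c3 c4 c5 c6 : ZMod 2,
  (c1 + c3 + c6 = 0 ∧ c1 + c4 = 0 ∧ c5 = 0 ∧ c6 = 0) ∧ fA H1 H2 H3 G2 G3 N c1 c2 c3 c4 c5 c6 = 1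
/-- condition at `a + b` -/
def A6 (H1 H2 H3 G2 G3 N : ZMod 2) : Prop := ∃ c1 c2 c3 c4 c5 c6 : ZMod 2,
  (c1 + c3 + c6 = 0 ∧ c2 + c4 = 0 ∧ c3 + c5 = 0 ∧ c6 = 0) ∧
    fA H1 H2 H3 G2 G3 N c1 c2 c3 c4 c5 c6 = 1
/-- condition at `a + b + r` -/
def A7 (H1 H2 H3 G2 G3 N : ZMod 2) : Prop := ∃ c1 c2 c3 c4 c5 c6 : ZMod 2,
  (c1 + c3 + c6 = 0 ∧ c1 + c2 + c4 = 0 ∧ c3 + c5 = 0 ∧ c6 = 0) ∧
    fA H1 H2 H3 G2 G3 N c1 c2 c3 c4 c5 c6 = 1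

instance (H1 H2 H3 G2 G3 N : ZMod 2) : Decidable (A1 H1 H2 H3 G2 G3 N) := by
  unfold A1; infer_instance
instance (H1 H2 H3 G2 G3 N : ZMod 2) : Decidable (A2 H1 H2 H3 G2 G3 N) := by
  unfold A2; infer_instance
instance (H1 H2 H3 G2 G3 N : ZMod 2) : Decidable (A3 H1 H2 H3 G2 G3 N) := by
  unfold A3; infer_instance
instance (H1 H2 H3 G2 G3 N : ZMod 2) : Decidable (A4 H1 H2 H3 G2 G3 N) := by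
  unfold A4; infer_instance
instance (H1 H2 H3 G2 G3 N : ZMod 2) : Decidable (A5 H1 H2 H3 G2 G3 N) := by
  unfold A5; infer_instance
instance (H1 H2 H3 G2 G3 N : ZMod 2) : Decidable (A6 H1 H2 H3 G2 G3 N) := by
  unfold A6; infer_instance
instance (H1 H2 H3 G2 G3 N : ZMod 2) : Decidable (A7 H1 H2 H3 G2 G3 N) := by
  unfold A7; infer_instance

/-- all the conditions -/
def AA (H1 H2 H3 G2 G3 N : ZMod 2) : Prop :=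
  (A1 H1 H2 H3 G2 G3 N ∧ A2 H1 H2 H3 G2 G3 N ∧ A3 H1 H2 H3 G2 G3 N) ∧
  (A4 H1 H2 H3 G2 G3 N ∧ A5 H1 H2 H3 G2 G3 N) ∧ A6 H1 H2 H3 G2 G3 N ∧ A7 H1 H2 H3 G2 G3 N

instance (H1 H2 H3 G2 G3 N : ZMod 2) : Decidable (AA H1 H2 H3 G2 G3 N) := by
  unfold AA; infer_instance

theorem bitsA : ∀ H1 H2 H3 G2 G3 N : ZMod 2, AA H1 H2 H3 G2 G3 N → H3 = 0 ∧ G3 = 1 := by
  decide +kernel

/-- the functional of the second form -/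
def fB (H1 H2 H3 P Q S c1 c2 c3 c4 c5 c6 : ZMod 2) : ZMod 2 :=
  c1 * H1 + (c2 * H2 + c4 * P) + (c3 * H3 + c5 * Q) + c6 * S

/-- condition at `r` -/
def B1 (H1 H2 H3 P Q S : ZMod 2) : Prop := ∃ c1 c2 c3 c4 c5 c6 : ZMod 2,
  (c1 + c4 + c5 + c6 = 0 ∧ c1 = 0) ∧ fB H1 H2 H3 P Q S c1 c2 c3 c4 c5 c6 = 1
/-- condition at `a` -/
def B2 (H1 H2 H3 P Q S : ZMod 2) : Prop := ∃ c1 c2 c3 c4 c5 c6 : ZMod 2,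
  (c1 + c4 + c5 + c6 = 0 ∧ c2 = 0 ∧ c4 = 0 ∧ c6 = 0) ∧ fB H1 H2 H3 P Q S c1 c2 c3 c4 c5 c6 = 1
/-- condition at `a + r` -/
def B3 (H1 H2 H3 P Q S : ZMod 2) : Prop := ∃ c1 c2 c3 c4 c5 c6 : ZMod 2,
  (c1 + c4 + c5 + c6 = 0 ∧ c1 + c2 = 0 ∧ c4 = 0 ∧ c6 = 0) ∧
    fB H1 H2 H3 P Q S c1 c2 c3 c4 c5 c6 = 1
/-- condition at `b` -/
def B4 (H1 H2 H3 P Q S : ZMod 2) : Prop := ∃ c1 c2 c3 c4 c5 c6 : ZMod 2,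
  (c1 + c4 + c5 + c6 = 0 ∧ c3 = 0 ∧ c5 = 0 ∧ c6 = 0) ∧ fB H1 H2 H3 P Q S c1 c2 c3 c4 c5 c6 = 1
/-- condition at `b + r` -/
def B5 (H1 H2 H3 P Q S : ZMod 2) : Prop := ∃ c1 c2 c3 c4 c5 c6 : ZMod 2,
  (c1 + c4 + c5 + c6 = 0 ∧ c1 + c3 = 0 ∧ c5 = 0 ∧ c6 = 0) ∧
    fB H1 H2 H3 P Q S c1 c2 c3 c4 c5 c6 = 1
/-- condition at `a + b` -/
def B6 (H1 H2 H3 P Q S : ZMod 2) : Prop := ∃ c1 c2 c3 c4 c5 c6 : ZMod 2,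
  (c1 + c4 + c5 + c6 = 0 ∧ c2 + c3 = 0 ∧ c4 = 0 ∧ c5 = 0) ∧
    fB H1 H2 H3 P Q S c1 c2 c3 c4 c5 c6 = 1
/-- condition at `a + b + r` -/
def B7 (H1 H2 H3 P Q S : ZMod 2) : Prop := ∃ c1 c2 c3 c4 c5 c6 : ZMod 2,
  (c1 + c4 + c5 + c6 = 0 ∧ c1 + c2 + c3 = 0 ∧ c4 = 0 ∧ c5 = 0) ∧
    fB H1 H2 H3 P Q S c1 c2 c3 c4 c5 c6 = 1

instance (H1 H2 H3 P Q S : ZMod 2) : Decidable (B1 H1 H2 H3 P Q S) := by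
  unfold B1; infer_instance
instance (H1 H2 H3 P Q S : ZMod 2) : Decidable (B2 H1 H2 H3 P Q S) := by
  unfold B2; infer_instance
instance (H1 H2 H3 P Q S : ZMod 2) : Decidable (B3 H1 H2 H3 P Q S) := by
  unfold B3; infer_instance
instance (H1 H2 H3 P Q S : ZMod 2) : Decidable (B4 H1 H2 H3 P Q S) := by
  unfold B4; infer_instance
instance (H1 H2 H3 P Q S : ZMod 2) : Decidable (B5 H1 H2 H3 P Q S) := by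
  unfold B5; infer_instance
instance (H1 H2 H3 P Q S : ZMod 2) : Decidable (B6 H1 H2 H3 P Q S) := by
  unfold B6; infer_instance
instance (H1 H2 H3 P Q S : ZMod 2) : Decidable (B7 H1 H2 H3 P Q S) := by
  unfold B7; infer_instance

/-- all the conditions -/
def BB (H1 H2 H3 P Q S : ZMod 2) : Prop :=
  (B1 H1 H2 H3 P Q S ∧ B2 H1 H2 H3 P Q S ∧ B3 H1 H2 H3 P Q S) ∧
  (B4 H1 H2 H3 P Q S ∧ B5 H1 H2 H3 P Q S) ∧ B6 H1 H2 H3 P Q S ∧ B7 H1 H2 H3 P Q S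

instance (H1 H2 H3 P Q S : ZMod 2) : Decidable (BB H1 H2 H3 P Q S) := by
  unfold BB; infer_instance

theorem bitsB : ∀ H1 H2 H3 P Q S : ZMod 2, ¬ BB H1 H2 H3 P Q S := by
  decide +kernel

end Pool.Agent.Run7.h948.QF
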