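import Pool.Agent.N88.TS.Fin

/-! Unions of seven subgroups indexed by the points of the Fano plane: at least 32 elements if one of
the subgroups has more than eight elements or if their sum has more than 64 elements. -/

set_option autoImplicit false

namespace Pool.Agent.Run7.h948.QF

open Pool.Agent.N88.TS Pool.Agent.R649.ETS

theorem aux16 (y α β γ N : ℕ) (f1 : α ≤ N) (f2 : β ≤ N) (f3 : α + β + 1 ≤ N + γ)
    (c3 : 16 * y * γ = y * α * (y * β)) (hy : y = 1 ∨ y = 2 ∨ y = 4 ∨ y = 8 ∨ 16 ≤ y)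
    (p1 : α = 1 ∨ α = 2 ∨ α = 4 ∨ α = 8 ∨ 16 ≤ α) (p2 : β = 1 ∨ β = 2 ∨ β = 4 ∨ β = 8 ∨ 16 ≤ β)
    (p3 : 0 < γ) (hA : y * α ≤ 16) :
    (y ≤ 8 → 3 ≤ N) ∧ (y ≤ 4 → 4 ≤ N) := by
  have hy0 : 0 < y := by omega
  have c4 : 16 * γ = y * (α * β) := by
    have h5 : y * (16 * γ) = y * (y * (α * β)) := by
      have h6 : y * (16 * γ) = 16 * y * γ := by ring
      rw [h6, c3]
      ring
    exact Nat.eq_of_mul_eq_mul_left hy0 h5
  clear c3
  rcases p1 with rfl | rfl | rfl | rfl | p1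
  · rcases p2 with rfl | rfl | rfl | rfl | p2
    · constructor <;> intro h4 <;> omega
    · constructor <;> intro h4 <;> omega
    · constructor <;> intro h4 <;> omega
    · constructor <;> intro h4 <;> omega
    · constructor <;> intro h4 <;> omega
  · rcases p2 with rfl | rfl | rfl | rfl | p2
    · constructor <;> intro h4 <;> omega
    · constructor <;> intro h4 <;> omega
    · constructor <;> intro h4 <;> omega
    · constructor <;> intro h4 <;> omega
    · constructor <;> intro h4 <;> omega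
  · constructor <;> intro h4 <;> omega
  · constructor <;> intro h4 <;> omega
  · constructor <;> intro h4 <;> omega

section
variable {E : Type} [AddCommGroup E] [Finite E]

/-- the fibre of the union of `A` and `B` over a nonzero element of the quotient by `X` -/
lemma fib (X A B : AddSubgroup E) (U : Set E) (hAU : (A : Set E) ⊆ U) (hBU : (B : Set E) ⊆ U)
    (hA : A ≤ X ⊔ B) {q : E ⧸ X} (hq : q ∈ Im X A) (hq0 : q ≠ 0) :
    Nat.card (X ⊓ A : AddSubgroup E) ≤ Nf X U q ∧ Nat.card (X ⊓ B : AddSubgroup E) ≤ Nf X U q ∧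
      Nat.card (X ⊓ A : AddSubgroup E) + Nat.card (X ⊓ B : AddSubgroup E) + 1 ≤
        Nf X U q + Nat.card (A ⊓ B : AddSubgroup E) := by
  classical
  obtain ⟨c, hc, hcq⟩ : ∃ c ∈ A, (QuotientAddGroup.mk c : E ⧸ X) = q := by
    obtain ⟨c, hc, h⟩ := AddSubgroup.mem_map.1 hq
    exact ⟨c, hc, h⟩
  obtain ⟨x, hx, d, hd, hxd⟩ := AddSubgroup.mem_sup.1 (hA hc)
  have hmk : ∀ u v : E, u ∈ X → (QuotientAddGroup.mk (v + u) : E ⧸ X) = QuotientAddGroup.mk v := by
    intro u v hu
    rw [eq_comm, QuotientAddGroup.eq]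
    have : -v + (v + u) = u := by abel
    rw [this]
    exact hu
  have hdq : (QuotientAddGroup.mk d : E ⧸ X) = q := by
    rw [← hcq, ← hxd, add_comm, hmk x d hx]
  have key : ∀ (Y : AddSubgroup E) (e : E), (Y : Set E) ⊆ U → e ∈ Y →
      (QuotientAddGroup.mk e : E ⧸ X) = q →
      ((fun u => e + u) '' ((X ⊓ Y : AddSubgroup E) : Set E) ⊆
        {u ∈ U | (QuotientAddGroup.mk u : E ⧸ X) = q} ∩ Y) ∧
      ((fun u => e + u) '' ((X ⊓ Y : AddSubgroup E) : Set E)).ncard =
        Nat.card (X ⊓ Y : AddSubgroup E) := by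
    intro Y e hY he heq
    constructor
    · rintro _ ⟨u, hu, rfl⟩
      have h1 : e + u ∈ Y := Y.add_mem he hu.2
      exact ⟨⟨hY h1, by rw [hmk u e hu.1, heq]⟩, h1⟩
    · rw [Set.ncard_image_of_injective _ (fun a b h => add_left_cancel h)]
      rfl
  obtain ⟨k1, k2⟩ := key A c hAU hc hcq
  obtain ⟨k3, k4⟩ := key B d hBU hd hdq
  refine ⟨?_, ?_, ?_⟩
  · rw [← k2]
    exact Set.ncard_le_ncard (k1.trans Set.inter_subset_left) (Set.toFinite _)
  · rw [← k4]
    exact Set.ncard_le_ncard (k3.trans Set.inter_subset_left) (Set.toFinite _)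
  · have h1 := Set.ncard_union_add_ncard_inter ((fun u => c + u) '' ((X ⊓ A : AddSubgroup E) : Set E))
      ((fun u => d + u) '' ((X ⊓ B : AddSubgroup E) : Set E)) (Set.toFinite _) (Set.toFinite _)
    rw [k2, k4] at h1
    have h2 : ((fun u => c + u) '' ((X ⊓ A : AddSubgroup E) : Set E) ∪
        (fun u => d + u) '' ((X ⊓ B : AddSubgroup E) : Set E)).ncard ≤ Nf X U q :=
      Set.ncard_le_ncard (Set.union_subset (k1.trans Set.inter_subset_left)
        (k3.trans Set.inter_subset_left)) (Set.toFinite _)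
    have h3 : ((fun u => c + u) '' ((X ⊓ A : AddSubgroup E) : Set E) ∩
        (fun u => d + u) '' ((X ⊓ B : AddSubgroup E) : Set E)).ncard + 1 ≤
        Nat.card (A ⊓ B : AddSubgroup E) := by
      have h4 : insert 0 ((fun u => c + u) '' ((X ⊓ A : AddSubgroup E) : Set E) ∩
          (fun u => d + u) '' ((X ⊓ B : AddSubgroup E) : Set E)) ⊆
          ((A ⊓ B : AddSubgroup E) : Set E) := by
        intro u hu
        rcases hu with rfl | hu
        · exact (A ⊓ B).zero_mem
        · exact ⟨(k1 hu.1).2, (k3 hu.2).2⟩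
      have h5 : (0 : E) ∉ ((fun u => c + u) '' ((X ⊓ A : AddSubgroup E) : Set E) ∩
          (fun u => d + u) '' ((X ⊓ B : AddSubgroup E) : Set E)) := by
        intro h0
        apply hq0
        rw [← (k1 h0.1).1.2]
        rfl
      have h6 := Set.ncard_le_ncard h4 (Set.toFinite _)
      rw [Set.ncard_insert_of_notMem h5 (Set.toFinite _)] at h6
      exact h6
    omega

/-- powers of two -/
lemma pw2 (hE : ∀ e : E, e + e = 0) (X : AddSubgroup E) :
    Nat.card X = 1 ∨ Nat.card X = 2 ∨ Nat.card X = 4 ∨ Nat.card X = 8 ∨ 16 ≤ Nat.card X := by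
  obtain ⟨n, hn⟩ := pow_two hE X
  rcases n with _ | _ | _ | _ | n
  · left; rw [hn]; norm_num
  · right; left; rw [hn]; norm_num
  · right; right; left; rw [hn]; norm_num
  · right; right; right; left; rw [hn]; norm_num
  · right; right; right; right; rw [hn]
    calc 16 = 2 ^ 4 := by norm_num
      _ ≤ 2 ^ (n + 1 + 1 + 1 + 1) := Nat.pow_le_pow_right (by norm_num) (by omega)

/-- the fibres if `X` has sixteen elements -/
lemma fib16 (hE : ∀ e : E, e + e = 0) (X A B : AddSubgroup E) (U : Set E)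
    (hAU : (A : Set E) ⊆ U) (hBU : (B : Set E) ⊆ U)
    (h1 : X ≤ A ⊔ B) (h2 : A ≤ X ⊔ B) (h3 : B ≤ X ⊔ A) (hX : Nat.card X = 16)
    (hA : Nat.card A ≤ 16) {q : E ⧸ X} (hq : q ∈ Im X A) (hq0 : q ≠ 0) :
    (Nat.card (Im X A) ≤ 8 → 3 ≤ Nf X U q) ∧ (Nat.card (Im X A) ≤ 4 → 4 ≤ Nf X U q) := by
  obtain ⟨f1, f2, f3⟩ := fib X A B U hAU hBU h2 hq hq0
  have e1 : X ⊔ B = X ⊔ A := le_antisymm (sup_le le_sup_left h3) (sup_le le_sup_left h2)
  have e2 : A ⊔ B = X ⊔ A := le_antisymm (sup_le le_sup_right h3) (sup_le h1 le_sup_left)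
  have c1 := card_sup_inf X A
  have c2 := card_sup_inf X B
  have c3 := card_sup_inf A B
  have ci := card_Im X A
  rw [e1] at c2
  rw [e2] at c3
  rw [← ci, hX] at c1 c2 c3
  have p1 := pw2 hE (X ⊓ A)
  have p2 := pw2 hE (X ⊓ B)
  have p3 : 0 < Nat.card (A ⊓ B : AddSubgroup E) := Nat.card_pos
  have hy : Nat.card (Im X A) = 1 ∨ Nat.card (Im X A) = 2 ∨ Nat.card (Im X A) = 4 ∨
      Nat.card (Im X A) = 8 ∨ 16 ≤ Nat.card (Im X A) :=
    pw2 (fun q => by
      obtain ⟨e, rfl⟩ := QuotientAddGroup.mk_surjective q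
      rw [← QuotientAddGroup.mk_add, hE]
      rfl) _
  generalize Nat.card (Im X A) = y at *
  generalize Nat.card (X ⊓ A : AddSubgroup E) = α at *
  generalize Nat.card (X ⊓ B : AddSubgroup E) = β at *
  generalize Nat.card (A ⊓ B : AddSubgroup E) = γ at *
  generalize Nat.card A = a at *
  generalize Nat.card B = b at *
  generalize Nf X U q = N at *
  have hya : a = y * α := by
    have h5 : 16 * a = 16 * (y * α) := by
      rw [← c1]
      ring
    omega
  have hyb : b = y * β := by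
    have h5 : 16 * b = 16 * (y * β) := by
      rw [← c2]
      ring
    omega
  subst hya hyb
  exact aux16 y α β γ N f1 f2 f3 c3 hy p1 p2 p3 hA

end

section
variable {Q : Type} [AddCommGroup Q] [Finite Q] {Ya Yb Yc : AddSubgroup Q} {t : Q} {N : Q → ℕ}
  {M : ℕ}

/-- two of the images have eight elements -/
lemma eight_eight (h : Tri Ya Yb Yc t) (ha : Nat.card Ya = 8) (hb : Nat.card Yb = 8)
    (hab : 8 < Nat.card (Ya ⊔ Yb : AddSubgroup Q))
    (hN : ∀ q, q ≠ 0 → (q ∈ Ya ∨ q ∈ Yb ∨ q ∈ Yc) → 2 ≤ N q)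
    (hM : ∀ s : Finset Q, 0 ∉ s → 8 + ∑ q ∈ s, N q ≤ M) : 32 ≤ M := by
  classical
  obtain ⟨x, hx, hxa, hxb⟩ := outside h.nle'.1 h.nle'.2
  have hx0 : x ≠ 0 := by rintro rfl; exact hxa Ya.zero_mem
  have hxs : x ∉ P2 Ya Yb := fun hc => by
    rcases (mem_P2.1 hc).2 with h | h
    · exact hxa h
    · exact hxb h
  have h0 : (0 : Q) ∉ insert x (P2 Ya Yb) := by
    rw [Finset.mem_insert]
    rintro (h | h)
    · exact hx0 h.symm
    · exact (mem_P2.1 h).1 rfl
  have h1 := hM _ h0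
  rw [Finset.sum_insert hxs] at h1
  have h2 := sumlb (N := N) 2 (P2 Ya Yb) (fun q hq => by
    rcases (mem_P2.1 hq).2 with h | h
    · exact hN q (mem_P2.1 hq).1 (Or.inl h)
    · exact hN q (mem_P2.1 hq).1 (Or.inr (Or.inl h)))
  have h3 := hN x hx0 (Or.inr (Or.inr hx))
  have h4 := card_P2 (Ya := Ya) (Yb := Yb)
  have h5 := card_sup_inf Ya Yb
  rw [ha, hb] at h5
  have h6 : Nat.card (Ya ⊓ Yb : AddSubgroup Q) ≤ 4 := by
    have hd : Nat.card (Ya ⊓ Yb : AddSubgroup Q) ∣ 8 * 8 := Dvd.intro_left _ h5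
    have hle : Nat.card (Ya ⊓ Yb : AddSubgroup Q) ≤ 7 := by
      by_contra hcon
      push Not at hcon
      have : 9 * 8 ≤ Nat.card (Ya ⊔ Yb : AddSubgroup Q) * Nat.card (Ya ⊓ Yb : AddSubgroup Q) :=
        Nat.mul_le_mul hab hcon
      omega
    generalize Nat.card (Ya ⊓ Yb : AddSubgroup Q) = k at *
    interval_cases k <;> omega
  omega

/-- two of the images have four elements -/
lemma four_four (h : Tri Ya Yb Yc t) (ha : Nat.card Ya = 4) (hb : Nat.card Yb = 4)
    (hc : Nat.card Yc = 4 ∨ Nat.card Yc = 8)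
    (hab : 8 < Nat.card (Ya ⊔ Yb : AddSubgroup Q)) (hac : 8 < Nat.card (Ya ⊔ Yc : AddSubgroup Q))
    (hbc : 8 < Nat.card (Yb ⊔ Yc : AddSubgroup Q))
    (hN : ∀ q, q ≠ 0 → (q ∈ Ya ∨ q ∈ Yb) → 3 ≤ N q) (hN' : ∀ q, q ≠ 0 → q ∈ Yc → 2 ≤ N q)
    (hM : ∀ s : Finset Q, 0 ∉ s → 8 + ∑ q ∈ s, N q ≤ M) : 32 ≤ M := by
  classical
  have hlt : ∀ k m n : ℕ, 8 < n → n * m = k → 0 < m → (k = 16 → m = 1) ∧ (k = 32 → m ≤ 2) := by
    intro k m n hn hk hm
    constructor
    · rintro rfl
      by_contra hcon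
      have : 9 * 2 ≤ n * m := Nat.mul_le_mul hn (by omega)
      omega
    · rintro rfl
      by_contra hcon
      have h3 : m = 3 ∨ 4 ≤ m := by omega
      rcases h3 with rfl | h3
      · omega
      · have : 9 * 4 ≤ n * m := Nat.mul_le_mul hn h3
        omega
  have i1 := card_sup_inf Ya Yb
  have i2 := card_sup_inf Ya Yc
  have i3 := card_sup_inf Yb Yc
  have j1 := hlt _ _ _ hab i1 Nat.card_pos
  have j2 := hlt _ _ _ hac i2 Nat.card_pos
  have j3 := hlt _ _ _ hbc i3 Nat.card_pos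
  rw [ha, hb] at j1
  rw [ha] at j2
  rw [hb] at j3
  -- elements of the third subgroup outside the others
  have k1 := Set.ncard_inter_add_ncard_sdiff_eq_ncard (Yc : Set Q) ((Ya : Set Q) ∪ Yb)
    (Set.toFinite _)
  have k2 : (Yc : Set Q) ∩ ((Ya : Set Q) ∪ Yb) = ((Ya : Set Q) ∩ Yc) ∪ ((Yb : Set Q) ∩ Yc) := by
    rw [Set.inter_union_distrib_left, Set.inter_comm (Yc : Set Q) Ya,
      Set.inter_comm (Yc : Set Q) Yb]
  have k3 := Set.ncard_union_add_ncard_inter ((Ya : Set Q) ∩ Yc) ((Yb : Set Q) ∩ Yc)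
    (Set.toFinite _) (Set.toFinite _)
  have k4 : 1 ≤ (((Ya : Set Q) ∩ Yc) ∩ ((Yb : Set Q) ∩ Yc)).ncard := by
    rw [Nat.one_le_iff_ne_zero, ← Nat.pos_iff_ne_zero, Set.ncard_pos (Set.toFinite _)]
    exact ⟨0, ⟨Ya.zero_mem, Yc.zero_mem⟩, ⟨Yb.zero_mem, Yc.zero_mem⟩⟩
  have c1 : ((Ya : Set Q) ∩ Yc).ncard = Nat.card (Ya ⊓ Yc : AddSubgroup Q) := rfl
  have c2 : ((Yb : Set Q) ∩ Yc).ncard = Nat.card (Yb ⊓ Yc : AddSubgroup Q) := rfl
  have c3 : (Yc : Set Q).ncard = Nat.card Yc := rfl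
  rw [k2] at k1
  rw [c1, c2] at k3
  rw [c3] at k1
  have hT : 3 ≤ ((Yc : Set Q) \ ((Ya : Set Q) ∪ Yb)).ncard := by
    rcases hc with hc | hc
    · rw [hc] at j2 j3 k1
      have l2 := j2.1 (by norm_num)
      have l3 := j3.1 (by norm_num)
      omega
    · rw [hc] at j2 j3 k1
      have l2 := j2.2 (by norm_num)
      have l3 := j3.2 (by norm_num)
      omega
  set T := (Set.toFinite ((Yc : Set Q) \ ((Ya : Set Q) ∪ Yb))).toFinset with hTd
  have hTc : T.card = ((Yc : Set Q) \ ((Ya : Set Q) ∪ Yb)).ncard :=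
    (Set.ncard_eq_toFinset_card _ _).symm
  have hTm : ∀ x, x ∈ T ↔ x ∈ Yc ∧ ¬ (x ∈ Ya ∨ x ∈ Yb) := by
    intro x
    rw [hTd, Set.Finite.mem_toFinset]
    rfl
  have hdis : Disjoint (P2 Ya Yb) T := by
    rw [Finset.disjoint_left]
    intro x hx hx'
    exact ((hTm x).1 hx').2 (mem_P2.1 hx).2
  have h0 : (0 : Q) ∉ P2 Ya Yb ∪ T := by
    rw [Finset.mem_union]
    rintro (h | h)
    · exact (mem_P2.1 h).1 rfl
    · exact ((hTm _).1 h).2 (Or.inl Ya.zero_mem)
  have h1 := hM _ h0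
  rw [Finset.sum_union hdis] at h1
  have h2 := sumlb (N := N) 3 (P2 Ya Yb) (fun q hq => hN q (mem_P2.1 hq).1 (mem_P2.1 hq).2)
  have h3 := sumlb (N := N) 2 T (fun q hq => by
    refine hN' q ?_ ((hTm q).1 hq).1
    rintro rfl
    exact ((hTm _).1 hq).2 (Or.inl Ya.zero_mem))
  have h4 := card_P2 (Ya := Ya) (Yb := Yb)
  have h5 := j1.1 (by norm_num)
  rw [hTc] at h3
  rw [h5, ha, hb] at h4
  omega

end

section
variable {E : Type} [AddCommGroup E] [Finite E]
variable {G : Type} [AddCommGroup G] {X : G → AddSubgroup E} {θ : E} {U : Set E}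

/-- eight elements and a large sum -/
theorem big8 (c : Cfg X θ U) (le8 : ∀ g, Nat.card (X g) ≤ 8) {p a b : G}
    (hp : Nat.card (X p) = 8) (hfr : θ ∈ X p ⊔ X a ⊔ X b)
    (hE : 64 < Nat.card (X p ⊔ X a ⊔ X b : AddSubgroup E)) : 32 ≤ U.ncard := by
  have T := c.tri hfr
  have exQ : ∀ q : E ⧸ X p, q + q = 0 := by
    intro q
    obtain ⟨e, rfl⟩ := QuotientAddGroup.mk_surjective q
    rw [← QuotientAddGroup.mk_add, c.exE]
    rfl
  have hM : ∀ s : Finset (E ⧸ X p), 0 ∉ s → 8 + ∑ q ∈ s, Nf (X p) U q ≤ U.ncard := by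
    intro s hs
    have := cnt (X p) U (c.sub p) s hs
    rwa [hp] at this
  have h2 := c.two ltwo (p := p) (fun g => by rw [hp]; exact le8 g)
  obtain ⟨a1, a2, a3⟩ := c.line line le8 hp a
  obtain ⟨b1, b2, b3⟩ := c.line line le8 hp b
  obtain ⟨c1, c2, c3⟩ := c.line line le8 hp (a + b)
  have a4 : Nat.card (Im (X p) (X a)) = 4 → ∀ q ∈ Im (X p) (X a), q ≠ 0 → 3 ≤ Nf (X p) U q :=
    fun h => (a3 h).1
  have b4 : Nat.card (Im (X p) (X b)) = 4 → ∀ q ∈ Im (X p) (X b), q ≠ 0 → 3 ≤ Nf (X p) U q :=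
    fun h => (b3 h).1
  have c4 : Nat.card (Im (X p) (X (a + b))) = 4 → ∀ q ∈ Im (X p) (X (a + b)), q ≠ 0 →
      3 ≤ Nf (X p) U q := fun h => (c3 h).1
  clear a2 a3 b2 b3 c2 c3
  -- the sums of the images
  have hs : ∀ g k : G, X p ⊔ X a ⊔ X b ≤ X p ⊔ (X g ⊔ X k) →
      8 < Nat.card (Im (X p) (X g) ⊔ Im (X p) (X k) : AddSubgroup (E ⧸ X p)) := by
    intro g k hgk
    rw [← Im_sup]
    have h3 := card_Im (X p) (X g ⊔ X k)
    rw [hp] at h3
    have h4 : Nat.card (X p ⊔ X a ⊔ X b : AddSubgroup E) ≤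
        Nat.card (X p ⊔ (X g ⊔ X k) : AddSubgroup E) :=
      Nat.card_le_card_of_injective _ (AddSubgroup.inclusion_injective hgk)
    omega
  have sab := hs a b (by rw [sup_assoc])
  have sac := hs a (a + b) (by
    rw [sup_assoc]
    refine sup_le le_sup_left (sup_le (le_sup_left.trans le_sup_right) ?_)
    exact (c.le1 a b).trans le_sup_right)
  have sbc := hs b (a + b) (by
    rw [sup_assoc]
    refine sup_le le_sup_left (sup_le ?_ (le_sup_left.trans le_sup_right))
    have h3 := c.le1 b a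
    rw [add_comm b a] at h3
    exact h3.trans le_sup_right)
  have pr : ∀ Y Z : AddSubgroup (E ⧸ X p), 8 < Nat.card (Y ⊔ Z : AddSubgroup (E ⧸ X p)) →
      8 < Nat.card Y * Nat.card Z := by
    intro Y Z h3
    rw [← card_sup_inf Y Z]
    have h4 : 0 < Nat.card (Y ⊓ Z : AddSubgroup (E ⧸ X p)) := Nat.card_pos
    calc 8 < Nat.card (Y ⊔ Z : AddSubgroup (E ⧸ X p)) := h3
      _ = Nat.card (Y ⊔ Z : AddSubgroup (E ⧸ X p)) * 1 := (mul_one _).symm
      _ ≤ _ := Nat.mul_le_mul_left _ h4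
  have pab := pr _ _ sab
  have pac := pr _ _ sac
  have pbc := pr _ _ sbc
  have hNall : ∀ q, q ≠ 0 → (q ∈ Im (X p) (X a) ∨ q ∈ Im (X p) (X b) ∨ q ∈ Im (X p) (X (a + b))) →
      2 ≤ Nf (X p) U q := by
    rintro q hq0 (hq | hq | hq)
    · exact h2 _ q hq hq0
    · exact h2 _ q hq hq0
    · exact h2 _ q hq hq0
  have hN1 : ∀ q, q ≠ 0 → (q ∈ Im (X p) (X b) ∨ q ∈ Im (X p) (X (a + b)) ∨ q ∈ Im (X p) (X a)) →
      2 ≤ Nf (X p) U q := fun q hq0 h => hNall q hq0
        (h.elim (fun h => Or.inr (Or.inl h)) (fun h => h.elim (fun h => Or.inr (Or.inr h)) Or.inl))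
  have hN2 : ∀ q, q ≠ 0 → (q ∈ Im (X p) (X a) ∨ q ∈ Im (X p) (X (a + b)) ∨ q ∈ Im (X p) (X b)) →
      2 ≤ Nf (X p) U q := fun q hq0 h => hNall q hq0
        (h.elim Or.inl (fun h => h.elim (fun h => Or.inr (Or.inr h)) (fun h => Or.inr (Or.inl h))))
  rcases a1 with na | na | na | na
  · rw [na] at pab
    exfalso
    omega
  · have nb : Nat.card (Im (X p) (X b)) = 8 := by
      rw [na] at pab
      omega
    have nc : Nat.card (Im (X p) (X (a + b))) = 8 := by
      rw [na] at pac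
      omega
    exact eight_eight T.swap12.swap23 nb nc sbc hN1 hM
  · rcases b1 with nb | nb | nb | nb
    · rw [nb] at pab
      omega
    · rw [na, nb] at pab
      omega
    · rcases c1 with nc | nc | nc | nc
      · rw [nc] at pac
        omega
      · rw [na, nc] at pac
        omega
      · exact four_four T na nb (Or.inl nc) sab sac sbc (by
          rintro q hq0 (hq | hq)
          · exact a4 na q hq hq0
          · exact b4 nb q hq hq0) (fun q hq0 hq => h2 _ q hq hq0) hM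
      · exact four_four T na nb (Or.inr nc) sab sac sbc (by
          rintro q hq0 (hq | hq)
          · exact a4 na q hq hq0
          · exact b4 nb q hq hq0) (fun q hq0 hq => h2 _ q hq hq0) hM
    · rcases c1 with nc | nc | nc | nc
      · rw [nc] at pac
        omega
      · rw [na, nc] at pac
        omega
      · refine four_four T.swap23 na nc (Or.inr nb) sac sab ?_ (by
          rintro q hq0 (hq | hq)
          · exact a4 na q hq hq0
          · exact c4 nc q hq hq0) (fun q hq0 hq => h2 _ q hq hq0) hM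
        rw [sup_comm]
        exact sbc
      · exact eight_eight T.swap12.swap23 nb nc sbc hN1 hM
  · rcases b1 with nb | nb | nb | nb
    · rw [nb] at pab
      omega
    · have nc : Nat.card (Im (X p) (X (a + b))) = 8 := by
        rw [nb] at pbc
        omega
      exact eight_eight T.swap23 na nc sac hN2 hM
    · rcases c1 with nc | nc | nc | nc
      · rw [nc] at pac
        omega
      · rw [nb, nc] at pbc
        omega
      · refine four_four T.swap12.swap23 nb nc (Or.inr na) sbc ?_ ?_ (by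
          rintro q hq0 (hq | hq)
          · exact b4 nb q hq hq0
          · exact c4 nc q hq hq0) (fun q hq0 hq => h2 _ q hq hq0) hM
        · rw [sup_comm]
          exact sab
        · rw [sup_comm]
          exact sac
      · exact eight_eight T.swap23 na nc sac hN2 hM
    · exact eight_eight T na nb sab hNall hM

/-- sixteen elements -/
theorem big16 (c : Cfg X θ U) {p a b : G} (hp : Nat.card (X p) = 16)
    (le16 : ∀ g, Nat.card (X g) ≤ 16) (hfr : θ ∈ X p ⊔ X a ⊔ X b) : 32 ≤ U.ncard := by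
  have T := c.tri hfr
  have exQ : ∀ q : E ⧸ X p, q + q = 0 := by
    intro q
    obtain ⟨e, rfl⟩ := QuotientAddGroup.mk_surjective q
    rw [← QuotientAddGroup.mk_add, c.exE]
    rfl
  have hM : ∀ s : Finset (E ⧸ X p), 0 ∉ s → 16 + ∑ q ∈ s, Nf (X p) U q ≤ U.ncard := by
    intro s hs
    have := cnt (X p) U (c.sub p) s hs
    rwa [hp] at this
  have h2 := c.two ltwo (p := p) (fun g => by rw [hp]; exact le16 g)
  have hf : ∀ g : G, ∀ q ∈ Im (X p) (X g), q ≠ 0 →
      (Nat.card (Im (X p) (X g)) ≤ 8 → 3 ≤ Nf (X p) U q) ∧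
      (Nat.card (Im (X p) (X g)) ≤ 4 → 4 ≤ Nf (X p) U q) := by
    intro g q hq hq0
    exact fib16 c.exE (X p) (X g) (X (p + g)) U (c.sub _) (c.sub _) (c.le2 p g) (c.le1 p g)
      (c.add p g) hp (le16 _) hq hq0
  have one : ∀ (g : G) (k : ℕ), (∀ q ∈ Im (X p) (X g), q ≠ 0 → k ≤ Nf (X p) U q) →
      16 + k * (Nat.card (Im (X p) (X g)) - 1) ≤ U.ncard := by
    intro g k hk
    have h3 := hM (P2 (Im (X p) (X g)) (Im (X p) (X g))) (fun h => (mem_P2.1 h).1 rfl)
    have h4 := sumlb (N := Nf (X p) U) k (P2 (Im (X p) (X g)) (Im (X p) (X g))) (fun q hq => by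
      have h5 := mem_P2.1 hq
      exact hk q (by tauto) h5.1)
    have h6 := card_P2 (Ya := Im (X p) (X g)) (Yb := Im (X p) (X g))
    rw [inf_idem] at h6
    have h7 : (P2 (Im (X p) (X g)) (Im (X p) (X g))).card = Nat.card (Im (X p) (X g)) - 1 := by
      omega
    rw [h7] at h4
    omega
  have big : ∀ g : G, 8 ≤ Nat.card (Im (X p) (X g)) → 32 ≤ U.ncard := by
    intro g hg
    rcases pw2 exQ (Im (X p) (X g)) with h | h | h | h | h
    · omega
    · omega
    · omega
    · have h3 := one g 3 (fun q hq hq0 => (hf g q hq hq0).1 (by omega))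
      rw [h] at h3
      omega
    · have h3 := one g 2 (fun q hq hq0 => h2 g q hq hq0)
      have h4 : 2 * 15 ≤ 2 * (Nat.card (Im (X p) (X g)) - 1) := Nat.mul_le_mul_left _ (by omega)
      omega
  have cases : ∀ g : G, Nat.card (Im (X p) (X g)) = 1 ∨ Nat.card (Im (X p) (X g)) = 2 ∨
      Nat.card (Im (X p) (X g)) = 4 ∨ 8 ≤ Nat.card (Im (X p) (X g)) := by
    intro g
    rcases pw2 exQ (Im (X p) (X g)) with h | h | h | h | h
    · exact Or.inl h
    · exact Or.inr (Or.inl h)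
    · exact Or.inr (Or.inr (Or.inl h))
    · exact Or.inr (Or.inr (Or.inr (by omega)))
    · exact Or.inr (Or.inr (Or.inr (by omega)))
  have two4 : ∀ g k : G, Nat.card (Im (X p) (X g)) = 4 → Nat.card (Im (X p) (X k)) = 4 →
      ¬ Im (X p) (X k) ≤ Im (X p) (X g) → 32 ≤ U.ncard := by
    intro g k hg hk hn
    have h3 := hM (P2 (Im (X p) (X g)) (Im (X p) (X k))) (fun h => (mem_P2.1 h).1 rfl)
    have h4 := sumlb (N := Nf (X p) U) 4 (P2 (Im (X p) (X g)) (Im (X p) (X k))) (fun q hq => by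
      have h5 := mem_P2.1 hq
      rcases h5.2 with h | h
      · exact (hf g q h h5.1).2 (by omega)
      · exact (hf k q h h5.1).2 (by omega))
    have h6 := card_P2 (Ya := Im (X p) (X g)) (Yb := Im (X p) (X k))
    have h7 := half _ _ hn
    rw [inf_comm] at h7
    omega
  rcases cases a with na | na | na | na
  · exact absurd na T.ne_one
  · rcases cases b with nb | nb | nb | nb
    · exact absurd nb T.swap12.ne_one
    · exact absurd nb (fun h => T.f1 exQ na h)
    · rcases cases (a + b) with nc | nc | nc | nc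
      · exact absurd nc T.swap23.swap12.ne_one
      · exact absurd nc (fun h => T.swap23.f1 exQ na h)
      · exact two4 b (a + b) nb nc T.swap12.swap23.nle
      · exact big _ nc
    · exact big _ nb
  · rcases cases b with nb | nb | nb | nb
    · exact absurd nb T.swap12.ne_one
    · rcases cases (a + b) with nc | nc | nc | nc
      · exact absurd nc T.swap23.swap12.ne_one
      · exact absurd nc (fun h => T.swap12.swap23.f1 exQ nb h)
      · exact two4 a (a + b) na nc T.swap23.nle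
      · exact big _ nc
    · exact two4 a b na nb T.nle
    · exact big _ nb
  · exact big _ na

end

/-- seven subgroups indexed by the points of the Fano plane: at least 32 elements -/
theorem al32 (E : Type) [AddCommGroup E] [Finite E] (exE : ∀ e : E, e + e = 0)
    (X : ZMod 2 × ZMod 2 × ZMod 2 → AddSubgroup E) (θ : E)
    (hadd : ∀ p q, X (p + q) ≤ X p ⊔ X q) (hout : ∀ p q, θ ∉ X p ⊔ X q)
    (hθ : θ ∈ X (1, 0, 0) ⊔ X (0, 1, 0) ⊔ X (0, 0, 1)) (h4 : ∃ p, 4 < Nat.card (X p))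
    (hbig : (∃ p, 8 < Nat.card (X p)) ∨
      64 < Nat.card (X (1, 0, 0) ⊔ X (0, 1, 0) ⊔ X (0, 0, 1) : AddSubgroup E)) :
    32 ≤ (⋃ p, (X p : Set E)).ncard := by
  obtain ⟨p1, hp1⟩ := h4
  set U : Set E := ⋃ p, (X p : Set E) with hU
  have c : Cfg X θ U := ⟨exE, by decide, hadd, hout, fun g => Set.subset_iUnion (fun p => (X p : Set E)) g⟩
  have hz : ∀ p, X 0 ≤ X p := by
    intro p
    have := hadd p p
    rwa [c.exG, sup_idem] at this
  obtain ⟨p, hp0, hmax⟩ : ∃ p : ZMod 2 × ZMod 2 × ZMod 2, p ≠ 0 ∧ ∀ g, Nat.card (X g) ≤ Nat.card (X p) := by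
    obtain ⟨p, hp, hm⟩ := Finset.exists_max_image
      (Finset.univ.filter (fun p : ZMod 2 × ZMod 2 × ZMod 2 => p ≠ 0)) (fun p => Nat.card (X p))
      ⟨(1, 0, 0), by simp⟩
    simp only [Finset.mem_filter, Finset.mem_univ, true_and] at hp hm
    refine ⟨p, hp, fun g => ?_⟩
    by_cases hg : g = 0
    · rw [hg]
      exact Nat.card_le_card_of_injective _ (AddSubgroup.inclusion_injective (hz p))
    · exact hm g hg
  obtain ⟨a, b, hab⟩ := basis p hp0
  have hle3 : X (1, 0, 0) ⊔ X (0, 1, 0) ⊔ X (0, 0, 1) ≤ X p ⊔ X a ⊔ X b := by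
    have k : ∀ g ∈ ({(1, 0, 0), (0, 1, 0), (0, 0, 1)} : Set (ZMod 2 × ZMod 2 × ZMod 2)),
        X g ≤ X p ⊔ X a ⊔ X b := by
      intro g hg
      have ip : X p ≤ X p ⊔ X a ⊔ X b := le_sup_left.trans le_sup_left
      have ia : X a ≤ X p ⊔ X a ⊔ X b := le_sup_right.trans le_sup_left
      have ib : X b ≤ X p ⊔ X a ⊔ X b := le_sup_right
      rcases hab g hg with rfl | rfl | rfl | rfl | rfl | rfl | rfl | rfl
      · exact (hz p).trans ip
      · exact ip
      · exact ia
      · exact (hadd _ _).trans (sup_le ip ia)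
      · exact ib
      · exact (hadd _ _).trans (sup_le ip ib)
      · exact (hadd _ _).trans (sup_le ia ib)
      · exact (hadd _ _).trans (sup_le ip ((hadd _ _).trans (sup_le ia ib)))
    refine sup_le (sup_le (k _ ?_) (k _ ?_)) (k _ ?_) <;> simp
  have hfr := hle3 hθ
  obtain ⟨r, hr⟩ := pow_two exE (X p)
  have hle : Nat.card (X p) ≤ U.ncard := Set.ncard_le_ncard (c.sub p) (Set.toFinite _)
  have hr3 : 3 ≤ r := by
    by_contra h
    have h1 : Nat.card (X p) ≤ 2 ^ 2 := by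
      rw [hr]; exact Nat.pow_le_pow_right (by norm_num) (by omega)
    have h2 := hmax p1
    omega
  rcases Nat.lt_or_ge r 5 with h5 | h5
  · interval_cases r
    · have h8 : Nat.card (X p) = 8 := by rw [hr]; norm_num
      refine big8 c (fun g => by rw [← h8]; exact hmax g) h8 hfr ?_
      rcases hbig with ⟨g, hg⟩ | hbig
      · have := hmax g
        omega
      · exact lt_of_lt_of_le hbig
          (Nat.card_le_card_of_injective _ (AddSubgroup.inclusion_injective hle3))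
    · have h16 : Nat.card (X p) = 16 := by rw [hr]; norm_num
      exact big16 c h16 (fun g => by rw [← h16]; exact hmax g) hfr
  · have : 2 ^ 5 ≤ 2 ^ r := Nat.pow_le_pow_right (by norm_num) h5
    omega

end Pool.Agent.Run7.h948.QF
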