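import Pool.Agent.Run7.h948.QF.StrT

/-! Families with at most 32 members: points outside the kernel of a point with one value. -/

set_option autoImplicit false

namespace Pool.Agent.Run7.h948.QF

open Pool.Agent.N88.TS Pool.Agent.W622.ETG Pool.Agent.TH188.ETP Pool.Agent.TH188.ETV
  Pool.Agent.H315R3.ETC Module
open Pool.Agent.TH188.ET (exists_char exists_factor)

section
variable {V : Type} [AddCommGroup V] [Module (ZMod 2) V] {A : Fam V} {R P Q : V}

/-- at most eight values -/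
def E8 (A : Fam V) (y : V) : Prop := {f : Dl V | In A y f}.ncard ≤ 8

theorem kill8 [Finite V] {y : V} (h8 : E8 A y)
    (hw : ∀ c : Q3, ∃ ω ∈ A, ω y R = c.1 ∧ ω y P = c.2.1 ∧ ω y Q = c.2.2)
    {ω : Frm V} (hω : ω ∈ A) (r : ω y R = 0) (p : ω y P = 0) (q : ω y Q = 0) : ω y = 0 := by
  by_contra hne
  choose w hw1 hw2 hw3 hw4 using hw
  have hfD : Finite (Dl V) := DFunLike.finite _
  let F : Q3 × ZMod 2 → Dl V := fun t => w t.1 y + t.2 • ω y
  have hinj : Function.Injective F := by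
    rintro ⟨c, s⟩ ⟨c', s'⟩ hcc
    have h1 : w c y + s • ω y = w c' y + s' • ω y := hcc
    have e1 := LinearMap.congr_fun h1 R
    have e2 := LinearMap.congr_fun h1 P
    have e3 := LinearMap.congr_fun h1 Q
    rw [LinearMap.add_apply, LinearMap.add_apply, LinearMap.smul_apply, LinearMap.smul_apply, r,
      smul_zero, smul_zero, add_zero, add_zero, hw2, hw2] at e1
    rw [LinearMap.add_apply, LinearMap.add_apply, LinearMap.smul_apply, LinearMap.smul_apply, p,
      smul_zero, smul_zero, add_zero, add_zero, hw3, hw3] at e2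
    rw [LinearMap.add_apply, LinearMap.add_apply, LinearMap.smul_apply, LinearMap.smul_apply, q,
      smul_zero, smul_zero, add_zero, add_zero, hw4, hw4] at e3
    have hc : c = c' := Prod.ext e1 (Prod.ext e2 e3)
    subst hc
    have h2 : s • ω y = s' • ω y := add_left_cancel h1
    have h3 : s = s' := by
      rcases zz s with rfl | rfl <;> rcases zz s' with rfl | rfl
      · rfl
      · exfalso
        rw [zero_smul, one_smul] at h2
        exact hne h2.symm
      · exfalso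
        rw [zero_smul, one_smul] at h2
        exact hne h2
      · rfl
    rw [h3]
  have hsub : Set.range F ⊆ {f : Dl V | In A y f} := by
    rintro _ ⟨⟨c, s⟩, rfl⟩
    exact ⟨w c + s • ω, A.add_mem (hw1 c) (A.smul_mem s hω), rfl⟩
  have h1 := Set.ncard_le_ncard hsub (Set.toFinite _)
  have h2 : (Set.range F).ncard = 16 := by
    rw [← Set.image_univ, Set.ncard_image_of_injective _ hinj, Set.ncard_univ,
      Nat.card_eq_fintype_card]
    decide
  have h3 : {f : Dl V | In A y f}.ncard ≤ 8 := h8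
  omega

theorem noA8 [Finite V] (hsym : ∀ ω ∈ A, ∀ a b : V, ω a b = ω b a) (hL : Linked A)
    {h g k : Dl V} (hI : Ind3 h g k) (hF : FA A R P Q h g k)
    (hfa : ∀ ω ∈ A, ω R = 0 → ω P = 0 → ω Q = 0 → ω = 0) {y : V} (hh : h y = 1) (hg : g y = 0)
    (hk : k y = 0) (h8 : E8 A y) : False := by
  obtain ⟨ω1, m1, r1, p1, q1⟩ := hF.2 0 1 0 0 0 0 (by decide)
  obtain ⟨ω2, m2, r2, p2, q2⟩ := hF.2 0 0 0 1 0 0 (by decide)
  simp only [zero_smul, one_smul, add_zero, zero_add] at p1 q1 p2 q2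
  have hhQ : h Q = 0 := by
    rw [← p1, hsym ω1 m1, q1]; rfl
  have hhP : h P = 0 := by
    rw [← q2, hsym ω2 m2, p2]; rfl
  have hg0 : g ≠ 0 := by
    intro h1
    have h2 := (hI 0 1 0 (by rw [h1, smul_zero, zero_smul, zero_smul, add_zero, add_zero])).2.1
    exact one_ne_zero h2
  have hw : ∀ c : Q3, ∃ ω ∈ A, ω y R = c.1 ∧ ω y P = c.2.1 ∧ ω y Q = c.2.2 := by
    intro c
    obtain ⟨ω, m, r, p, q⟩ := hF.2 c.1 c.2.1 c.1 c.2.2 0 0 (by
      rw [add_zero]; exact CharTwo.add_self_eq_zero _)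
    refine ⟨ω, m, ?_, ?_, ?_⟩
    · rw [hsym ω m, r, LinearMap.smul_apply, hh, smul_eq_mul, mul_one]
    · rw [hsym ω m, p, LinearMap.add_apply, LinearMap.smul_apply, LinearMap.smul_apply, hh, hg,
        smul_eq_mul, smul_zero, mul_one, add_zero]
    · rw [hsym ω m, q, LinearMap.add_apply, LinearMap.add_apply, LinearMap.smul_apply,
        LinearMap.smul_apply, LinearMap.smul_apply, hh, smul_eq_mul, mul_one, zero_smul,
        zero_smul, add_zero, add_zero]
  obtain ⟨κ1, n1, a1, a2, a3⟩ := hF.2 0 0 1 0 0 1 (by decide)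
  obtain ⟨κ2, n2, b1, b2, b3⟩ := hF.2 0 0 0 0 1 0 (by decide)
  simp only [zero_smul, one_smul, add_zero, zero_add] at a1 a2 a3 b1 b2 b3
  have z1 : κ1 y = 0 := kill8 h8 hw n1 (by rw [hsym κ1 n1, a1]; rfl)
    (by rw [hsym κ1 n1, a2, hg]) (by rw [hsym κ1 n1, a3, hk])
  have z2 : κ2 y = 0 := kill8 h8 hw n2 (by rw [hsym κ2 n2, b1]; rfl)
    (by rw [hsym κ2 n2, b2]; rfl) (by rw [hsym κ2 n2, b3, hg])
  have e0 : κ1 (y + P) = g := by rw [map_add, z1, a2, zero_add]
  obtain ⟨ω, hω, e1, e2⟩ := hL κ1 n1 κ2 n2 (y + P) Q (by rw [e0, b3])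
  rw [e0] at e1 e2
  obtain ⟨c1, c2, c3, c4, c5, c6, hs, f1, f2, f3⟩ := hF.1 ω hω
  obtain ⟨i4, i5, i6⟩ := hI c4 (c5 + 1) c6 (by
    have h1 : c4 • h + (c5 + 1) • g + c6 • k = (c4 • h + c5 • g + c6 • k) + g := by module
    rw [h1, ← f3, e2]
    exact self2 g)
  subst i4 i6
  have e3 : ω (y + P + Q) = 0 := by
    rw [map_add, e1, e2]
    exact self2 g
  have hv : h (y + P + Q) = 1 := by
    rw [map_add, map_add, hh, hhP, hhQ, add_zero, add_zero]
  have w1 : ω R (y + P + Q) = 0 := by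
    rw [hsym ω hω, e3]; rfl
  have w2 : ω P (y + P + Q) = 0 := by
    rw [hsym ω hω, e3]; rfl
  rw [f1, LinearMap.smul_apply, hv, smul_eq_mul, mul_one] at w1
  subst w1
  rw [zero_add, add_zero] at hs
  subst hs
  rw [f2, LinearMap.add_apply, LinearMap.smul_apply, LinearMap.smul_apply, hv, zero_smul,
    smul_eq_mul, mul_one, add_zero] at w2
  subst w2
  have hz := hfa (ω + κ2) (A.add_mem hω n2)
    (by rw [LinearMap.add_apply, f1, b1, zero_smul, add_zero])
    (by rw [LinearMap.add_apply, f2, b2, zero_smul, zero_smul, add_zero, add_zero])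
    (by rw [LinearMap.add_apply, e2, b3]; exact self2 g)
  have hz2 : ω y + κ2 y = 0 := by
    rw [← LinearMap.add_apply, hz]; rfl
  rw [z2, add_zero] at hz2
  have hP0 : ω P = 0 := by
    rw [f2, zero_smul, zero_smul, add_zero]
  rw [map_add, hz2, hP0, zero_add] at e1
  exact hg0 e1.symm

/-- normalisation of the second form -/
theorem FB_norm {h g2 g1 g3 : Dl V} (hI : Ind4 h g2 g1 g3) (hF : FB A R P Q h g2 g1 g3)
    (s t u : ZMod 2) : Ind4 h (g2 + s • h) (g1 + t • h) (g3 + u • h) ∧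
      FB A R P Q h (g2 + s • h) (g1 + t • h) (g3 + u • h) := by
  refine ⟨?_, ?_, ?_⟩
  · intro i j l m hh
    obtain ⟨z1, z2, z3, z4⟩ := hI (i + j * s + l * t + m * u) j l m (by rw [← hh]; module)
    subst z2 z3 z4
    rw [zero_mul, zero_mul, zero_mul, add_zero, add_zero, add_zero] at z1
    exact ⟨z1, rfl, rfl, rfl⟩
  · intro ω hω
    obtain ⟨c1, c2, c3, c4, c5, c6, hs, e1, e2, e3⟩ := hF.1 ω hω
    refine ⟨c1, c2 + c4 * s + c6 * u, c3 + c5 * t + c6 * u, c4, c5, c6, hs, e1, ?_, ?_⟩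
    · have h1 : (c2 + c4 * s + c6 * u) • h + c4 • (g2 + s • h) + c6 • (g3 + u • h) =
        (c2 • h + c4 • g2 + c6 • g3) +
        ((c4 * s + c6 * u) • h + (c4 * s + c6 * u) • h) := by module
      rw [h1, self2, add_zero, e2]
    · have h1 : (c3 + c5 * t + c6 * u) • h + c5 • (g1 + t • h) + c6 • (g3 + u • h) =
        (c3 • h + c5 • g1 + c6 • g3) +
        ((c5 * t + c6 * u) • h + (c5 * t + c6 * u) • h) := by module
      rw [h1, self2, add_zero, e3]
  · intro c1 c2 c3 c4 c5 c6 hs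
    obtain ⟨ω, hω, e1, e2, e3⟩ := hF.2 c1 (c2 + c4 * s + c6 * u) (c3 + c5 * t + c6 * u) c4 c5 c6 hs
    refine ⟨ω, hω, e1, ?_, ?_⟩
    · rw [e2]; module
    · rw [e3]; module

theorem noB8 [Finite V] (hsym : ∀ ω ∈ A, ∀ a b : V, ω a b = ω b a) (hL : Linked A)
    {h g2 g1 g3 : Dl V} (hI : Ind4 h g2 g1 g3) (hF : FB A R P Q h g2 g1 g3)
    (hfa : ∀ ω ∈ A, ω R = 0 → ω P = 0 → ω Q = 0 → ω = 0) {y : V} (hh : h y = 1)
    (hg2 : g2 y = 0) (hg1 : g1 y = 0) (hg3 : g3 y = 0) (h8 : E8 A y) : False := by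
  obtain ⟨η2, l2, r2, p2, q2⟩ := hF.2 0 1 0 0 0 0 (by decide)
  obtain ⟨η3, l3, r3, p3, q3⟩ := hF.2 0 0 1 0 0 0 (by decide)
  obtain ⟨ω4, l4, r4, p4, q4⟩ := hF.2 1 0 0 1 0 0 (by decide)
  obtain ⟨ω5, l5, r5, p5, q5⟩ := hF.2 1 0 0 0 1 0 (by decide)
  obtain ⟨ω6, l6, r6, p6, q6⟩ := hF.2 1 0 0 0 0 1 (by decide)
  simp only [zero_smul, one_smul, add_zero, zero_add] at r2 p2 q2 r3 p3 q3 p4 q4 p5 q5 p6 q6
  have hhQ : h Q = 0 := by
    rw [← p2, hsym η2 l2, q2]; rfl
  have hhP : h P = 0 := by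
    rw [← q3, hsym η3 l3, p3]; rfl
  have h2Q : g2 Q = 0 := by
    rw [← p4, hsym ω4 l4, q4]; rfl
  have h1P : g1 P = 0 := by
    rw [← q5, hsym ω5 l5, p5]; rfl
  have h3 : g3 P = g3 Q := by
    have h1 := hsym ω6 l6 P Q
    rw [p6, q6] at h1
    exact h1.symm
  have n0 : ∀ i j l m : ZMod 2, i • h + j • g2 + l • g1 + m • g3 = 0 →
      ¬ (i = 0 ∧ j = 0 ∧ l = 0 ∧ m = 0) → False := fun i j l m h1 h2 => h2 (hI i j l m h1)
  have hw : ∀ c : Q3, ∃ ω ∈ A, ω y R = c.1 ∧ ω y P = c.2.1 ∧ ω y Q = c.2.2 := by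
    intro c
    obtain ⟨ω, m, r, p, q⟩ := hF.2 c.1 c.2.1 c.2.2 c.1 0 0 (by
      rw [add_zero, add_zero]; exact CharTwo.add_self_eq_zero _)
    refine ⟨ω, m, ?_, ?_, ?_⟩
    · rw [hsym ω m, r, LinearMap.smul_apply, hh, smul_eq_mul, mul_one]
    · rw [hsym ω m, p, LinearMap.add_apply, LinearMap.add_apply, LinearMap.smul_apply,
        LinearMap.smul_apply, LinearMap.smul_apply, hh, hg2, smul_eq_mul, smul_zero, mul_one,
        add_zero, zero_smul, add_zero]
    · rw [hsym ω m, q, LinearMap.add_apply, LinearMap.add_apply, LinearMap.smul_apply,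
        LinearMap.smul_apply, LinearMap.smul_apply, hh, smul_eq_mul, mul_one, zero_smul,
        zero_smul, add_zero, add_zero]
  obtain ⟨κ1, n1, a1, a2, a3⟩ := hF.2 0 0 0 0 1 1 (by decide)
  obtain ⟨κ2, n2, b1, b2, b3⟩ := hF.2 0 0 0 1 0 1 (by decide)
  obtain ⟨κ3, n3, d1, d2, d3⟩ := hF.2 0 0 0 1 1 0 (by decide)
  simp only [zero_smul, one_smul, add_zero, zero_add] at a1 a2 a3 b1 b2 b3 d1 d2 d3
  have z1 : κ1 y = 0 := kill8 h8 hw n1 (by rw [hsym κ1 n1, a1]; rfl)
    (by rw [hsym κ1 n1, a2, hg3])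
    (by rw [hsym κ1 n1, a3, LinearMap.add_apply, hg1, hg3, add_zero])
  have z2 : κ2 y = 0 := kill8 h8 hw n2 (by rw [hsym κ2 n2, b1]; rfl)
    (by rw [hsym κ2 n2, b2, LinearMap.add_apply, hg2, hg3, add_zero])
    (by rw [hsym κ2 n2, b3, hg3])
  have z3 : κ3 y = 0 := kill8 h8 hw n3 (by rw [hsym κ3 n3, d1]; rfl)
    (by rw [hsym κ3 n3, d2, hg2]) (by rw [hsym κ3 n3, d3, hg1])
  -- the first relation
  have A1 : (g3 P) • (η2 y + η3 y) = (g3 P) • h + g3 := by
    have e0 : κ3 (y + Q) = g1 := by rw [map_add, z3, d3, zero_add]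
    have e0' : κ1 (P + Q) = g1 := by
      rw [map_add, a2, a3]
      have h1 : g3 + (g1 + g3) = g1 + (g3 + g3) := by abel
      rw [h1, self2, add_zero]
    obtain ⟨ω, hω, e1, e2⟩ := hL κ3 n3 κ1 n1 (y + Q) (P + Q) (by rw [e0, e0'])
    rw [e0] at e1 e2
    obtain ⟨c1, c2, c3, c4, c5, c6, hs, f1, f2, f3⟩ := hF.1 ω hω
    obtain ⟨i1, i2, i3, -⟩ := hI (c2 + c3) c4 (c5 + 1) 0 (by
      have h1 : (c2 + c3) • h + c4 • g2 + (c5 + 1) • g1 + (0 : ZMod 2) • g3 + (c6 • g3 + c6 • g3) =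
        ((c2 • h + c4 • g2 + c6 • g3) + (c3 • h + c5 • g1 + c6 • g3)) + g1 := by module
      rw [self2, add_zero, ← f2, ← f3, ← map_add, e2, self2] at h1
      exact h1)
    have e3 : ω (y + P) = 0 := by
      have h1 : ω (y + P) = ω (y + Q) + ω (P + Q) + (ω Q + ω Q) := by
        simp only [map_add]
        have h2 : ω y + ω Q + (ω P + ω Q) + (ω Q + ω Q) =
          ω y + ω P + (ω Q + ω Q) + (ω Q + ω Q) := by abel
        rw [h2, self2, add_zero, add_zero]
      rw [h1, e1, e2, self2, self2, add_zero]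
    have hv : h (y + P) = 1 := by rw [map_add, hh, hhP, add_zero]
    have w1 : ω R (y + P) = 0 := by
      rw [hsym ω hω, e3]; rfl
    have w2 : ω P (y + P) = 0 := by
      rw [hsym ω hω, e3]; rfl
    rw [f1, LinearMap.smul_apply, hv, smul_eq_mul, mul_one] at w1
    have i3' : c5 = 1 := CharTwo.add_eq_zero.1 i3
    subst w1 i2 i3'
    rw [zero_add, zero_add] at hs
    have i6 : 1 = c6 := CharTwo.add_eq_zero.1 hs
    subst i6
    rw [f2, LinearMap.add_apply, LinearMap.add_apply, LinearMap.smul_apply, LinearMap.smul_apply,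
      LinearMap.smul_apply, hv, zero_smul, map_add, hg3, smul_eq_mul, mul_one, add_zero,
      zero_add, one_smul] at w2
    have j2 : c2 = g3 P := CharTwo.add_eq_zero.1 w2
    have j3 : c2 = c3 := CharTwo.add_eq_zero.1 i1
    subst j3
    subst j2
    have hz := hfa (ω + (κ1 + (g3 P) • (η2 + η3)))
      (A.add_mem hω (A.add_mem n1 (A.smul_mem _ (A.add_mem l2 l3))))
      (by
        simp only [LinearMap.add_apply, LinearMap.smul_apply, f1, a1, r2, r3, zero_smul,
          smul_zero, add_zero])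
      (by
        simp only [LinearMap.add_apply, LinearMap.smul_apply, f2, a2, p2, p3, zero_smul,
          one_smul, add_zero]
        have h1 : (g3 P) • h + g3 + (g3 + (g3 P) • h) =
          ((g3 P) • h + g3) + ((g3 P) • h + g3) := by abel
        rw [h1, self2])
      (by
        simp only [LinearMap.add_apply, LinearMap.smul_apply, f3, a3, q2, q3, one_smul,
          zero_add]
        have h1 : (g3 P) • h + g1 + g3 + (g1 + g3 + (g3 P) • h) =
          ((g3 P) • h + g1 + g3) + ((g3 P) • h + g1 + g3) := by abel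
        rw [h1, self2])
    have hzy : ω y + (κ1 y + (g3 P) • (η2 y + η3 y)) = 0 := by
      have h1 := LinearMap.congr_fun hz y
      exact h1
    rw [z1, zero_add] at hzy
    rw [map_add] at e3
    have h5 : (g3 P) • (η2 y + η3 y) = ω y := (eq_of_add hzy).symm
    have h6 : ω y = ω P := eq_of_add e3
    rw [h5, h6, f2, zero_smul, add_zero, one_smul]
  -- the second relation
  have A2 : (g2 P) • η2 y = (g2 P) • h + g2 := by
    have e0 : κ1 (y + P) = g3 := by rw [map_add, z1, a2, zero_add]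
    obtain ⟨ω, hω, e1, e2⟩ := hL κ1 n1 κ2 n2 (y + P) Q (by rw [e0, b3])
    rw [e0] at e1 e2
    obtain ⟨c1, c2, c3, c4, c5, c6, hs, f1, f2, f3⟩ := hF.1 ω hω
    obtain ⟨i1, -, i3, i4⟩ := hI c3 0 c5 (c6 + 1) (by
      have h1 : c3 • h + (0 : ZMod 2) • g2 + c5 • g1 + (c6 + 1) • g3 =
        (c3 • h + c5 • g1 + c6 • g3) + g3 := by module
      rw [h1, ← f3, e2, self2])
    have i4' : c6 = 1 := CharTwo.add_eq_zero.1 i4
    subst i1 i3 i4'
    have e3 : ω (y + P + Q) = 0 := by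
      rw [map_add, e1, e2, self2]
    have hv : h (y + P + Q) = 1 := by rw [map_add, map_add, hh, hhP, hhQ, add_zero, add_zero]
    have w1 : ω R (y + P + Q) = 0 := by
      rw [hsym ω hω, e3]; rfl
    have w2 : ω P (y + P + Q) = 0 := by
      rw [hsym ω hω, e3]; rfl
    rw [f1, LinearMap.smul_apply, hv, smul_eq_mul, mul_one] at w1
    subst w1
    rw [zero_add, add_zero] at hs
    have i5 : c4 = 1 := CharTwo.add_eq_zero.1 hs
    subst i5
    rw [f2, LinearMap.add_apply, LinearMap.add_apply, LinearMap.smul_apply, LinearMap.smul_apply,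
      LinearMap.smul_apply, hv, one_smul, one_smul, map_add, map_add, map_add, map_add, hg2, hg3,
      h2Q, h3, smul_eq_mul, mul_one, zero_add, zero_add, add_zero,
      CharTwo.add_self_eq_zero, add_zero] at w2
    have j2 : c2 = g2 P := CharTwo.add_eq_zero.1 w2
    subst j2
    have hz := hfa (ω + (κ2 + (g2 P) • η2))
      (A.add_mem hω (A.add_mem n2 (A.smul_mem _ l2)))
      (by
        simp only [LinearMap.add_apply, LinearMap.smul_apply, f1, b1, r2, zero_smul,
          smul_zero, add_zero])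
      (by
        simp only [LinearMap.add_apply, LinearMap.smul_apply, f2, b2, p2, one_smul]
        have h1 : (g2 P) • h + g2 + g3 + (g2 + g3 + (g2 P) • h) =
          ((g2 P) • h + g2 + g3) + ((g2 P) • h + g2 + g3) := by abel
        rw [h1, self2])
      (by
        simp only [LinearMap.add_apply, LinearMap.smul_apply, e2, b3, q2, smul_zero, add_zero]
        exact self2 g3)
    have hzy : ω y + (κ2 y + (g2 P) • η2 y) = 0 := LinearMap.congr_fun hz y
    rw [z2, zero_add] at hzy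
    have h5 : (g2 P) • η2 y = ω y := (eq_of_add hzy).symm
    have h6 : ω y = ω P + ω Q := by
      have h7 : ω y + (ω P + ω Q) = 0 := by
        rw [← add_assoc, ← map_add, ← map_add]; exact e3
      exact eq_of_add h7
    rw [h5, h6, e2, f2, one_smul, one_smul, add_assoc, self2, add_zero]
  -- the third relation
  have A3 : (g1 Q) • η3 y = (g1 Q) • h + g1 := by
    have e0 : κ2 (y + Q) = g3 := by rw [map_add, z2, b3, zero_add]
    obtain ⟨ω, hω, e1, e2⟩ := hL κ2 n2 κ1 n1 (y + Q) P (by rw [e0, a2])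
    rw [e0] at e1 e2
    obtain ⟨c1, c2, c3, c4, c5, c6, hs, f1, f2, f3⟩ := hF.1 ω hω
    obtain ⟨i1, i3, -, i4⟩ := hI c2 c4 0 (c6 + 1) (by
      have h1 : c2 • h + c4 • g2 + (0 : ZMod 2) • g1 + (c6 + 1) • g3 =
        (c2 • h + c4 • g2 + c6 • g3) + g3 := by module
      rw [h1, ← f2, e2, self2])
    have i4' : c6 = 1 := CharTwo.add_eq_zero.1 i4
    subst i1 i3 i4'
    have e3 : ω (y + Q + P) = 0 := by
      rw [map_add, e1, e2, self2]
    have hv : h (y + Q + P) = 1 := by rw [map_add, map_add, hh, hhP, hhQ, add_zero, add_zero]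
    have w1 : ω R (y + Q + P) = 0 := by
      rw [hsym ω hω, e3]; rfl
    have w2 : ω Q (y + Q + P) = 0 := by
      rw [hsym ω hω, e3]; rfl
    rw [f1, LinearMap.smul_apply, hv, smul_eq_mul, mul_one] at w1
    subst w1
    rw [zero_add, zero_add] at hs
    have i5 : c5 = 1 := CharTwo.add_eq_zero.1 hs
    subst i5
    rw [f3, LinearMap.add_apply, LinearMap.add_apply, LinearMap.smul_apply, LinearMap.smul_apply,
      LinearMap.smul_apply, hv, one_smul, one_smul, map_add, map_add, map_add, map_add, hg1, hg3,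
      h1P, h3, smul_eq_mul, mul_one, zero_add, zero_add, add_zero,
      CharTwo.add_self_eq_zero, add_zero] at w2
    have j2 : c3 = g1 Q := CharTwo.add_eq_zero.1 w2
    subst j2
    have hz := hfa (ω + (κ1 + (g1 Q) • η3))
      (A.add_mem hω (A.add_mem n1 (A.smul_mem _ l3)))
      (by
        simp only [LinearMap.add_apply, LinearMap.smul_apply, f1, a1, r3, zero_smul,
          smul_zero, add_zero])
      (by
        simp only [LinearMap.add_apply, LinearMap.smul_apply, e2, a2, p3, smul_zero, add_zero]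
        exact self2 g3)
      (by
        simp only [LinearMap.add_apply, LinearMap.smul_apply, f3, a3, q3, one_smul]
        have h1 : (g1 Q) • h + g1 + g3 + (g1 + g3 + (g1 Q) • h) =
          ((g1 Q) • h + g1 + g3) + ((g1 Q) • h + g1 + g3) := by abel
        rw [h1, self2])
    have hzy : ω y + (κ1 y + (g1 Q) • η3 y) = 0 := LinearMap.congr_fun hz y
    rw [z1, zero_add] at hzy
    have h5 : (g1 Q) • η3 y = ω y := (eq_of_add hzy).symm
    have h6 : ω y = ω Q + ω P := by
      have h7 : ω y + (ω Q + ω P) = 0 := by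
        rw [← add_assoc, ← map_add, ← map_add]; exact e3
      exact eq_of_add h7
    rw [h5, h6, e2, f3, one_smul, one_smul, add_assoc, self2, add_zero]
  rcases zz (g2 P) with h4 | h4
  · rw [h4, zero_smul, zero_smul, zero_add] at A2
    exact n0 0 1 0 0 (by rw [← A2]; module) (by rintro ⟨-, a, -, -⟩; exact one_ne_zero a)
  rcases zz (g1 Q) with h5 | h5
  · rw [h5, zero_smul, zero_smul, zero_add] at A3
    exact n0 0 0 1 0 (by rw [← A3]; module) (by rintro ⟨-, -, a, -⟩; exact one_ne_zero a)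
  rcases zz (g3 P) with h6 | h6
  · rw [h6, zero_smul, zero_smul, zero_add] at A1
    exact n0 0 0 0 1 (by rw [← A1]; module) (by rintro ⟨-, -, -, a⟩; exact one_ne_zero a)
  rw [h4, one_smul, one_smul] at A2
  rw [h5, one_smul, one_smul] at A3
  rw [h6, one_smul, one_smul, A2, A3] at A1
  refine n0 1 1 1 1 ?_ (by rintro ⟨a, -, -, -⟩; exact one_ne_zero a)
  have h7 : (1 : ZMod 2) • h + (1 : ZMod 2) • g2 + (1 : ZMod 2) • g1 + (1 : ZMod 2) • g3 +
      (h + h) = (h + g2 + (h + g1)) + (h + g3) := by module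
  rw [self2, add_zero, A1, self2] at h7
  exact h7

end

end Pool.Agent.Run7.h948.QF
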