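import Pool.Agent.Run7.h948.QF.FSys
import Pool.Agent.Run7.h948.QF.Bits

/-! Elimination of the two forms. -/

set_option autoImplicit false

namespace Pool.Agent.Run7.h948.QF

open Pool.Agent.N88.TS Pool.Agent.W622.ETG Pool.Agent.TH188.ETP Pool.Agent.TH188.ETV
  Pool.Agent.H315R3.ETC Module
open Pool.Agent.TH188.ET (exists_char exists_factor)

section
variable {V : Type} [AddCommGroup V] [Module (ZMod 2) V] {A : Fam V} {R P Q : V}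

/-- the first form -/
def FA (A : Fam V) (R P Q : V) (h g k : Dl V) : Prop :=
  (∀ ω ∈ A, ∃ c1 c2 c3 c4 c5 c6 : ZMod 2, c1 + c3 + c6 = 0 ∧ ω R = c1 • h ∧
    ω P = c2 • h + c3 • g ∧ ω Q = c4 • h + c5 • g + c6 • k) ∧
  (∀ c1 c2 c3 c4 c5 c6 : ZMod 2, c1 + c3 + c6 = 0 → ∃ ω ∈ A, ω R = c1 • h ∧
    ω P = c2 • h + c3 • g ∧ ω Q = c4 • h + c5 • g + c6 • k)

/-- the second form -/
def FB (A : Fam V) (R P Q : V) (h g2 g1 g3 : Dl V) : Prop :=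
  (∀ ω ∈ A, ∃ c1 c2 c3 c4 c5 c6 : ZMod 2, c1 + c4 + c5 + c6 = 0 ∧ ω R = c1 • h ∧
    ω P = c2 • h + c4 • g2 + c6 • g3 ∧ ω Q = c3 • h + c5 • g1 + c6 • g3) ∧
  (∀ c1 c2 c3 c4 c5 c6 : ZMod 2, c1 + c4 + c5 + c6 = 0 → ∃ ω ∈ A, ω R = c1 • h ∧
    ω P = c2 • h + c4 • g2 + c6 • g3 ∧ ω Q = c3 • h + c5 • g1 + c6 • g3)

/-- a member vanishing at `v` -/
def Hit (A : Fam V) (R P Q b1 b2 b3 v : V) : Prop :=
  ∃ ω ∈ A, ω v = 0 ∧ ω R b1 + ω P b2 + ω Q b3 = 1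

theorem condA {h g k : Dl V} (hI : Ind3 h g k) (hF : FA A R P Q h g k) {b1 b2 b3 : V}
    {Sp : AddSubgroup V} (hR : R ∈ Sp) (hP : P ∈ Sp) (hQ : Q ∈ Sp)
    (hit : ∀ v ∈ Sp, Hit A R P Q b1 b2 b3 v) :
    AA (h b1) (h b2) (h b3) (g b2) (g b3) (k b3) := by
  have gen : ∀ v ∈ Sp, ∃ ω ∈ A, ω v = 0 ∧ ∃ c1 c2 c3 c4 c5 c6 : ZMod 2, c1 + c3 + c6 = 0 ∧
      ω R = c1 • h ∧ ω P = c2 • h + c3 • g ∧ ω Q = c4 • h + c5 • g + c6 • k ∧
      fA (h b1) (h b2) (h b3) (g b2) (g b3) (k b3) c1 c2 c3 c4 c5 c6 = 1 := by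
    intro v hv
    obtain ⟨ω, hω, h0, h1⟩ := hit v hv
    obtain ⟨c1, c2, c3, c4, c5, c6, hs, e1, e2, e3⟩ := hF.1 ω hω
    refine ⟨ω, hω, h0, c1, c2, c3, c4, c5, c6, hs, e1, e2, e3, ?_⟩
    rw [← h1, e1, e2, e3]
    simp only [LinearMap.add_apply, LinearMap.smul_apply, smul_eq_mul, fA]
  refine ⟨⟨?_, ?_, ?_⟩, ⟨?_, ?_⟩, ?_, ?_⟩
  · obtain ⟨ω, hω, h0, c1, c2, c3, c4, c5, c6, hs, e1, e2, e3, h1⟩ := gen R hR
    obtain ⟨z1, -, -⟩ := hI c1 0 0 (by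
      rw [← h0, e1, zero_smul, zero_smul, add_zero, add_zero])
    exact ⟨c1, c2, c3, c4, c5, c6, ⟨hs, z1⟩, h1⟩
  · obtain ⟨ω, hω, h0, c1, c2, c3, c4, c5, c6, hs, e1, e2, e3, h1⟩ := gen P hP
    obtain ⟨z1, z2, -⟩ := hI c2 c3 0 (by rw [← h0, e2, zero_smul, add_zero])
    exact ⟨c1, c2, c3, c4, c5, c6, ⟨hs, z1, z2⟩, h1⟩
  · obtain ⟨ω, hω, h0, c1, c2, c3, c4, c5, c6, hs, e1, e2, e3, h1⟩ := gen (R + P) (add_mem hR hP)
    rw [map_add, e1, e2] at h0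
    obtain ⟨z1, z2, -⟩ := hI (c1 + c2) c3 0 (by rw [← h0]; module)
    exact ⟨c1, c2, c3, c4, c5, c6, ⟨hs, z1, z2⟩, h1⟩
  · obtain ⟨ω, hω, h0, c1, c2, c3, c4, c5, c6, hs, e1, e2, e3, h1⟩ := gen Q hQ
    obtain ⟨z1, z2, z3⟩ := hI c4 c5 c6 (by rw [← h0, e3])
    exact ⟨c1, c2, c3, c4, c5, c6, ⟨hs, z1, z2, z3⟩, h1⟩
  · obtain ⟨ω, hω, h0, c1, c2, c3, c4, c5, c6, hs, e1, e2, e3, h1⟩ := gen (R + Q) (add_mem hR hQ)
    rw [map_add, e1, e3] at h0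
    obtain ⟨z1, z2, z3⟩ := hI (c1 + c4) c5 c6 (by rw [← h0]; module)
    exact ⟨c1, c2, c3, c4, c5, c6, ⟨hs, z1, z2, z3⟩, h1⟩
  · obtain ⟨ω, hω, h0, c1, c2, c3, c4, c5, c6, hs, e1, e2, e3, h1⟩ := gen (P + Q) (add_mem hP hQ)
    rw [map_add, e2, e3] at h0
    obtain ⟨z1, z2, z3⟩ := hI (c2 + c4) (c3 + c5) c6 (by rw [← h0]; module)
    exact ⟨c1, c2, c3, c4, c5, c6, ⟨hs, z1, z2, z3⟩, h1⟩
  · obtain ⟨ω, hω, h0, c1, c2, c3, c4, c5, c6, hs, e1, e2, e3, h1⟩ := gen (R + P + Q)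
      (add_mem (add_mem hR hP) hQ)
    rw [map_add, map_add, e1, e2, e3] at h0
    obtain ⟨z1, z2, z3⟩ := hI (c1 + c2 + c4) (c3 + c5) c6 (by rw [← h0]; module)
    exact ⟨c1, c2, c3, c4, c5, c6, ⟨hs, z1, z2, z3⟩, h1⟩

theorem noB {h g2 g1 g3 : Dl V} (hI : Ind4 h g2 g1 g3) (hF : FB A R P Q h g2 g1 g3)
    {b1 b2 b3 : V} {Sp : AddSubgroup V} (hR : R ∈ Sp) (hP : P ∈ Sp) (hQ : Q ∈ Sp)
    (hit : ∀ v ∈ Sp, Hit A R P Q b1 b2 b3 v) : False := by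
  refine bitsB (h b1) (h b2) (h b3) (g2 b2) (g1 b3) (g3 b2 + g3 b3) ?_
  have gen : ∀ v ∈ Sp, ∃ ω ∈ A, ω v = 0 ∧ ∃ c1 c2 c3 c4 c5 c6 : ZMod 2, c1 + c4 + c5 + c6 = 0 ∧
      ω R = c1 • h ∧ ω P = c2 • h + c4 • g2 + c6 • g3 ∧ ω Q = c3 • h + c5 • g1 + c6 • g3 ∧
      fB (h b1) (h b2) (h b3) (g2 b2) (g1 b3) (g3 b2 + g3 b3) c1 c2 c3 c4 c5 c6 = 1 := by
    intro v hv
    obtain ⟨ω, hω, h0, h1⟩ := hit v hv
    obtain ⟨c1, c2, c3, c4, c5, c6, hs, e1, e2, e3⟩ := hF.1 ω hω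
    refine ⟨ω, hω, h0, c1, c2, c3, c4, c5, c6, hs, e1, e2, e3, ?_⟩
    rw [← h1, e1, e2, e3]
    simp only [LinearMap.add_apply, LinearMap.smul_apply, smul_eq_mul, fB]
    ring
  refine ⟨⟨?_, ?_, ?_⟩, ⟨?_, ?_⟩, ?_, ?_⟩
  · obtain ⟨ω, hω, h0, c1, c2, c3, c4, c5, c6, hs, e1, e2, e3, h1⟩ := gen R hR
    obtain ⟨z1, -, -, -⟩ := hI c1 0 0 0 (by
      rw [← h0, e1, zero_smul, zero_smul, zero_smul, add_zero, add_zero, add_zero])
    exact ⟨c1, c2, c3, c4, c5, c6, ⟨hs, z1⟩, h1⟩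
  · obtain ⟨ω, hω, h0, c1, c2, c3, c4, c5, c6, hs, e1, e2, e3, h1⟩ := gen P hP
    obtain ⟨z1, z2, -, z3⟩ := hI c2 c4 0 c6 (by rw [← h0, e2, zero_smul, add_zero])
    exact ⟨c1, c2, c3, c4, c5, c6, ⟨hs, z1, z2, z3⟩, h1⟩
  · obtain ⟨ω, hω, h0, c1, c2, c3, c4, c5, c6, hs, e1, e2, e3, h1⟩ := gen (R + P) (add_mem hR hP)
    rw [map_add, e1, e2] at h0
    obtain ⟨z1, z2, -, z3⟩ := hI (c1 + c2) c4 0 c6 (by rw [← h0]; module)
    exact ⟨c1, c2, c3, c4, c5, c6, ⟨hs, z1, z2, z3⟩, h1⟩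
  · obtain ⟨ω, hω, h0, c1, c2, c3, c4, c5, c6, hs, e1, e2, e3, h1⟩ := gen Q hQ
    obtain ⟨z1, -, z2, z3⟩ := hI c3 0 c5 c6 (by rw [← h0, e3, zero_smul, add_zero])
    exact ⟨c1, c2, c3, c4, c5, c6, ⟨hs, z1, z2, z3⟩, h1⟩
  · obtain ⟨ω, hω, h0, c1, c2, c3, c4, c5, c6, hs, e1, e2, e3, h1⟩ := gen (R + Q) (add_mem hR hQ)
    rw [map_add, e1, e3] at h0
    obtain ⟨z1, -, z2, z3⟩ := hI (c1 + c3) 0 c5 c6 (by rw [← h0]; module)
    exact ⟨c1, c2, c3, c4, c5, c6, ⟨hs, z1, z2, z3⟩, h1⟩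
  · obtain ⟨ω, hω, h0, c1, c2, c3, c4, c5, c6, hs, e1, e2, e3, h1⟩ := gen (P + Q) (add_mem hP hQ)
    rw [map_add, e2, e3] at h0
    obtain ⟨z1, z2, z3, -⟩ := hI (c2 + c3) c4 c5 0 (by
      have h5 : c2 • h + c4 • g2 + c6 • g3 + (c3 • h + c5 • g1 + c6 • g3) =
        (c2 + c3) • h + c4 • g2 + c5 • g1 + (c6 • g3 + c6 • g3) := by module
      rw [h5, self2, add_zero] at h0
      rw [zero_smul, add_zero]
      exact h0)
    exact ⟨c1, c2, c3, c4, c5, c6, ⟨hs, z1, z2, z3⟩, h1⟩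
  · obtain ⟨ω, hω, h0, c1, c2, c3, c4, c5, c6, hs, e1, e2, e3, h1⟩ := gen (R + P + Q)
      (add_mem (add_mem hR hP) hQ)
    rw [map_add, map_add, e1, e2, e3] at h0
    obtain ⟨z1, z2, z3, -⟩ := hI (c1 + c2 + c3) c4 c5 0 (by
      have h5 : c1 • h + (c2 • h + c4 • g2 + c6 • g3) + (c3 • h + c5 • g1 + c6 • g3) =
        (c1 + c2 + c3) • h + c4 • g2 + c5 • g1 + (c6 • g3 + c6 • g3) := by module
      rw [h5, self2, add_zero] at h0
      rw [zero_smul, add_zero]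
      exact h0)
    exact ⟨c1, c2, c3, c4, c5, c6, ⟨hs, z1, z2, z3⟩, h1⟩

theorem noA (hsym : ∀ ω ∈ A, ∀ a b : V, ω a b = ω b a) {h g k : Dl V} (hI : Ind3 h g k)
    (hF : FA A R P Q h g k) {Sp : AddSubgroup V} (hR : R ∈ Sp) (hP : P ∈ Sp) (hQ : Q ∈ Sp)
    {y0 : V} (hy : y0 ∈ Sp) (hh : h y0 = 1) (hg : g y0 = 0) (hk : k y0 = 0) {b1 b2 b3 : V}
    (hit : ∀ v ∈ Sp, Hit A R P Q b1 b2 b3 v)
    (WD : ∀ ω ∈ A, ω R = 0 → ω P = 0 → ω Q = 0 → ω y0 = 0) : False := by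
  obtain ⟨hH3, hG3⟩ := bitsA _ _ _ _ _ _ (condA hI hF hR hP hQ hit)
  obtain ⟨ω1, m1, r1, p1, q1⟩ := hF.2 0 1 0 0 0 0 (by decide)
  obtain ⟨ω2, m2, r2, p2, q2⟩ := hF.2 0 0 0 1 0 0 (by decide)
  obtain ⟨ω3, m3, r3, p3, q3⟩ := hF.2 0 0 0 0 1 0 (by decide)
  obtain ⟨ω4, m4, r4, p4, q4⟩ := hF.2 1 0 1 0 0 0 (by decide)
  obtain ⟨ω5, m5, r5, p5, q5⟩ := hF.2 1 0 0 0 0 1 (by decide)
  simp only [zero_smul, one_smul, add_zero, zero_add] at p1 q1 p2 q2 p3 q3 p4 q4 p5 q5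
  have hhQ : h Q = 0 := by
    rw [← p1, hsym ω1 m1, q1]; rfl
  have hhP : h P = 0 := by
    rw [← q2, hsym ω2 m2, p2]; rfl
  have hgP : g P = 0 := by
    rw [← q3, hsym ω3 m3, p3]; rfl
  have hgQ : g Q = 0 := by
    rw [← p4, hsym ω4 m4, q4]; rfl
  have hkP : k P = 0 := by
    rw [← q5, hsym ω5 m5, p5]; rfl
  have hg0 : g ≠ 0 := by
    intro h1
    have h2 := (hI 0 1 0 (by rw [h1, smul_zero, zero_smul, zero_smul, add_zero, add_zero])).2.1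
    exact one_ne_zero h2
  have hsm : ∀ (c : ZMod 2) (u : V), u ∈ Sp → c • u ∈ Sp := by
    intro c u hu
    rcases zz c with rfl | rfl
    · rw [zero_smul]; exact zero_mem _
    · rw [one_smul]; exact hu
  have step : ∀ c d : ZMod 2, ∃ ω ∈ A, ∃ n m : ZMod 2, ω R = 0 ∧ ω P = n • g ∧
      ω Q = (n * (d * k Q)) • h + m • g + n • k ∧ ω (y0 + c • P + d • Q) = 0 ∧
      m = 1 + n * (g b2 + k b3) := by
    intro c d
    obtain ⟨ω, hω, h0, h1⟩ := hit (y0 + c • P + d • Q)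
      (add_mem (add_mem hy (hsm _ _ hP)) (hsm _ _ hQ))
    obtain ⟨c1, c2, c3, c4, c5, c6, hs, e1, e2, e3⟩ := hF.1 ω hω
    have hv : h (y0 + c • P + d • Q) = 1 := by
      rw [map_add, map_add, map_smul, map_smul, hh, hhP, hhQ, smul_zero, smul_zero, add_zero,
        add_zero]
    have gv : g (y0 + c • P + d • Q) = 0 := by
      rw [map_add, map_add, map_smul, map_smul, hg, hgP, hgQ, smul_zero, smul_zero, add_zero,
        add_zero]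
    have kv : k (y0 + c • P + d • Q) = d * k Q := by
      rw [map_add, map_add, map_smul, map_smul, hk, hkP, smul_zero, add_zero, zero_add,
        smul_eq_mul]
    have w1 : ω R (y0 + c • P + d • Q) = 0 := by
      rw [hsym ω hω, h0]; rfl
    have w2 : ω P (y0 + c • P + d • Q) = 0 := by
      rw [hsym ω hω, h0]; rfl
    have w3 : ω Q (y0 + c • P + d • Q) = 0 := by
      rw [hsym ω hω, h0]; rfl
    rw [e1, LinearMap.smul_apply, hv, smul_eq_mul, mul_one] at w1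
    rw [e2, LinearMap.add_apply, LinearMap.smul_apply, LinearMap.smul_apply, hv, gv, smul_zero,
      add_zero, smul_eq_mul, mul_one] at w2
    rw [e3, LinearMap.add_apply, LinearMap.add_apply, LinearMap.smul_apply, LinearMap.smul_apply,
      LinearMap.smul_apply, hv, gv, kv, smul_zero, add_zero, smul_eq_mul, smul_eq_mul,
      mul_one] at w3
    subst w1 w2
    rw [zero_add] at hs
    have h6 : c3 = c6 := CharTwo.add_eq_zero.1 hs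
    subst h6
    have h4 : c4 = c3 * (d * k Q) := CharTwo.add_eq_zero.1 w3
    refine ⟨ω, hω, c3, c5, ?_, ?_, ?_, h0, ?_⟩
    · rw [e1, zero_smul]
    · rw [e2, zero_smul, zero_add]
    · rw [e3, h4]
    · rw [e1, e2, e3] at h1
      simp only [LinearMap.add_apply, LinearMap.smul_apply, smul_eq_mul, hH3, hG3, zero_mul,
        mul_zero, mul_one, zero_add] at h1
      have h7 : c5 = c5 + (c3 * g b2 + (c5 + c3 * k b3)) + (c3 * g b2 + (c5 + c3 * k b3)) := by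
        rw [add_assoc, CharTwo.add_self_eq_zero, add_zero]
      rw [h1] at h7
      have h8 : c5 + (c3 * g b2 + (c5 + c3 * k b3)) = 1 + c5 := by rw [h1, add_comm]
      have h9 : c3 * g b2 + (c5 + c3 * k b3) = (c3 * (g b2 + k b3)) + c5 := by ring
      rw [h9] at h1
      have h10 : c5 = (c3 * (g b2 + k b3)) + ((c3 * (g b2 + k b3)) + c5) := by
        rw [← add_assoc, CharTwo.add_self_eq_zero, zero_add]
      rw [h1] at h10
      rw [h10, add_comm]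
  have key : ∀ d : ZMod 2, ∃ ω ∈ A, ω R = 0 ∧ ω P = 0 ∧ ω Q = g ∧ ω (y0 + d • Q) = 0 := by
    intro d
    obtain ⟨η1, l1, n1, μ1, a1, a2, a3, a4, a5⟩ := step 0 d
    obtain ⟨η2, l2, n2, μ2, c1, c2, c3, c4, c5⟩ := step 1 d
    rw [zero_smul, add_zero] at a4
    rw [one_smul] at c4
    have e4 : y0 + P + d • Q = (y0 + d • Q) + P := by abel
    rw [e4, map_add] at c4
    rcases zz n1 with rfl | rfl
    · refine ⟨η1, l1, a1, by rw [a2, zero_smul], ?_, a4⟩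
      rw [a3, a5, zero_mul, zero_mul, zero_smul, zero_smul, add_zero, add_zero, zero_add,
        one_smul]
    · rcases zz n2 with rfl | rfl
      · refine ⟨η2, l2, c1, by rw [c2, zero_smul], ?_, ?_⟩
        · rw [c3, c5, zero_mul, zero_mul, zero_smul, zero_smul, add_zero, add_zero, zero_add,
            one_smul]
        · rw [c2, zero_smul, add_zero] at c4
          exact c4
      · exfalso
        have hQQ : η1 Q + η2 Q = 0 := by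
          rw [a3, c3, a5, c5]
          exact self2 _
        have hd := WD (η1 + η2) (A.add_mem l1 l2) (by rw [LinearMap.add_apply, a1, c1, add_zero])
          (by rw [LinearMap.add_apply, a2, c2]; exact self2 _)
          (by rw [LinearMap.add_apply]; exact hQQ)
        rw [LinearMap.add_apply] at hd
        rw [map_add, map_smul] at a4
        rw [map_add, map_smul, c2, one_smul] at c4
        apply hg0
        have h5 : η1 y0 + d • η1 Q + (η2 y0 + d • η2 Q + g) =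
            (η1 y0 + η2 y0) + d • (η1 Q + η2 Q) + g := by
          rw [smul_add]; abel
        rw [a4, c4, hd, hQQ, smul_zero, add_zero, zero_add] at h5
        exact h5.symm
  obtain ⟨η1, l1, a1, a2, a3, a4⟩ := key 0
  obtain ⟨η2, l2, c1, c2, c3, c4⟩ := key 1
  have hd := WD (η1 + η2) (A.add_mem l1 l2) (by rw [LinearMap.add_apply, a1, c1, add_zero])
    (by rw [LinearMap.add_apply, a2, c2, add_zero])
    (by rw [LinearMap.add_apply, a3, c3]; exact self2 _)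
  rw [LinearMap.add_apply] at hd
  rw [zero_smul, add_zero] at a4
  rw [one_smul, map_add, c3] at c4
  rw [a4, zero_add] at hd
  rw [hd, zero_add] at c4
  exact hg0 c4

end

end Pool.Agent.Run7.h948.QF
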