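import Pool.Agent.Run7.h948.QF.Fano

/-! Linked systems of at most 64 linear maps on a three-dimensional space over the field with two
elements. -/

set_option autoImplicit false

namespace Pool.Agent.Run7.h948.QF

section vec
variable {F : Type} [AddCommGroup F] [Module (ZMod 2) F]

theorem self2 (x : F) : x + x = 0 := by
  rw [← two_smul (ZMod 2) x, show (2 : ZMod 2) = 0 from rfl, zero_smul]

theorem eq_of_add {x y : F} (h : x + y = 0) : x = y :=
  calc x = x + y + y := by rw [add_assoc, self2, add_zero]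
    _ = y := by rw [h, zero_add]

/-- independent vectors -/
def Ind2 (x y : F) : Prop := ∀ i j : ZMod 2, i • x + j • y = 0 → i = 0 ∧ j = 0

/-- independent vectors -/
def Ind3 (x y z : F) : Prop := ∀ i j k : ZMod 2, i • x + j • y + k • z = 0 → i = 0 ∧ j = 0 ∧ k = 0

/-- independent vectors -/
def Ind4 (x y z t : F) : Prop := ∀ i j k l : ZMod 2, i • x + j • y + k • z + l • t = 0 →
  i = 0 ∧ j = 0 ∧ k = 0 ∧ l = 0

theorem ind2 {x y : F} (h1 : x ≠ 0) (h2 : y ≠ 0) (h3 : x + y ≠ 0) : Ind2 x y := by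
  intro i j h
  rcases b2 i with rfl | rfl <;> rcases b2 j with rfl | rfl
  · exact ⟨rfl, rfl⟩
  · rw [zero_smul, one_smul, zero_add] at h
    exact absurd h h2
  · rw [zero_smul, one_smul, add_zero] at h
    exact absurd h h1
  · rw [one_smul, one_smul] at h
    exact absurd h h3

theorem ind3 {x y z : F} (h : Ind2 x y) (h1 : z ≠ 0) (h2 : x + z ≠ 0) (h3 : y + z ≠ 0)
    (h4 : x + y + z ≠ 0) : Ind3 x y z := by
  intro i j k h5
  rcases b2 k with rfl | rfl
  · rw [zero_smul, add_zero] at h5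
    exact ⟨(h i j h5).1, (h i j h5).2, rfl⟩
  · exfalso
    rw [one_smul] at h5
    rcases b2 i with rfl | rfl <;> rcases b2 j with rfl | rfl
    · rw [zero_smul, zero_smul, zero_add, zero_add] at h5
      exact h1 h5
    · rw [zero_smul, one_smul, zero_add] at h5
      exact h3 h5
    · rw [zero_smul, one_smul, add_zero] at h5
      exact h2 h5
    · rw [one_smul, one_smul] at h5
      exact h4 h5

theorem ind4 {x y z t : F} (h : Ind3 x y z) (h1 : t ≠ 0) (h2 : x + t ≠ 0) (h3 : y + t ≠ 0)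
    (h4 : z + t ≠ 0) (h5 : x + y + t ≠ 0) (h6 : x + z + t ≠ 0) (h7 : y + z + t ≠ 0)
    (h8 : x + y + z + t ≠ 0) : Ind4 x y z t := by
  intro i j k l h9
  rcases b2 l with rfl | rfl
  · rw [zero_smul, add_zero] at h9
    obtain ⟨a1, a2, a3⟩ := h i j k h9
    exact ⟨a1, a2, a3, rfl⟩
  · exfalso
    rw [one_smul] at h9
    rcases b2 i with rfl | rfl <;> rcases b2 j with rfl | rfl <;> rcases b2 k with rfl | rfl
    · rw [zero_smul, zero_smul, zero_smul, zero_add, zero_add, zero_add] at h9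
      exact h1 h9
    · rw [zero_smul, zero_smul, one_smul, zero_add, zero_add] at h9
      exact h4 h9
    · rw [zero_smul, zero_smul, one_smul, zero_add, add_zero] at h9
      exact h3 h9
    · rw [zero_smul, one_smul, one_smul, zero_add] at h9
      exact h7 h9
    · rw [zero_smul, zero_smul, one_smul, add_zero, add_zero] at h9
      exact h2 h9
    · rw [zero_smul, one_smul, one_smul, add_zero] at h9
      exact h6 h9
    · rw [zero_smul, one_smul, one_smul, add_zero] at h9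
      exact h5 h9
    · rw [one_smul, one_smul, one_smul] at h9
      exact h8 h9

/-- dependence -/
theorem dep {M ι : Type} [AddCommGroup M] [Module (ZMod 2) M] [Finite M] [Fintype ι]
    (u : ι → M) (h : Nat.card M < 2 ^ Fintype.card ι) :
    ∃ c : ι → ZMod 2, c ≠ 0 ∧ ∑ i, c i • u i = 0 := by
  classical
  by_contra hcon
  push Not at hcon
  have hinj : Function.Injective (fun c : ι → ZMod 2 => ∑ i, c i • u i) := by
    intro c c' hcc
    by_contra hne
    refine hcon (c - c') (sub_ne_zero.2 hne) ?_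
    have h1 : ∑ i, c i • u i = ∑ i, c' i • u i := hcc
    have h2 : ∑ i, (c - c') i • u i = ∑ i, c i • u i - ∑ i, c' i • u i := by
      rw [← Finset.sum_sub_distrib]
      refine Finset.sum_congr rfl fun i _ => ?_
      rw [Pi.sub_apply, sub_smul]
    rw [h2, h1, sub_self]
  have h1 := Nat.card_le_card_of_injective _ hinj
  have h2 : Nat.card (ι → ZMod 2) = 2 ^ Fintype.card ι := by
    rw [Nat.card_eq_fintype_card, Fintype.card_fun, ZMod.card]
  omega

theorem dep7 {M : Type} [AddCommGroup M] [Module (ZMod 2) M] [Finite M] (h : Nat.card M ≤ 64)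
    (w1 w2 w3 w4 w5 w6 w7 : M) : ∃ c1 c2 c3 c4 c5 c6 c7 : ZMod 2,
      ¬ (c1 = 0 ∧ c2 = 0 ∧ c3 = 0 ∧ c4 = 0 ∧ c5 = 0 ∧ c6 = 0 ∧ c7 = 0) ∧
      c1 • w1 + c2 • w2 + c3 • w3 + c4 • w4 + c5 • w5 + c6 • w6 + c7 • w7 = 0 := by
  obtain ⟨c, hc, hs⟩ := dep (![w1, w2, w3, w4, w5, w6, w7] : Fin 7 → M) (by
    rw [Fintype.card_fin]
    omega)
  refine ⟨c 0, c 1, c 2, c 3, c 4, c 5, c 6, ?_, ?_⟩
  · rintro ⟨a1, a2, a3, a4, a5, a6, a7⟩
    apply hc
    funext i
    fin_cases i
    · exact a1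
    · exact a2
    · exact a3
    · exact a4
    · exact a5
    · exact a6
    · exact a7
  · rw [← hs, Fin.sum_univ_seven]
    rfl

end vec

/-- a linked system -/
structure Sys (W F : Type) [AddCommGroup W] [Module (ZMod 2) W] [AddCommGroup F]
    [Module (ZMod 2) F] where
  /-- the values at a point -/
  v : Q3 → W →ₗ[ZMod 2] F
  /-- the parity -/
  th : W →ₗ[ZMod 2] ZMod 2
  lin : ∀ p q w, v (p + q) w = v p w + v q w
  inj : ∀ w, (∀ p, v p w = 0) → w = 0
  link : ∀ p q w w', v p w = v q w' → ∃ u, v p u = v p w ∧ v q u = v p w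
  out : ∀ p q, ∃ w, v p w = 0 ∧ v q w = 0 ∧ th w = 1

namespace Sys
variable {W F : Type} [AddCommGroup W] [Module (ZMod 2) W] [AddCommGroup F] [Module (ZMod 2) F]
variable (S : Sys W F)

/-- an element with values on the complement of a line only -/
def T (e : Q3) (x : F) (w : W) : Prop := ∀ p, S.v p w = dot e p • x

variable {S}

theorem T.add {e e' : Q3} {x : F} {w w' : W} (h : S.T e x w) (h' : S.T e' x w') :
    S.T (e + e') x (w + w') := by
  intro p
  rw [map_add, h p, h' p, dot_add, add_smul]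

theorem T.addx {e : Q3} {x y : F} {w w' : W} (h : S.T e x w) (h' : S.T e y w') :
    S.T e (x + y) (w + w') := by
  intro p
  rw [map_add, h p, h' p, smul_add]

theorem T.uniq {e : Q3} {x : F} {w w' : W} (h : S.T e x w) (h' : S.T e x w') : w = w' := by
  have h1 : w - w' = 0 := S.inj _ (fun p => by rw [map_sub, h p, h' p, sub_self])
  exact sub_eq_zero.1 h1

theorem T.zero (e : Q3) : S.T e (0 : F) (0 : W) := by
  intro p
  rw [map_zero, smul_zero]

theorem T.ne_zero {e : Q3} {x : F} {w : W} (h : S.T e x w) (h1 : S.th w = 1) : x ≠ 0 := by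
  rintro rfl
  have h2 := h.uniq (T.zero e)
  rw [h2, map_zero] at h1
  exact zero_ne_one h1

theorem T.ne {e : Q3} {x y : F} {w w' : W} (h : S.T e x w) (h' : S.T e y w')
    (h1 : S.th w = 1) (h2 : S.th w' = 0) : x ≠ y := by
  rintro rfl
  have h3 := h.uniq h'
  rw [h3, h2] at h1
  exact zero_ne_one h1

theorem v0 (w : W) : S.v 0 w = 0 := by
  have := S.lin 0 0 w
  rw [add_zero] at this
  exact left_eq_add.1 this

theorem line (e : Q3) (he : e ≠ 0) : ∃ x w, S.T e x w ∧ S.th w = 1 := by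
  obtain ⟨p, q, s, h⟩ := ln e he
  obtain ⟨w, h1, h2, h3⟩ := S.out p q
  refine ⟨S.v s w, w, fun u => ?_, h3⟩
  rcases b2 (dot e u) with h4 | h4
  · rw [h4, zero_smul]
    rcases (h u).1 h4 with rfl | rfl | rfl | rfl
    · exact v0 w
    · exact h1
    · exact h2
    · rw [S.lin, h1, h2, add_zero]
  · rw [h4, one_smul]
    rcases (h u).2 h4 with rfl | rfl | rfl | rfl
    · rfl
    · rw [S.lin, h1, zero_add]
    · rw [S.lin, h2, zero_add]
    · rw [S.lin, S.lin, h1, h2, zero_add, zero_add]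

/-- no relation of the six lines different from a given one -/
theorem six [Finite W] (hc : Nat.card W ≤ 64) (X : Q3 → F) (U : Q3 → W)
    (hX : ∀ e, e ≠ 0 → S.T e (X e) (U e) ∧ S.th (U e) = 1) (e0 : Q3) (he0 : e0 ≠ 0)
    (hrel : ∀ a b, TC e0 a b → X a + X b + X (a + b + e0) = 0) : False := by
  obtain ⟨a, b, A, B, C, hDB, hTC⟩ := pt_ex e0 he0
  have t2 := (TC.more e0 a b hTC).1
  have t3 := (TC.more e0 a b hTC).2
  obtain ⟨⟨k1, k2, k3⟩, ⟨k4, k5, k6⟩, ⟨k7, k8, k9⟩⟩ := hDB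
  have hne : ∀ e, e ≠ 0 → X e ≠ 0 := fun e he => (hX e he).1.ne_zero (hX e he).2
  have n1 : a ≠ 0 := hTC.1.2.1
  have n2 : b ≠ 0 := hTC.1.2.2
  have n3 : a + e0 ≠ 0 := t2.1.2.1
  have n4 : b + e0 ≠ 0 := t3.1.2.2
  have n5 : a + b + e0 ≠ 0 := by
    intro h
    exact hTC.2.2 (eq_of_add h)
  have n6 : a + b ≠ 0 := by
    intro h
    exact hTC.2.1.1 (eq_of_add h)
  have r1 := hrel a b hTC
  have r2 := hrel (a + e0) b t2
  have r3 := hrel a (b + e0) t3
  have e1 : a + e0 + b + e0 = a + b := by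
    have : a + e0 + b + e0 = a + b + (e0 + e0) := by abel
    rw [this, self2, add_zero]
  have e2 : a + (b + e0) + e0 = a + b := by
    have : a + (b + e0) + e0 = a + b + (e0 + e0) := by abel
    rw [this, self2, add_zero]
  rw [e1] at r2
  rw [e2] at r3
  -- the vectors
  obtain ⟨s, hs⟩ : ∃ s, s = X a + X (a + e0) := ⟨_, rfl⟩
  have x3 : X (a + e0) = X a + s := by
    rw [hs, ← add_assoc, self2, zero_add]
  have x5 : X (a + b + e0) = X a + X b := (eq_of_add r1).symm
  have x6 : X (a + b) = X a + s + X b := by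
    rw [← x3]
    exact (eq_of_add r2).symm
  have x4 : X (b + e0) = X b + s := by
    have h1 : X (b + e0) = X a + X (a + b) := by
      have h2 : X a + X (a + b) + X (b + e0) = 0 := by
        rw [← r3]
        abel
      exact (eq_of_add h2).symm
    rw [h1, x6]
    have : X a + (X a + s + X b) = (X a + X a) + (X b + s) := by abel
    rw [this, self2, zero_add]
  have m1 := hne a n1
  have m2 := hne b n2
  have m3 : X a + s ≠ 0 := by
    rw [← x3]; exact hne _ n3
  have m4 : X b + s ≠ 0 := by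
    rw [← x4]; exact hne _ n4
  have m5 : X a + X b ≠ 0 := by
    rw [← x5]; exact hne _ n5
  have m6 : X a + X b + s ≠ 0 := by
    have h1 : X a + X b + s = X (a + b) := by
      rw [x6]; abel
    rw [h1]; exact hne _ n6
  obtain ⟨Ta, ta⟩ := hX a n1
  obtain ⟨Tb, tb⟩ := hX b n2
  obtain ⟨Tc, tc⟩ := hX _ n3
  obtain ⟨Td, td⟩ := hX _ n4
  obtain ⟨Te, te⟩ := hX _ n5
  obtain ⟨Ty, ty⟩ := hX e0 he0
  rw [x3] at Tc
  rw [x4] at Td
  rw [x5] at Te
  have hI2 : Ind2 (X a) (X b) := ind2 m1 m2 m5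
  have Ta' : ∀ p, S.v p (U a) = dot a p • X a := Ta
  have Tb' : ∀ p, S.v p (U b) = dot b p • X b := Tb
  have Tc' : ∀ p, S.v p (U (a + e0)) = dot (a + e0) p • (X a + s) := Tc
  have Td' : ∀ p, S.v p (U (b + e0)) = dot (b + e0) p • (X b + s) := Td
  have Te' : ∀ p, S.v p (U (a + b + e0)) = dot (a + b + e0) p • (X a + X b) := Te
  have Ty' : ∀ p, S.v p (U e0) = dot e0 p • X e0 := Ty
  -- linking
  obtain ⟨u, u1, u2⟩ := S.link A B (U a) (U b + U (a + b + e0)) (by
    rw [map_add, Ta A, Tb B, Te B, dot_add, dot_add, k1, k5, k2, k8, one_smul, one_smul, add_zero,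
      zero_add, one_smul]
    have : X b + (X a + X b) = X a + (X b + X b) := by abel
    rw [this, self2, add_zero])
  rw [Ta A, k1, one_smul] at u1 u2
  have vy : X e0 ≠ 0 := hne e0 he0
  by_cases hs0 : s = 0
  · -- the two-dimensional case
    rw [hs0, add_zero] at Tc Td
    have T1 : S.T e0 (X a) (U a + U (a + e0)) := by
      have h1 := Ta.add Tc
      rwa [← add_assoc, self2, zero_add] at h1
    have T2 : S.T e0 (X b) (U b + U (b + e0)) := by
      have h1 := Tb.add Td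
      rwa [← add_assoc, self2, zero_add] at h1
    obtain ⟨c1, c2, c3, c4, c5, c6, c7, hcne, hcs⟩ := dep7 hc (U a) (U b) (U (a + b + e0)) u
      (U a + U (a + e0)) (U b + U (b + e0)) (U e0)
    have hA := congrArg (S.v A) hcs
    have hB := congrArg (S.v B) hcs
    simp only [map_add, map_smul, map_zero, Ta', Tb', Tc', Td', Te', Ty', u1, u2, dot_add, k1, k2,
      k4, k5, k7, k8, zero_smul, one_smul, smul_zero, add_zero, zero_add, self2, hs0] at hA hB
    obtain ⟨a1, a2⟩ := hI2 (c1 + c3 + c4) c3 (by rw [← hA]; module)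
    obtain ⟨a3, a4⟩ := hI2 (c3 + c4) (c2 + c3) (by rw [← hB]; module)
    have z3 : c3 = 0 := a2
    have z4 : c4 = 0 := by rw [z3, zero_add] at a3; exact a3
    have z2 : c2 = 0 := by rw [z3, add_zero] at a4; exact a4
    have z1 : c1 = 0 := by rw [z3, z4, add_zero, add_zero] at a1; exact a1
    subst z1 z2 z3 z4
    simp only [zero_smul, zero_add] at hcs
    have hT2 := congrArg S.th hcs
    simp only [map_add, map_smul, map_zero, ta, tb, tc, td, te, ty, self2, smul_zero, zero_add,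
      smul_eq_mul, mul_one, mul_zero] at hT2
    subst hT2
    have hC2 := congrArg (S.v C) hcs
    rw [zero_smul, add_zero, map_add, map_smul, map_smul, T1 C, T2 C, k9, one_smul, one_smul,
      map_zero] at hC2
    obtain ⟨a5, a6⟩ := hI2 _ _ hC2
    exact hcne ⟨rfl, rfl, rfl, rfl, a5, a6, rfl⟩
  · -- the three-dimensional case
    have hI3 : Ind3 (X a) (X b) s := ind3 hI2 hs0 m3 m4 m6
    obtain ⟨c1, c2, c3, c4, c5, c6, c7, hcne, hcs⟩ := dep7 hc (U a) (U b) (U (a + e0))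
      (U (b + e0)) (U (a + b + e0)) u (U e0)
    have hA := congrArg (S.v A) hcs
    have hB := congrArg (S.v B) hcs
    simp only [map_add, map_smul, map_zero, Ta', Tb', Tc', Td', Te', Ty', u1, u2, dot_add, k1, k2,
      k4, k5, k7, k8, zero_smul, one_smul, smul_zero, add_zero, zero_add] at hA hB
    obtain ⟨a1, a2, a3⟩ := hI3 (c1 + c3 + c5 + c6) c5 c3 (by rw [← hA]; module)
    obtain ⟨a4, a5, a6⟩ := hI3 (c5 + c6) (c2 + c4 + c5) c4 (by rw [← hB]; module)
    have z6 : c6 = 0 := by rw [a2, zero_add] at a4; exact a4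
    have z2 : c2 = 0 := by rw [a6, a2, add_zero, add_zero] at a5; exact a5
    have z1 : c1 = 0 := by rw [a3, a2, z6, add_zero, add_zero, add_zero] at a1; exact a1
    subst z6 z2 z1 a2 a3 a6
    rcases b2 c7 with rfl | rfl
    · exact hcne ⟨rfl, rfl, rfl, rfl, rfl, rfl, rfl⟩
    · simp only [zero_smul, zero_add, one_smul] at hcs
      rw [hcs, map_zero] at ty
      exact zero_ne_one ty

theorem ex1 : ∀ z : Q3, z ≠ 0 → ∃ e : Q3, dot e z = 1 := by
  decide +kernel

/-- the exceptional point -/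
theorem K [Finite W] (S : Sys W F) (hc : Nat.card W ≤ 64) : ∃ (z : Q3) (h : F), z ≠ 0 ∧
    ∀ e, ∃ w, S.T e h w ∧ S.th w = dot e z := by
  classical
  have hl : ∀ e : Q3, ∃ x w, e ≠ 0 → S.T e x w ∧ S.th w = 1 := by
    intro e
    by_cases he : e = 0
    · exact ⟨0, 0, fun h => absurd he h⟩
    · obtain ⟨x, w, h⟩ := line (S := S) e he
      exact ⟨x, w, fun _ => h⟩
  choose X U hX using hl
  have hcard : Nat.card (W × ZMod 2) ≤ 128 := by
    rw [Nat.card_prod, Nat.card_zmod]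
    omega
  obtain ⟨c, hc0, hs⟩ := dep (fun f : Q3 => ((U f, if f = 0 then 1 else 0) : W × ZMod 2)) (by
    have h8 : Fintype.card Q3 = 8 := by decide
    rw [h8]
    omega)
  have s1 : ∑ f, c f • U f = 0 := by
    have h1 := congrArg Prod.fst hs
    rw [Prod.fst_sum] at h1
    exact h1
  have s2 : c 0 = 0 := by
    have h1 := congrArg Prod.snd hs
    rw [Prod.snd_sum] at h1
    have h2 : ∀ f : Q3, (c f • ((U f, if f = 0 then 1 else 0) : W × ZMod 2)).2 =
        if f = 0 then c f else 0 := by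
      intro f
      show c f • (if f = 0 then (1 : ZMod 2) else 0) = _
      split_ifs
      · rw [smul_eq_mul, mul_one]
      · rw [smul_zero]
    simp only [h2] at h1
    rw [Finset.sum_ite_eq', if_pos (Finset.mem_univ _)] at h1
    exact h1
  have s3 : ∑ f, c f = 0 := by
    have h1 := congrArg S.th s1
    rw [map_sum, map_zero] at h1
    rw [← h1]
    refine Finset.sum_congr rfl fun f _ => ?_
    by_cases hf : f = 0
    · rw [hf, s2, zero_smul, map_zero]
    · rw [map_smul, (hX f hf).2, smul_eq_mul, mul_one]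
  have R : ∀ p, ∑ f, (if c f = 1 ∧ dot f p = 1 then X f else 0) = 0 := by
    intro p
    have h1 := congrArg (S.v p) s1
    rw [map_sum, map_zero] at h1
    refine Eq.trans (Finset.sum_congr rfl fun f _ => ?_) h1
    by_cases hf : f = 0
    · rw [hf, s2, zero_smul, map_zero, if_neg]
      rintro ⟨h, -⟩
      exact zero_ne_one h
    · rw [map_smul, (hX f hf).1 p]
      rcases b2 (c f) with h1 | h1 <;> rcases b2 (dot f p) with h2 | h2 <;> rw [h1, h2]
      · rw [zero_smul, if_neg (fun h => zero_ne_one h.1)]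
      · rw [zero_smul, if_neg (fun h => zero_ne_one h.1)]
      · rw [zero_smul, smul_zero, if_neg (fun h => zero_ne_one h.2)]
      · rw [one_smul, one_smul, if_pos ⟨rfl, rfl⟩]
  rw [sum8, s2, zero_add] at s3
  have hcf := cf_eq c s2
  rcases pat _ _ _ _ _ _ _ s3 with h | ⟨p, e, h⟩ | ⟨z, hz, h⟩ | ⟨e0, he0, h⟩
  · exact absurd (funext fun e => by rw [← hcf e]; exact h e) hc0
  · exfalso
    simp only [hcf] at h
    have h1 := R p
    simp only [h] at h1
    rw [Finset.sum_ite_eq', if_pos (Finset.mem_univ _)] at h1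
    have he : e ≠ 0 := by
      rintro rfl
      have h2 := ((h 0).2 rfl).1
      rw [s2] at h2
      exact zero_ne_one h2
    exact (hX e he).1.ne_zero (hX e he).2 h1
  · simp only [hcf] at h
    obtain ⟨e1, he1⟩ := ex1 z hz
    have hne : ∀ e, dot e z = 1 → e ≠ 0 := by
      rintro _ h1 rfl
      have h2 : dot 0 z = 0 := by
        rw [← h, s2]
      rw [h2] at h1
      exact zero_ne_one h1
    have hall : ∀ e, dot e z = 1 → X e = X e1 := by
      intro e he
      by_cases hee : e = e1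
      · rw [hee]
      · obtain ⟨p, hp⟩ := two_pts z e e1 he he1 hee
        have h1 := R p
        simp only [h, hp] at h1
        have h2 : ∀ f : Q3, (if f = e ∨ f = e1 then X f else 0) =
            (if f = e then X f else 0) + (if f = e1 then X f else 0) := by
          intro f
          by_cases h3 : f = e
          · rw [if_pos (Or.inl h3), if_pos h3, if_neg (by rw [h3]; exact hee), add_zero]
          · by_cases h4 : f = e1
            · rw [if_pos (Or.inr h4), if_neg h3, if_pos h4, zero_add]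
            · rw [if_neg (by rintro (h | h); exacts [h3 h, h4 h]), if_neg h3, if_neg h4, add_zero]
        simp only [h2] at h1
        rw [Finset.sum_add_distrib, Finset.sum_ite_eq', Finset.sum_ite_eq',
          if_pos (Finset.mem_univ _), if_pos (Finset.mem_univ _)] at h1
        exact eq_of_add h1
    refine ⟨z, X e1, hz, fun e => ?_⟩
    rcases b2 (dot e z) with he | he
    · have h1 : dot (e + e1) z = 1 := by rw [dot_add, he, he1, zero_add]
      have t1 := (hX _ (hne _ h1)).1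
      rw [hall _ h1] at t1
      have t2 := t1.add (hX _ (hne _ he1)).1
      have e2 : e + e1 + e1 = e := by rw [add_assoc, self2, add_zero]
      rw [e2] at t2
      refine ⟨_, t2, ?_⟩
      rw [map_add, (hX _ (hne _ h1)).2, (hX _ (hne _ he1)).2, he]
      decide
    · have t1 := (hX _ (hne _ he)).1
      rw [hall _ he] at t1
      exact ⟨_, t1, by rw [(hX _ (hne _ he)).2, he]⟩
  · exfalso
    simp only [hcf] at h
    refine six hc X U hX e0 he0 fun a b hTC => ?_
    obtain ⟨p, hp⟩ := three_pts e0 a b hTC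
    have h1 := R p
    simp only [h, hp] at h1
    have n1 : a ≠ b := hTC.2.1.1
    have n2 : a ≠ a + b + e0 := by
      intro h5
      have h6 : b + e0 = 0 := by
        have h7 : a = a + (b + e0) := by rw [← add_assoc]; exact h5
        exact left_eq_add.1 h7
      exact hTC.2.1.2.2 (eq_of_add h6)
    have n3 : b ≠ a + b + e0 := by
      intro h5
      have h6 : a + e0 = 0 := by
        have h7 : b = b + (a + e0) := by
          have h8 : b + (a + e0) = a + b + e0 := by abel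
          rw [h8]; exact h5
        exact left_eq_add.1 h7
      exact hTC.2.1.2.1 (eq_of_add h6)
    have h2 : ∀ f : Q3, (if f = a ∨ f = b ∨ f = a + b + e0 then X f else 0) =
        (if f = a then X f else 0) + (if f = b then X f else 0) +
          (if f = a + b + e0 then X f else 0) := by
      intro f
      by_cases h3 : f = a
      · rw [if_pos (Or.inl h3), if_pos h3, if_neg (by rw [h3]; exact n1),
          if_neg (by rw [h3]; exact n2), add_zero, add_zero]
      · by_cases h4 : f = b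
        · rw [if_pos (Or.inr (Or.inl h4)), if_neg h3, if_pos h4,
            if_neg (by rw [h4]; exact n3), zero_add, add_zero]
        · by_cases h5 : f = a + b + e0
          · rw [if_pos (Or.inr (Or.inr h5)), if_neg h3, if_neg h4, if_pos h5, zero_add, zero_add]
          · rw [if_neg (by rintro (h | h | h); exacts [h3 h, h4 h, h5 h]), if_neg h3, if_neg h4,
              if_neg h5, add_zero, add_zero]
    simp only [h2] at h1
    rw [Finset.sum_add_distrib, Finset.sum_add_distrib, Finset.sum_ite_eq', Finset.sum_ite_eq',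
      Finset.sum_ite_eq', if_pos (Finset.mem_univ _), if_pos (Finset.mem_univ _),
      if_pos (Finset.mem_univ _)] at h1
    exact h1

/-- the first form -/
def FormA (S : Sys W F) (r a b : Q3) (h g k : F) : Prop :=
  (∀ w, ∃ c1 c2 c3 c4 c5 c6 : ZMod 2, S.v r w = c1 • h ∧ S.v a w = c2 • h + c3 • g ∧
    S.v b w = c4 • h + c5 • g + c6 • k ∧ S.th w = c1 + c3 + c6) ∧
  (∀ c1 c2 c3 c4 c5 c6 : ZMod 2, ∃ w, S.v r w = c1 • h ∧ S.v a w = c2 • h + c3 • g ∧
    S.v b w = c4 • h + c5 • g + c6 • k ∧ S.th w = c1 + c3 + c6)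

/-- the second form -/
def FormB (S : Sys W F) (r a b : Q3) (h g2 g1 g3 : F) : Prop :=
  (∀ w, ∃ c1 c2 c3 c4 c5 c6 : ZMod 2, S.v r w = c1 • h ∧ S.v a w = c2 • h + c4 • g2 + c6 • g3 ∧
    S.v b w = c3 • h + c5 • g1 + c6 • g3 ∧ S.th w = c1 + c4 + c5 + c6) ∧
  (∀ c1 c2 c3 c4 c5 c6 : ZMod 2, ∃ w, S.v r w = c1 • h ∧ S.v a w = c2 • h + c4 • g2 + c6 • g3 ∧
    S.v b w = c3 • h + c5 • g1 + c6 • g3 ∧ S.th w = c1 + c4 + c5 + c6)

theorem formA [Finite W] (hc : Nat.card W ≤ 64) {r a b er ea eb : Q3} (hDB : DB r a b er ea eb)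
    {h g k : F} (hI : Ind3 h g k) {w1 w2 w3 w4 w5 w6 : W}
    (t1 : ∀ p, S.v p w1 = dot er p • h) (t2 : ∀ p, S.v p w2 = dot ea p • h)
    (t3 : ∀ p, S.v p w3 = dot ea p • g) (t4 : ∀ p, S.v p w4 = dot eb p • h)
    (t5 : ∀ p, S.v p w5 = dot eb p • g) (t6 : ∀ p, S.v p w6 = dot eb p • k)
    (s1 : S.th w1 = 1) (s2 : S.th w2 = 0) (s3 : S.th w3 = 1) (s4 : S.th w4 = 0)
    (s5 : S.th w5 = 0) (s6 : S.th w6 = 1) : FormA S r a b h g k := by
  obtain ⟨⟨k1, k2, k3⟩, ⟨k4, k5, k6⟩, ⟨k7, k8, k9⟩⟩ := hDB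
  have ev : ∀ c1 c2 c3 c4 c5 c6 : ZMod 2,
      S.v r (c1 • w1 + c2 • w2 + c3 • w3 + c4 • w4 + c5 • w5 + c6 • w6) = c1 • h ∧
      S.v a (c1 • w1 + c2 • w2 + c3 • w3 + c4 • w4 + c5 • w5 + c6 • w6) = c2 • h + c3 • g ∧
      S.v b (c1 • w1 + c2 • w2 + c3 • w3 + c4 • w4 + c5 • w5 + c6 • w6) =
        c4 • h + c5 • g + c6 • k ∧
      S.th (c1 • w1 + c2 • w2 + c3 • w3 + c4 • w4 + c5 • w5 + c6 • w6) = c1 + c3 + c6 := by
    intro c1 c2 c3 c4 c5 c6
    refine ⟨?_, ?_, ?_, ?_⟩
    · simp only [map_add, map_smul, t1, t2, t3, t4, t5, t6, k1, k4, k7, zero_smul, one_smul,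
        smul_zero, add_zero]
    · simp only [map_add, map_smul, t1, t2, t3, t4, t5, t6, k2, k5, k8, zero_smul, one_smul,
        smul_zero, add_zero, zero_add]
    · simp only [map_add, map_smul, t1, t2, t3, t4, t5, t6, k3, k6, k9, zero_smul, one_smul,
        smul_zero, add_zero, zero_add]
    · simp only [map_add, map_smul, s1, s2, s3, s4, s5, s6, smul_eq_mul, mul_one, mul_zero,
        add_zero]
  refine ⟨fun w => ?_, fun c1 c2 c3 c4 c5 c6 => ⟨_, ev c1 c2 c3 c4 c5 c6⟩⟩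
  obtain ⟨c1, c2, c3, c4, c5, c6, c7, hcne, hcs⟩ := dep7 hc w1 w2 w3 w4 w5 w6 w
  rcases b2 c7 with rfl | rfl
  · exfalso
    rw [zero_smul, add_zero] at hcs
    obtain ⟨e1, e2, e3, -⟩ := ev c1 c2 c3 c4 c5 c6
    rw [hcs, map_zero] at e1 e2 e3
    obtain ⟨z1, -, -⟩ := hI c1 0 0 (by rw [← e1, zero_smul, zero_smul, add_zero, add_zero])
    obtain ⟨z2, z3, -⟩ := hI c2 c3 0 (by rw [← e2, zero_smul, add_zero])
    obtain ⟨z4, z5, z6⟩ := hI c4 c5 c6 e3.symm
    exact hcne ⟨z1, z2, z3, z4, z5, z6, rfl⟩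
  · rw [one_smul] at hcs
    have := eq_of_add hcs
    rw [← this]
    exact ⟨c1, c2, c3, c4, c5, c6, ev c1 c2 c3 c4 c5 c6⟩

theorem formB [Finite W] (hc : Nat.card W ≤ 64) {r a b er ea eb : Q3} (hDB : DB r a b er ea eb)
    {h g2 g1 g3 : F} (hI : Ind4 h g2 g1 g3) {w1 w2 w3 w4 w5 w6 : W}
    (t1 : ∀ p, S.v p w1 = dot er p • h) (t2 : ∀ p, S.v p w2 = dot ea p • h)
    (t3 : ∀ p, S.v p w3 = dot eb p • h) (t4 : ∀ p, S.v p w4 = dot ea p • g2)
    (t5 : ∀ p, S.v p w5 = dot eb p • g1) (t6 : ∀ p, S.v p w6 = dot (ea + eb) p • g3)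
    (s1 : S.th w1 = 1) (s2 : S.th w2 = 0) (s3 : S.th w3 = 0) (s4 : S.th w4 = 1)
    (s5 : S.th w5 = 1) (s6 : S.th w6 = 1) : FormB S r a b h g2 g1 g3 := by
  obtain ⟨⟨k1, k2, k3⟩, ⟨k4, k5, k6⟩, ⟨k7, k8, k9⟩⟩ := hDB
  have ev : ∀ c1 c2 c3 c4 c5 c6 : ZMod 2,
      S.v r (c1 • w1 + c2 • w2 + c3 • w3 + c4 • w4 + c5 • w5 + c6 • w6) = c1 • h ∧
      S.v a (c1 • w1 + c2 • w2 + c3 • w3 + c4 • w4 + c5 • w5 + c6 • w6) =
        c2 • h + c4 • g2 + c6 • g3 ∧
      S.v b (c1 • w1 + c2 • w2 + c3 • w3 + c4 • w4 + c5 • w5 + c6 • w6) =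
        c3 • h + c5 • g1 + c6 • g3 ∧
      S.th (c1 • w1 + c2 • w2 + c3 • w3 + c4 • w4 + c5 • w5 + c6 • w6) = c1 + c4 + c5 + c6 := by
    intro c1 c2 c3 c4 c5 c6
    refine ⟨?_, ?_, ?_, ?_⟩
    · simp only [map_add, map_smul, t1, t2, t3, t4, t5, t6, dot_add, k1, k4, k7, zero_smul,
        one_smul, smul_zero, add_zero]
    · simp only [map_add, map_smul, t1, t2, t3, t4, t5, t6, dot_add, k2, k5, k8, zero_smul,
        one_smul, smul_zero, add_zero, zero_add]
    · simp only [map_add, map_smul, t1, t2, t3, t4, t5, t6, dot_add, k3, k6, k9, zero_smul,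
        one_smul, smul_zero, add_zero, zero_add]
    · simp only [map_add, map_smul, s1, s2, s3, s4, s5, s6, smul_eq_mul, mul_one, mul_zero,
        add_zero]
  refine ⟨fun w => ?_, fun c1 c2 c3 c4 c5 c6 => ⟨_, ev c1 c2 c3 c4 c5 c6⟩⟩
  obtain ⟨c1, c2, c3, c4, c5, c6, c7, hcne, hcs⟩ := dep7 hc w1 w2 w3 w4 w5 w6 w
  rcases b2 c7 with rfl | rfl
  · exfalso
    rw [zero_smul, add_zero] at hcs
    obtain ⟨e1, e2, e3, -⟩ := ev c1 c2 c3 c4 c5 c6
    rw [hcs, map_zero] at e1 e2 e3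
    obtain ⟨z1, -, -, -⟩ := hI c1 0 0 0 (by
      rw [← e1, zero_smul, zero_smul, zero_smul, add_zero, add_zero, add_zero])
    obtain ⟨z2, z4, -, z6⟩ := hI c2 c4 0 c6 (by rw [zero_smul, add_zero]; exact e2.symm)
    obtain ⟨z3, -, z5, -⟩ := hI c3 0 c5 c6 (by rw [zero_smul, add_zero]; exact e3.symm)
    exact hcne ⟨z1, z2, z3, z4, z5, z6, rfl⟩
  · rw [one_smul] at hcs
    have := eq_of_add hcs
    rw [← this]
    exact ⟨c1, c2, c3, c4, c5, c6, ev c1 c2 c3 c4 c5 c6⟩

theorem cls [Finite W] (S : Sys W F) (hc : Nat.card W ≤ 64) : ∃ r a b er ea eb : Q3,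
    DB r a b er ea eb ∧ dExp r a b er ea eb ∧
    ((∃ h g k, Ind3 h g k ∧ FormA S r a b h g k) ∨
      (∃ h g2 g1 g3, Ind4 h g2 g1 g3 ∧ FormB S r a b h g2 g1 g3)) := by
  classical
  obtain ⟨z, h, hz, hK⟩ := K S hc
  choose H hH using hK
  have hl : ∀ e : Q3, ∃ x w, e ≠ 0 → S.T e x w ∧ S.th w = 1 := by
    intro e
    by_cases he : e = 0
    · exact ⟨0, 0, fun h => absurd he h⟩
    · obtain ⟨x, w, h⟩ := line (S := S) e he
      exact ⟨x, w, fun _ => h⟩
  choose X U hX using hl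
  have hh : h ≠ 0 := by
    obtain ⟨e, he⟩ := ex1 z hz
    exact (hH e).1.ne_zero (by rw [(hH e).2, he])
  have nx : ∀ e, e ≠ 0 → X e ≠ 0 := fun e he => (hX e he).1.ne_zero (hX e he).2
  have nh : ∀ e, e ≠ 0 → dot e z = 0 → h + X e ≠ 0 := by
    intro e he hez h1
    exact (hX e he).1.ne (hH e).1 (hX e he).2 (by rw [(hH e).2, hez]) (eq_of_add h1).symm
  have ec : ∀ e e' : Q3, e + (e + e') = e' := by
    intro e e'
    rw [← add_assoc, self2, zero_add]
  by_cases hA : ∃ e1 e3 : Q3, DC z e1 e3 ∧ (X (e1 + e3) = X e1 ∨ X (e1 + e3) = X e1 + h)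
  · obtain ⟨e1, e3, hDC, hx⟩ := hA
    obtain ⟨er, a, b, hDB, hE⟩ := db3 z e1 e3 hDC
    obtain ⟨⟨n1, n3, n13⟩, -, d1, d3⟩ := hDC
    have n2 : e1 + e3 ≠ 0 := fun h => n13 (eq_of_add h)
    have d2 : dot (e1 + e3) z = 0 := by rw [dot_add, d1, d3, add_zero]
    obtain ⟨w', hw', hw1⟩ : ∃ w', S.T (e1 + e3) (X e1) w' ∧ S.th w' = 1 := by
      have t := hX _ n2
      rcases hx with hx | hx
      · rw [hx] at t
        exact ⟨_, t⟩
      · rw [hx] at t
        refine ⟨U (e1 + e3) + H (e1 + e3), ?_, ?_⟩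
        · have t1 := t.1.addx (hH (e1 + e3)).1
          rwa [add_assoc, self2, add_zero] at t1
        · rw [map_add, t.2, (hH _).2, d2, add_zero]
    have tm := (hX _ n1).1.add hw'
    rw [ec] at tm
    have sm : S.th (U e1 + w') = 0 := by
      rw [map_add, (hX _ n1).2, hw1]
      decide
    have q1 : X e1 + X e3 ≠ 0 := by
      intro h1
      exact (hX _ n3).1.ne tm (hX _ n3).2 sm (eq_of_add h1).symm
    have q2 : h + X e1 + X e3 ≠ 0 := by
      intro h1
      refine (hX _ n3).1.ne ((hH e3).1.addx tm) (hX _ n3).2 ?_ (eq_of_add h1).symm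
      rw [map_add, (hH _).2, d3, sm, add_zero]
    have hI : Ind3 h (X e1) (X e3) :=
      ind3 (ind2 hh (nx _ n1) (nh _ n1 d1)) (nx _ n3) (nh _ n3 d3) q1 q2
    refine ⟨z, a, b, er, e1, e3, hDB, hE, Or.inl ⟨h, X e1, X e3, hI, ?_⟩⟩
    exact formA hc hDB hI (hH er).1 (hH e1).1 (hX _ n1).1 (hH e3).1 tm (hX _ n3).1
      (by rw [(hH _).2]; exact hDB.1.1) (by rw [(hH _).2]; exact d1) (hX _ n1).2
      (by rw [(hH _).2]; exact d3) sm (hX _ n3).2
  · have hA' : ∀ e1 e3 : Q3, DC z e1 e3 → X (e1 + e3) ≠ X e1 ∧ X (e1 + e3) ≠ X e1 + h := by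
      intro e1 e3 h1
      constructor
      · intro h2
        exact hA ⟨e1, e3, h1, Or.inl h2⟩
      · intro h2
        exact hA ⟨e1, e3, h1, Or.inr h2⟩
    obtain ⟨e1, e3, hDC⟩ := pair_ex z hz
    obtain ⟨er, a, b, hDB, hE⟩ := db3 z e1 e3 hDC
    obtain ⟨⟨n1, n3, n13⟩, -, d1, d3⟩ := hDC
    have n2 : e1 + e3 ≠ 0 := fun h => n13 (eq_of_add h)
    have d2 : dot (e1 + e3) z = 0 := by rw [dot_add, d1, d3, add_zero]
    obtain ⟨a1, a2⟩ := hA' e1 e3 ⟨⟨n1, n3, n13⟩, hz, d1, d3⟩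
    obtain ⟨a3, a4⟩ := hA' e3 e1 ⟨⟨n3, n1, n13.symm⟩, hz, d3, d1⟩
    obtain ⟨a5, a6⟩ := hA' e1 (e1 + e3) ⟨⟨n1, n2, fun h => n3 (left_eq_add.1 h)⟩, hz, d1, d2⟩
    rw [ec] at a5 a6
    rw [add_comm e3 e1] at a3 a4
    have m1 := nx _ n1
    have m2 := nx _ n2
    have m3 := nx _ n3
    have m4 := nh _ n1 d1
    have m5 := nh _ n2 d2
    have m6 := nh _ n3 d3
    have hI : Ind3 h (X e1) (X e3) := by
      refine ind3 (ind2 hh m1 m4) m3 m6 (fun h1 => a5 (eq_of_add h1).symm) (fun h1 => a6 ?_)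
      rw [add_comm (X e1) h]
      exact (eq_of_add h1).symm
    have T1 : ∀ p, S.v p (U e1) = dot e1 p • X e1 := (hX _ n1).1
    have T3 : ∀ p, S.v p (U e3) = dot e3 p • X e3 := (hX _ n3).1
    have T2 : ∀ p, S.v p (U (e1 + e3)) = dot (e1 + e3) p • X (e1 + e3) := (hX _ n2).1
    have TH : ∀ e p, S.v p (H e) = dot e p • h := fun e => (hH e).1
    obtain ⟨⟨k1, k2, k3⟩, ⟨k4, k5, k6⟩, ⟨k7, k8, k9⟩⟩ := id hDB
    by_cases hd : ∃ ε : ZMod 2, X (e1 + e3) = X e1 + X e3 + ε • h
    · exfalso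
      obtain ⟨ε, hε⟩ := hd
      obtain ⟨u, u1, u2⟩ := S.link a b (U e1) (U e3 + U (e1 + e3) + ε • H e3) (by
        simp only [map_add, map_smul, T1, T2, T3, TH, dot_add, k5, k6, k9, hε, one_smul, zero_add]
        have h1 : X e3 + (X e1 + X e3 + ε • h) + ε • h = X e1 + (X e3 + X e3) +
          (ε • h + ε • h) := by abel
        rw [h1, self2, self2, add_zero, add_zero])
      rw [T1, k5, one_smul] at u1 u2
      obtain ⟨c1, c2, c3, c4, c5, c6, c7, hcne, hcs⟩ := dep7 hc (H er) (H e1) (H e3) (U e1) (U e3)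
        (U (e1 + e3)) u
      have hAA := congrArg (S.v a) hcs
      have hBB := congrArg (S.v b) hcs
      simp only [map_add, map_smul, map_zero, T1, T2, T3, TH, u1, u2, dot_add, k2, k3, k5, k6, k8,
        k9, hε, zero_smul, one_smul, smul_zero, add_zero, zero_add] at hAA hBB
      obtain ⟨b1, b2', b3⟩ := hI (c2 + c6 * ε) (c4 + c6 + c7) c6 (by rw [← hAA]; module)
      obtain ⟨b4, b5, b6⟩ := hI (c3 + c6 * ε) (c6 + c7) (c5 + c6) (by rw [← hBB]; module)
      subst b3
      rw [zero_mul, add_zero] at b1 b4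
      rw [zero_add] at b5
      rw [add_zero] at b6
      subst b1 b4 b5 b6
      rw [add_zero, add_zero] at b2'
      subst b2'
      simp only [zero_smul, add_zero] at hcs
      have h1 := congrArg S.th hcs
      rw [map_smul, (hH _).2, k1, map_zero, smul_eq_mul, mul_one] at h1
      exact hcne ⟨h1, rfl, rfl, rfl, rfl, rfl, rfl⟩
    · have hI4 : Ind4 h (X e1) (X e3) (X (e1 + e3)) := by
        refine ind4 hI m2 m5 (fun h1 => a1 (eq_of_add h1).symm) (fun h1 => a3 (eq_of_add h1).symm)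
          (fun h1 => a2 ?_) (fun h1 => a4 ?_) (fun h1 => hd ⟨0, ?_⟩) (fun h1 => hd ⟨1, ?_⟩)
        · rw [add_comm (X e1) h]
          exact (eq_of_add h1).symm
        · rw [add_comm (X e3) h]
          exact (eq_of_add h1).symm
        · rw [zero_smul, add_zero]
          exact (eq_of_add h1).symm
        · rw [one_smul, ← eq_of_add h1]
          abel
      refine ⟨z, a, b, er, e1, e3, hDB, hE, Or.inr ⟨h, X e1, X e3, X (e1 + e3), hI4, ?_⟩⟩
      exact formB hc hDB hI4 (hH er).1 (hH e1).1 (hH e3).1 (hX _ n1).1 (hX _ n3).1 (hX _ n2).1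
        (by rw [(hH _).2]; exact k1) (by rw [(hH _).2]; exact d1) (by rw [(hH _).2]; exact d3)
        (hX _ n1).2 (hX _ n3).2 (hX _ n2).2

end Sys

end Pool.Agent.Run7.h948.QF
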