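import Pool.Agent.Run7.h948.QF.Count
import Pool.Agent.Run7.h948.QF.Sys

/-! The linked system of a linked family at three elements. -/

set_option autoImplicit false

namespace Pool.Agent.Run7.h948.QF

open Pool.Agent.N88.TS Pool.Agent.W622.ETG Pool.Agent.TH188.ETP Pool.Agent.TH188.ETV
  Pool.Agent.H315R3.ETC Module
open Pool.Agent.TH188.ET (exists_char exists_factor)

theorem dual_card (B : Type) [AddCommGroup B] [Finite B] (hB : ∀ b : B, b + b = 0) :
    Finite (B →+ ZMod 2) ∧ Nat.card (B →+ ZMod 2) ≤ Nat.card B := by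
  let _ : Module (ZMod 2) B := AddCommGroup.zmodModule (n := 2) (by
    intro x
    rw [two_smul]
    exact hB x)
  have hf : Finite (Module.Dual (ZMod 2) B) := DFunLike.finite _
  have hinj : Function.Injective (fun f : B →+ ZMod 2 =>
      (AddMonoidHom.toZModLinearMap 2 f : Module.Dual (ZMod 2) B)) := by
    intro f g hfg
    ext b
    exact LinearMap.congr_fun hfg b
  refine ⟨Finite.of_injective _ hinj, ?_⟩
  have h1 := Nat.card_le_card_of_injective _ hinj
  have h2 : Nat.card (Module.Dual (ZMod 2) B) = Nat.card B := by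
    rw [Module.natCard_eq_pow_finrank (K := ZMod 2), Module.natCard_eq_pow_finrank (K := ZMod 2)
      (V := B), Subspace.dual_finrank_eq]
  exact h1.trans h2.le

section
variable {V : Type} [AddCommGroup V] [Module (ZMod 2) V] [Finite V] {A : Fam V} {x y z : V}
  {f : Dl V}

omit [Finite V] in
theorem ex2 (A : Fam V) (t : (A → ZMod 2) × ZMod 2) : t + t = 0 := by
  refine Prod.ext ?_ ?_
  · funext ω
    exact CharTwo.add_self_eq_zero _
  · exact CharTwo.add_self_eq_zero _

/-- the sum of the value groups -/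
def EP (A : Fam V) (x y z : V) (f : Dl V) : AddSubgroup ((A → ZMod 2) × ZMod 2) :=
  (gp A x y z f (1, 0, 0)).range ⊔ (gp A x y z f (0, 1, 0)).range ⊔
    (gp A x y z f (0, 0, 1)).range

omit [Finite V] in
theorem gp_mem (p : Q3) (b : V) : gp A x y z f p b ∈ EP A x y z f := by
  have m1 : gp A x y z f (1, 0, 0) b ∈ EP A x y z f :=
    AddSubgroup.mem_sup_left (AddSubgroup.mem_sup_left ⟨b, rfl⟩)
  have m2 : gp A x y z f (0, 1, 0) b ∈ EP A x y z f :=
    AddSubgroup.mem_sup_left (AddSubgroup.mem_sup_right ⟨b, rfl⟩)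
  have m3 : gp A x y z f (0, 0, 1) b ∈ EP A x y z f := AddSubgroup.mem_sup_right ⟨b, rfl⟩
  rcases q8 p with (rfl | rfl | rfl | rfl) | (rfl | rfl | rfl | rfl)
  · have h := gp_add A x y z f 0 0 b
    rw [add_zero] at h
    rw [left_eq_add.1 h]
    exact zero_mem _
  · exact m1
  · exact m2
  · rw [show ((1, 1, 0) : Q3) = (1, 0, 0) + (0, 1, 0) by decide, gp_add]
    exact add_mem m1 m2
  · exact m3
  · rw [show ((1, 0, 1) : Q3) = (1, 0, 0) + (0, 0, 1) by decide, gp_add]
    exact add_mem m1 m3
  · rw [show ((0, 1, 1) : Q3) = (0, 1, 0) + (0, 0, 1) by decide, gp_add]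
    exact add_mem m2 m3
  · rw [show ((1, 1, 1) : Q3) = (1, 0, 0) + (0, 1, 0) + (0, 0, 1) by decide, gp_add, gp_add]
    exact add_mem (add_mem m1 m2) m3

/-- the maps into the sum -/
def jj (A : Fam V) (x y z : V) (f : Dl V) (p : Q3) : V →+ EP A x y z f :=
  (gp A x y z f p).codRestrict (EP A x y z f) (fun b => gp_mem p b)

theorem gslot (hL : Linked A) (hodd : ∀ p : P3, ep p = 1 → In A (pb x y z p) f) (p q : P3)
    (b b' : V) (h : gp A x y z f p b = gp A x y z f q b') :
    ∃ c, gp A x y z f p c = gp A x y z f p b ∧ gp A x y z f q c = gp A x y z f q b' := by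
  rw [gp_apply, gp_apply] at h
  obtain ⟨c, c1, c2⟩ := slot hL _ _ b b' (congrArg Prod.fst h)
  refine ⟨c, ?_, ?_⟩
  · rw [gp_apply, gp_apply, c1]
    refine Prod.ext rfl ?_
    show ep p * f c = ep p * f b
    rcases zz (ep p) with h1 | h1
    · rw [h1, zero_mul, zero_mul]
    · rw [in_vl (hodd p h1) c1]
  · rw [gp_apply, gp_apply, c2]
    refine Prod.ext rfl ?_
    show ep q * f c = ep q * f b'
    rcases zz (ep q) with h1 | h1
    · rw [h1, zero_mul, zero_mul]
    · rw [in_vl (hodd q h1) c2]

/-- the linked system -/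
noncomputable def sysOf (hL : Linked A) (hodd : ∀ p : P3, ep p = 1 → In A (pb x y z p) f)
    (hno : ∀ ω ∈ A, ω x = f → ω y = f → ω z = f → False) :
    Sys (EP A x y z f →+ ZMod 2) (Dl V) where
  v p :=
    { toFun := fun w => AddMonoidHom.toZModLinearMap 2 (w.comp (jj A x y z f p))
      map_add' := fun _ _ => rfl
      map_smul' := fun _ _ => rfl }
  th :=
    { toFun := fun w => w ⟨(0, 1), h3 hno⟩
      map_add' := fun _ _ => rfl
      map_smul' := fun _ _ => rfl }
  lin p q w := by
    refine LinearMap.ext fun b => ?_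
    show w (jj A x y z f (p + q) b) = w (jj A x y z f p b) + w (jj A x y z f q b)
    rw [← map_add]
    congr 1
    exact Subtype.ext (gp_add A x y z f p q b)
  inj w hw := by
    have h1 : EP A x y z f ≤ w.ker.map (EP A x y z f).subtype := by
      have h2 : ∀ p, (gp A x y z f p).range ≤ w.ker.map (EP A x y z f).subtype := by
        rintro p _ ⟨b, rfl⟩
        exact ⟨jj A x y z f p b, LinearMap.congr_fun (hw p) b, rfl⟩
      exact sup_le (sup_le (h2 _) (h2 _)) (h2 _)
    ext t
    obtain ⟨s, hs, hst⟩ := h1 t.2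
    have h3 : s = t := Subtype.ext hst
    rw [← h3]
    exact hs
  link p q w w' h := by
    have hb : ∀ b, w (jj A x y z f p b) = w' (jj A x y z f q b) := fun b =>
      LinearMap.congr_fun h b
    obtain ⟨k, hk⟩ := exists_factor (ex2 A)
      (AddMonoidHom.mk' (fun s : V × V => gp A x y z f p s.1 + gp A x y z f q s.2) (by
        intro s s'
        rw [Prod.fst_add, Prod.snd_add, map_add, map_add]
        abel))
      (AddMonoidHom.mk' (fun s : V × V => w (jj A x y z f p s.1) + w (jj A x y z f p s.2)) (by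
        intro s s'
        rw [Prod.fst_add, Prod.snd_add, map_add, map_add, map_add, map_add]
        abel)) (by
      rintro ⟨b, b'⟩ h1
      have h2 : gp A x y z f p b + gp A x y z f q b' = 0 := h1
      have h3 : gp A x y z f p b = gp A x y z f q b' := by
        have h4 := ex2 A (gp A x y z f q b')
        rw [← h4] at h2
        exact add_right_cancel h2
      obtain ⟨c, c1, c2⟩ := gslot hL hodd p q b b' h3
      have j1 : jj A x y z f p c = jj A x y z f p b := Subtype.ext c1
      have j2 : jj A x y z f q c = jj A x y z f q b' := Subtype.ext c2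
      show w (jj A x y z f p b) + w (jj A x y z f p b') = 0
      rw [hb b', ← j1, ← j2, hb c]
      exact CharTwo.add_self_eq_zero _)
    refine ⟨k.comp (EP A x y z f).subtype, ?_, ?_⟩
    · refine LinearMap.ext fun b => ?_
      have h1 := hk (b, 0)
      have h2 : k (gp A x y z f p b + gp A x y z f q 0) =
        w (jj A x y z f p b) + w (jj A x y z f p 0) := h1
      rw [map_zero, add_zero, map_zero, map_zero, add_zero] at h2
      exact h2
    · refine LinearMap.ext fun b => ?_
      have h1 := hk (0, b)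
      have h2 : k (gp A x y z f p 0 + gp A x y z f q b) =
        w (jj A x y z f p 0) + w (jj A x y z f p b) := h1
      rw [map_zero, zero_add, map_zero, map_zero, zero_add] at h2
      exact h2
  out p q := by
    obtain ⟨χ, h1, h2⟩ := exists_char _ (fun t => by
      rw [ex2]; exact zero_mem _) _ (h2 hL hodd p q)
    refine ⟨χ.comp (EP A x y z f).subtype, ?_, ?_, (zz _).resolve_left h2⟩
    · exact LinearMap.ext fun b => h1 _ (AddSubgroup.mem_sup_left ⟨b, rfl⟩)
    · exact LinearMap.ext fun b => h1 _ (AddSubgroup.mem_sup_right ⟨b, rfl⟩)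

theorem sys_of_mem (hL : Linked A) (hodd : ∀ p : P3, ep p = 1 → In A (pb x y z p) f)
    (hno : ∀ ω ∈ A, ω x = f → ω y = f → ω z = f → False) {ω : Frm V} (hω : ω ∈ A) :
    ∃ w, (sysOf hL hodd hno).th w = 0 ∧ ∀ p, (sysOf hL hodd hno).v p w = ω (pb x y z p) := by
  refine ⟨((Pi.evalAddMonoidHom (fun _ : A => ZMod 2) ⟨ω, hω⟩).comp
    (AddMonoidHom.fst _ _)).comp (EP A x y z f).subtype, rfl, fun p => ?_⟩
  exact LinearMap.ext fun b => rfl

theorem mem_of_sys (hL : Linked A) (hodd : ∀ p : P3, ep p = 1 → In A (pb x y z p) f)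
    (hno : ∀ ω ∈ A, ω x = f → ω y = f → ω z = f → False) (w : EP A x y z f →+ ZMod 2)
    (hw : (sysOf hL hodd hno).th w = 0) :
    ∃ ω ∈ A, ∀ p, (sysOf hL hodd hno).v p w = ω (pb x y z p) := by
  obtain ⟨k, hk⟩ := exists_factor (ex2 A) (EP A x y z f).subtype w (by
    intro t ht
    have : t = 0 := Subtype.ext ht
    rw [this, map_zero])
  obtain ⟨ω, hω, hω'⟩ := rep A (k.comp (AddMonoidHom.inl (A → ZMod 2) (ZMod 2)))
  refine ⟨ω, hω, fun p => LinearMap.ext fun b => ?_⟩
  have h0 : k (0, 1) = 0 := by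
    have h1 := hk ⟨(0, 1), h3 hno⟩
    exact h1.trans hw
  have h1 : ∀ s : ZMod 2, k (0, s) = 0 := by
    intro s
    rcases zz s with rfl | rfl
    · exact map_zero k
    · exact h0
  have h2 := hk (jj A x y z f p b)
  have h3' : k (gp A x y z f p b) = w (jj A x y z f p b) := h2
  show w (jj A x y z f p b) = ω (pb x y z p) b
  rw [← h3', gp_apply, ← hω']
  have h4 : ((vl A (pb x y z p) b, ep p * f b) : (A → ZMod 2) × ZMod 2) =
      (vl A (pb x y z p) b, 0) + (0, ep p * f b) := by
    rw [Prod.mk_add_mk, add_zero, zero_add]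
  rw [h4, map_add, h1, add_zero]
  rfl

end

end Pool.Agent.Run7.h948.QF
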