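import Mathlib

/-! Linked systems of at most 64 linear maps on a three-dimensional space over the field with two
elements: finite combinatorics. -/

set_option autoImplicit false

namespace Pool.Agent.Run7.h948.QF

/-- points and lines of the Fano plane (and zero) -/
abbrev Q3 : Type := ZMod 2 × ZMod 2 × ZMod 2

/-- the pairing of lines and points -/
def dot (e p : Q3) : ZMod 2 := e.1 * p.1 + e.2.1 * p.2.1 + e.2.2 * p.2.2

theorem b2 (a : ZMod 2) : a = 0 ∨ a = 1 := by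
  revert a; decide

theorem dot_add (e e' p : Q3) : dot (e + e') p = dot e p + dot e' p := by
  simp only [dot, Prod.fst_add, Prod.snd_add]
  ring

theorem dot_add' (e p q : Q3) : dot e (p + q) = dot e p + dot e q := by
  simp only [dot, Prod.fst_add, Prod.snd_add]
  ring

/-- the function with the given values -/
def cf (c1 c2 c3 c4 c5 c6 c7 : ZMod 2) (e : Q3) : ZMod 2 :=
  if e = (1,0,0) then c1 else if e = (0,1,0) then c2 else if e = (1,1,0) then c3 else
  if e = (0,0,1) then c4 else if e = (1,0,1) then c5 else if e = (0,1,1) then c6 else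
  if e = (1,1,1) then c7 else 0

theorem q8 : ∀ e : Q3, (e = 0 ∨ e = (1,0,0) ∨ e = (0,1,0) ∨ e = (1,1,0)) ∨
    (e = (0,0,1) ∨ e = (1,0,1) ∨ e = (0,1,1) ∨ e = (1,1,1)) := by
  decide

theorem cf_eq (c : Q3 → ZMod 2) (h : c 0 = 0) (e : Q3) :
    cf (c (1,0,0)) (c (0,1,0)) (c (1,1,0)) (c (0,0,1)) (c (1,0,1)) (c (0,1,1)) (c (1,1,1)) e =
      c e := by
  unfold cf
  split_ifs with h1 h2 h3 h4 h5 h6 h7
  · rw [h1]
  · rw [h2]
  · rw [h3]
  · rw [h4]
  · rw [h5]
  · rw [h6]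
  · rw [h7]
  · rcases q8 e with (h8 | h8 | h8 | h8) | (h8 | h8 | h8 | h8)
    · rw [h8, h]
    · exact absurd h8 h1
    · exact absurd h8 h2
    · exact absurd h8 h3
    · exact absurd h8 h4
    · exact absurd h8 h5
    · exact absurd h8 h6
    · exact absurd h8 h7

theorem sum8 {M : Type} [AddCommMonoid M] (g : Q3 → M) : ∑ f, g f = g 0 + (g (1,0,0) + g (0,1,0) +
    g (1,1,0) + g (0,0,1) + g (1,0,1) + g (0,1,1) + g (1,1,1)) := by
  have h : (Finset.univ : Finset Q3) = {0, (1,0,0), (0,1,0), (1,1,0), (0,0,1), (1,0,1), (0,1,1),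
    (1,1,1)} := by decide
  rw [h, Finset.sum_insert (by decide), Finset.sum_insert (by decide),
    Finset.sum_insert (by decide), Finset.sum_insert (by decide), Finset.sum_insert (by decide),
    Finset.sum_insert (by decide), Finset.sum_insert (by decide), Finset.sum_singleton]
  simp only [add_assoc]

instance (c : Q3 → ZMod 2) (p e : Q3) : Decidable (∀ f : Q3, (c f = 1 ∧ dot f p = 1) ↔ f = e) :=
  inferInstance
instance (c : Q3 → ZMod 2) : Decidable (∃ p e : Q3, ∀ f : Q3, (c f = 1 ∧ dot f p = 1) ↔ f = e) :=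
  inferInstance
instance (c : Q3 → ZMod 2) : Decidable (∃ z : Q3, z ≠ 0 ∧ ∀ e : Q3, c e = dot e z) :=
  inferInstance
instance (c : Q3 → ZMod 2) : Decidable (∃ e0 : Q3, e0 ≠ 0 ∧ ∀ e : Q3, c e = 1 ↔ (e ≠ 0 ∧ e ≠ e0)) :=
  inferInstance

set_option maxRecDepth 100000 in
theorem pat : ∀ c1 c2 c3 c4 c5 c6 c7 : ZMod 2, c1 + c2 + c3 + c4 + c5 + c6 + c7 = 0 →
    (∀ e, cf c1 c2 c3 c4 c5 c6 c7 e = 0) ∨
    (∃ p e, ∀ f, (cf c1 c2 c3 c4 c5 c6 c7 f = 1 ∧ dot f p = 1) ↔ f = e) ∨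
    (∃ z, z ≠ 0 ∧ ∀ e, cf c1 c2 c3 c4 c5 c6 c7 e = dot e z) ∨
    ∃ e0, e0 ≠ 0 ∧ ∀ e, cf c1 c2 c3 c4 c5 c6 c7 e = 1 ↔ (e ≠ 0 ∧ e ≠ e0) := by
  decide +kernel

theorem two_pts : ∀ z e e' : Q3, dot e z = 1 → dot e' z = 1 → e ≠ e' →
    ∃ p, ∀ f, (dot f z = 1 ∧ dot f p = 1) ↔ (f = e ∨ f = e') := by
  decide +kernel

/-- three lines through no common point, with a point on the others -/
def TP (e0 a b : Q3) : Prop := ∃ p : Q3, ∀ f : Q3, ((f ≠ 0 ∧ f ≠ e0) ∧ dot f p = 1) ↔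
    (f = a ∨ f = b ∨ f = a + b + e0)
/-- three independent lines -/
def TC (e0 a b : Q3) : Prop := (e0 ≠ 0 ∧ a ≠ 0 ∧ b ≠ 0) ∧ (a ≠ b ∧ a ≠ e0 ∧ b ≠ e0) ∧ a + b ≠ e0
instance (e0 a b p : Q3) : Decidable (∀ f : Q3, ((f ≠ 0 ∧ f ≠ e0) ∧ dot f p = 1) ↔
    (f = a ∨ f = b ∨ f = a + b + e0)) := inferInstance
instance (e0 a b : Q3) : Decidable (TP e0 a b) := by unfold TP; infer_instance
instance (e0 a b : Q3) : Decidable (TC e0 a b) := by unfold TC; infer_instance
theorem three_pts : ∀ e0 a b : Q3, TC e0 a b → TP e0 a b := by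
  decide +kernel

instance (e p q s : Q3) : Decidable (∀ u : Q3,
      (dot e u = 0 → u = 0 ∨ u = p ∨ u = q ∨ u = p + q) ∧
      (dot e u = 1 → u = s ∨ u = p + s ∨ u = q + s ∨ u = p + q + s)) := inferInstance

theorem ln : ∀ e : Q3, e ≠ 0 → ∃ p q s : Q3, ∀ u : Q3,
      (dot e u = 0 → u = 0 ∨ u = p ∨ u = q ∨ u = p + q) ∧
      (dot e u = 1 → u = s ∨ u = p + s ∨ u = q + s ∨ u = p + q + s) := by
  decide +kernel

/-- dual bases -/
def DB (r a b er ea eb : Q3) : Prop :=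
  (dot er r = 1 ∧ dot er a = 0 ∧ dot er b = 0) ∧ (dot ea r = 0 ∧ dot ea a = 1 ∧ dot ea b = 0) ∧
    (dot eb r = 0 ∧ dot eb a = 0 ∧ dot eb b = 1)

instance (r a b er ea eb : Q3) : Decidable (DB r a b er ea eb) := by
  unfold DB
  infer_instance
/-- two different lines through a point -/
def DC (r ea eb : Q3) : Prop := (ea ≠ 0 ∧ eb ≠ 0 ∧ ea ≠ eb) ∧ r ≠ 0 ∧ dot ea r = 0 ∧ dot eb r = 0
/-- the expansion in a basis -/
def dExp (r a b er ea eb : Q3) : Prop := ∀ p : Q3, p = dot er p • r + dot ea p • a + dot eb p • b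
instance (r a b er ea eb : Q3) : Decidable (dExp r a b er ea eb) := by unfold dExp; infer_instance
/-- existence of dual bases -/
def DX (r ea eb : Q3) : Prop := ∃ er a b, DB r a b er ea eb ∧ dExp r a b er ea eb
instance (r ea eb : Q3) : Decidable (DC r ea eb) := by unfold DC; infer_instance
instance (r ea eb : Q3) : Decidable (DX r ea eb) := by unfold DX; infer_instance

theorem db3 : ∀ r ea eb : Q3, DC r ea eb → DX r ea eb := by
  decide +kernel

/-- two lines through a point -/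
def PX (z : Q3) : Prop := ∃ ea eb : Q3, DC z ea eb
instance (z : Q3) : Decidable (PX z) := by unfold PX; infer_instance

theorem pair_ex : ∀ z : Q3, z ≠ 0 → PX z := by
  decide +kernel

/-- two lines independent of a third one -/
def PT (e0 : Q3) : Prop := ∃ a b A B C : Q3, DB A B C a b e0 ∧ TC e0 a b
instance (e0 : Q3) : Decidable (PT e0) := by unfold PT; infer_instance

theorem pt_ex : ∀ e0 : Q3, e0 ≠ 0 → PT e0 := by
  decide +kernel

theorem TC.more : ∀ e0 a b : Q3, TC e0 a b → TC e0 (a + e0) b ∧ TC e0 a (b + e0) := by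
  decide +kernel

end Pool.Agent.Run7.h948.QF
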