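import Pool.Agent.Run7.h948.QF.Fano

/-! More finite combinatorics of the Fano plane. -/

set_option autoImplicit false

namespace Pool.Agent.Run7.h948.QF

/-- independent points -/
def IndQ (p q r : Q3) : Prop := ∀ e : Q3, dot e p = 0 → dot e q = 0 → dot e r = 0 → e = 0

instance (p q r : Q3) : Decidable (IndQ p q r) := by unfold IndQ; infer_instance

/-- three independent points in the support of `c` -/
def SX (c : Q3 → ZMod 2) : Prop := ∃ p q r : Q3, (c p = 1 ∧ c q = 1 ∧ c r = 1) ∧ IndQ p q r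

/-- an affine plane outside the support of `c` -/
def SY (c : Q3 → ZMod 2) : Prop := ∃ e : Q3, e ≠ 0 ∧ ∀ p : Q3, dot e p = 1 → c p = 0

instance (c : Q3 → ZMod 2) : Decidable (SX c) := by unfold SX; infer_instance
instance (c : Q3 → ZMod 2) : Decidable (SY c) := by unfold SY; infer_instance

set_option maxRecDepth 100000 in
theorem span0 : ∀ c1 c2 c3 c4 c5 c6 c7 : ZMod 2, SX (cf c1 c2 c3 c4 c5 c6 c7) ∨
    SY (cf c1 c2 c3 c4 c5 c6 c7) := by
  decide +kernel

theorem span_or (X : Q3 → Prop) : (∃ p q r : Q3, (X p ∧ X q ∧ X r) ∧ IndQ p q r) ∨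
    ∃ e : Q3, e ≠ 0 ∧ ∀ p : Q3, dot e p = 1 → ¬ X p := by
  classical
  let c : Q3 → ZMod 2 := fun p => if p = 0 then 0 else if X p then 1 else 0
  have h0 : c 0 = 0 := if_pos rfl
  have hc : ∀ p, c p = 1 → X p := by
    intro p hp
    by_contra hX
    have h1 : c p = 0 := by
      show (if p = 0 then (0 : ZMod 2) else if X p then 1 else 0) = 0
      rw [if_neg hX, ite_self]
    rw [h1] at hp
    exact zero_ne_one hp
  have hc' : ∀ p, p ≠ 0 → c p = 0 → ¬ X p := by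
    intro p hp h1 hX
    have h2 : c p = 1 := by
      show (if p = 0 then (0 : ZMod 2) else if X p then 1 else 0) = 1
      rw [if_neg hp, if_pos hX]
    rw [h2] at h1
    exact one_ne_zero h1
  have hcf : cf (c (1,0,0)) (c (0,1,0)) (c (1,1,0)) (c (0,0,1)) (c (1,0,1)) (c (0,1,1))
      (c (1,1,1)) = c := funext (cf_eq c h0)
  have h := span0 (c (1,0,0)) (c (0,1,0)) (c (1,1,0)) (c (0,0,1)) (c (1,0,1)) (c (0,1,1))
    (c (1,1,1))
  rw [hcf] at h
  rcases h with ⟨p, q, r, ⟨h1, h2, h3⟩, h4⟩ | ⟨e, he, h1⟩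
  · exact Or.inl ⟨p, q, r, ⟨hc p h1, hc q h2, hc r h3⟩, h4⟩
  · refine Or.inr ⟨e, he, fun p hp => hc' p ?_ (h1 p hp)⟩
    rintro rfl
    have h5 : dot e 0 = 0 := by simp [dot]
    rw [h5] at hp
    exact zero_ne_one hp

/-- an affine basis -/
def AF (e : Q3) : Prop := ∃ p q r : Q3, (dot e p = 1 ∧ dot e q = 1 ∧ dot e r = 1) ∧ IndQ p q r

instance (e : Q3) : Decidable (AF e) := by unfold AF; infer_instance

theorem aff : ∀ e : Q3, e ≠ 0 → AF e := by
  decide +kernel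

/-- spanning -/
def SP (p q r : Q3) : Prop := ∀ u : Q3, ∃ i j k : ZMod 2, u = i • p + j • q + k • r

instance (p q r : Q3) : Decidable (SP p q r) := by unfold SP; infer_instance

theorem indq_span : ∀ p q r : Q3, IndQ p q r → SP p q r := by
  decide +kernel

/-- three different nonzero lines -/
def NE3 (e1 e2 e3 : Q3) : Prop := (e1 ≠ 0 ∧ e2 ≠ 0 ∧ e3 ≠ 0) ∧ (e1 ≠ e2 ∧ e1 ≠ e3 ∧ e2 ≠ e3)

instance (p q r : Q3) : Decidable (NE3 p q r) := by unfold NE3; infer_instance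

/-- three lines through a point -/
def L3 (p : Q3) : Prop := ∃ e1 e2 e3 : Q3, NE3 e1 e2 e3 ∧
  (dot e1 p = 0 ∧ dot e2 p = 0 ∧ dot e3 p = 0)

instance (p : Q3) : Decidable (L3 p) := by unfold L3; infer_instance

theorem lines3 : ∀ p : Q3, L3 p := by
  decide +kernel

/-- lines separating two points -/
def L2 (p q : Q3) : Prop := ∃ e1 e2 : Q3, (e1 ≠ 0 ∧ e2 ≠ 0 ∧ e1 + e2 ≠ 0) ∧
  (dot e1 p = 1 ∧ dot e1 q = 0) ∧ (dot e2 p = 0 ∧ dot e2 q = 1)

instance (p q : Q3) : Decidable (L2 p q) := by unfold L2; infer_instance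

/-- different nonzero points -/
def NE2 (p q : Q3) : Prop := p ≠ 0 ∧ q ≠ 0 ∧ p ≠ q

instance (p q : Q3) : Decidable (NE2 p q) := by unfold NE2; infer_instance

theorem lines2 : ∀ p q : Q3, NE2 p q → L2 p q := by
  decide +kernel

theorem exl : ∀ p : Q3, p ≠ 0 → ∃ e : Q3, e ≠ 0 ∧ dot e p = 1 := by
  decide +kernel

/-- a trivial combination -/
def TC0 (p q r : Q3) : Prop := ∀ i j k : ZMod 2, i • p + j • q + k • r = 0 →
  i = 0 ∧ j = 0 ∧ k = 0

instance (p q r : Q3) : Decidable (TC0 p q r) := by unfold TC0; infer_instance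

theorem indq_ind : ∀ p q r : Q3, IndQ p q r → TC0 p q r := by
  decide +kernel

theorem exl' : ∀ e : Q3, e ≠ 0 → ∃ u : Q3, dot e u = 1 := by
  decide +kernel

end Pool.Agent.Run7.h948.QF
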