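import Pool.Agent.Run7.h948.QF.Str
import Pool.Agent.TH188.ET.FieldSmall

set_option autoImplicit false

/-! Fields with at most 31 quaternion algebras. -/

open scoped Quaternion

noncomputable section

namespace Pool.Agent.Run7.h948.QF

open Pool.Agent.H315R3.ETC Pool.Agent.TH188.ET Pool.Agent.TH188.ETB Pool.Agent.TH188.ETV
open Pool.Agent.TH188.ETF Pool.Agent.N88.TS
open Pool.Agent.R649.ETS (mem_Qs vals_ncard)

universe u v

theorem str3 (S : QData) (hS : IsQuat S) (hfin : Finite S.G) {B : Type v} [AddCommGroup B]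
    (hB : ∀ b : B, b + b = 0) (β : S.G → S.G → B)
    (hmul : ∀ a b c, β a (b * c) = β a b + β a c)
    (hiff : ∀ a b c d, β a b = β c d ↔ S.q a b = S.q c d)
    (hh : ∀ x y z : S.G, {t : S.Q | ∃ g ∈ Subgroup.closure {x, y, z}, ∃ b, S.q g b = t}.ncard ≤ 27 ∨
      (∀ w : S.G, {t : S.Q | ∃ g ∈ Subgroup.closure {x, y, z, w}, ∃ b, S.q g b = t}.ncard ≤ 31) ∨
      ∀ p : S.G, p = x ∨ p = y ∨ p = z ∨ p = x * y * z → {t : S.Q | ∃ b, S.q p b = t}.ncard ≤ 4) :
    Elem S := by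
  refine elem31 S hS hfin hB β hmul hiff fun x y z => ?_
  rcases hh x y z with h' | h' | h'
  · exact Or.inr (Or.inl h')
  · exact Or.inr (Or.inr h')
  · left
    refine Or.inl fun p hp => ?_
    obtain ⟨h1, h2⟩ := vals_ncard β hiff {p}
    have e1 : {t : S.Q | ∃ g ∈ ({p} : Set S.G), ∃ b, S.q g b = t} =
        {t : S.Q | ∃ b, S.q p b = t} := by
      ext t; simp
    have e2 : {t : B | ∃ g ∈ ({p} : Set S.G), ∃ b, β g b = t} = (Qs β p : Set B) := by
      ext t
      rw [SetLike.mem_coe, mem_Qs hB β hmul]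
      simp
    rw [e1, e2] at h2
    exact h2.trans (h' p hp)

variable {F : Type u} [Field F]

/-- local form for fields -/
theorem field_local3 (h2 : (2 : F) ≠ 0) (hfin : FinSq F)
    (h : ∀ x y z : Fˣ, (∃ l : Fin 27 → Fˣ × Fˣ, ∀ g ∈ Subgroup.closure {x, y, z}, ∀ b : Fˣ,
        ∃ i, QIso g b (l i).1 (l i).2) ∨
      (∀ w : Fˣ, ∃ l : Fin 31 → Fˣ × Fˣ, ∀ g ∈ Subgroup.closure {x, y, z, w}, ∀ b : Fˣ,
        ∃ i, QIso g b (l i).1 (l i).2) ∨
      ∀ p : Fˣ, p = x ∨ p = y ∨ p = z ∨ p = x * y * z → ∃ l : Fin 4 → Fˣ, ∀ b : Fˣ,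
        ∃ i, NormFrom p (b * l i)) :
    ∃ S : QData, Elem S ∧ IsStructureOf F S := by
  obtain ⟨S, hS, hSfin, hSq⟩ := exists_structure h2 hfin
  refine ⟨S, ?_, hS⟩
  obtain ⟨φ, hs, hk, hn, h0, hq⟩ := hS
  have hinv : ∀ a b a' b' : Fˣ, φ a = φ a' → φ b = φ b' → bq h2 a b = bq h2 a' b' := by
    intro a b a' b' h1 h3
    rw [bq_eq_iff]
    exact qiso_of_phi h2 hk h1 h3
  choose r hr using hs
  let β : S.G → S.G → Pool.Agent.TH188.ETF.B2 F := fun g h => bq h2 (r g) (r h)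
  have hmul : ∀ g h k, β g (h * k) = β g h + β g k := by
    intro g h k
    show bq h2 (r g) (r (h * k)) = bq h2 (r g) (r h) + bq h2 (r g) (r k)
    rw [← bq_mul]
    apply hinv _ _ _ _ rfl
    rw [map_mul, hr, hr, hr]
  have hiff : ∀ g h k l, β g h = β k l ↔ S.q g h = S.q k l := by
    intro g h k l
    show bq h2 (r g) (r h) = bq h2 (r k) (r l) ↔ _
    rw [bq_eq_iff]
    have := hq (r g) (r h) (r k) (r l)
    rw [hr, hr, hr, hr] at this
    exact this.symm
  refine str3 S hSq hSfin B2_add_self β hmul hiff fun x y z => ?_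
  obtain ⟨a, rfl⟩ : ∃ a, φ a = x := ⟨r x, hr _⟩
  obtain ⟨b, rfl⟩ : ∃ a, φ a = y := ⟨r y, hr _⟩
  obtain ⟨c, rfl⟩ : ∃ a, φ a = z := ⟨r z, hr _⟩
  rcases h a b c with ⟨l, hl⟩ | h | h
  · left
    have hsub : {t : S.Q | ∃ g ∈ Subgroup.closure {φ a, φ b, φ c}, ∃ b, S.q g b = t} ⊆
        Set.range (fun i => S.q (φ (l i).1) (φ (l i).2)) := by
      rintro t ⟨g, hg, b', rfl⟩
      have hmap : Subgroup.closure {φ a, φ b, φ c} = (Subgroup.closure {a, b, c}).map φ := by
        rw [MonoidHom.map_closure]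
        congr 1
        simp [Set.image_insert_eq]
      rw [hmap] at hg
      obtain ⟨g', hg', rfl⟩ := hg
      obtain ⟨i, hi⟩ := hl g' hg' (r b')
      refine ⟨i, ?_⟩
      have := (hq g' (r b') (l i).1 (l i).2).2 hi
      rw [hr] at this
      exact this.symm
    refine (Set.ncard_le_ncard hsub (Set.finite_range _)).trans ?_
    have := Set.ncard_image_le (f := fun i => S.q (φ (l i).1) (φ (l i).2))
      (s := (Set.univ : Set (Fin 27))) Set.finite_univ
    rw [Set.image_univ] at this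
    refine this.trans ?_
    rw [Set.ncard_univ, Nat.card_eq_fintype_card, Fintype.card_fin]
  · right
    left
    intro w
    obtain ⟨d, rfl⟩ : ∃ a, φ a = w := ⟨r w, hr _⟩
    obtain ⟨l, hl⟩ := h d
    have hsub : {t : S.Q | ∃ g ∈ Subgroup.closure {φ a, φ b, φ c, φ d}, ∃ b, S.q g b = t} ⊆
        Set.range (fun i => S.q (φ (l i).1) (φ (l i).2)) := by
      rintro t ⟨g, hg, b', rfl⟩
      have hmap : Subgroup.closure {φ a, φ b, φ c, φ d} =
          (Subgroup.closure {a, b, c, d}).map φ := by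
        rw [MonoidHom.map_closure]
        congr 1
        simp [Set.image_insert_eq]
      rw [hmap] at hg
      obtain ⟨g', hg', rfl⟩ := hg
      obtain ⟨i, hi⟩ := hl g' hg' (r b')
      refine ⟨i, ?_⟩
      have := (hq g' (r b') (l i).1 (l i).2).2 hi
      rw [hr] at this
      exact this.symm
    refine (Set.ncard_le_ncard hsub (Set.finite_range _)).trans ?_
    have := Set.ncard_image_le (f := fun i => S.q (φ (l i).1) (φ (l i).2))
      (s := (Set.univ : Set (Fin 31))) Set.finite_univ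
    rw [Set.image_univ] at this
    refine this.trans ?_
    rw [Set.ncard_univ, Nat.card_eq_fintype_card, Fintype.card_fin]
  · right
    right
    rintro p hp
    obtain ⟨p', hp', rfl⟩ : ∃ p' : Fˣ, (p' = a ∨ p' = b ∨ p' = c ∨ p' = a * b * c) ∧ φ p' = p := by
      rcases hp with rfl | rfl | rfl | rfl
      · exact ⟨a, Or.inl rfl, rfl⟩
      · exact ⟨b, Or.inr (Or.inl rfl), rfl⟩
      · exact ⟨c, Or.inr (Or.inr (Or.inl rfl)), rfl⟩
      · exact ⟨a * b * c, Or.inr (Or.inr (Or.inr rfl)), by rw [map_mul, map_mul]⟩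
    obtain ⟨l, hl⟩ := h p' hp'
    have hsub : {t : S.Q | ∃ b, S.q (φ p') b = t} ⊆ Set.range (fun i => S.q (φ p') (φ (l i))) := by
      rintro t ⟨b', rfl⟩
      obtain ⟨i, hi⟩ := hl (r b')
      refine ⟨i, ?_⟩
      have := (hq p' (r b') p' (l i)).2 ((qiso_iff h2 p' (r b') (l i)).2 hi)
      rw [hr] at this
      exact this.symm
    refine (Set.ncard_le_ncard hsub (Set.finite_range _)).trans ?_
    have := Set.ncard_image_le (f := fun i => S.q (φ p') (φ (l i)))
      (s := (Set.univ : Set (Fin 4))) Set.finite_univ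
    rw [Set.image_univ] at this
    refine this.trans ?_
    rw [Set.ncard_univ, Nat.card_eq_fintype_card, Fintype.card_fin]

theorem field31 (h2 : (2 : F) ≠ 0) (hfin : FinSq F)
    (h : ∃ l : Fin 31 → Fˣ × Fˣ, ∀ a b : Fˣ, ∃ i, QIso a b (l i).1 (l i).2) :
    ∃ S : QData, Elem S ∧ IsStructureOf F S :=
  field_local3 h2 hfin fun _ _ _ => Or.inr (Or.inl fun _ => by
    obtain ⟨l, hl⟩ := h
    exact ⟨l, fun g _ b => hl g b⟩)

end Pool.Agent.Run7.h948.QF
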