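import Pool.Agent.Run7.h948.QF.StrT
import Pool.Agent.TH188.ET.FieldSmall

set_option autoImplicit false

/-! Fields: one small norm group in each affine plane; no norm group of index two. -/

open scoped Quaternion

noncomputable section

namespace Pool.Agent.Run7.h948.QF

open Pool.Agent.H315R3.ETC Pool.Agent.TH188.ET Pool.Agent.TH188.ETB Pool.Agent.TH188.ETV
open Pool.Agent.TH188.ETF Pool.Agent.N88.TS

universe u

variable {F : Type u} [Field F]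

/-- independent modulo squares -/
def IndF (x y z : Fˣ) : Prop :=
  ¬ IsSquare x ∧ ¬ IsSquare y ∧ ¬ IsSquare (x * y) ∧ ¬ IsSquare z ∧ ¬ IsSquare (x * z) ∧
    ¬ IsSquare (y * z) ∧ ¬ IsSquare (x * y * z)

theorem field_T (h2 : (2 : F) ≠ 0) (hfin : FinSq F)
    (h : ∀ x y z : Fˣ, IndF x y z →
      (∃ p : Fˣ, (p = x ∨ p = y ∨ p = z ∨ p = x * y * z) ∧ Nat.card (Qs (bq h2) p) ≤ 4) ∨
      (∃ l : Fin 27 → Fˣ × Fˣ, ∀ g ∈ Subgroup.closure {x, y, z}, ∀ b : Fˣ,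
        ∃ i, QIso g b (l i).1 (l i).2) ∨
      (∃ p ∈ Subgroup.closure {x, y, z}, ∃ q ∈ Subgroup.closure {x, y, z},
        (¬ IsSquare p ∧ ¬ IsSquare q ∧ ¬ IsSquare (p * q)) ∧
        Nat.card (Qs (bq h2) p) ≤ 2 ∧ Nat.card (Qs (bq h2) q) ≤ 2) ∨
      (Nat.card (Qs (bq h2) x ⊔ Qs (bq h2) y ⊔ Qs (bq h2) z :
          AddSubgroup (Pool.Agent.TH188.ETF.B2 F)) ≤ 32 ∧
        ∀ p ∈ Subgroup.closure {x, y, z}, Nat.card (Qs (bq h2) p) ≠ 2)) :
    ∃ S : QData, Elem S ∧ IsStructureOf F S := by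
  obtain ⟨S, hS, hSfin, hSq⟩ := exists_structure h2 hfin
  refine ⟨S, ?_, hS⟩
  obtain ⟨φ, hs, hk, hn, h0, hq⟩ := hS
  have hinv : ∀ a b a' b' : Fˣ, φ a = φ a' → φ b = φ b' → bq h2 a b = bq h2 a' b' := by
    intro a b a' b' h1 h3
    rw [bq_eq_iff]
    exact qiso_of_phi h2 hk h1 h3
  choose r hr using hs
  let β : S.G → S.G → Pool.Agent.TH188.ETF.B2 F := fun g h => bq h2 (r g) (r h)
  have hβ : ∀ a b : Fˣ, β (φ a) (φ b) = bq h2 a b := fun a b => hinv _ _ _ _ (hr _) (hr _)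
  have hQs : ∀ a : Fˣ, Qs β (φ a) = Qs (bq h2) a := by
    intro a
    unfold Qs
    congr 1
    ext t
    constructor
    · rintro ⟨g, rfl⟩
      exact ⟨r g, by rw [← hβ, hr]⟩
    · rintro ⟨b, rfl⟩
      exact ⟨φ b, hβ a b⟩
  have hmul : ∀ g h k, β g (h * k) = β g h + β g k := by
    intro g h k
    show bq h2 (r g) (r (h * k)) = bq h2 (r g) (r h) + bq h2 (r g) (r k)
    rw [← bq_mul]
    apply hinv _ _ _ _ rfl
    rw [map_mul, hr, hr, hr]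
  have hiff : ∀ g h k l, β g h = β k l ↔ S.q g h = S.q k l := by
    intro g h k l
    show bq h2 (r g) (r h) = bq h2 (r k) (r l) ↔ _
    rw [bq_eq_iff]
    have := hq (r g) (r h) (r k) (r l)
    rw [hr, hr, hr, hr] at this
    exact this.symm
  refine elemT S hSq hSfin B2_add_self β hmul hiff fun x y z hI => ?_
  obtain ⟨a, rfl⟩ : ∃ a, φ a = x := ⟨r x, hr _⟩
  obtain ⟨b, rfl⟩ : ∃ a, φ a = y := ⟨r y, hr _⟩
  obtain ⟨c, rfl⟩ : ∃ a, φ a = z := ⟨r z, hr _⟩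
  have hsq : ∀ g : Fˣ, φ g = 1 ↔ IsSquare g := by
    intro g
    rw [hk]
    constructor
    · rintro ⟨s, rfl⟩
      exact ⟨s, pow_two s⟩
    · rintro ⟨s, rfl⟩
      exact ⟨s, (pow_two s).symm⟩
  have hself : ∀ g : Fˣ, φ g * φ g = 1 := by
    intro g
    rw [← map_mul, hsq]
    exact ⟨g, rfl⟩
  have hprod : ∀ g k : Fˣ, IsSquare (g * k) → φ g = φ k := by
    intro g k hgk
    rw [← hsq, map_mul] at hgk
    have h3 : φ g * φ k * φ k = φ k := by rw [hgk, one_mul]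
    rwa [mul_assoc, hself, mul_one] at h3
  have hIF : IndF a b c := by
    obtain ⟨i1, i2, i3, i4, i5, i6, i7⟩ := hI
    refine ⟨fun hh => i1 ((hsq _).2 hh), fun hh => i2 ((hsq _).2 hh),
      fun hh => i3 (hprod _ _ hh).symm, fun hh => i4 ((hsq _).2 hh),
      fun hh => i5 (hprod _ _ hh).symm, fun hh => i6 (hprod _ _ hh).symm, fun hh => i7 ?_⟩
    rw [← map_mul]
    exact (hprod _ _ hh).symm
  have hmap : Subgroup.closure {φ a, φ b, φ c} = (Subgroup.closure {a, b, c}).map φ := by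
    rw [MonoidHom.map_closure]
    congr 1
    simp [Set.image_insert_eq]
  rcases h a b c hIF with ⟨p, hp, h⟩ | ⟨l, hl⟩ | ⟨p, hp, q, hq', ⟨n1, n2, n3⟩, h3, h4⟩ | ⟨h32, h⟩
  · refine Or.inl ⟨φ p, ?_, by rw [hQs]; exact h⟩
    rcases hp with rfl | rfl | rfl | rfl
    · exact Or.inl rfl
    · exact Or.inr (Or.inl rfl)
    · exact Or.inr (Or.inr (Or.inl rfl))
    · exact Or.inr (Or.inr (Or.inr (by rw [map_mul, map_mul])))
  · right
    left
    have hsub : {t : S.Q | ∃ g ∈ Subgroup.closure {φ a, φ b, φ c}, ∃ b, S.q g b = t} ⊆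
        Set.range (fun i => S.q (φ (l i).1) (φ (l i).2)) := by
      rintro t ⟨g, hg, b', rfl⟩
      rw [hmap] at hg
      obtain ⟨g', hg', rfl⟩ := hg
      obtain ⟨i, hi⟩ := hl g' hg' (r b')
      refine ⟨i, ?_⟩
      have := (hq g' (r b') (l i).1 (l i).2).2 hi
      rw [hr] at this
      exact this.symm
    refine (Set.ncard_le_ncard hsub (Set.finite_range _)).trans ?_
    have := Set.ncard_image_le (f := fun i => S.q (φ (l i).1) (φ (l i).2))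
      (s := (Set.univ : Set (Fin 27))) Set.finite_univ
    rw [Set.image_univ] at this
    refine this.trans ?_
    rw [Set.ncard_univ, Nat.card_eq_fintype_card, Fintype.card_fin]
  · refine Or.inr (Or.inr (Or.inr (Or.inl ⟨φ p, ?_, φ q, ?_, ⟨?_, ?_, ?_⟩, ?_, ?_⟩)))
    · rw [hmap]; exact ⟨p, hp, rfl⟩
    · rw [hmap]; exact ⟨q, hq', rfl⟩
    · exact fun hh => n1 ((hsq _).1 hh)
    · exact fun hh => n2 ((hsq _).1 hh)
    · intro hh
      apply n3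
      rw [← hsq, map_mul, hh]
      exact hself q
    · rw [hQs]; exact h3
    · rw [hQs]; exact h4
  · refine Or.inr (Or.inr (Or.inr (Or.inr (Or.inr ⟨?_, ?_⟩))))
    · rw [hQs, hQs, hQs]; exact h32
    · intro p hp
      rw [hmap] at hp
      obtain ⟨p', hp', rfl⟩ := hp
      rw [hQs]
      exact h p' hp'

/-- the group of the nonzero values of the norm form -/
def nG (a : Fˣ) : Subgroup Fˣ where
  carrier := {c | NormFrom a c}
  one_mem' := NormFrom.one a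
  mul_mem' := NormFrom.mul
  inv_mem' := NormFrom.inv

theorem nG_index (h2 : (2 : F) ≠ 0) (p : Fˣ) : (nG p).index = Nat.card (Qs (bq h2) p) := by
  obtain ⟨f, hf1, -, hf3⟩ := card_Qs (bq h2) (bq_mul h2) p
  rw [← hf3]
  have h1 : f.ker = Subgroup.toAddSubgroup (nG p) := by
    ext b
    rw [AddMonoidHom.mem_ker]
    have : f b = bq h2 p b.toMul := hf1 b.toMul
    rw [this, bq_eq_zero_iff]
    exact Iff.rfl
  rw [h1]
  rfl

theorem fin_sup {B : Type u} [AddCommGroup B] (H K : AddSubgroup B) (hH : Finite H)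
    (hK : Finite K) : Finite (H ⊔ K : AddSubgroup B) := by
  have hs : Function.Surjective (fun p : H × K => (⟨p.1.1 + p.2.1,
      add_mem (AddSubgroup.mem_sup_left p.1.2) (AddSubgroup.mem_sup_right p.2.2)⟩ :
      (H ⊔ K : AddSubgroup B))) := by
    rintro ⟨t, ht⟩
    obtain ⟨a, ha, b, hb, rfl⟩ := AddSubgroup.mem_sup.1 ht
    exact ⟨(⟨a, ha⟩, ⟨b, hb⟩), rfl⟩
  exact Finite.of_surjective _ hs

theorem nG_square (h2 : (2 : F) ≠ 0) {p : Fˣ} (hp : IsSquare p) : (nG p).index = 1 := by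
  obtain ⟨s, rfl⟩ := hp
  rw [Subgroup.index_eq_one, eq_top_iff]
  intro c _
  refine ⟨((c : F) + 1) / 2, ((c : F) - 1) / (2 * s), ?_⟩
  have hs : (s : F) ≠ 0 := s.ne_zero
  rw [Units.val_mul]
  field_simp
  ring

/-- two square classes with a norm group of index two -/
theorem two_of_ncard (h2 : (2 : F) ≠ 0) (hfin : FinSq F) {W : Set Fˣ}
    (h : {x : Fˣ ⧸ (powMonoidHom 2 : Fˣ →* Fˣ).range | ∃ p ∈ W,
      (p : Fˣ ⧸ (powMonoidHom 2 : Fˣ →* Fˣ).range) = x ∧ (nG p).index = 2}.ncard ≠ 1) :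
    (∀ p ∈ W, (nG p).index ≠ 2) ∨ ∃ p ∈ W, ∃ q ∈ W,
      (¬ IsSquare p ∧ ¬ IsSquare q ∧ ¬ IsSquare (p * q)) ∧ (nG p).index = 2 ∧
      (nG q).index = 2 := by
  have : Finite (Fˣ ⧸ (powMonoidHom 2 : Fˣ →* Fˣ).range) := hfin
  by_cases h0 : ∀ p ∈ W, (nG p).index ≠ 2
  · exact Or.inl h0
  right
  push Not at h0
  obtain ⟨p0, hp0, hi0⟩ := h0
  have hpos : 0 < {x : Fˣ ⧸ (powMonoidHom 2 : Fˣ →* Fˣ).range | ∃ p ∈ W,
      (p : Fˣ ⧸ (powMonoidHom 2 : Fˣ →* Fˣ).range) = x ∧ (nG p).index = 2}.ncard := by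
    rw [Set.ncard_pos (Set.toFinite _)]
    exact ⟨_, p0, hp0, rfl, hi0⟩
  have h1 : 1 < {x : Fˣ ⧸ (powMonoidHom 2 : Fˣ →* Fˣ).range | ∃ p ∈ W,
      (p : Fˣ ⧸ (powMonoidHom 2 : Fˣ →* Fˣ).range) = x ∧ (nG p).index = 2}.ncard := by
    omega
  obtain ⟨_, ⟨p, hp, rfl, hi⟩, _, ⟨q, hq, rfl, hj⟩, hne⟩ :=
    (Set.one_lt_ncard (Set.toFinite _)).1 h1
  have hns : ∀ r : Fˣ, (nG r).index = 2 → ¬ IsSquare r := by
    intro r hr hs
    rw [nG_square h2 hs] at hr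
    omega
  refine ⟨p, hp, q, hq, ⟨hns p hi, hns q hj, ?_⟩, hi, hj⟩
  rintro ⟨s, hs⟩
  apply hne
  rw [QuotientGroup.eq]
  refine ⟨p⁻¹ * s, ?_⟩
  show (p⁻¹ * s) ^ 2 = p⁻¹ * q
  rw [mul_pow, pow_two s, ← hs, pow_two]
  rw [mul_assoc, inv_mul_cancel_left]

/-- passing to the group `K_2(F)/2` -/
theorem card_K2 (h2 : (2 : F) ≠ 0) (x y z : Fˣ)
    (hf : Finite (Qs (sy (F := F)) x ⊔ Qs (sy (F := F)) y ⊔ Qs (sy (F := F)) z :
      AddSubgroup (K2 F))) :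
    Nat.card (Qs (bq h2) x ⊔ Qs (bq h2) y ⊔ Qs (bq h2) z :
      AddSubgroup (Pool.Agent.TH188.ETF.B2 F)) ≤
      Nat.card (Qs (sy (F := F)) x ⊔ Qs (sy (F := F)) y ⊔ Qs (sy (F := F)) z :
        AddSubgroup (K2 F)) := by
  obtain ⟨f, hf'⟩ := exists_res h2
  have hmap : ∀ a : Fˣ, Qs (bq h2) a = (Qs (sy (F := F)) a).map f := by
    intro a
    unfold Qs
    rw [AddMonoidHom.map_closure]
    congr 1
    ext t
    constructor
    · rintro ⟨b, rfl⟩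
      exact ⟨sy a b, ⟨b, rfl⟩, hf' a b⟩
    · rintro ⟨_, ⟨b, rfl⟩, rfl⟩
      exact ⟨b, (hf' a b).symm⟩
  have hsup : Qs (bq h2) x ⊔ Qs (bq h2) y ⊔ Qs (bq h2) z =
      (Qs (sy (F := F)) x ⊔ Qs (sy (F := F)) y ⊔ Qs (sy (F := F)) z).map f := by
    rw [AddSubgroup.map_sup, AddSubgroup.map_sup, ← hmap, ← hmap, ← hmap]
  rw [hsup]
  have hsurj : Function.Surjective
      (fun t : (Qs (sy (F := F)) x ⊔ Qs (sy (F := F)) y ⊔ Qs (sy (F := F)) z :
        AddSubgroup (K2 F)) => (⟨f t, ⟨t, t.2, rfl⟩⟩ :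
        (Qs (sy (F := F)) x ⊔ Qs (sy (F := F)) y ⊔ Qs (sy (F := F)) z :
        AddSubgroup (K2 F)).map f)) := by
    rintro ⟨t, s, hs, rfl⟩
    exact ⟨⟨s, hs⟩, rfl⟩
  exact Nat.card_le_card_of_surjective _ hsurj

end Pool.Agent.Run7.h948.QF
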