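import Pool.Agent.Run7.h948.QF.StrE
import Pool.Agent.Run7.h948.QF.FieldT

set_option autoImplicit false

/-! Fields with at most 32 elements in `K_2(F)/2`. -/

open scoped Quaternion

noncomputable section

namespace Pool.Agent.Run7.h948.QF

open Pool.Agent.H315R3.ETC Pool.Agent.TH188.ET Pool.Agent.TH188.ETB Pool.Agent.TH188.ETV
open Pool.Agent.TH188.ETF Pool.Agent.N88.TS

universe u

variable {F : Type u} [Field F]

/-- the group generated by the quaternion algebras -/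
def BB2 (h2 : (2 : F) ≠ 0) : AddSubgroup (Pool.Agent.TH188.ETF.B2 F) :=
  AddSubgroup.closure {t | ∃ a b : Fˣ, bq h2 a b = t}

theorem mem_BB2 (h2 : (2 : F) ≠ 0) (a b : Fˣ) : bq h2 a b ∈ BB2 h2 :=
  AddSubgroup.subset_closure ⟨a, b, rfl⟩

theorem field_E (h2 : (2 : F) ≠ 0) (hfin : FinSq F) (hfB : Finite (BB2 h2))
    (hcB : Nat.card (BB2 h2) ≤ 32)
    (h : ∀ a : Fˣ, (nG a).index = 2 → ∃ b : Fˣ, b ∉ nG a ∧ (nG b).index ≤ 8) :
    ∃ S : QData, Elem S ∧ IsStructureOf F S := by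
  obtain ⟨S, hS, hSfin, hSq⟩ := exists_structure h2 hfin
  refine ⟨S, ?_, hS⟩
  obtain ⟨φ, hs, hk, hn, h0, hq⟩ := hS
  have hinv : ∀ a b a' b' : Fˣ, φ a = φ a' → φ b = φ b' → bq h2 a b = bq h2 a' b' := by
    intro a b a' b' h1 h3
    rw [bq_eq_iff]
    exact qiso_of_phi h2 hk h1 h3
  choose r hr using hs
  let β : S.G → S.G → BB2 h2 := fun g h => ⟨bq h2 (r g) (r h), mem_BB2 h2 _ _⟩
  have hβ : ∀ a b : Fˣ, (β (φ a) (φ b)).1 = bq h2 a b := fun a b => hinv _ _ _ _ (hr _) (hr _)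
  have hQs : ∀ a : Fˣ, (Qs β (φ a)).map (BB2 h2).subtype = Qs (bq h2) a := by
    intro a
    unfold Qs
    rw [AddMonoidHom.map_closure]
    congr 1
    ext t
    constructor
    · rintro ⟨_, ⟨g, rfl⟩, rfl⟩
      refine ⟨r g, ?_⟩
      rw [← hβ, hr]
      rfl
    · rintro ⟨b, rfl⟩
      exact ⟨β (φ a) (φ b), ⟨φ b, rfl⟩, hβ a b⟩
  have hcard : ∀ a : Fˣ, Nat.card (Qs β (φ a)) = (nG a).index := by
    intro a
    rw [nG_index h2, ← hQs a]
    refine Nat.card_congr ?_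
    refine Equiv.ofBijective (fun t : Qs β (φ a) =>
      (⟨t.1.1, ⟨t.1, t.2, rfl⟩⟩ : (Qs β (φ a)).map (BB2 h2).subtype)) ⟨?_, ?_⟩
    · intro t t' hh
      have h1 : t.1.1 = t'.1.1 := congrArg (fun s : (Qs β (φ a)).map (BB2 h2).subtype => s.1) hh
      exact Subtype.ext (Subtype.ext h1)
    · rintro ⟨_, s, hs, rfl⟩
      exact ⟨⟨s, hs⟩, rfl⟩
  have hmul : ∀ g h k, β g (h * k) = β g h + β g k := by
    intro g h k
    refine Subtype.ext ?_
    show bq h2 (r g) (r (h * k)) = bq h2 (r g) (r h) + bq h2 (r g) (r k)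
    rw [← bq_mul]
    apply hinv _ _ _ _ rfl
    rw [map_mul, hr, hr, hr]
  have hiff : ∀ g h k l, β g h = β k l ↔ S.q g h = S.q k l := by
    intro g h k l
    rw [Subtype.ext_iff]
    show bq h2 (r g) (r h) = bq h2 (r k) (r l) ↔ _
    rw [bq_eq_iff]
    have := hq (r g) (r h) (r k) (r l)
    rw [hr, hr, hr, hr] at this
    exact this.symm
  refine elem_of_E S hSq hSfin (fun t => Subtype.ext (B2_add_self t.1)) β hmul hiff hfB hcB
    fun a ha => ?_
  obtain ⟨a, rfl⟩ : ∃ a', φ a' = a := ⟨r a, hr _⟩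
  rw [hcard] at ha
  obtain ⟨b, hb, hb8⟩ := h a ha
  refine ⟨φ b, fun hz => hb ?_, by rw [hcard]; exact hb8⟩
  have h1 : S.q (φ a) (φ 1) = S.zero := by
    have := (hSq.qs3 (φ a) 1 1).1 rfl
    rw [map_one]
    rwa [mul_one] at this
  have h3 : bq h2 a b = bq h2 a 1 := by
    rw [← hβ, ← hβ]
    exact congrArg Subtype.val ((hiff _ _ _ _).2 (hz.trans h1.symm))
  have h4 : bq h2 a 1 = 0 := by
    have h5 := bq_mul h2 a 1 1
    rw [mul_one] at h5
    exact left_eq_add.1 h5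
  rw [h4, bq_eq_zero_iff] at h3
  exact h3

/-- the group generated by the quaternion algebras is a quotient of `K_2(F)/2` -/
theorem BB2_K2 (h2 : (2 : F) ≠ 0) (hf : Finite (K2 F)) :
    Finite (BB2 h2) ∧ Nat.card (BB2 h2) ≤ Nat.card (K2 F) := by
  obtain ⟨f, hf'⟩ := exists_res h2
  have hle : BB2 h2 ≤ f.range := by
    unfold BB2
    rw [AddSubgroup.closure_le]
    rintro _ ⟨a, b, rfl⟩
    exact ⟨sy a b, hf' a b⟩
  have hfr : Finite f.range := Finite.of_surjective _ f.rangeRestrict_surjective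
  refine ⟨Finite.of_injective _ (AddSubgroup.inclusion_injective hle), ?_⟩
  exact (Nat.card_le_card_of_injective _ (AddSubgroup.inclusion_injective hle)).trans
    (Nat.card_le_card_of_surjective _ f.rangeRestrict_surjective)

end Pool.Agent.Run7.h948.QF
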