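import Pool.Agent.Run7.h948.QF.StrU
import Pool.Agent.Run7.h948.QF.FieldE

set_option autoImplicit false

/-! Fields with at most 32 elements in `K_2(F)/2` and no norm group of index 32. -/

open scoped Quaternion

noncomputable section

namespace Pool.Agent.Run7.h948.QF

open Pool.Agent.H315R3.ETC Pool.Agent.TH188.ET Pool.Agent.TH188.ETB Pool.Agent.TH188.ETV
open Pool.Agent.TH188.ETF Pool.Agent.N88.TS

universe u

variable {F : Type u} [Field F]

theorem field_U (h2 : (2 : F) ≠ 0) (hfin : FinSq F) (hfB : Finite (BB2 h2))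
    (hcB : Nat.card (BB2 h2) ≤ 32)
    (h : 8 * {x : Fˣ ⧸ (powMonoidHom 2 : Fˣ →* Fˣ).range | ∃ c : Fˣ,
      (c : Fˣ ⧸ (powMonoidHom 2 : Fˣ →* Fˣ).range) = x ∧ 16 < (nG c).index}.ncard <
      (powMonoidHom 2 : Fˣ →* Fˣ).range.index) :
    ∃ S : QData, Elem S ∧ IsStructureOf F S := by
  obtain ⟨S, hS, hSfin, hSq⟩ := exists_structure h2 hfin
  refine ⟨S, ?_, hS⟩
  obtain ⟨φ, hs, hk, hn, h0, hq⟩ := hS
  have hinv : ∀ a b a' b' : Fˣ, φ a = φ a' → φ b = φ b' → bq h2 a b = bq h2 a' b' := by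
    intro a b a' b' h1 h3
    rw [bq_eq_iff]
    exact qiso_of_phi h2 hk h1 h3
  choose r hr using hs
  let β : S.G → S.G → BB2 h2 := fun g h => ⟨bq h2 (r g) (r h), mem_BB2 h2 _ _⟩
  have hβ : ∀ a b : Fˣ, (β (φ a) (φ b)).1 = bq h2 a b := fun a b => hinv _ _ _ _ (hr _) (hr _)
  have hQs : ∀ a : Fˣ, (Qs β (φ a)).map (BB2 h2).subtype = Qs (bq h2) a := by
    intro a
    unfold Qs
    rw [AddMonoidHom.map_closure]
    congr 1
    ext t
    constructor
    · rintro ⟨_, ⟨g, rfl⟩, rfl⟩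
      refine ⟨r g, ?_⟩
      rw [← hβ, hr]
      rfl
    · rintro ⟨b, rfl⟩
      exact ⟨β (φ a) (φ b), ⟨φ b, rfl⟩, hβ a b⟩
  have hcard : ∀ a : Fˣ, Nat.card (Qs β (φ a)) = (nG a).index := by
    intro a
    rw [nG_index h2, ← hQs a]
    refine Nat.card_congr ?_
    refine Equiv.ofBijective (fun t : Qs β (φ a) =>
      (⟨t.1.1, ⟨t.1, t.2, rfl⟩⟩ : (Qs β (φ a)).map (BB2 h2).subtype)) ⟨?_, ?_⟩
    · intro t t' hh
      have h1 : t.1.1 = t'.1.1 := congrArg (fun s : (Qs β (φ a)).map (BB2 h2).subtype => s.1) hh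
      exact Subtype.ext (Subtype.ext h1)
    · rintro ⟨_, s, hs, rfl⟩
      exact ⟨⟨s, hs⟩, rfl⟩
  have hmul : ∀ g h k, β g (h * k) = β g h + β g k := by
    intro g h k
    refine Subtype.ext ?_
    show bq h2 (r g) (r (h * k)) = bq h2 (r g) (r h) + bq h2 (r g) (r k)
    rw [← bq_mul]
    apply hinv _ _ _ _ rfl
    rw [map_mul, hr, hr, hr]
  have hiff : ∀ g h k l, β g h = β k l ↔ S.q g h = S.q k l := by
    intro g h k l
    rw [Subtype.ext_iff]
    show bq h2 (r g) (r h) = bq h2 (r k) (r l) ↔ _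
    rw [bq_eq_iff]
    have := hq (r g) (r h) (r k) (r l)
    rw [hr, hr, hr, hr] at this
    exact this.symm
  refine elem_of_U S hSq hSfin (fun t => Subtype.ext (B2_add_self t.1)) β hmul hiff hfB hcB ?_
  have hfq : Finite (Fˣ ⧸ (powMonoidHom 2 : Fˣ →* Fˣ).range) := hfin
  have hker : φ.ker = (powMonoidHom 2 : Fˣ →* Fˣ).range := by
    ext a
    rw [MonoidHom.mem_ker, hk]
    constructor
    · rintro ⟨b, rfl⟩
      exact ⟨b, rfl⟩
    · rintro ⟨b, rfl⟩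
      exact ⟨b, rfl⟩
  have hidx : (powMonoidHom 2 : Fˣ →* Fˣ).range.index = Nat.card S.G := by
    rw [← hker, Subgroup.index_ker, MonoidHom.range_eq_top.2 (fun g => ⟨r g, hr g⟩),
      Subgroup.card_top]
  have hle : {g : S.G | 16 < Nat.card (Qs β g)}.ncard ≤
      {x : Fˣ ⧸ (powMonoidHom 2 : Fˣ →* Fˣ).range | ∃ c : Fˣ,
        (c : Fˣ ⧸ (powMonoidHom 2 : Fˣ →* Fˣ).range) = x ∧ 16 < (nG c).index}.ncard := by
    refine Set.ncard_le_ncard_of_injOn
      (fun g : S.G => ((r g : Fˣ) : Fˣ ⧸ (powMonoidHom 2 : Fˣ →* Fˣ).range)) ?_ ?_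
      (Set.toFinite _)
    · intro g hg
      have hg' : 16 < Nat.card (Qs β g) := hg
      refine ⟨r g, rfl, ?_⟩
      rw [← hcard, hr]
      exact hg'
    · intro g _ g' _ hgg
      have h1 : (r g)⁻¹ * r g' ∈ (powMonoidHom 2 : Fˣ →* Fˣ).range := QuotientGroup.eq.1 hgg
      rw [← hker, MonoidHom.mem_ker, map_mul, map_inv, hr, hr] at h1
      exact inv_mul_eq_one.1 h1
  rw [← hidx]
  omega

end Pool.Agent.Run7.h948.QF
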