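import Pool.Agent.Run7.h948.QF.StrE

/-! The first form contains elements with all quaternions as values. -/

set_option autoImplicit false

namespace Pool.Agent.Run7.h948.QF

open Pool.Agent.N88.TS Pool.Agent.W622.ETG Pool.Agent.TH188.ETP Pool.Agent.TH188.ETV
  Pool.Agent.H315R3.ETC Module
open Pool.Agent.TH188.ET (exists_char exists_factor)

section
variable {V : Type} [AddCommGroup V] [Module (ZMod 2) V] {A : Fam V} {R P Q : V}

theorem link_add (hL : Linked A) {z p : V} {φ : Dl V} (h1 : In A z φ) (h2 : In A p φ) :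
    ∃ κ ∈ A, κ (z + p) = 0 ∧ κ p = φ ∧ κ z = φ := by
  obtain ⟨ω, hω, e1⟩ := h1
  obtain ⟨η, hη, e2⟩ := h2
  obtain ⟨κ, hκ, f1, f2⟩ := hL ω hω η hη z p (by rw [e1, e2])
  rw [e1] at f1 f2
  refine ⟨κ, hκ, ?_, f2, f1⟩
  rw [map_add, f1, f2]
  exact self2 φ

theorem add_of_zero {κ : Frm V} {z : V} (hz : κ z = 0) (p : V) : κ (z + p) = κ p := by
  rw [map_add, hz, zero_add]

/-- two independent functionals take the values `0` and `1` -/
theorem ex01 {h g : Dl V} (hI : ∀ i j : ZMod 2, i • h + j • g = 0 → i = 0 ∧ j = 0) :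
    ∃ x, h x = 0 ∧ g x = 1 := by
  by_contra hcon
  push Not at hcon
  have hz : ∀ x, h x = 0 → g x = 0 := fun x hx => (zz _).resolve_right (hcon x hx)
  by_cases h0 : ∃ y, h y = 1
  · obtain ⟨y, hy⟩ := h0
    have h1 : g y • h + (1 : ZMod 2) • g = 0 := by
      refine LinearMap.ext fun v => ?_
      rw [LinearMap.add_apply, LinearMap.smul_apply, LinearMap.smul_apply, LinearMap.zero_apply,
        smul_eq_mul, one_smul]
      rcases zz (h v) with h2 | h2
      · rw [h2, hz v h2, mul_zero, add_zero]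
      · have h3 := hz (v + y) (by
          rw [map_add, h2, hy]
          decide)
        rw [map_add] at h3
        rw [h2, mul_one, add_comm]
        exact h3
    exact one_ne_zero (hI _ _ h1).2
  · push Not at h0
    have h1 : (1 : ZMod 2) • h + (0 : ZMod 2) • g = 0 := by
      rw [one_smul, zero_smul, add_zero]
      exact LinearMap.ext fun v => (zz _).resolve_right (h0 v)
    exact one_ne_zero (hI _ _ h1).1

theorem noAu (hsym : ∀ ω ∈ A, ∀ a b : V, ω a b = ω b a) (hL : Linked A)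
    {h g k : Dl V} (hI : Ind3 h g k) (hF : FA A R P Q h g k)
    (hfa : ∀ ω ∈ A, ω R = 0 → ω P = 0 → ω Q = 0 → ω = 0)
    {x : V} (hx0 : h x = 0) (gx1 : g x = 1) {κ : Frm V} (hκ : κ ∈ A) (hne : κ ≠ 0)
    (hz : κ x = 0) : False := by
  obtain ⟨ε1, l1, r1, p1, q1⟩ := hF.2 1 0 1 0 0 0 (by decide)
  obtain ⟨ε2, l2, r2, p2, q2⟩ := hF.2 0 1 0 0 0 0 (by decide)
  obtain ⟨ε4, l4, r4, p4, q4⟩ := hF.2 0 0 0 1 0 0 (by decide)
  obtain ⟨ε5, l5, r5, p5, q5⟩ := hF.2 0 0 0 0 1 0 (by decide)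
  simp only [zero_smul, one_smul, add_zero, zero_add] at r1 p1 q1 r2 p2 q2 r4 p4 q4 r5 p5 q5
  have hh0 : h ≠ 0 := by
    rintro rfl
    exact one_ne_zero (hI 1 0 0 (by module)).1
  have hR : h R = 0 := by rw [← p2, hsym ε2 l2, r2]; rfl
  have hP : h P = 0 := by rw [← q4, hsym ε4 l4, p4]; rfl
  have hQ : h Q = 0 := by rw [← p2, hsym ε2 l2, q2]; rfl
  have gR : g R = 0 := by rw [← q5, hsym ε5 l5, r5]; rfl
  have gP : g P = 0 := by rw [← q5, hsym ε5 l5, p5]; rfl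
  have gQ : g Q = 0 := by rw [← p1, hsym ε1 l1, q1]; rfl
  have XR : ∀ z, h z = 0 → g z = 1 → h (z + R) = 0 ∧ g (z + R) = 1 := fun z h1 h2 => by
    rw [map_add, map_add, h1, h2, hR, gR]; exact ⟨rfl, rfl⟩
  have XP : ∀ z, h z = 0 → g z = 1 → h (z + P) = 0 ∧ g (z + P) = 1 := fun z h1 h2 => by
    rw [map_add, map_add, h1, h2, hP, gP]; exact ⟨rfl, rfl⟩
  have XQ : ∀ z, h z = 0 → g z = 1 → h (z + Q) = 0 ∧ g (z + Q) = 1 := fun z h1 h2 => by
    rw [map_add, map_add, h1, h2, hQ, gQ]; exact ⟨rfl, rfl⟩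
  have dec : ∀ z, h z = 0 → g z = 1 → ∀ κ ∈ A, κ z = 0 → ∃ a1 a2 a4 : ZMod 2, κ R = a1 • h ∧
      κ P = a2 • h ∧ κ Q = a4 • h + (a1 * k z) • g + a1 • k := by
    intro z h1 h2 κ hκ hz
    obtain ⟨c1, c2, c3, c4, c5, c6, hs, f1, f2, f3⟩ := hF.1 κ hκ
    have w2 : κ P z = 0 := by rw [hsym κ hκ, hz]; rfl
    have w3 : κ Q z = 0 := by rw [hsym κ hκ, hz]; rfl
    rw [f2, LinearMap.add_apply, LinearMap.smul_apply, LinearMap.smul_apply, h1, h2, smul_zero,
      zero_add, smul_eq_mul, mul_one] at w2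
    subst w2
    rw [add_zero] at hs
    have h6 : c1 = c6 := CharTwo.add_eq_zero.1 hs
    subst h6
    rw [f3, LinearMap.add_apply, LinearMap.add_apply, LinearMap.smul_apply, LinearMap.smul_apply,
      LinearMap.smul_apply, h1, h2, smul_zero, zero_add, smul_eq_mul, smul_eq_mul,
      mul_one] at w3
    have h5 : c5 = c1 * k z := CharTwo.add_eq_zero.1 w3
    subst h5
    exact ⟨c1, c2, c4, f1, by rw [f2, zero_smul, add_zero], f3⟩
  have cancel : ∀ z p : V, z + p + p = z := fun z p => by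
    rw [add_assoc, self2, add_zero]
  -- the points with the value `h`
  have iR : In A R h := ⟨ε1, l1, r1⟩
  have iP : In A P h := ⟨ε2, l2, p2⟩
  have iQ : In A Q h := ⟨ε4, l4, q4⟩
  have iRP : In A (R + P) h := ⟨ε2, l2, by rw [map_add, r2, p2, zero_add]⟩
  have iPQ : In A (P + Q) h := ⟨ε4, l4, by rw [map_add, p4, q4, zero_add]⟩
  -- elements with `κ R = h`
  have stepU : ∀ z p0 : V, h z = 0 → g z = 1 → h (z + p0) = 0 → g (z + p0) = 1 →
      (∀ φ, In A Q φ → In A (p0 + Q) φ) →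
      (∀ κ ∈ A, κ (z + p0) = 0 → ∃ s : ZMod 2, κ p0 = s • h) →
      (∃ κ ∈ A, κ z = 0 ∧ κ R = h) → ∃ κ ∈ A, κ (z + p0) = 0 ∧ κ R = h := by
    rintro z p0 h1 h2 h3 h4 hin hp0 ⟨κ, hκ, e1, e2⟩
    obtain ⟨a1, a2, a4, f1, f2, f3⟩ := dec z h1 h2 κ hκ e1
    have ha1 : a1 = 1 := by
      rcases zz a1 with rfl | rfl
      · rw [zero_smul, e2] at f1
        exact absurd f1 hh0
      · rfl
    subst ha1
    obtain ⟨κ', hκ', g1, g2, -⟩ := link_add hL (z := z + Q) (p := p0 + Q) (φ := κ Q)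
      ⟨κ, hκ, add_of_zero e1 Q⟩ (hin _ ⟨κ, hκ, rfl⟩)
    have e3 : z + Q + (p0 + Q) = z + p0 := by
      have : z + Q + (p0 + Q) = z + p0 + (Q + Q) := by abel
      rw [this, self2, add_zero]
    rw [e3] at g1
    obtain ⟨b1, b2, b4, f4, f5, f6⟩ := dec (z + p0) h3 h4 κ' hκ' g1
    obtain ⟨s, hs⟩ := hp0 κ' hκ' g1
    rw [map_add, hs, f6, f3] at g2
    have hb := hI (s + b4 + a4) (b1 * k (z + p0) + 1 * k z) (b1 + 1) (by
      have h5 : (s + b4 + a4) • h + (b1 * k (z + p0) + 1 * k z) • g + (b1 + 1) • k =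
        (s • h + (b4 • h + (b1 * k (z + p0)) • g + b1 • k)) +
          (a4 • h + (1 * k z) • g + (1 : ZMod 2) • k) := by module
      rw [h5, g2]
      exact self2 _)
    have hb1 : b1 = 1 := CharTwo.add_eq_zero.1 hb.2.2
    subst hb1
    exact ⟨κ', hκ', g1, by rw [f4, one_smul]⟩
  have inQ : ∀ φ, In A Q φ → ∃ c4 c5 c6 : ZMod 2, φ = c4 • h + c5 • g + c6 • k := by
    rintro φ ⟨ω, hω, rfl⟩
    obtain ⟨c1, c2, c3, c4, c5, c6, -, -, -, f3⟩ := hF.1 ω hω
    exact ⟨c4, c5, c6, f3⟩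
  have inRQ : ∀ φ, In A Q φ → In A (R + Q) φ := by
    intro φ hφ
    obtain ⟨c4, c5, c6, rfl⟩ := inQ φ hφ
    obtain ⟨ω, hω, f1, f2, f3⟩ := hF.2 0 0 c6 c4 c5 c6 (by
      rw [zero_add]; exact CharTwo.add_self_eq_zero _)
    exact ⟨ω, hω, by rw [map_add, f1, f3, zero_smul, zero_add]⟩
  have inPQ : ∀ φ, In A Q φ → In A (P + Q) φ := by
    intro φ hφ
    obtain ⟨c4, c5, c6, rfl⟩ := inQ φ hφ
    obtain ⟨ω, hω, f1, f2, f3⟩ := hF.2 c6 0 0 c4 c5 c6 (by
      rw [add_zero]; exact CharTwo.add_self_eq_zero _)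
    exact ⟨ω, hω, by rw [map_add, f2, f3, zero_smul, zero_smul, zero_add, zero_add]⟩
  have inRPQ : ∀ φ, In A Q φ → In A (R + P + Q) φ := by
    intro φ hφ
    obtain ⟨c4, c5, c6, rfl⟩ := inQ φ hφ
    obtain ⟨ω, hω, f1, f2, f3⟩ := hF.2 c6 0 0 (c4 + c6) c5 c6 (by
      rw [add_zero]; exact CharTwo.add_self_eq_zero _)
    refine ⟨ω, hω, ?_⟩
    rw [map_add, map_add, f1, f2, f3]
    have h5 : c6 • h + ((0 : ZMod 2) • h + (0 : ZMod 2) • g) + ((c4 + c6) • h + c5 • g + c6 • k) =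
      (c4 • h + c5 • g + c6 • k) + (c6 • h + c6 • h) := by module
    rw [h5, self2, add_zero]
  have UR : ∀ z, h z = 0 → g z = 1 → (∃ κ ∈ A, κ z = 0 ∧ κ R = h) →
      ∃ κ ∈ A, κ (z + R) = 0 ∧ κ R = h := fun z h1 h2 hk =>
    stepU z R h1 h2 (XR z h1 h2).1 (XR z h1 h2).2 inRQ (fun κ hκ hz => by
      obtain ⟨a1, a2, a4, f1, f2, f3⟩ := dec _ (XR z h1 h2).1 (XR z h1 h2).2 κ hκ hz
      exact ⟨a1, f1⟩) hk
  have UP : ∀ z, h z = 0 → g z = 1 → (∃ κ ∈ A, κ z = 0 ∧ κ R = h) →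
      ∃ κ ∈ A, κ (z + P) = 0 ∧ κ R = h := fun z h1 h2 hk =>
    stepU z P h1 h2 (XP z h1 h2).1 (XP z h1 h2).2 inPQ (fun κ hκ hz => by
      obtain ⟨a1, a2, a4, f1, f2, f3⟩ := dec _ (XP z h1 h2).1 (XP z h1 h2).2 κ hκ hz
      exact ⟨a2, f2⟩) hk
  -- the value `h` spreads
  have S2 : ∀ z, h z = 0 → g z = 1 → In A z h → In A (z + R) h ∧ In A (z + P) h ∧
      In A (z + R + P) h := by
    intro z h1 h2 hz
    obtain ⟨κ, hκ, e1, e2, -⟩ := link_add hL hz iR
    have k1 : ∃ κ ∈ A, κ (z + R) = 0 ∧ κ R = h := ⟨κ, hκ, e1, e2⟩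
    have k0 := UR _ (XR z h1 h2).1 (XR z h1 h2).2 k1
    rw [cancel] at k0
    have k2 := UP _ h1 h2 k0
    have k3 := UP _ (XR z h1 h2).1 (XR z h1 h2).2 k1
    obtain ⟨κ0, m0, z0, y0⟩ := k0
    obtain ⟨κ2, m2, z2, y2⟩ := k2
    obtain ⟨κ3, m3, z3, y3⟩ := k3
    refine ⟨⟨κ0, m0, by rw [add_of_zero z0, y0]⟩, ⟨κ3, m3, ?_⟩, ⟨κ2, m2, ?_⟩⟩
    · have h3 : z + P = z + R + P + R := by
        have : z + R + P + R = z + P + (R + R) := by abel
        rw [this, self2, add_zero]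
      rw [h3, add_of_zero z3, y3]
    · have h3 : z + R + P = z + P + R := by abel
      rw [h3, add_of_zero z2, y2]
  have S3 : ∀ z, h z = 0 → g z = 1 → In A z h → In A (z + Q) h ∧ In A (z + (P + Q)) h := by
    intro z h1 h2 hz
    obtain ⟨s1, s2, s3⟩ := S2 z h1 h2 hz
    obtain ⟨κ2, m2, z2, y2, -⟩ := link_add hL s2 iP
    rw [cancel] at z2
    have s3' : In A (z + (R + P)) h := by rw [← add_assoc]; exact s3
    obtain ⟨κ3, m3, z3, y3, -⟩ := link_add hL s3' iRP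
    rw [cancel] at z3
    have key : ∃ κ ∈ A, κ z = 0 ∧ κ R = 0 ∧ κ P = h := by
      obtain ⟨b1, b2, b4, f1, f2, f3⟩ := dec z h1 h2 κ2 m2 z2
      rcases zz b1 with rfl | rfl
      · exact ⟨κ2, m2, z2, by rw [f1, zero_smul], y2⟩
      · obtain ⟨d1, d2, d4, g1, g2, g3⟩ := dec z h1 h2 κ3 m3 z3
        rcases zz d1 with rfl | rfl
        · refine ⟨κ3, m3, z3, by rw [g1, zero_smul], ?_⟩
          rw [map_add, g1, zero_smul, zero_add] at y3
          exact y3
        · refine ⟨κ2 + κ3, A.add_mem m2 m3, by rw [LinearMap.add_apply, z2, z3, add_zero], ?_, ?_⟩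
          · rw [LinearMap.add_apply, f1, g1, one_smul]
            exact self2 h
          · rw [map_add, g1, one_smul] at y3
            have h4 : κ3 P = 0 := by
              have h5 : h + κ3 P + h = 0 := by rw [y3]; exact self2 h
              have h6 : h + κ3 P + h = κ3 P + (h + h) := by abel
              rw [h6, self2, add_zero] at h5
              exact h5
            rw [LinearMap.add_apply, y2, h4, add_zero]
    obtain ⟨κ, hκ, e1, e2, e3⟩ := key
    obtain ⟨a1, a2, a4, f1, f2, f3⟩ := dec z h1 h2 κ hκ e1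
    have ha1 : a1 = 0 := by
      rcases zz a1 with rfl | rfl
      · rfl
      · rw [e2, one_smul] at f1
        exact absurd f1.symm hh0
    subst ha1
    have f3' : κ Q = a4 • h := by rw [f3, zero_mul, zero_smul, zero_smul, add_zero, add_zero]
    rcases zz a4 with rfl | rfl
    · have t1 : In A (z + (P + Q)) h := ⟨κ, hκ, by
        rw [add_of_zero e1, map_add, e3, f3', zero_smul, add_zero]⟩
      have hx1 := XQ z h1 h2
      have hx2 := XP _ hx1.1 hx1.2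
      have h7 : z + (P + Q) = z + Q + P := by abel
      have t2 := (S2 (z + Q + P) hx2.1 hx2.2 (by rw [← h7]; exact t1)).2.1
      rw [cancel] at t2
      exact ⟨t2, t1⟩
    · have t1 : In A (z + Q) h := ⟨κ, hκ, by rw [add_of_zero e1, f3', one_smul]⟩
      have hx1 := XQ z h1 h2
      have t2 := (S2 (z + Q) hx1.1 hx1.2 t1).2.1
      have h7 : z + (P + Q) = z + Q + P := by abel
      rw [h7]
      exact ⟨t1, t2⟩
  have S5 : ∀ z, h z = 0 → g z = 1 → In A z h → ∃ κ ∈ A, κ z = 0 ∧ κ R = 0 ∧ κ P = 0 ∧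
      κ Q = h := by
    intro z h1 h2 hz
    obtain ⟨s1, s2⟩ := S3 z h1 h2 hz
    obtain ⟨κ4, m4, z4, y4, -⟩ := link_add hL s1 iQ
    rw [cancel] at z4
    obtain ⟨κ5, m5, z5, y5, -⟩ := link_add hL s2 iPQ
    rw [cancel] at z5
    obtain ⟨a1, a2, a4, f1, f2, f3⟩ := dec z h1 h2 κ4 m4 z4
    obtain ⟨b1, b2, b4, g1, g2, g3⟩ := dec z h1 h2 κ5 m5 z5
    have ha := hI (a4 + 1) (a1 * k z) a1 (by
      have h5 : (a4 + 1) • h + (a1 * k z) • g + a1 • k =
        (a4 • h + (a1 * k z) • g + a1 • k) + h := by module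
      rw [h5, ← f3, y4]
      exact self2 h)
    have ha1 : a1 = 0 := ha.2.2
    subst ha1
    have hb := hI (b2 + b4 + 1) (b1 * k z) b1 (by
      have h5 : (b2 + b4 + 1) • h + (b1 * k z) • g + b1 • k =
        (b2 • h + (b4 • h + (b1 * k z) • g + b1 • k)) + h := by module
      rw [h5, ← g2, ← g3, ← map_add, y5]
      exact self2 h)
    have hb1 : b1 = 0 := hb.2.2
    subst hb1
    rw [zero_smul] at f1 g1
    have g3' : κ5 Q = b4 • h := by rw [g3, zero_mul, zero_smul, zero_smul, add_zero, add_zero]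
    rcases zz a2 with rfl | rfl
    · exact ⟨κ4, m4, z4, f1, by rw [f2, zero_smul], y4⟩
    · rcases zz b2 with rfl | rfl
      · refine ⟨κ5, m5, z5, g1, by rw [g2, zero_smul], ?_⟩
        have hb4 : b4 = 1 := by
          have h5 := hb.1
          rw [zero_add] at h5
          exact CharTwo.add_eq_zero.1 h5
        rw [g3', hb4, one_smul]
      · have hb4 : b4 = 0 := by
          have h5 := hb.1
          rcases zz b4 with h6 | h6
          · exact h6
          · rw [h6] at h5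
            exact absurd h5 (by decide)
        refine ⟨κ4 + κ5, A.add_mem m4 m5, by rw [LinearMap.add_apply, z4, z5, add_zero],
          by rw [LinearMap.add_apply, f1, g1, add_zero], ?_, ?_⟩
        · rw [LinearMap.add_apply, f2, g2]
          exact self2 _
        · rw [LinearMap.add_apply, y4, g3', hb4, zero_smul, add_zero]
  have S6 : ∀ z, h z = 0 → g z = 1 → ¬ In A z h := by
    intro z h1 h2 hz
    obtain ⟨κ, hκ, e1, e2, e3, e4⟩ := S5 z h1 h2 hz
    have hx := XQ z h1 h2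
    obtain ⟨κ', hκ', f1, f2, f3, f4⟩ := S5 (z + Q) hx.1 hx.2 (S3 z h1 h2 hz).1
    have h3 := hfa (κ + κ') (A.add_mem hκ hκ') (by rw [LinearMap.add_apply, e2, f2, add_zero])
      (by rw [LinearMap.add_apply, e3, f3, add_zero])
      (by rw [LinearMap.add_apply, e4, f4]; exact self2 h)
    have h4 : κ (z + Q) + κ' (z + Q) = 0 := LinearMap.congr_fun h3 (z + Q)
    rw [f1, add_zero, add_of_zero e1, e4] at h4
    exact hh0 h4
  obtain ⟨a1, a2, a4, f1, f2, f3⟩ := dec x hx0 gx1 κ hκ hz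
  rcases zz a1 with rfl | rfl
  · rcases zz a2 with rfl | rfl
    · rcases zz a4 with rfl | rfl
      · apply hne
        refine hfa κ hκ (by rw [f1, zero_smul]) (by rw [f2, zero_smul]) ?_
        rw [f3, zero_mul, zero_smul, zero_smul, zero_smul, add_zero, add_zero]
      · refine S6 (x + Q) (XQ x hx0 gx1).1 (XQ x hx0 gx1).2 ⟨κ, hκ, ?_⟩
        rw [add_of_zero hz, f3, zero_mul, zero_smul, zero_smul, add_zero, add_zero, one_smul]
    · refine S6 (x + P) (XP x hx0 gx1).1 (XP x hx0 gx1).2 ⟨κ, hκ, ?_⟩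
      rw [add_of_zero hz, f2, one_smul]
  · refine S6 (x + R) (XR x hx0 gx1).1 (XR x hx0 gx1).2 ⟨κ, hκ, ?_⟩
    rw [add_of_zero hz, f1, one_smul]

end

end Pool.Agent.Run7.h948.QF
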