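import Pool.Agent.Run7.h948.QF.FullA

/-! The second form contains elements with all quaternions as values. -/

set_option autoImplicit false

namespace Pool.Agent.Run7.h948.QF

open Pool.Agent.N88.TS Pool.Agent.W622.ETG Pool.Agent.TH188.ETP Pool.Agent.TH188.ETV
  Pool.Agent.H315R3.ETC Module
open Pool.Agent.TH188.ET (exists_char exists_factor)

section
variable {V : Type} [AddCommGroup V] [Module (ZMod 2) V] {A : Fam V} {R P Q : V}

theorem coreB (hsym : ∀ ω ∈ A, ∀ a b : V, ω a b = ω b a) (hL : Linked A)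
    {h g2 g1 g3 : Dl V} (hI : Ind4 h g2 g1 g3) (hF : FB A R P Q h g2 g1 g3)
    (hfa : ∀ ω ∈ A, ω R = 0 → ω P = 0 → ω Q = 0 → ω = 0) {y : V} (hh : h y = 1)
    (hg2 : g2 y = 0) (hg1 : g1 y = 0) (hg3 : g3 y = 0)
    (hkill : ∀ ω ∈ A, ω y R = 0 → ω y P = 0 → ω y Q = 0 → ω y = 0) : False := by
  obtain ⟨η2, l2, r2, p2, q2⟩ := hF.2 0 1 0 0 0 0 (by decide)
  obtain ⟨η3, l3, r3, p3, q3⟩ := hF.2 0 0 1 0 0 0 (by decide)
  obtain ⟨ω4, l4, r4, p4, q4⟩ := hF.2 1 0 0 1 0 0 (by decide)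
  obtain ⟨ω5, l5, r5, p5, q5⟩ := hF.2 1 0 0 0 1 0 (by decide)
  obtain ⟨ω6, l6, r6, p6, q6⟩ := hF.2 1 0 0 0 0 1 (by decide)
  simp only [zero_smul, one_smul, add_zero, zero_add] at r2 p2 q2 r3 p3 q3 p4 q4 p5 q5 p6 q6
  have hhQ : h Q = 0 := by
    rw [← p2, hsym η2 l2, q2]; rfl
  have hhP : h P = 0 := by
    rw [← q3, hsym η3 l3, p3]; rfl
  have h2Q : g2 Q = 0 := by
    rw [← p4, hsym ω4 l4, q4]; rfl
  have h1P : g1 P = 0 := by
    rw [← q5, hsym ω5 l5, p5]; rfl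
  have h3 : g3 P = g3 Q := by
    have h1 := hsym ω6 l6 P Q
    rw [p6, q6] at h1
    exact h1.symm
  have n0 : ∀ i j l m : ZMod 2, i • h + j • g2 + l • g1 + m • g3 = 0 →
      ¬ (i = 0 ∧ j = 0 ∧ l = 0 ∧ m = 0) → False := fun i j l m h1 h2 => h2 (hI i j l m h1)
  obtain ⟨κ1, n1, a1, a2, a3⟩ := hF.2 0 0 0 0 1 1 (by decide)
  obtain ⟨κ2, n2, b1, b2, b3⟩ := hF.2 0 0 0 1 0 1 (by decide)
  obtain ⟨κ3, n3, d1, d2, d3⟩ := hF.2 0 0 0 1 1 0 (by decide)
  simp only [zero_smul, one_smul, add_zero, zero_add] at a1 a2 a3 b1 b2 b3 d1 d2 d3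
  have z1 : κ1 y = 0 := hkill κ1 n1 (by rw [hsym κ1 n1, a1]; rfl)
    (by rw [hsym κ1 n1, a2, hg3])
    (by rw [hsym κ1 n1, a3, LinearMap.add_apply, hg1, hg3, add_zero])
  have z2 : κ2 y = 0 := hkill κ2 n2 (by rw [hsym κ2 n2, b1]; rfl)
    (by rw [hsym κ2 n2, b2, LinearMap.add_apply, hg2, hg3, add_zero])
    (by rw [hsym κ2 n2, b3, hg3])
  have z3 : κ3 y = 0 := hkill κ3 n3 (by rw [hsym κ3 n3, d1]; rfl)
    (by rw [hsym κ3 n3, d2, hg2]) (by rw [hsym κ3 n3, d3, hg1])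
  -- the first relation
  have A1 : (g3 P) • (η2 y + η3 y) = (g3 P) • h + g3 := by
    have e0 : κ3 (y + Q) = g1 := by rw [map_add, z3, d3, zero_add]
    have e0' : κ1 (P + Q) = g1 := by
      rw [map_add, a2, a3]
      have h1 : g3 + (g1 + g3) = g1 + (g3 + g3) := by abel
      rw [h1, self2, add_zero]
    obtain ⟨ω, hω, e1, e2⟩ := hL κ3 n3 κ1 n1 (y + Q) (P + Q) (by rw [e0, e0'])
    rw [e0] at e1 e2
    obtain ⟨c1, c2, c3, c4, c5, c6, hs, f1, f2, f3⟩ := hF.1 ω hω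
    obtain ⟨i1, i2, i3, -⟩ := hI (c2 + c3) c4 (c5 + 1) 0 (by
      have h1 : (c2 + c3) • h + c4 • g2 + (c5 + 1) • g1 + (0 : ZMod 2) • g3 + (c6 • g3 + c6 • g3) =
        ((c2 • h + c4 • g2 + c6 • g3) + (c3 • h + c5 • g1 + c6 • g3)) + g1 := by module
      rw [self2, add_zero, ← f2, ← f3, ← map_add, e2, self2] at h1
      exact h1)
    have e3 : ω (y + P) = 0 := by
      have h1 : ω (y + P) = ω (y + Q) + ω (P + Q) + (ω Q + ω Q) := by
        simp only [map_add]
        have h2 : ω y + ω Q + (ω P + ω Q) + (ω Q + ω Q) =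
          ω y + ω P + (ω Q + ω Q) + (ω Q + ω Q) := by abel
        rw [h2, self2, add_zero, add_zero]
      rw [h1, e1, e2, self2, self2, add_zero]
    have hv : h (y + P) = 1 := by rw [map_add, hh, hhP, add_zero]
    have w1 : ω R (y + P) = 0 := by
      rw [hsym ω hω, e3]; rfl
    have w2 : ω P (y + P) = 0 := by
      rw [hsym ω hω, e3]; rfl
    rw [f1, LinearMap.smul_apply, hv, smul_eq_mul, mul_one] at w1
    have i3' : c5 = 1 := CharTwo.add_eq_zero.1 i3
    subst w1 i2 i3'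
    rw [zero_add, zero_add] at hs
    have i6 : 1 = c6 := CharTwo.add_eq_zero.1 hs
    subst i6
    rw [f2, LinearMap.add_apply, LinearMap.add_apply, LinearMap.smul_apply, LinearMap.smul_apply,
      LinearMap.smul_apply, hv, zero_smul, map_add, hg3, smul_eq_mul, mul_one, add_zero,
      zero_add, one_smul] at w2
    have j2 : c2 = g3 P := CharTwo.add_eq_zero.1 w2
    have j3 : c2 = c3 := CharTwo.add_eq_zero.1 i1
    subst j3
    subst j2
    have hz := hfa (ω + (κ1 + (g3 P) • (η2 + η3)))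
      (A.add_mem hω (A.add_mem n1 (A.smul_mem _ (A.add_mem l2 l3))))
      (by
        simp only [LinearMap.add_apply, LinearMap.smul_apply, f1, a1, r2, r3, zero_smul,
          smul_zero, add_zero])
      (by
        simp only [LinearMap.add_apply, LinearMap.smul_apply, f2, a2, p2, p3, zero_smul,
          one_smul, add_zero]
        have h1 : (g3 P) • h + g3 + (g3 + (g3 P) • h) =
          ((g3 P) • h + g3) + ((g3 P) • h + g3) := by abel
        rw [h1, self2])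
      (by
        simp only [LinearMap.add_apply, LinearMap.smul_apply, f3, a3, q2, q3, one_smul,
          zero_add]
        have h1 : (g3 P) • h + g1 + g3 + (g1 + g3 + (g3 P) • h) =
          ((g3 P) • h + g1 + g3) + ((g3 P) • h + g1 + g3) := by abel
        rw [h1, self2])
    have hzy : ω y + (κ1 y + (g3 P) • (η2 y + η3 y)) = 0 := by
      have h1 := LinearMap.congr_fun hz y
      exact h1
    rw [z1, zero_add] at hzy
    rw [map_add] at e3
    have h5 : (g3 P) • (η2 y + η3 y) = ω y := (eq_of_add hzy).symm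
    have h6 : ω y = ω P := eq_of_add e3
    rw [h5, h6, f2, zero_smul, add_zero, one_smul]
  -- the second relation
  have A2 : (g2 P) • η2 y = (g2 P) • h + g2 := by
    have e0 : κ1 (y + P) = g3 := by rw [map_add, z1, a2, zero_add]
    obtain ⟨ω, hω, e1, e2⟩ := hL κ1 n1 κ2 n2 (y + P) Q (by rw [e0, b3])
    rw [e0] at e1 e2
    obtain ⟨c1, c2, c3, c4, c5, c6, hs, f1, f2, f3⟩ := hF.1 ω hω
    obtain ⟨i1, -, i3, i4⟩ := hI c3 0 c5 (c6 + 1) (by
      have h1 : c3 • h + (0 : ZMod 2) • g2 + c5 • g1 + (c6 + 1) • g3 =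
        (c3 • h + c5 • g1 + c6 • g3) + g3 := by module
      rw [h1, ← f3, e2, self2])
    have i4' : c6 = 1 := CharTwo.add_eq_zero.1 i4
    subst i1 i3 i4'
    have e3 : ω (y + P + Q) = 0 := by
      rw [map_add, e1, e2, self2]
    have hv : h (y + P + Q) = 1 := by rw [map_add, map_add, hh, hhP, hhQ, add_zero, add_zero]
    have w1 : ω R (y + P + Q) = 0 := by
      rw [hsym ω hω, e3]; rfl
    have w2 : ω P (y + P + Q) = 0 := by
      rw [hsym ω hω, e3]; rfl
    rw [f1, LinearMap.smul_apply, hv, smul_eq_mul, mul_one] at w1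
    subst w1
    rw [zero_add, add_zero] at hs
    have i5 : c4 = 1 := CharTwo.add_eq_zero.1 hs
    subst i5
    rw [f2, LinearMap.add_apply, LinearMap.add_apply, LinearMap.smul_apply, LinearMap.smul_apply,
      LinearMap.smul_apply, hv, one_smul, one_smul, map_add, map_add, map_add, map_add, hg2, hg3,
      h2Q, h3, smul_eq_mul, mul_one, zero_add, zero_add, add_zero,
      CharTwo.add_self_eq_zero, add_zero] at w2
    have j2 : c2 = g2 P := CharTwo.add_eq_zero.1 w2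
    subst j2
    have hz := hfa (ω + (κ2 + (g2 P) • η2))
      (A.add_mem hω (A.add_mem n2 (A.smul_mem _ l2)))
      (by
        simp only [LinearMap.add_apply, LinearMap.smul_apply, f1, b1, r2, zero_smul,
          smul_zero, add_zero])
      (by
        simp only [LinearMap.add_apply, LinearMap.smul_apply, f2, b2, p2, one_smul]
        have h1 : (g2 P) • h + g2 + g3 + (g2 + g3 + (g2 P) • h) =
          ((g2 P) • h + g2 + g3) + ((g2 P) • h + g2 + g3) := by abel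
        rw [h1, self2])
      (by
        simp only [LinearMap.add_apply, LinearMap.smul_apply, e2, b3, q2, smul_zero, add_zero]
        exact self2 g3)
    have hzy : ω y + (κ2 y + (g2 P) • η2 y) = 0 := LinearMap.congr_fun hz y
    rw [z2, zero_add] at hzy
    have h5 : (g2 P) • η2 y = ω y := (eq_of_add hzy).symm
    have h6 : ω y = ω P + ω Q := by
      have h7 : ω y + (ω P + ω Q) = 0 := by
        rw [← add_assoc, ← map_add, ← map_add]; exact e3
      exact eq_of_add h7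
    rw [h5, h6, e2, f2, one_smul, one_smul, add_assoc, self2, add_zero]
  -- the third relation
  have A3 : (g1 Q) • η3 y = (g1 Q) • h + g1 := by
    have e0 : κ2 (y + Q) = g3 := by rw [map_add, z2, b3, zero_add]
    obtain ⟨ω, hω, e1, e2⟩ := hL κ2 n2 κ1 n1 (y + Q) P (by rw [e0, a2])
    rw [e0] at e1 e2
    obtain ⟨c1, c2, c3, c4, c5, c6, hs, f1, f2, f3⟩ := hF.1 ω hω
    obtain ⟨i1, i3, -, i4⟩ := hI c2 c4 0 (c6 + 1) (by
      have h1 : c2 • h + c4 • g2 + (0 : ZMod 2) • g1 + (c6 + 1) • g3 =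
        (c2 • h + c4 • g2 + c6 • g3) + g3 := by module
      rw [h1, ← f2, e2, self2])
    have i4' : c6 = 1 := CharTwo.add_eq_zero.1 i4
    subst i1 i3 i4'
    have e3 : ω (y + Q + P) = 0 := by
      rw [map_add, e1, e2, self2]
    have hv : h (y + Q + P) = 1 := by rw [map_add, map_add, hh, hhP, hhQ, add_zero, add_zero]
    have w1 : ω R (y + Q + P) = 0 := by
      rw [hsym ω hω, e3]; rfl
    have w2 : ω Q (y + Q + P) = 0 := by
      rw [hsym ω hω, e3]; rfl
    rw [f1, LinearMap.smul_apply, hv, smul_eq_mul, mul_one] at w1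
    subst w1
    rw [zero_add, zero_add] at hs
    have i5 : c5 = 1 := CharTwo.add_eq_zero.1 hs
    subst i5
    rw [f3, LinearMap.add_apply, LinearMap.add_apply, LinearMap.smul_apply, LinearMap.smul_apply,
      LinearMap.smul_apply, hv, one_smul, one_smul, map_add, map_add, map_add, map_add, hg1, hg3,
      h1P, h3, smul_eq_mul, mul_one, zero_add, zero_add, add_zero,
      CharTwo.add_self_eq_zero, add_zero] at w2
    have j2 : c3 = g1 Q := CharTwo.add_eq_zero.1 w2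
    subst j2
    have hz := hfa (ω + (κ1 + (g1 Q) • η3))
      (A.add_mem hω (A.add_mem n1 (A.smul_mem _ l3)))
      (by
        simp only [LinearMap.add_apply, LinearMap.smul_apply, f1, a1, r3, zero_smul,
          smul_zero, add_zero])
      (by
        simp only [LinearMap.add_apply, LinearMap.smul_apply, e2, a2, p3, smul_zero, add_zero]
        exact self2 g3)
      (by
        simp only [LinearMap.add_apply, LinearMap.smul_apply, f3, a3, q3, one_smul]
        have h1 : (g1 Q) • h + g1 + g3 + (g1 + g3 + (g1 Q) • h) =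
          ((g1 Q) • h + g1 + g3) + ((g1 Q) • h + g1 + g3) := by abel
        rw [h1, self2])
    have hzy : ω y + (κ1 y + (g1 Q) • η3 y) = 0 := LinearMap.congr_fun hz y
    rw [z1, zero_add] at hzy
    have h5 : (g1 Q) • η3 y = ω y := (eq_of_add hzy).symm
    have h6 : ω y = ω Q + ω P := by
      have h7 : ω y + (ω Q + ω P) = 0 := by
        rw [← add_assoc, ← map_add, ← map_add]; exact e3
      exact eq_of_add h7
    rw [h5, h6, e2, f3, one_smul, one_smul, add_assoc, self2, add_zero]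
  rcases zz (g2 P) with h4 | h4
  · rw [h4, zero_smul, zero_smul, zero_add] at A2
    exact n0 0 1 0 0 (by rw [← A2]; module) (by rintro ⟨-, a, -, -⟩; exact one_ne_zero a)
  rcases zz (g1 Q) with h5 | h5
  · rw [h5, zero_smul, zero_smul, zero_add] at A3
    exact n0 0 0 1 0 (by rw [← A3]; module) (by rintro ⟨-, -, a, -⟩; exact one_ne_zero a)
  rcases zz (g3 P) with h6 | h6
  · rw [h6, zero_smul, zero_smul, zero_add] at A1
    exact n0 0 0 0 1 (by rw [← A1]; module) (by rintro ⟨-, -, -, a⟩; exact one_ne_zero a)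
  rw [h4, one_smul, one_smul] at A2
  rw [h5, one_smul, one_smul] at A3
  rw [h6, one_smul, one_smul, A2, A3] at A1
  refine n0 1 1 1 1 ?_ (by rintro ⟨a, -, -, -⟩; exact one_ne_zero a)
  have h7 : (1 : ZMod 2) • h + (1 : ZMod 2) • g2 + (1 : ZMod 2) • g1 + (1 : ZMod 2) • g3 +
      (h + h) = (h + g2 + (h + g1)) + (h + g3) := by module
  rw [self2, add_zero, A1, self2] at h7
  exact h7

/-- a member vanishing at `v` of the given type -/
def Ty (A : Fam V) (R P Q : V) (h g2 g1 g3 : Dl V) (e4 e5 e6 : ZMod 2) (v : V) : Prop :=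
  ∃ κ ∈ A, κ v = 0 ∧ κ R = 0 ∧ ∃ s t : ZMod 2, κ P = s • h + e4 • g2 + e6 • g3 ∧
    κ Q = t • h + e5 • g1 + e6 • g3

theorem Ty.dec (hsym : ∀ ω ∈ A, ∀ a b : V, ω a b = ω b a) {h g2 g1 g3 : Dl V}
    (hF : FB A R P Q h g2 g1 g3) {v : V} (hv : h v = 1) {κ : Frm V} (hκ : κ ∈ A)
    (hz : κ v = 0) : ∃ s t e4 e5 e6 : ZMod 2, e4 + e5 + e6 = 0 ∧ κ R = 0 ∧
      κ P = s • h + e4 • g2 + e6 • g3 ∧ κ Q = t • h + e5 • g1 + e6 • g3 := by
  obtain ⟨c1, c2, c3, c4, c5, c6, hs, f1, f2, f3⟩ := hF.1 κ hκ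
  have w1 : κ R v = 0 := by rw [hsym κ hκ, hz]; rfl
  rw [f1, LinearMap.smul_apply, hv, smul_eq_mul, mul_one] at w1
  subst w1
  rw [zero_add] at hs
  exact ⟨c2, c3, c4, c5, c6, hs, by rw [f1, zero_smul], f2, f3⟩

theorem Ty.add {h g2 g1 g3 : Dl V} {a4 a5 a6 b4 b5 b6 : ZMod 2} {v : V}
    (ha : Ty A R P Q h g2 g1 g3 a4 a5 a6 v) (hb : Ty A R P Q h g2 g1 g3 b4 b5 b6 v) :
    Ty A R P Q h g2 g1 g3 (a4 + b4) (a5 + b5) (a6 + b6) v := by
  obtain ⟨κ, hκ, e1, e2, s, t, e3, e4⟩ := ha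
  obtain ⟨κ', hκ', f1, f2, s', t', f3, f4⟩ := hb
  refine ⟨κ + κ', A.add_mem hκ hκ', by rw [LinearMap.add_apply, e1, f1, add_zero],
    by rw [LinearMap.add_apply, e2, f2, add_zero], s + s', t + t', ?_, ?_⟩
  · rw [LinearMap.add_apply, e3, f3]; module
  · rw [LinearMap.add_apply, e4, f4]; module

theorem Ty.zero {h g2 g1 g3 : Dl V} {v : V} : Ty A R P Q h g2 g1 g3 0 0 0 v :=
  ⟨0, A.zero_mem, rfl, rfl, 0, 0, by simp, by simp⟩

theorem Ty.all (hsym : ∀ ω ∈ A, ∀ a b : V, ω a b = ω b a) (hL : Linked A)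
    {h g2 g1 g3 : Dl V} (hI : Ind4 h g2 g1 g3) (hF : FB A R P Q h g2 g1 g3)
    (hfa : ∀ ω ∈ A, ω R = 0 → ω P = 0 → ω Q = 0 → ω = 0) {y : V} (hh : h y = 1)
    (hall : ∀ c4 c5 c6 : ZMod 2, c4 + c5 + c6 = 0 → Ty A R P Q h g2 g1 g3 c4 c5 c6 y) :
    False := by
  obtain ⟨hI', hF'⟩ := FB_norm hI hF (g2 y) (g1 y) (g3 y)
  have aux : ∀ g : Dl V, (g + g y • h) y = 0 := fun g => by
    rw [LinearMap.add_apply, LinearMap.smul_apply, hh, smul_eq_mul, mul_one]
    exact CharTwo.add_self_eq_zero _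
  refine coreB hsym hL hI' hF' hfa hh (aux g2) (aux g1) (aux g3) ?_
  intro ω hω r p q
  obtain ⟨c1, c2, c3, c4, c5, c6, hs, f1, f2, f3⟩ := hF.1 ω hω
  have w1 : ω R y = 0 := by rw [hsym ω hω]; exact r
  rw [f1, LinearMap.smul_apply, hh, smul_eq_mul, mul_one] at w1
  subst w1
  rw [zero_add] at hs
  obtain ⟨κ, hκ, e1, e2, s, t, e3, e4⟩ := hall c4 c5 c6 hs
  have hηP : (ω + κ) P = (c2 + s) • h := by
    have h1 : (c2 • h + c4 • g2 + c6 • g3) + (s • h + c4 • g2 + c6 • g3) =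
      (c2 + s) • h + ((c4 • g2 + c6 • g3) + (c4 • g2 + c6 • g3)) := by module
    rw [LinearMap.add_apply, f2, e3, h1, self2, add_zero]
  have hηQ : (ω + κ) Q = (c3 + t) • h := by
    have h1 : (c3 • h + c5 • g1 + c6 • g3) + (t • h + c5 • g1 + c6 • g3) =
      (c3 + t) • h + ((c5 • g1 + c6 • g3) + (c5 • g1 + c6 • g3)) := by module
    rw [LinearMap.add_apply, f3, e4, h1, self2, add_zero]
  have hη : ω + κ ∈ A := A.add_mem hω hκ
  have hηy : (ω + κ) y = ω y := by rw [LinearMap.add_apply, e1, add_zero]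
  have x1 : (ω + κ) P y = 0 := by rw [hsym _ hη, hηy]; exact p
  have x2 : (ω + κ) Q y = 0 := by rw [hsym _ hη, hηy]; exact q
  rw [hηP, LinearMap.smul_apply, hh, smul_eq_mul, mul_one] at x1
  rw [hηQ, LinearMap.smul_apply, hh, smul_eq_mul, mul_one] at x2
  have h0 := hfa _ hη (by rw [LinearMap.add_apply, f1, e2, zero_smul, add_zero])
    (by rw [hηP, x1, zero_smul]) (by rw [hηQ, x2, zero_smul])
  rw [← hηy, h0]
  rfl

theorem noBu (hsym : ∀ ω ∈ A, ∀ a b : V, ω a b = ω b a) (hL : Linked A)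
    {h g2 g1 g3 : Dl V} (hI : Ind4 h g2 g1 g3) (hF : FB A R P Q h g2 g1 g3)
    (hfa : ∀ ω ∈ A, ω R = 0 → ω P = 0 → ω Q = 0 → ω = 0)
    {y : V} (hy : h y = 1) (k0 : ∃ ω ∈ A, ω ≠ 0 ∧ ω y = 0)
    (kP : ∃ ω ∈ A, ω ≠ 0 ∧ ω (y + P) = 0) (kQ : ∃ ω ∈ A, ω ≠ 0 ∧ ω (y + Q) = 0)
    (kPQ : ∃ ω ∈ A, ω ≠ 0 ∧ ω (y + P + Q) = 0) : False := by
  obtain ⟨η2, l2, r2, p2, q2⟩ := hF.2 0 1 0 0 0 0 (by decide)
  obtain ⟨η3, l3, r3, p3, q3⟩ := hF.2 0 0 1 0 0 0 (by decide)
  simp only [zero_smul, one_smul, add_zero, zero_add] at r2 p2 q2 r3 p3 q3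
  have hQ : h Q = 0 := by
    rw [← p2, hsym η2 l2, q2]; rfl
  have hP : h P = 0 := by
    rw [← q3, hsym η3 l3, p3]; rfl
  have XP : ∀ z, h z = 1 → h (z + P) = 1 := fun z h1 => by rw [map_add, h1, hP, add_zero]
  have XQ : ∀ z, h z = 1 → h (z + Q) = 1 := fun z h1 => by rw [map_add, h1, hQ, add_zero]
  have XPQ : ∀ z, h z = 1 → h (z + P + Q) = 1 := fun z h1 => XQ _ (XP z h1)
  -- the basic step
  have stp : ∀ (z p w : V) (φ : Dl V), h w = 1 → z + p = w → In A z φ → In A p φ →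
      ∃ κ ∈ A, κ w = 0 ∧ κ p = φ ∧ ∃ s t e4 e5 e6 : ZMod 2, e4 + e5 + e6 = 0 ∧ κ R = 0 ∧
      κ P = s • h + e4 • g2 + e6 • g3 ∧ κ Q = t • h + e5 • g1 + e6 • g3 := by
    rintro z p w φ hw rfl h1 h2
    obtain ⟨κ, hκ, e1, e2, -⟩ := link_add hL h1 h2
    exact ⟨κ, hκ, e1, e2, Ty.dec hsym hF hw hκ e1⟩
  -- values at the three points
  have iP : ∀ s a b : ZMod 2, In A P (s • h + a • g2 + b • g3) := by
    intro s a b
    obtain ⟨ω, hω, f1, f2, f3⟩ := hF.2 0 s 0 a (a + b) b (by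
      rw [zero_add]
      have h1 : a + (a + b) + b = (a + a) + (b + b) := by ring
      rw [h1, CharTwo.add_self_eq_zero, CharTwo.add_self_eq_zero, add_zero])
    exact ⟨ω, hω, f2⟩
  have iQ : ∀ s a b : ZMod 2, In A Q (s • h + a • g1 + b • g3) := by
    intro s a b
    obtain ⟨ω, hω, f1, f2, f3⟩ := hF.2 0 0 s (a + b) a b (by
      rw [zero_add]
      have h1 : a + b + a + b = (a + a) + (b + b) := by ring
      rw [h1, CharTwo.add_self_eq_zero, CharTwo.add_self_eq_zero, add_zero])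
    exact ⟨ω, hω, f3⟩
  have iPQ : ∀ s a b : ZMod 2, In A (P + Q) (s • h + a • g2 + b • g1) := by
    intro s a b
    obtain ⟨ω, hω, f1, f2, f3⟩ := hF.2 0 s 0 a b (a + b) (by
      rw [zero_add]
      exact CharTwo.add_self_eq_zero _)
    refine ⟨ω, hω, ?_⟩
    rw [map_add, f2, f3]
    have h1 : s • h + a • g2 + (a + b) • g3 + ((0 : ZMod 2) • h + b • g1 + (a + b) • g3) =
      s • h + a • g2 + b • g1 + ((a + b) • g3 + (a + b) • g3) := by module
    rw [h1, self2, add_zero]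
  have z1 : ∀ a : ZMod 2, a + 1 = 0 → a = 1 := fun a ha => CharTwo.add_eq_zero.1 ha
  -- reading the coefficients
  have rP : ∀ {s a b s' a' b' : ZMod 2}, s • h + a • g2 + b • g3 = s' • h + a' • g2 + b' • g3 →
      a = a' ∧ b = b' := by
    intro s a b s' a' b' he
    obtain ⟨-, i2, -, i4⟩ := hI (s + s') (a + a') 0 (b + b') (by
      have h1 : (s + s') • h + (a + a') • g2 + (0 : ZMod 2) • g1 + (b + b') • g3 =
        (s • h + a • g2 + b • g3) + (s' • h + a' • g2 + b' • g3) := by module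
      rw [h1, he, self2])
    exact ⟨CharTwo.add_eq_zero.1 i2, CharTwo.add_eq_zero.1 i4⟩
  have rQ : ∀ {s a b s' a' b' : ZMod 2}, s • h + a • g1 + b • g3 = s' • h + a' • g1 + b' • g3 →
      a = a' ∧ b = b' := by
    intro s a b s' a' b' he
    obtain ⟨-, -, i2, i4⟩ := hI (s + s') 0 (a + a') (b + b') (by
      have h1 : (s + s') • h + (0 : ZMod 2) • g2 + (a + a') • g1 + (b + b') • g3 =
        (s • h + a • g1 + b • g3) + (s' • h + a' • g1 + b' • g3) := by module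
      rw [h1, he, self2])
    exact ⟨CharTwo.add_eq_zero.1 i2, CharTwo.add_eq_zero.1 i4⟩
  have rPQ : ∀ {s t a b c s' a' b' : ZMod 2},
      (s • h + a • g2 + c • g3) + (t • h + b • g1 + c • g3) = s' • h + a' • g2 + b' • g1 →
      a = a' ∧ b = b' := by
    intro s t a b c s' a' b' he
    obtain ⟨-, i2, i3, -⟩ := hI (s + t + s') (a + a') (b + b') 0 (by
      have h1 : (s + t + s') • h + (a + a') • g2 + (b + b') • g1 + (0 : ZMod 2) • g3 +
        (c • g3 + c • g3) = ((s • h + a • g2 + c • g3) + (t • h + b • g1 + c • g3)) +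
        (s' • h + a' • g2 + b' • g1) := by module
      rw [self2, add_zero] at h1
      rw [h1, he, self2])
    exact ⟨CharTwo.add_eq_zero.1 i2, CharTwo.add_eq_zero.1 i3⟩
  -- the six steps
  have sa : ∀ v, h v = 1 → Ty A R P Q h g2 g1 g3 1 1 0 v → Ty A R P Q h g2 g1 g3 0 1 1 (v + P) := by
    rintro v hv ⟨κ, hκ, e1, e2, s, t, e3, e4⟩
    obtain ⟨κ', hκ', f1, f2, s', t', d4, d5, d6, hd, f3, f4, f5⟩ := stp (v + Q) (P + Q) (v + P)
      (t • h + (0 : ZMod 2) • g2 + (1 : ZMod 2) • g1) (XP v hv) (by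
        have h1 : v + Q + (P + Q) = v + P + (Q + Q) := by abel
        rw [h1, self2, add_zero]) ⟨κ, hκ, by rw [add_of_zero e1, e4]; module⟩ (iPQ _ _ _)
    rw [map_add, f4, f5] at f2
    obtain ⟨rfl, rfl⟩ := rPQ f2
    have hd6 : d6 = 1 := by
      rw [zero_add, add_comm] at hd
      exact z1 _ hd
    subst hd6
    exact ⟨κ', hκ', f1, f3, s', t', f4, f5⟩
  have sb : ∀ v, h v = 1 → Ty A R P Q h g2 g1 g3 1 1 0 v → Ty A R P Q h g2 g1 g3 1 0 1 (v + Q) := by
    rintro v hv ⟨κ, hκ, e1, e2, s, t, e3, e4⟩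
    obtain ⟨κ', hκ', f1, f2, s', t', d4, d5, d6, hd, f3, f4, f5⟩ := stp (v + P) (P + Q) (v + Q)
      (s • h + (1 : ZMod 2) • g2 + (0 : ZMod 2) • g1) (XQ v hv) (by
        have h1 : v + P + (P + Q) = v + Q + (P + P) := by abel
        rw [h1, self2, add_zero]) ⟨κ, hκ, by rw [add_of_zero e1, e3]; module⟩ (iPQ _ _ _)
    rw [map_add, f4, f5] at f2
    obtain ⟨rfl, rfl⟩ := rPQ f2
    have hd6 : d6 = 1 := by
      rw [add_zero, add_comm] at hd
      exact z1 _ hd
    subst hd6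
    exact ⟨κ', hκ', f1, f3, s', t', f4, f5⟩
  have sc : ∀ v, h v = 1 → Ty A R P Q h g2 g1 g3 0 1 1 v →
      Ty A R P Q h g2 g1 g3 1 0 1 (v + P + Q) := by
    rintro v hv ⟨κ, hκ, e1, e2, s, t, e3, e4⟩
    obtain ⟨κ', hκ', f1, f2, s', t', d4, d5, d6, hd, f3, f4, f5⟩ := stp (v + P) Q (v + P + Q)
      (s • h + (0 : ZMod 2) • g1 + (1 : ZMod 2) • g3) (XPQ v hv) rfl
      ⟨κ, hκ, by rw [add_of_zero e1, e3]; module⟩ (iQ _ _ _)
    rw [f5] at f2
    obtain ⟨rfl, rfl⟩ := rQ f2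
    have hd6 : d4 = 1 := by
      rw [add_zero] at hd
      exact z1 _ hd
    subst hd6
    exact ⟨κ', hκ', f1, f3, s', t', f4, f5⟩
  have sd : ∀ v, h v = 1 → Ty A R P Q h g2 g1 g3 0 1 1 v → Ty A R P Q h g2 g1 g3 1 1 0 (v + P) := by
    rintro v hv ⟨κ, hκ, e1, e2, s, t, e3, e4⟩
    obtain ⟨κ', hκ', f1, f2, s', t', d4, d5, d6, hd, f3, f4, f5⟩ := stp (v + (P + Q)) Q (v + P)
      ((s + t) • h + (1 : ZMod 2) • g1 + (0 : ZMod 2) • g3) (XP v hv) (by
        have h1 : v + (P + Q) + Q = v + P + (Q + Q) := by abel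
        rw [h1, self2, add_zero]) ⟨κ, hκ, by
          rw [add_of_zero e1, map_add, e3, e4]
          have h1 : s • h + (0 : ZMod 2) • g2 + (1 : ZMod 2) • g3 +
            (t • h + (1 : ZMod 2) • g1 + (1 : ZMod 2) • g3) =
            ((s + t) • h + (1 : ZMod 2) • g1 + (0 : ZMod 2) • g3) + (g3 + g3) := by module
          rw [h1, self2, add_zero]⟩ (iQ _ _ _)
    rw [f5] at f2
    obtain ⟨rfl, rfl⟩ := rQ f2
    have hd6 : d4 = 1 := by
      rw [add_zero] at hd
      exact z1 _ hd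
    subst hd6
    exact ⟨κ', hκ', f1, f3, s', t', f4, f5⟩
  have se : ∀ v, h v = 1 → Ty A R P Q h g2 g1 g3 1 0 1 v →
      Ty A R P Q h g2 g1 g3 0 1 1 (v + P + Q) := by
    rintro v hv ⟨κ, hκ, e1, e2, s, t, e3, e4⟩
    obtain ⟨κ', hκ', f1, f2, s', t', d4, d5, d6, hd, f3, f4, f5⟩ := stp (v + Q) P (v + P + Q)
      (t • h + (0 : ZMod 2) • g2 + (1 : ZMod 2) • g3) (XPQ v hv) (by abel)
      ⟨κ, hκ, by rw [add_of_zero e1, e4]; module⟩ (iP _ _ _)
    rw [f4] at f2
    obtain ⟨rfl, rfl⟩ := rP f2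
    have hd6 : d5 = 1 := by
      rw [zero_add] at hd
      exact z1 _ hd
    subst hd6
    exact ⟨κ', hκ', f1, f3, s', t', f4, f5⟩
  have sf : ∀ v, h v = 1 → Ty A R P Q h g2 g1 g3 1 0 1 v → Ty A R P Q h g2 g1 g3 1 1 0 (v + Q) := by
    rintro v hv ⟨κ, hκ, e1, e2, s, t, e3, e4⟩
    obtain ⟨κ', hκ', f1, f2, s', t', d4, d5, d6, hd, f3, f4, f5⟩ := stp (v + (P + Q)) P (v + Q)
      ((s + t) • h + (1 : ZMod 2) • g2 + (0 : ZMod 2) • g3) (XQ v hv) (by
        have h1 : v + (P + Q) + P = v + Q + (P + P) := by abel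
        rw [h1, self2, add_zero]) ⟨κ, hκ, by
          rw [add_of_zero e1, map_add, e3, e4]
          have h1 : s • h + (1 : ZMod 2) • g2 + (1 : ZMod 2) • g3 +
            (t • h + (0 : ZMod 2) • g1 + (1 : ZMod 2) • g3) =
            ((s + t) • h + (1 : ZMod 2) • g2 + (0 : ZMod 2) • g3) + (g3 + g3) := by module
          rw [h1, self2, add_zero]⟩ (iP _ _ _)
    rw [f4] at f2
    obtain ⟨rfl, rfl⟩ := rP f2
    have hd6 : d5 = 1 := by
      rw [add_zero, add_comm] at hd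
      exact z1 _ hd
    subst hd6
    exact ⟨κ', hκ', f1, f3, s', t', f4, f5⟩
  -- the types
  have typ : ∀ v, h v = 1 → (∃ ω ∈ A, ω ≠ 0 ∧ ω v = 0) → Ty A R P Q h g2 g1 g3 0 1 1 v ∨
      Ty A R P Q h g2 g1 g3 1 0 1 v ∨ Ty A R P Q h g2 g1 g3 1 1 0 v := by
    rintro v hv ⟨κ, hκ, hne, hz⟩
    obtain ⟨s, t, e4, e5, e6, he, f1, f2, f3⟩ := Ty.dec hsym hF hv hκ hz
    rcases zz e4 with rfl | rfl <;> rcases zz e5 with rfl | rfl <;> rcases zz e6 with rfl | rfl
    · exfalso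
      apply hne
      have w2 : κ P v = 0 := by rw [hsym κ hκ, hz]; rfl
      have w3 : κ Q v = 0 := by rw [hsym κ hκ, hz]; rfl
      rw [zero_smul, zero_smul, add_zero, add_zero] at f2 f3
      rw [f2, LinearMap.smul_apply, hv, smul_eq_mul, mul_one] at w2
      rw [f3, LinearMap.smul_apply, hv, smul_eq_mul, mul_one] at w3
      exact hfa κ hκ f1 (by rw [f2, w2, zero_smul]) (by rw [f3, w3, zero_smul])
    · exact absurd he (by decide)
    · exact absurd he (by decide)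
    · exact Or.inl ⟨κ, hκ, hz, f1, s, t, f2, f3⟩
    · exact absurd he (by decide)
    · exact Or.inr (Or.inl ⟨κ, hκ, hz, f1, s, t, f2, f3⟩)
    · exact Or.inr (Or.inr ⟨κ, hκ, hz, f1, s, t, f2, f3⟩)
    · exact absurd he (by decide)
  -- two types at one point
  have ex12 : ∀ v, h v = 1 → Ty A R P Q h g2 g1 g3 0 1 1 v → Ty A R P Q h g2 g1 g3 1 0 1 v →
      False := by
    intro v hv h1 h2
    refine Ty.all hsym hL hI hF hfa hv ?_
    intro c4 c5 c6 hc
    have h3 := h1.add h2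
    rcases zz c4 with rfl | rfl <;> rcases zz c5 with rfl | rfl <;> rcases zz c6 with rfl | rfl
    · exact Ty.zero
    · exact absurd hc (by decide)
    · exact absurd hc (by decide)
    · exact h1
    · exact absurd hc (by decide)
    · exact h2
    · exact h3
    · exact absurd hc (by decide)
  have ex13 : ∀ v, h v = 1 → Ty A R P Q h g2 g1 g3 0 1 1 v → Ty A R P Q h g2 g1 g3 1 1 0 v →
      False := fun v hv h1 h3 => ex12 v hv h1 (h1.add h3)
  have ex23 : ∀ v, h v = 1 → Ty A R P Q h g2 g1 g3 1 0 1 v → Ty A R P Q h g2 g1 g3 1 1 0 v →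
      False := fun v hv h2 h3 => ex12 v hv (h2.add h3) h2
  have main : ∀ v, h v = 1 → (∃ ω ∈ A, ω ≠ 0 ∧ ω (v + P + Q) = 0) →
      Ty A R P Q h g2 g1 g3 1 1 0 v → False := by
    intro v hv hkv h3
    have t1 := sa v hv h3
    have t2 := sb v hv h3
    have e1 : v + P + Q + P = v + Q := by
      have h1 : v + P + Q + P = v + Q + (P + P) := by abel
      rw [h1, self2, add_zero]
    have e2 : v + P + Q + P + Q = v := by
      rw [e1, add_assoc, self2, add_zero]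
    have hw := XPQ v hv
    rcases typ (v + P + Q) hw hkv with k | k | k
    · have k1 := sc _ hw k
      rw [e2] at k1
      exact ex23 v hv k1 h3
    · have k1 := se _ hw k
      rw [e2] at k1
      exact ex13 v hv k1 h3
    · have k1 := sa _ hw k
      rw [e1] at k1
      exact ex12 _ (XQ v hv) k1 t2
  rcases typ y hy k0 with k | k | k
  · refine main _ (XP y hy) ?_ (sd y hy k)
    have h1 : y + P + P + Q = y + Q := by
      have h2 : y + P + P + Q = y + Q + (P + P) := by abel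
      rw [h2, self2, add_zero]
    rw [h1]
    exact kQ
  · refine main _ (XQ y hy) ?_ (sf y hy k)
    have h1 : y + Q + P + Q = y + P := by
      have h2 : y + Q + P + Q = y + P + (Q + Q) := by abel
      rw [h2, self2, add_zero]
    rw [h1]
    exact kP
  · exact main y hy kPQ k

end

end Pool.Agent.Run7.h948.QF
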