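import Pool.Agent.Run7.h948.QF.Plane

/-! Linked families with at most 31 values on each four-generated subgroup are linked on planes. -/

set_option autoImplicit false

namespace Pool.Agent.Run7.h948.QF

open Pool.Agent.N88.TS Pool.Agent.W622.ETG Pool.Agent.TH188.ETP Pool.Agent.TH188.ETV
  Pool.Agent.H315R3.ETC Module
open Pool.Agent.TH188.ET (exists_char exists_factor)

section
variable {V : Type} [AddCommGroup V] [Module (ZMod 2) V] {A : Fam V}

theorem pb_smul (x y z : V) (c : ZMod 2) (p : Q3) : pb x y z (c • p) = c • pb x y z p := by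
  rcases zz c with rfl | rfl
  · rw [zero_smul, zero_smul]
    have h := pb_add x y z 0 0
    rw [add_zero] at h
    exact left_eq_add.1 h
  · rw [one_smul, one_smul]

theorem pb_exp (x y z : V) {r a b er ea eb : Q3} (hE : dExp r a b er ea eb) (p : Q3) :
    pb x y z p = dot er p • pb x y z r + dot ea p • pb x y z a + dot eb p • pb x y z b := by
  conv_lhs => rw [hE p]
  rw [pb_add, pb_add, pb_smul, pb_smul, pb_smul]

theorem convA [Finite V] {x y z : V} {f : Dl V} (hL : Linked A)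
    (hodd : ∀ p : P3, ep p = 1 → In A (pb x y z p) f)
    (hno : ∀ ω ∈ A, ω x = f → ω y = f → ω z = f → False) {r a b : Q3} {h g k : Dl V}
    (hF : Sys.FormA (sysOf hL hodd hno) r a b h g k) :
    FA A (pb x y z r) (pb x y z a) (pb x y z b) h g k := by
  constructor
  · intro ω hω
    obtain ⟨w, hw, hw'⟩ := sys_of_mem hL hodd hno hω
    obtain ⟨c1, c2, c3, c4, c5, c6, e1, e2, e3, e4⟩ := hF.1 w
    rw [hw' r] at e1
    rw [hw' a] at e2
    rw [hw' b] at e3
    rw [hw] at e4
    exact ⟨c1, c2, c3, c4, c5, c6, e4.symm, e1, e2, e3⟩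
  · intro c1 c2 c3 c4 c5 c6 hc
    obtain ⟨w, e1, e2, e3, e4⟩ := hF.2 c1 c2 c3 c4 c5 c6
    rw [hc] at e4
    obtain ⟨ω, hω, hω'⟩ := mem_of_sys hL hodd hno w e4
    rw [hω' r] at e1
    rw [hω' a] at e2
    rw [hω' b] at e3
    exact ⟨ω, hω, e1, e2, e3⟩

theorem convB [Finite V] {x y z : V} {f : Dl V} (hL : Linked A)
    (hodd : ∀ p : P3, ep p = 1 → In A (pb x y z p) f)
    (hno : ∀ ω ∈ A, ω x = f → ω y = f → ω z = f → False) {r a b : Q3} {h g2 g1 g3 : Dl V}
    (hF : Sys.FormB (sysOf hL hodd hno) r a b h g2 g1 g3) :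
    FB A (pb x y z r) (pb x y z a) (pb x y z b) h g2 g1 g3 := by
  constructor
  · intro ω hω
    obtain ⟨w, hw, hw'⟩ := sys_of_mem hL hodd hno hω
    obtain ⟨c1, c2, c3, c4, c5, c6, e1, e2, e3, e4⟩ := hF.1 w
    rw [hw' r] at e1
    rw [hw' a] at e2
    rw [hw' b] at e3
    rw [hw] at e4
    exact ⟨c1, c2, c3, c4, c5, c6, e4.symm, e1, e2, e3⟩
  · intro c1 c2 c3 c4 c5 c6 hc
    obtain ⟨w, e1, e2, e3, e4⟩ := hF.2 c1 c2 c3 c4 c5 c6
    rw [hc] at e4
    obtain ⟨ω, hω, hω'⟩ := mem_of_sys hL hodd hno w e4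
    rw [hω' r] at e1
    rw [hω' a] at e2
    rw [hω' b] at e3
    exact ⟨ω, hω, e1, e2, e3⟩

/-- normalisation of the first form -/
theorem FA_norm {R P Q : V} {h g k : Dl V} (hI : Ind3 h g k) (hF : FA A R P Q h g k)
    (s t : ZMod 2) : Ind3 h (g + s • h) (k + t • h) ∧ FA A R P Q h (g + s • h) (k + t • h) := by
  refine ⟨?_, ?_, ?_⟩
  · intro i j l hh
    obtain ⟨z1, z2, z3⟩ := hI (i + j * s + l * t) j l (by rw [← hh]; module)
    subst z2 z3
    rw [zero_mul, zero_mul, add_zero, add_zero] at z1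
    exact ⟨z1, rfl, rfl⟩
  · intro ω hω
    obtain ⟨c1, c2, c3, c4, c5, c6, hs, e1, e2, e3⟩ := hF.1 ω hω
    refine ⟨c1, c2 + c3 * s, c3, c4 + c5 * s + c6 * t, c5, c6, hs, e1, ?_, ?_⟩
    · have h1 : (c2 + c3 * s) • h + c3 • (g + s • h) = (c2 • h + c3 • g) +
        ((c3 * s) • h + (c3 * s) • h) := by module
      rw [h1, self2, add_zero, e2]
    · have h1 : (c4 + c5 * s + c6 * t) • h + c5 • (g + s • h) + c6 • (k + t • h) =
        (c4 • h + c5 • g + c6 • k) + ((c5 * s + c6 * t) • h + (c5 * s + c6 * t) • h) := by module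
      rw [h1, self2, add_zero, e3]
  · intro c1 c2 c3 c4 c5 c6 hs
    obtain ⟨ω, hω, e1, e2, e3⟩ := hF.2 c1 (c2 + c3 * s) c3 (c4 + c5 * s + c6 * t) c5 c6 hs
    refine ⟨ω, hω, e1, ?_, ?_⟩
    · rw [e2]; module
    · rw [e3]; module

theorem plane31 [Finite V] {e : V} (hA : EFam e A) (hL : Linked A) {x y z : V}
    (h31 : ∀ w : V, (valsOn A (AddSubgroup.closure {x, y, z, w})).ncard ≤ 31) :
    PlaneAt A x y z := by
  intro f fx fy fz fw
  by_contra hno'
  have hno : ∀ ω ∈ A, ω x = f → ω y = f → ω z = f → False :=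
    fun ω hω h1 h2 h3 => hno' ⟨ω, hω, h1, h2, h3⟩
  have hfA := fin_fam A
  have hsym : ∀ ω ∈ A, ∀ a b : V, ω a b = ω b a := fun ω hω => (hA ω hω).symm
  have hodd := in_odd fx fy fz fw
  have hH2 := h2 hL hodd
  have h28 : 28 ≤ (vals A x y z).ncard := by
    by_contra hcon
    exact hno' (dual' V A hL x y z (by omega) f fx fy fz fw)
  -- subgroups
  have hcl : ∀ (w : V) (p : Q3), pb x y z p ∈ AddSubgroup.closure {x, y, z, w} := by
    intro w p
    have hs : ∀ (c : ZMod 2) (u : V), u ∈ AddSubgroup.closure {x, y, z, w} →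
        c • u ∈ AddSubgroup.closure {x, y, z, w} := by
      intro c u hu
      rcases zz c with rfl | rfl
      · rw [zero_smul]; exact zero_mem _
      · rw [one_smul]; exact hu
    exact add_mem (add_mem (hs _ _ (AddSubgroup.subset_closure (by simp)))
      (hs _ _ (AddSubgroup.subset_closure (by simp))))
      (hs _ _ (AddSubgroup.subset_closure (by simp)))
  have hwcl : ∀ w : V, w ∈ AddSubgroup.closure {x, y, z, w} := fun w =>
    AddSubgroup.subset_closure (by simp)
  have hvals : ∀ w, vals A x y z ⊆ valsOn A (AddSubgroup.closure {x, y, z, w}) := by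
    rintro w t ⟨i, j, k, b, rfl⟩
    exact ⟨pb x y z (i, j, k), hcl w _, b, rfl⟩
  -- the number of elements of the system
  have hle : (⋃ p : P3, ((gp A x y z f p).range : Set ((A → ZMod 2) × ZMod 2))).ncard ≤
      (vals A x y z).ncard := by
    refine Set.ncard_le_ncard_of_injOn Prod.fst ?_ ?_ (Set.toFinite _)
    · intro u hu
      obtain ⟨p, hp⟩ := Set.mem_iUnion.1 hu
      obtain ⟨b, rfl⟩ := hp
      exact ⟨p.1, p.2.1, p.2.2, b, rfl⟩
    · rintro ⟨g, s⟩ hu ⟨g', s'⟩ hu' hgg
      obtain ⟨p, hp⟩ := Set.mem_iUnion.1 hu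
      obtain ⟨q, hq⟩ := Set.mem_iUnion.1 hu'
      have hgg' : g = g' := hgg
      subst hgg'
      by_contra hne
      have hss : s ≠ s' := fun h => hne (by rw [h])
      apply hH2 p q
      have h1 : ((0, 1) : (A → ZMod 2) × ZMod 2) = (g, s) + (g, s') := by
        refine Prod.ext ?_ ?_
        · funext ω
          exact (CharTwo.add_self_eq_zero _).symm
        · show (1 : ZMod 2) = s + s'
          rcases zz s with rfl | rfl <;> rcases zz s' with rfl | rfl
          · exact absurd rfl hss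
          · rw [zero_add]
          · rw [add_zero]
          · exact absurd rfl hss
      rw [h1]
      exact add_mem (AddSubgroup.mem_sup_left hp) (AddSubgroup.mem_sup_right hq)
  obtain ⟨hfW, hcW⟩ := dual_card (EP A x y z f) (fun t => Subtype.ext (ex2 A t.1))
  have h64 : Nat.card (EP A x y z f →+ ZMod 2) ≤ 64 := by
    by_contra hcon
    have hEP : 64 < Nat.card (EP A x y z f) := by omega
    have h32 := al32 ((A → ZMod 2) × ZMod 2) (ex2 A)
      (fun p => (gp A x y z f p).range) (0, 1)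
      (by
        rintro p q _ ⟨b, rfl⟩
        rw [gp_add]
        exact add_mem (AddSubgroup.mem_sup_left ⟨b, rfl⟩) (AddSubgroup.mem_sup_right ⟨b, rfl⟩))
      hH2 (h3 hno)
      (by
        by_contra hsm
        push Not at hsm
        have r1 := r2 (1, 0, 0) (hsm (1, 0, 0))
        have r2' := r2 (0, 1, 0) (hsm (0, 1, 0))
        have r3 := r2 (0, 0, 1) (hsm (0, 0, 1))
        have r4 := r2 (1, 1, 1) (hsm (1, 1, 1))
        rw [show pb x y z (1, 0, 0) = x by simp [pb]] at r1
        rw [show pb x y z (0, 1, 0) = y by simp [pb]] at r2'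
        rw [show pb x y z (0, 0, 1) = z by simp [pb]] at r3
        rw [show pb x y z (1, 1, 1) = x + y + z by simp [pb]] at r4
        exact hno' (plane_of_R2 hL r1 r2' r3 r4 f fx fy fz fw))
      (Or.inr hEP)
    have h1 := (h32.trans hle).trans (Set.ncard_le_ncard (hvals 0) (Set.toFinite _))
    have h2 := h31 0
    omega
  obtain ⟨r, a, b, er, ea, eb, hDB, hE, hforms⟩ := Sys.cls (sysOf hL hodd hno) h64
  have hexp := pb_exp x y z hE
  rcases hforms with ⟨h, g, k, hI, hF⟩ | ⟨h, g2, g1, g3, hI, hF⟩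
  · -- the first form
    have hF0 := convA hL hodd hno hF
    obtain ⟨y0, hy0⟩ : ∃ y0, h y0 = 1 := by
      by_contra hcon
      push Not at hcon
      have h0 : h = 0 := LinearMap.ext fun b => (zz _).resolve_right (hcon b)
      have h1 := (hI 1 0 0 (by
        rw [h0, smul_zero, zero_smul, zero_smul, add_zero, add_zero])).1
      exact one_ne_zero h1
    obtain ⟨hI', hF'⟩ := FA_norm hI hF0 (g y0) (k y0)
    have hg0 : (g + g y0 • h) y0 = 0 := by
      rw [LinearMap.add_apply, LinearMap.smul_apply, hy0, smul_eq_mul, mul_one]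
      exact CharTwo.add_self_eq_zero _
    have hk0 : (k + k y0 • h) y0 = 0 := by
      rw [LinearMap.add_apply, LinearMap.smul_apply, hy0, smul_eq_mul, mul_one]
      exact CharTwo.add_self_eq_zero _
    obtain ⟨b1, b2', b3, hit⟩ := ex_hit (FA_card hI' hF') (h31 y0)
    refine noA hsym hI' hF' (hcl y0 r) (hcl y0 a) (hcl y0 b) (hwcl y0) hy0 hg0 hk0 hit ?_
    refine wdA hsym hF' (hwcl y0) hy0 (vals A x y z) (hvals y0) h28 ?_ (h31 y0)
    rintro ω q1 q2 q3 t ⟨i, j, l, c, rfl⟩
    show ω.1 (pb x y z (i, j, l)) c = 0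
    rw [hexp, map_add, map_add, map_smul, map_smul, map_smul, q1, q2, q3, smul_zero, smul_zero,
      smul_zero, add_zero, add_zero]
    rfl
  · -- the second form
    have hF0 := convB hL hodd hno hF
    obtain ⟨b1, b2', b3, hit⟩ := ex_hit (FB_card hI hF0) (h31 0)
    exact noB hI hF0 (hcl 0 r) (hcl 0 a) (hcl 0 b) hit

end

end Pool.Agent.Run7.h948.QF
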