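import Pool.Agent.Run7.h948.QF.Elim

/-! Linked families with at most 31 values on each four-generated subgroup are linked on planes. -/

set_option autoImplicit false

namespace Pool.Agent.Run7.h948.QF

open Pool.Agent.N88.TS Pool.Agent.W622.ETG Pool.Agent.TH188.ETP Pool.Agent.TH188.ETV
  Pool.Agent.H315R3.ETC Module
open Pool.Agent.TH188.ET (exists_char exists_factor)

section
variable {V : Type} [AddCommGroup V] [Module (ZMod 2) V] {A : Fam V} {R P Q : V}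

/-- the values with a slot in a subgroup -/
def valsOn (A : Fam V) (Sp : AddSubgroup V) : Set (A → ZMod 2) := {t | ∃ p ∈ Sp, ∃ b, t = vl A p b}

/-- the sum of the values at three elements -/
def BG (A : Fam V) (R P Q : V) : AddSubgroup (A → ZMod 2) :=
  (vl A R).range ⊔ (vl A P).range ⊔ (vl A Q).range

theorem exA (t : A → ZMod 2) : t + t = 0 := by
  funext ω
  exact CharTwo.add_self_eq_zero _

/-- at least 32 elements -/
theorem BG_card [Finite V] (ω : Fin 5 → A)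
    (hω : ∀ d : Fin 5 → ZMod 2, (∑ i, d i • (ω i).1 R) = 0 → (∑ i, d i • (ω i).1 P) = 0 →
      (∑ i, d i • (ω i).1 Q) = 0 → d = 0) : 32 ≤ Nat.card (BG A R P Q) := by
  have hfA := fin_fam A
  obtain ⟨hf, hcard⟩ := dual_card (BG A R P Q) (fun t => Subtype.ext (exA t.1))
  by_contra hcon
  obtain ⟨d, hd, hs⟩ := dep (fun i : Fin 5 =>
    ((Pi.evalAddMonoidHom (fun _ : A => ZMod 2) (ω i)).comp (BG A R P Q).subtype :
      BG A R P Q →+ ZMod 2)) (by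
    rw [Fintype.card_fin]
    omega)
  apply hd
  have gen : ∀ p : V, (vl A p).range ≤ BG A R P Q → (∑ i, d i • (ω i).1 p) = 0 := by
    intro p hp
    refine LinearMap.ext fun b => ?_
    have h1 := DFunLike.congr_fun hs ⟨vl A p b, hp ⟨b, rfl⟩⟩
    rw [AddMonoidHom.finset_sum_apply] at h1
    rw [LinearMap.sum_apply, LinearMap.zero_apply]
    exact h1
  exact hω d (gen R (le_sup_left.trans le_sup_left)) (gen P (le_sup_right.trans le_sup_left))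
    (gen Q le_sup_right)

/-- a sum of three values which is not a value -/
theorem ex_hit [Finite V] (h32 : 32 ≤ Nat.card (BG A R P Q)) {Sp : AddSubgroup V}
    (h31 : (valsOn A Sp).ncard ≤ 31) :
    ∃ b1 b2 b3 : V, ∀ v ∈ Sp, Hit A R P Q b1 b2 b3 v := by
  have hfA := fin_fam A
  obtain ⟨m, hm, hm'⟩ : ∃ m ∈ BG A R P Q, m ∉ valsOn A Sp := by
    by_contra hcon
    push Not at hcon
    have h1 : ((BG A R P Q : AddSubgroup (A → ZMod 2)) : Set (A → ZMod 2)).ncard ≤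
        (valsOn A Sp).ncard := Set.ncard_le_ncard hcon (Set.toFinite _)
    have h2 : ((BG A R P Q : AddSubgroup (A → ZMod 2)) : Set (A → ZMod 2)).ncard =
      Nat.card (BG A R P Q) := rfl
    omega
  obtain ⟨s, hs, _, ⟨b3, rfl⟩, hm1⟩ := AddSubgroup.mem_sup.1 hm
  obtain ⟨_, ⟨b1, rfl⟩, _, ⟨b2, rfl⟩, hs1⟩ := AddSubgroup.mem_sup.1 hs
  refine ⟨b1, b2, b3, fun v hv => ?_⟩
  obtain ⟨χ, h1, h2⟩ := exists_char (vl A v).range (fun t => by
    rw [exA]; exact zero_mem _) m (fun ⟨b, hb⟩ => hm' ⟨v, hv, b, hb.symm⟩)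
  obtain ⟨w, hw, hw'⟩ := rep A χ
  refine ⟨w, hw, ?_, ?_⟩
  · refine LinearMap.ext fun b => ?_
    rw [← hw']
    exact h1 _ ⟨b, rfl⟩
  · rw [← hw', ← hw', ← hw', ← map_add, ← map_add, hs1, hm1]
    exact (zz _).resolve_left h2

theorem FA_card [Finite V] {h g k : Dl V} (hI : Ind3 h g k) (hF : FA A R P Q h g k) :
    32 ≤ Nat.card (BG A R P Q) := by
  obtain ⟨ω1, m1, r1, p1, q1⟩ := hF.2 0 1 0 0 0 0 (by decide)
  obtain ⟨ω2, m2, r2, p2, q2⟩ := hF.2 0 0 0 1 0 0 (by decide)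
  obtain ⟨ω3, m3, r3, p3, q3⟩ := hF.2 0 0 0 0 1 0 (by decide)
  obtain ⟨ω4, m4, r4, p4, q4⟩ := hF.2 1 0 1 0 0 0 (by decide)
  obtain ⟨ω5, m5, r5, p5, q5⟩ := hF.2 0 0 1 0 0 1 (by decide)
  refine BG_card ![⟨ω1, m1⟩, ⟨ω2, m2⟩, ⟨ω3, m3⟩, ⟨ω4, m4⟩, ⟨ω5, m5⟩] ?_
  intro d hR hP hQ
  rw [Fin.sum_univ_five] at hR hP hQ
  have hR' : d 0 • ω1 R + d 1 • ω2 R + d 2 • ω3 R + d 3 • ω4 R + d 4 • ω5 R = 0 := hR
  have hP' : d 0 • ω1 P + d 1 • ω2 P + d 2 • ω3 P + d 3 • ω4 P + d 4 • ω5 P = 0 := hP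
  have hQ' : d 0 • ω1 Q + d 1 • ω2 Q + d 2 • ω3 Q + d 3 • ω4 Q + d 4 • ω5 Q = 0 := hQ
  simp only [r1, r2, r3, r4, r5, p1, p2, p3, p4, p5, q1, q2, q3, q4, q5, zero_smul, one_smul,
    smul_zero, add_zero, zero_add] at hR' hP' hQ'
  obtain ⟨z3, -, -⟩ := hI (d 3) 0 0 (by rw [← hR']; module)
  obtain ⟨z0, z34, -⟩ := hI (d 0) (d 3 + d 4) 0 (by rw [← hP']; module)
  obtain ⟨z1, z2, z4⟩ := hI (d 1) (d 2) (d 4) (by rw [← hQ'])
  funext i
  fin_cases i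
  · exact z0
  · exact z1
  · exact z2
  · exact z3
  · exact z4

theorem FB_card [Finite V] {h g2 g1 g3 : Dl V} (hI : Ind4 h g2 g1 g3)
    (hF : FB A R P Q h g2 g1 g3) : 32 ≤ Nat.card (BG A R P Q) := by
  obtain ⟨ω1, m1, r1, p1, q1⟩ := hF.2 0 1 0 0 0 0 (by decide)
  obtain ⟨ω2, m2, r2, p2, q2⟩ := hF.2 0 0 1 0 0 0 (by decide)
  obtain ⟨ω3, m3, r3, p3, q3⟩ := hF.2 1 0 0 1 0 0 (by decide)
  obtain ⟨ω4, m4, r4, p4, q4⟩ := hF.2 0 0 0 1 1 0 (by decide)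
  obtain ⟨ω5, m5, r5, p5, q5⟩ := hF.2 0 0 0 1 0 1 (by decide)
  refine BG_card ![⟨ω1, m1⟩, ⟨ω2, m2⟩, ⟨ω3, m3⟩, ⟨ω4, m4⟩, ⟨ω5, m5⟩] ?_
  intro d hR hP hQ
  rw [Fin.sum_univ_five] at hR hP hQ
  have hR' : d 0 • ω1 R + d 1 • ω2 R + d 2 • ω3 R + d 3 • ω4 R + d 4 • ω5 R = 0 := hR
  have hP' : d 0 • ω1 P + d 1 • ω2 P + d 2 • ω3 P + d 3 • ω4 P + d 4 • ω5 P = 0 := hP
  have hQ' : d 0 • ω1 Q + d 1 • ω2 Q + d 2 • ω3 Q + d 3 • ω4 Q + d 4 • ω5 Q = 0 := hQ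
  simp only [r1, r2, r3, r4, r5, p1, p2, p3, p4, p5, q1, q2, q3, q4, q5, zero_smul, one_smul,
    smul_zero, add_zero, zero_add] at hR' hP' hQ'
  obtain ⟨z2, -, -, -⟩ := hI (d 2) 0 0 0 (by rw [← hR']; module)
  obtain ⟨z0, z24, -, z4⟩ := hI (d 0) (d 2 + d 3 + d 4) 0 (d 4) (by rw [← hP']; module)
  obtain ⟨z1, -, z3, -⟩ := hI (d 1) 0 (d 3) (d 4) (by rw [← hQ']; module)
  funext i
  fin_cases i
  · exact z0
  · exact z1
  · exact z2
  · exact z3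
  · exact z4

/-- members vanishing on the plane vanish at `y0` -/
theorem wdA [Finite V] (hsym : ∀ ω ∈ A, ∀ a b : V, ω a b = ω b a) {h g k : Dl V}
    (hF : FA A R P Q h g k) {Sp : AddSubgroup V} {y0 : V} (hy : y0 ∈ Sp) (hh : h y0 = 1)
    (T : Set (A → ZMod 2)) (hT : T ⊆ valsOn A Sp) (hT28 : 28 ≤ T.ncard)
    (hTv : ∀ ω : A, ω.1 R = 0 → ω.1 P = 0 → ω.1 Q = 0 → ∀ t ∈ T, t ω = 0)
    (h31 : (valsOn A Sp).ncard ≤ 31) :
    ∀ ω ∈ A, ω R = 0 → ω P = 0 → ω Q = 0 → ω y0 = 0 := by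
  classical
  have hfA := fin_fam A
  intro ω0 m0 r0 p0 q0
  by_contra hne
  obtain ⟨b0, hb0⟩ : ∃ b0, ω0 y0 b0 = 1 := by
    by_contra hcon
    push Not at hcon
    exact hne (LinearMap.ext fun b => (zz _).resolve_right (hcon b))
  obtain ⟨ω1, m1, r1, p1, q1⟩ := hF.2 0 1 0 0 0 0 (by decide)
  obtain ⟨ω2, m2, r2, p2, q2⟩ := hF.2 0 0 0 1 0 0 (by decide)
  obtain ⟨ω4, m4, r4, p4, q4⟩ := hF.2 1 0 1 0 0 0 (by decide)
  let t : Q3 → (A → ZMod 2) := fun c => vl A y0 (c.1 • R + c.2.1 • P + c.2.2 • Q + b0)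
  have ev : ∀ (c : Q3) (ω : Frm V) (hω : ω ∈ A), t c ⟨ω, hω⟩ =
      c.1 * ω R y0 + c.2.1 * ω P y0 + c.2.2 * ω Q y0 + ω y0 b0 := by
    intro c ω hω
    show ω y0 (c.1 • R + c.2.1 • P + c.2.2 • Q + b0) = _
    rw [map_add, map_add, map_add, map_smul, map_smul, map_smul, hsym ω hω y0 R, hsym ω hω y0 P,
      hsym ω hω y0 Q, smul_eq_mul, smul_eq_mul, smul_eq_mul]
  have hinj : Function.Injective t := by
    intro c c' hcc
    have e1 := congrFun hcc ⟨ω1, m1⟩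
    have e2 := congrFun hcc ⟨ω2, m2⟩
    have e4 := congrFun hcc ⟨ω4, m4⟩
    rw [ev, ev, r1, p1, q1] at e1
    rw [ev, ev, r2, p2, q2] at e2
    rw [ev, ev, r4, p4, q4] at e4
    simp only [zero_smul, one_smul, add_zero, zero_add, LinearMap.zero_apply, hh, mul_zero,
      mul_one] at e1 e2 e4
    have f1 : c.2.1 = c'.2.1 := add_right_cancel e1
    have f2 : c.2.2 = c'.2.2 := add_right_cancel e2
    rw [f1] at e4
    have f4 : c.1 = c'.1 := add_right_cancel (add_right_cancel e4)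
    exact Prod.ext f4 (Prod.ext f1 f2)
  have hc8 : (Set.range t).ncard = 8 := by
    rw [← Set.image_univ, Set.ncard_image_of_injective _ hinj, Set.ncard_univ]
    rw [Nat.card_eq_fintype_card]
    decide
  have hdis : Disjoint T (Set.range t) := by
    rw [Set.disjoint_left]
    rintro _ hs ⟨c, rfl⟩
    have h1 := hTv ⟨ω0, m0⟩ r0 p0 q0 _ hs
    rw [ev, r0, p0, q0, hb0] at h1
    simp only [LinearMap.zero_apply, mul_zero, zero_add] at h1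
    exact one_ne_zero h1
  have hsub : T ∪ Set.range t ⊆ valsOn A Sp := by
    refine Set.union_subset hT ?_
    rintro _ ⟨c, rfl⟩
    exact ⟨y0, hy, _, rfl⟩
  have h1 := Set.ncard_le_ncard hsub (Set.toFinite _)
  rw [Set.ncard_union_eq hdis (Set.toFinite _) (Set.toFinite _), hc8] at h1
  omega

end

end Pool.Agent.Run7.h948.QF
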