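import Pool.Agent.Run7.h948.QF.Main

/-! The structure theorem with the bound 31 for four-generated subgroups. -/

set_option autoImplicit false

namespace Pool.Agent.Run7.h948.QF

open Pool.Agent.N88.TS Pool.Agent.W622.ETG Pool.Agent.TH188.ETP Pool.Agent.TH188.ETV
  Pool.Agent.H315R3.ETC Module
open Pool.Agent.TH188.ET (exists_char exists_factor)
open Pool.Agent.TH188.ET8 (QD_eq)
open Pool.Agent.R649.ETS (mem_Qs vals_ncard)

universe v

section
variable {V : Type} [AddCommGroup V] [Module (ZMod 2) V] {e : V}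

/-- small, or at most 27 values, or at most 31 values on four-generated subgroups -/
def Good3 (A : Fam V) (x y z : V) : Prop := SmallAt A x y z ∨ (vals A x y z).ncard ≤ 27 ∨
  ∀ w : V, (valsOn A (AddSubgroup.closure {x, y, z, w})).ncard ≤ 31

theorem Good3.mono [Finite V] {A B : Fam V} (hBA : B ≤ A) {x y z : V} (h : Good3 A x y z) :
    Good3 B x y z := by
  have hfA := fin_fam A
  rcases h with h | h | h
  · exact Or.inl (h.mono hBA)
  · rcases Good.mono hBA (Or.inr h) with h | h
    · exact Or.inl h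
    · exact Or.inr (Or.inl h)
  · refine Or.inr (Or.inr fun w => ?_)
    let F : (A → ZMod 2) → (B → ZMod 2) := fun t ω => t ⟨ω.1, hBA ω.2⟩
    have h1 : valsOn B (AddSubgroup.closure {x, y, z, w}) ⊆
        F '' valsOn A (AddSubgroup.closure {x, y, z, w}) := by
      rintro t ⟨p, hp, b, rfl⟩
      exact ⟨_, ⟨p, hp, b, rfl⟩, rfl⟩
    exact (Set.ncard_le_ncard h1 ((Set.toFinite _).image F)).trans
      ((Set.ncard_image_le (Set.toFinite _)).trans (h w))

theorem plane_of_good3 [Finite V] {A : Fam V} (hA : EFam e A) (hL : Linked A) {x y z : V}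
    (h : Good3 A x y z) : PlaneAt A x y z := by
  rcases h with h | h | h
  · exact plane_of_small hL h
  · exact dual' V A hL x y z h
  · exact plane31 hA hL h

theorem linked_list3 [Finite V] (l : List V) : ∀ A : Fam V, EFam e A → Linked A →
    (∀ x y z : V, Good3 A x y z) → Linked (l.foldl (fun B u => res B (ann u)) A) := by
  induction l with
  | nil => intro A _ h _; exact h
  | cons u l ih =>
    intro A hA hL hS
    exact ih _ (hA.res _) (linked_ann hA hL (fun x y z => plane_of_good3 hA hL (hS x y z)) u)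
      (fun x y z => (hS x y z).mono (res_le A _))

theorem hered_of_good3 [Finite V] {A : Fam V} (hA : EFam e A) (hL : Linked A)
    (hS : ∀ x y z : V, Good3 A x y z) : Hered A := by
  classical
  intro X
  have : Fintype V := Fintype.ofFinite V
  let l : List V := (Finset.univ.filter (fun b : V => ∀ g ∈ X, g b = 0)).toList
  have hl : ∀ b, b ∈ l ↔ ∀ g ∈ X, g b = 0 := by
    intro b
    simp [l]
  have h1 : l.foldl (fun B u => res B (ann u)) A = res A X := by
    ext ω
    rw [mem_list l A hA ω]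
    constructor
    · rintro ⟨h1, h2⟩
      refine ⟨h1, fun y => mem_of_coann fun b hb => ?_⟩
      rw [(hA ω h1).symm, h2 b ((hl b).2 hb)]
      rfl
    · rintro ⟨h1, h2⟩
      refine ⟨h1, fun u hu => ?_⟩
      ext y
      rw [(hA ω h1).symm]
      exact (hl u).1 hu _ (h2 y)
  rw [← h1]
  exact linked_list3 l A hA hL hS

end

theorem elem_of_good3 (S : QData) (hS : IsQuat S) (hfin : Finite S.G) {B : Type v}
    [AddCommGroup B] (hB : ∀ b : B, b + b = 0) (β : S.G → S.G → B)
    (hmul : ∀ a b c, β a (b * c) = β a b + β a c)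
    (hiff : ∀ a b c d, β a b = β c d ↔ S.q a b = S.q c d)
    (hsmall : ∀ x y z : S.G, SmallG β x y z ∨
      {t : B | ∃ g ∈ Subgroup.closure {x, y, z}, ∃ b, β g b = t}.ncard ≤ 27 ∨
      ∀ w : S.G, {t : B | ∃ g ∈ Subgroup.closure {x, y, z, w}, ∃ b, β g b = t}.ncard ≤ 31) :
    Elem S := by
  classical
  obtain ⟨hcore, hPL, hout, hconv⟩ := Pool.Agent.W622.ETG.all_parts
  let _ : Module (ZMod 2) (Additive S.G) := AddCommGroup.zmodModule (n := 2) (by
    intro x
    rw [two_smul]
    exact hS.exp2 x.toMul)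
  have hfV : Finite (Additive S.G) := hfin
  have q1 : ∀ a, S.q a 1 = S.zero := by
    intro a
    have := (hS.qs3 a 1 1).1 rfl
    rwa [mul_one] at this
  have b1 : ∀ a, β a 1 = 0 := by
    intro a
    have := hmul a 1 1
    rw [mul_one] at this
    exact left_eq_add.1 this
  have hz : ∀ a b, β a b = 0 ↔ S.q a b = S.zero := by
    intro a b
    rw [← b1 a, ← q1 a, hiff]
  have hsym : ∀ a b, β a b = β b a := fun a b => (hiff _ _ _ _).2 (hS.qs2 a b)
  have hmul' : ∀ a b c, β (a * b) c = β a c + β b c := by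
    intro a b c
    rw [hsym, hmul, hsym c, hsym c]
  -- the form of a character
  let frm (l : B →+ ZMod 2) : Frm (Additive S.G) :=
    AddMonoidHom.toZModLinearMap 2
      { toFun := fun a => AddMonoidHom.toZModLinearMap 2
          { toFun := fun b => l (β a.toMul b.toMul)
            map_zero' := by
              show l (β a.toMul 1) = 0
              rw [b1, map_zero]
            map_add' := fun b c => by
              show l (β a.toMul (b.toMul * c.toMul)) = _
              rw [hmul, map_add] }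
        map_zero' := by
          ext b
          show l (β 1 b.toMul) = 0
          rw [hsym, b1, map_zero]
        map_add' := fun a a' => by
          ext b
          show l (β (a.toMul * a'.toMul) b.toMul) = l _ + l _
          rw [hmul', map_add] }
  have hfrm : ∀ l a b, frm l a b = l (β a.toMul b.toMul) := fun _ _ _ => rfl
  let A : Fam (Additive S.G) :=
    { carrier := {ω | ∃ l : B →+ ZMod 2, ω = frm l}
      add_mem' := by
        rintro _ _ ⟨l, rfl⟩ ⟨l', rfl⟩
        exact ⟨l + l', by ext a b; rfl⟩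
      zero_mem' := ⟨0, by ext a b; rfl⟩
      smul_mem' := by
        rintro c _ ⟨l, rfl⟩
        refine ⟨c.val • l, ?_⟩
        ext a b
        rw [LinearMap.smul_apply, LinearMap.smul_apply, hfrm, hfrm, AddMonoidHom.nsmul_apply]
        simp }
  have hAm : ∀ ω, ω ∈ A ↔ ∃ l : B →+ ZMod 2, ω = frm l := fun _ => Iff.rfl
  set e : Additive S.G := Additive.ofMul S.neg with he
  have hEF : EFam e A := by
    rintro ω ⟨l, rfl⟩
    constructor
    · intro a b
      rw [hfrm, hfrm, hsym]
    · intro a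
      have h1 : β a.toMul (S.neg * a.toMul) = 0 := (hz _ _).2 (hS.qs1 a.toMul)
      rw [hmul] at h1
      have h2 : β a.toMul a.toMul = β a.toMul S.neg := by
        have h3 := hB (β a.toMul S.neg)
        rw [← h3] at h1
        exact add_left_cancel h1
      rw [hfrm, hfrm, h2]
      rfl
  -- linkage by gluing
  have hL : Linked A := by
    rintro ω ⟨l, rfl⟩ η ⟨m, rfl⟩ a c hac
    have hac' : ∀ b, l (β a.toMul b) = m (β c.toMul b) := by
      intro b
      have := LinearMap.congr_fun hac (Additive.ofMul b)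
      rwa [hfrm, hfrm] at this
    let Φ : Additive S.G × Additive S.G →+ B :=
      AddMonoidHom.mk' (fun z => β a.toMul z.1.toMul + β c.toMul z.2.toMul) (by
        intro z z'
        simp only [Prod.fst_add, Prod.snd_add, toMul_add, hmul]
        abel)
    let Λ : Additive S.G × Additive S.G →+ ZMod 2 :=
      AddMonoidHom.mk' (fun z => l (β a.toMul z.1.toMul) + m (β c.toMul z.2.toMul)) (by
        intro z z'
        simp only [Prod.fst_add, Prod.snd_add, toMul_add, hmul, map_add]
        abel)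
    obtain ⟨k, hk⟩ := exists_factor hB Φ Λ (by
      rintro ⟨b, d⟩ h
      have h1 : β a.toMul b.toMul + β c.toMul d.toMul = 0 := h
      have h2 : β a.toMul b.toMul = β c.toMul d.toMul := by
        have h3 := hB (β c.toMul d.toMul)
        rw [← h3] at h1
        exact add_right_cancel h1
      obtain ⟨x, hx1, hx2⟩ := hS.qs4 _ _ _ _ ((hiff _ _ _ _).1 h2)
      have e1 := (hiff _ _ _ _).2 hx1
      have e2 := (hiff _ _ _ _).2 hx2
      show l (β a.toMul b.toMul) + m (β c.toMul d.toMul) = 0
      rw [e1, e2, hac']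
      exact CharTwo.add_self_eq_zero _)
    refine ⟨frm k, ⟨k, rfl⟩, ?_, ?_⟩
    · ext b
      rw [hfrm, hfrm]
      have := hk (b, 0)
      have h1 : Φ (b, 0) = β a.toMul b.toMul := by
        show β a.toMul b.toMul + β c.toMul 1 = _
        rw [b1, add_zero]
      have h2 : Λ (b, 0) = l (β a.toMul b.toMul) := by
        show l (β a.toMul b.toMul) + m (β c.toMul 1) = _
        rw [b1, map_zero, add_zero]
      rw [h1, h2] at this
      exact this
    · ext b
      rw [hfrm, hfrm]
      have := hk (0, b)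
      have h1 : Φ (0, b) = β c.toMul b.toMul := by
        show β a.toMul 1 + β c.toMul b.toMul = _
        rw [b1, zero_add]
      have h2 : Λ (0, b) = m (β c.toMul b.toMul) := by
        show l (β a.toMul 1) + m (β c.toMul b.toMul) = _
        rw [b1, map_zero, zero_add]
      rw [h1, h2] at this
      rw [this]
      exact (hac' _).symm
  -- finiteness of the groups `Q_p`
  have hQ : ∀ p : S.G, ∀ h, h ∈ Qs β p ↔ ∃ b, β p b = h := by
    intro p h
    constructor
    · intro hh
      refine AddSubgroup.closure_induction (p := fun h _ => ∃ b, β p b = h) ?_ ?_ ?_ ?_ hh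
      · rintro _ ⟨b, rfl⟩; exact ⟨b, rfl⟩
      · exact ⟨1, b1 p⟩
      · rintro _ _ _ _ ⟨b, rfl⟩ ⟨c, rfl⟩
        exact ⟨b * c, hmul _ _ _⟩
      · rintro _ _ ⟨b, rfl⟩
        exact ⟨b, (neg_eq_iff_add_eq_zero.2 (hB _)).symm⟩
    · rintro ⟨b, rfl⟩
      exact AddSubgroup.subset_closure ⟨b, rfl⟩
  have hQfin : ∀ p : S.G, Finite (Qs β p) := by
    intro p
    have hsurj : Function.Surjective
        (fun b : S.G => (⟨β p b, AddSubgroup.subset_closure ⟨b, rfl⟩⟩ : Qs β p)) := by
      rintro ⟨h, hh⟩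
      obtain ⟨b, rfl⟩ := (hQ p h).1 hh
      exact ⟨b, rfl⟩
    exact Finite.of_surjective _ hsurj
  have hvan : ∀ (l : B →+ ZMod 2) (p : Additive S.G), (∀ h ∈ Qs β p.toMul, l h = 0) ↔
      frm l p = 0 := by
    intro l p
    constructor
    · intro h
      ext b
      rw [hfrm]
      exact h _ ((hQ _ _).2 ⟨_, rfl⟩)
    · intro h k hk
      obtain ⟨b, rfl⟩ := (hQ _ _).1 hk
      have := LinearMap.congr_fun h (Additive.ofMul b)
      rwa [hfrm] at this
  have heqv : ∀ (l m : B →+ ZMod 2) (p : Additive S.G),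
      (∀ h ∈ Qs β p.toMul, l h = m h) → frm l p = frm m p := by
    intro l m p h
    ext b
    rw [hfrm, hfrm]
    exact h _ ((hQ _ _).2 ⟨_, rfl⟩)
  have hR : ∀ p : Additive S.G, Nat.card (Qs β p.toMul) ≤ 4 → R2 A p := by
    intro p hp
    rintro ω₁ ⟨l1, rfl⟩ ω₂ ⟨l2, rfl⟩ ω₃ ⟨l3, rfl⟩
    rcases comb3 _ (hQfin _) hp l1 l2 l3 with h | h | h | h | h | h | h
    · exact Or.inl ((hvan _ _).1 h)
    · exact Or.inr (Or.inl ((hvan _ _).1 h))
    · exact Or.inr (Or.inr (Or.inl ((hvan _ _).1 h)))
    · exact Or.inr (Or.inr (Or.inr (Or.inl (heqv _ _ _ h))))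
    · exact Or.inr (Or.inr (Or.inr (Or.inr (Or.inl (heqv _ _ _ h)))))
    · exact Or.inr (Or.inr (Or.inr (Or.inr (Or.inr (Or.inl (heqv _ _ _ h))))))
    · refine Or.inr (Or.inr (Or.inr (Or.inr (Or.inr (Or.inr ?_)))))
      ext b
      rw [LinearMap.add_apply, hfrm, hfrm, hfrm]
      exact h _ ((hQ _ _).2 ⟨_, rfl⟩)
  have hCC : ∀ (p x y z : Additive S.G),
      (∀ u ∈ Qs β x.toMul ⊔ Qs β y.toMul ⊔ Qs β z.toMul,
        ∀ v ∈ Qs β x.toMul ⊔ Qs β y.toMul ⊔ Qs β z.toMul,
        u ∈ Qs β p.toMul ∨ v ∈ Qs β p.toMul ∨ u + v ∈ Qs β p.toMul) →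
      C2 A p x y z := by
    intro p x y z hp
    have hx : Qs β x.toMul ≤ Qs β x.toMul ⊔ Qs β y.toMul ⊔ Qs β z.toMul :=
      le_sup_of_le_left le_sup_left
    have hy : Qs β y.toMul ≤ Qs β x.toMul ⊔ Qs β y.toMul ⊔ Qs β z.toMul :=
      le_sup_of_le_left le_sup_right
    have hz' : Qs β z.toMul ≤ Qs β x.toMul ⊔ Qs β y.toMul ⊔ Qs β z.toMul := le_sup_right
    rintro ω₁ ⟨l1, rfl⟩ ω₂ ⟨l2, rfl⟩ e1 e2
    rcases comb2 _ _ hp l1 l2 ((hvan _ _).2 e1) ((hvan _ _).2 e2) with h | h | h
    · exact Or.inl ⟨(hvan _ _).1 fun k hk => h k (hx hk), (hvan _ _).1 fun k hk => h k (hy hk),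
        (hvan _ _).1 fun k hk => h k (hz' hk)⟩
    · exact Or.inr (Or.inl ⟨(hvan _ _).1 fun k hk => h k (hx hk),
        (hvan _ _).1 fun k hk => h k (hy hk), (hvan _ _).1 fun k hk => h k (hz' hk)⟩)
    · exact Or.inr (Or.inr ⟨heqv _ _ _ fun k hk => h k (hx hk),
        heqv _ _ _ fun k hk => h k (hy hk), heqv _ _ _ fun k hk => h k (hz' hk)⟩)
  have hch : ∀ ω : A, ∃ l : B →+ ZMod 2, ω.1 = frm l := fun ω => (hAm ω.1).1 ω.2
  choose lam hlam using hch
  have hmem : ∀ (W : Subgroup S.G) (i : ZMod 2) (x : Additive S.G), x.toMul ∈ W →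
      (i • x).toMul ∈ W := by
    intro W i x hx
    rcases z2 i with rfl | rfl
    · rw [zero_smul]; exact W.one_mem
    · rw [one_smul]; exact hx
  have hsm : ∀ x y z : Additive S.G, Good3 A x y z := by
    intro x y z
    rcases hsmall x.toMul y.toMul z.toMul with h | h | h
    · left
      rcases h with h | ⟨p, hp, h⟩
      · refine Or.inl ⟨hR _ (h _ (Or.inl rfl)), hR _ (h _ (Or.inr (Or.inl rfl))),
          hR _ (h _ (Or.inr (Or.inr (Or.inl rfl)))), hR _ (h _ (Or.inr (Or.inr (Or.inr rfl))))⟩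
      · rcases hp with rfl | rfl | rfl | rfl
        · exact Or.inr (Or.inl (hCC _ _ _ _ h))
        · exact Or.inr (Or.inr (Or.inl (hCC _ _ _ _ h)))
        · exact Or.inr (Or.inr (Or.inr (Or.inl (hCC _ _ _ _ h))))
        · exact Or.inr (Or.inr (Or.inr (Or.inr (hCC (x + y + z) _ _ _ h))))
    · right
      left
      let F : B → (A → ZMod 2) := fun t ω => lam ω t
      have hfT : {t : B | ∃ g ∈ Subgroup.closure {x.toMul, y.toMul, z.toMul},
          ∃ b, β g b = t}.Finite := by
        refine (Set.finite_range (fun p : S.G × S.G => β p.1 p.2)).subset ?_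
        rintro t ⟨g, -, b, rfl⟩
        exact ⟨(g, b), rfl⟩
      have hsub : vals A x y z ⊆ F '' {t : B | ∃ g ∈ Subgroup.closure
          {x.toMul, y.toMul, z.toMul}, ∃ b, β g b = t} := by
        rintro t ⟨i, j, k, b, rfl⟩
        refine ⟨β (i • x + j • y + k • z).toMul b.toMul, ⟨_, ?_, _, rfl⟩, ?_⟩
        · refine Subgroup.mul_mem _ (Subgroup.mul_mem _ ?_ ?_) ?_
          · exact hmem _ i x (Subgroup.subset_closure (by simp))
          · exact hmem _ j y (Subgroup.subset_closure (by simp))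
          · exact hmem _ k z (Subgroup.subset_closure (by simp))
        · funext ω
          show lam ω _ = ω.1 (i • x + j • y + k • z) b
          rw [hlam ω, hfrm]
      exact (Set.ncard_le_ncard hsub (hfT.image F)).trans
        ((Set.ncard_image_le hfT).trans h)
    · right
      right
      intro w
      let F : B → (A → ZMod 2) := fun t ω => lam ω t
      have hfT : {t : B | ∃ g ∈ Subgroup.closure {x.toMul, y.toMul, z.toMul, w.toMul},
          ∃ b, β g b = t}.Finite := by
        refine (Set.finite_range (fun p : S.G × S.G => β p.1 p.2)).subset ?_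
        rintro t ⟨g, -, b, rfl⟩
        exact ⟨(g, b), rfl⟩
      have hcl : ∀ p ∈ AddSubgroup.closure {x, y, z, w},
          p.toMul ∈ Subgroup.closure {x.toMul, y.toMul, z.toMul, w.toMul} := by
        intro p hp
        refine AddSubgroup.closure_induction (p := fun p _ =>
          p.toMul ∈ Subgroup.closure {x.toMul, y.toMul, z.toMul, w.toMul}) ?_ ?_ ?_ ?_ hp
        · intro u hu
          refine Subgroup.subset_closure ?_
          rcases hu with rfl | rfl | rfl | hu
          · exact Or.inl rfl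
          · exact Or.inr (Or.inl rfl)
          · exact Or.inr (Or.inr (Or.inl rfl))
          · rw [Set.mem_singleton_iff] at hu
            subst hu
            exact Or.inr (Or.inr (Or.inr rfl))
        · exact Subgroup.one_mem _
        · intro u v _ _ hu hv
          exact Subgroup.mul_mem _ hu hv
        · intro u _ hu
          exact Subgroup.inv_mem _ hu
      have hsub : valsOn A (AddSubgroup.closure {x, y, z, w}) ⊆ F '' {t : B | ∃ g ∈
          Subgroup.closure {x.toMul, y.toMul, z.toMul, w.toMul}, ∃ b, β g b = t} := by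
        rintro t ⟨p, hp, b, rfl⟩
        refine ⟨β p.toMul b.toMul, ⟨_, hcl p hp, _, rfl⟩, ?_⟩
        funext ω
        show lam ω _ = ω.1 p b
        rw [hlam ω, hfrm]
      exact (Set.ncard_le_ncard hsub (hfT.image F)).trans
        ((Set.ncard_image_le hfT).trans (h w.toMul))
  have hher : Hered A := hered_of_good3 hEF hL hsm
  have hElem : Elem (QD e A) := hout _ _ _ (hcore _ _ _ hEF hher)
  refine Elem.iso _ _ hElem ⟨MulEquiv.multiplicativeAdditive S.G, rfl, ?_⟩
  intro a b c d
  refine Iff.trans (QD_eq A a b c d) ?_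
  constructor
  · intro h
    refine (hiff _ _ _ _).1 ?_
    by_contra hne
    obtain ⟨l, -, hl⟩ := exists_char (⊥ : AddSubgroup B) (fun x => by
      rw [AddSubgroup.mem_bot]; exact hB x)
      (β a.toAdd.toMul b.toAdd.toMul - β c.toAdd.toMul d.toAdd.toMul) (by
        rw [AddSubgroup.mem_bot, sub_eq_zero]; exact hne)
    apply hl
    rw [map_sub, sub_eq_zero]
    exact h (frm l) ⟨l, rfl⟩
  · rintro h ω ⟨l, rfl⟩
    rw [hfrm, hfrm]
    congr 1
    exact (hiff _ _ _ _).2 h

theorem elem31 (S : QData) (hS : IsQuat S) (hfin : Finite S.G) {B : Type v}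
    [AddCommGroup B] (hB : ∀ b : B, b + b = 0) (β : S.G → S.G → B)
    (hmul : ∀ a b c, β a (b * c) = β a b + β a c)
    (hiff : ∀ a b c d, β a b = β c d ↔ S.q a b = S.q c d)
    (h : ∀ x y z : S.G, SmallG β x y z ∨
      {t : S.Q | ∃ g ∈ Subgroup.closure {x, y, z}, ∃ b, S.q g b = t}.ncard ≤ 27 ∨
      ∀ w : S.G, {t : S.Q | ∃ g ∈ Subgroup.closure {x, y, z, w}, ∃ b, S.q g b = t}.ncard ≤ 31) :
    Elem S := by
  refine elem_of_good3 S hS hfin hB β hmul hiff fun x y z => ?_
  rcases h x y z with h | h | h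
  · exact Or.inl h
  · obtain ⟨h1, h2⟩ := vals_ncard β hiff (Subgroup.closure {x, y, z} : Subgroup S.G)
    exact Or.inr (Or.inl (h2.trans h))
  · refine Or.inr (Or.inr fun w => ?_)
    obtain ⟨h1, h2⟩ := vals_ncard β hiff (Subgroup.closure {x, y, z, w} : Subgroup S.G)
    exact h2.trans (h w)

end Pool.Agent.Run7.h948.QF
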