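import Pool.Agent.Run7.h948.QF.Eight

/-! Structures with at most 32 quaternions in a group. -/

set_option autoImplicit false

namespace Pool.Agent.Run7.h948.QF

open Pool.Agent.N88.TS Pool.Agent.W622.ETG Pool.Agent.TH188.ETP Pool.Agent.TH188.ETV
  Pool.Agent.H315R3.ETC Module
open Pool.Agent.TH188.ET (exists_char exists_factor)
open Pool.Agent.TH188.ET8 (QD_eq)

universe v

section
variable {V : Type} [AddCommGroup V] [Module (ZMod 2) V] {e : V}

/-- the condition at the points with one value -/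
def CE (A : Fam V) : Prop := ∀ p : V, R1 A p → (∃ ω ∈ A, ω p ≠ 0) →
  ∃ b : V, (∃ ω ∈ A, ω p b ≠ 0) ∧ E8 A b

/-- the hypothesis -/
def HE (A : Fam V) : Prop := Nat.card A ≤ 16 ∨ (Nat.card A ≤ 32 ∧ CE A)

theorem smul_inj {ω : Frm V} (hne : ω ≠ 0) {s s' : ZMod 2} (h : s • ω = s' • ω) : s = s' := by
  rcases zz s with rfl | rfl <;> rcases zz s' with rfl | rfl
  · rfl
  · exfalso
    rw [zero_smul, one_smul] at h
    exact hne h.symm
  · exfalso
    rw [zero_smul, one_smul] at h
    exact hne h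
  · rfl

theorem HE.mono [Finite V] {A B : Fam V} (hBA : B ≤ A) (h : HE A) : HE B := by
  have hfA : Finite A := fin_fam A
  have hmon : Nat.card B ≤ Nat.card A :=
    Nat.card_le_card_of_injective (fun ω : B => (⟨ω.1, hBA ω.2⟩ : A)) (by
      intro ω ω' hh
      have h1 : ω.1 = ω'.1 := congrArg (fun t : A => t.1) hh
      exact Subtype.ext h1)
  rcases h with h | ⟨h, hC⟩
  · exact Or.inl (hmon.trans h)
  · by_cases he : A ≤ B
    · rw [le_antisymm hBA he]
      exact Or.inr ⟨h, hC⟩
    · left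
      obtain ⟨u, hu, huB⟩ := SetLike.not_le_iff_exists.1 he
      have hinj : Function.Injective (fun t : B × ZMod 2 =>
          (⟨t.1.1 + t.2 • u, A.add_mem (hBA t.1.2) (A.smul_mem _ hu)⟩ : A)) := by
        rintro ⟨⟨ω, m⟩, s⟩ ⟨⟨ω', m'⟩, s'⟩ hh
        have h1 : ω + s • u = ω' + s' • u := congrArg Subtype.val hh
        have h2 : s = s' := by
          by_contra hne
          apply huB
          have h3 : u = ω + ω' := by
            have h4 : ω + s • u + (ω' + s' • u) = 0 := by
              rw [h1]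
              exact LinearMap.ext fun v => self2 _
            have h5 : s + s' = 1 := by
              rcases zz s with rfl | rfl <;> rcases zz s' with rfl | rfl
              · exact absurd rfl hne
              · exact zero_add 1
              · exact add_zero 1
              · exact absurd rfl hne
            have h6 : ω + s • u + (ω' + s' • u) = (ω + ω') + (s + s') • u := by module
            rw [h6, h5, one_smul] at h4
            refine LinearMap.ext fun v => ?_
            have h7 := LinearMap.congr_fun h4 v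
            exact (eq_of_add h7).symm
          rw [h3]
          exact B.add_mem m m'
        subst h2
        have h3 : ω = ω' := LinearMap.ext fun v => add_right_cancel (LinearMap.congr_fun h1 v)
        subst h3
        rfl
      have h1 := Nat.card_le_card_of_injective _ hinj
      rw [Nat.card_prod, Nat.card_zmod] at h1
      omega

theorem resF_le [Finite V] (A : Fam V) (P : AddSubgroup V) :
    Nat.card (resF A P) ≤ Nat.card A := by
  have hfA : Finite A := fin_fam A
  have hs : Function.Surjective (fun ω : A => (⟨rs P ω.1, mem_resF ω.2⟩ : resF A P)) := by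
    rintro ⟨_, ω, hω, rfl⟩
    exact ⟨⟨ω, hω⟩, rfl⟩
  exact Nat.card_le_card_of_surjective _ hs

/-- a family with 32 members is determined by its values at three points -/
theorem faith [Finite V] {A : Fam V} {R P Q : V} {T : Type} [Finite T] (hT : Nat.card T = 32)
    (w : T → Frm V) (hw : ∀ t, w t ∈ A)
    (hi : ∀ t t', w t R = w t' R → w t P = w t' P → w t Q = w t' Q → t = t')
    (hc : Nat.card A ≤ 32) : ∀ ω ∈ A, ω R = 0 → ω P = 0 → ω Q = 0 → ω = 0 := by
  intro ω hω r p q
  by_contra hne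
  have hfA : Finite A := fin_fam A
  have hinj : Function.Injective (fun t : T × ZMod 2 =>
      (⟨w t.1 + t.2 • ω, A.add_mem (hw _) (A.smul_mem _ hω)⟩ : A)) := by
    rintro ⟨t, s⟩ ⟨t', s'⟩ hh
    have h1 : w t + s • ω = w t' + s' • ω := congrArg Subtype.val hh
    have gen : ∀ v : V, ω v = 0 → w t v = w t' v := by
      intro v hv
      have h2 := LinearMap.congr_fun h1 v
      rw [LinearMap.add_apply, LinearMap.add_apply, LinearMap.smul_apply, LinearMap.smul_apply,
        hv, smul_zero, smul_zero, add_zero, add_zero] at h2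
      exact h2
    have h3 := hi t t' (gen R r) (gen P p) (gen Q q)
    subst h3
    have h4 : s • ω = s' • ω := LinearMap.ext fun v => add_left_cancel (LinearMap.congr_fun h1 v)
    rw [smul_inj hne h4]
  have h1 := Nat.card_le_card_of_injective _ hinj
  rw [Nat.card_prod, hT, Nat.card_zmod] at h1
  omega

theorem card5 : Nat.card (ZMod 2 × ZMod 2 × ZMod 2 × ZMod 2 × ZMod 2) = 32 := by
  rw [Nat.card_eq_fintype_card]
  decide

theorem faithA [Finite V] {A : Fam V} {R P Q : V} {h g k : Dl V} (hI : Ind3 h g k)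
    (hF : FA A R P Q h g k) (hc : Nat.card A ≤ 32) :
    ∀ ω ∈ A, ω R = 0 → ω P = 0 → ω Q = 0 → ω = 0 := by
  have hw : ∀ c : ZMod 2 × ZMod 2 × ZMod 2 × ZMod 2 × ZMod 2, ∃ ω ∈ A, ω R = c.1 • h ∧
      ω P = c.2.1 • h + c.2.2.1 • g ∧
      ω Q = c.2.2.2.1 • h + c.2.2.2.2 • g + (c.1 + c.2.2.1) • k := by
    intro c
    exact hF.2 _ _ _ _ _ _ (CharTwo.add_self_eq_zero _)
  choose w w0 w1 w2 w3 using hw
  refine faith card5 w w0 ?_ hc
  rintro ⟨c1, c2, c3, c4, c5⟩ ⟨d1, d2, d3, d4, d5⟩ e1 e2 e3
  rw [w1, w1] at e1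
  rw [w2, w2] at e2
  rw [w3, w3] at e3
  have f1 : (c1 + d1) • h + (0 : ZMod 2) • g + (0 : ZMod 2) • k = 0 := by
    have h1 : (c1 + d1) • h + (0 : ZMod 2) • g + (0 : ZMod 2) • k = c1 • h + d1 • h := by module
    rw [h1]
    simp only at e1
    rw [e1, self2]
  have f2 : (c2 + d2) • h + (c3 + d3) • g + (0 : ZMod 2) • k = 0 := by
    have h1 : (c2 + d2) • h + (c3 + d3) • g + (0 : ZMod 2) • k =
      (c2 • h + c3 • g) + (d2 • h + d3 • g) := by module
    rw [h1]
    simp only at e2
    rw [e2, self2]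
  have f3 : (c4 + d4) • h + (c5 + d5) • g + (c1 + c3 + (d1 + d3)) • k = 0 := by
    have h1 : (c4 + d4) • h + (c5 + d5) • g + (c1 + c3 + (d1 + d3)) • k =
      (c4 • h + c5 • g + (c1 + c3) • k) + (d4 • h + d5 • g + (d1 + d3) • k) := by module
    rw [h1]
    simp only at e3
    rw [e3, self2]
  have g1 := CharTwo.add_eq_zero.1 (hI _ _ _ f1).1
  have g2 := CharTwo.add_eq_zero.1 (hI _ _ _ f2).1
  have g3 := CharTwo.add_eq_zero.1 (hI _ _ _ f2).2.1
  have g4 := CharTwo.add_eq_zero.1 (hI _ _ _ f3).1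
  have g5 := CharTwo.add_eq_zero.1 (hI _ _ _ f3).2.1
  rw [g1, g2, g3, g4, g5]

theorem faithB [Finite V] {A : Fam V} {R P Q : V} {h g2 g1 g3 : Dl V} (hI : Ind4 h g2 g1 g3)
    (hF : FB A R P Q h g2 g1 g3) (hc : Nat.card A ≤ 32) :
    ∀ ω ∈ A, ω R = 0 → ω P = 0 → ω Q = 0 → ω = 0 := by
  have hw : ∀ c : ZMod 2 × ZMod 2 × ZMod 2 × ZMod 2 × ZMod 2, ∃ ω ∈ A,
      ω R = (c.2.2.1 + c.2.2.2.1 + c.2.2.2.2) • h ∧
      ω P = c.1 • h + c.2.2.1 • g2 + c.2.2.2.2 • g3 ∧
      ω Q = c.2.1 • h + c.2.2.2.1 • g1 + c.2.2.2.2 • g3 := by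
    intro c
    refine hF.2 _ _ _ _ _ _ ?_
    have h1 : c.2.2.1 + c.2.2.2.1 + c.2.2.2.2 + c.2.2.1 + c.2.2.2.1 + c.2.2.2.2 =
      (c.2.2.1 + c.2.2.2.1 + c.2.2.2.2) + (c.2.2.1 + c.2.2.2.1 + c.2.2.2.2) := by ring
    rw [h1]
    exact CharTwo.add_self_eq_zero _
  choose w w0 w1 w2 w3 using hw
  refine faith card5 w w0 ?_ hc
  rintro ⟨c2, c3, c4, c5, c6⟩ ⟨d2, d3, d4, d5, d6⟩ e1 e2 e3
  rw [w2, w2] at e2
  rw [w3, w3] at e3
  have f2 : (c2 + d2) • h + (c4 + d4) • g2 + (0 : ZMod 2) • g1 + (c6 + d6) • g3 = 0 := by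
    have h1 : (c2 + d2) • h + (c4 + d4) • g2 + (0 : ZMod 2) • g1 + (c6 + d6) • g3 =
      (c2 • h + c4 • g2 + c6 • g3) + (d2 • h + d4 • g2 + d6 • g3) := by module
    rw [h1]
    simp only at e2
    rw [e2, self2]
  have f3 : (c3 + d3) • h + (0 : ZMod 2) • g2 + (c5 + d5) • g1 + (c6 + d6) • g3 = 0 := by
    have h1 : (c3 + d3) • h + (0 : ZMod 2) • g2 + (c5 + d5) • g1 + (c6 + d6) • g3 =
      (c3 • h + c5 • g1 + c6 • g3) + (d3 • h + d5 • g1 + d6 • g3) := by module
    rw [h1]
    simp only at e3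
    rw [e3, self2]
  have k2 := CharTwo.add_eq_zero.1 (hI _ _ _ _ f2).1
  have k4 := CharTwo.add_eq_zero.1 (hI _ _ _ _ f2).2.1
  have k6 := CharTwo.add_eq_zero.1 (hI _ _ _ _ f2).2.2.2
  have k3 := CharTwo.add_eq_zero.1 (hI _ _ _ _ f3).1
  have k5 := CharTwo.add_eq_zero.1 (hI _ _ _ _ f3).2.2.1
  rw [k2, k3, k4, k5, k6]

theorem planeE [Finite V] {A : Fam V} (hA : EFam e A) (hL : Linked A) (H : HE A) (x y z : V) :
    PlaneAt A x y z := by
  intro f fx fy fz fw
  by_contra hno'
  have hno : ∀ ω ∈ A, ω x = f → ω y = f → ω z = f → False :=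
    fun ω hω h1 h2 h3 => hno' ⟨ω, hω, h1, h2, h3⟩
  have hfA := fin_fam A
  have hodd := in_odd fx fy fz fw
  have hsym : ∀ ω ∈ A, ∀ a b : V, ω a b = ω b a := fun ω hω => (hA ω hω).symm
  rcases H with h16 | ⟨h32, hC⟩
  · refine hno' (dual' V A hL x y z ?_ f fx fy fz fw)
    have h1 : (vals A x y z).ncard ≤ (valsOn A ⊤).ncard := by
      refine Set.ncard_le_ncard ?_ (Set.toFinite _)
      rintro t ⟨i, j, k, b, rfl⟩
      exact ⟨pb x y z (i, j, k), AddSubgroup.mem_top _, b, rfl⟩
    have h2 := valsOn_le A ⊤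
    have h3 := resF_le A ⊤
    omega
  obtain ⟨hfW, hcW⟩ := dual_card (EP A x y z f) (fun t => Subtype.ext (ex2 A t.1))
  have h64 : Nat.card (EP A x y z f →+ ZMod 2) ≤ 64 := by
    have h1 := EP_card A x y z f (P := ⊤) (fun u => AddSubgroup.mem_top _)
    have h2 := resF_le A ⊤
    omega
  obtain ⟨r, a, b, er, ea, eb, hDB, hE, hforms⟩ := Sys.cls (sysOf hL hodd hno) h64
  have key : ∀ h : Dl V, h ≠ 0 → (∀ ω ∈ A, ∃ c : ZMod 2, ω (pb x y z r) = c • h) →
      (∃ ω ∈ A, ω (pb x y z r) = h) → ∃ v, h v = 1 ∧ E8 A v := by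
    rintro h h0 h1 ⟨ω, m, hω⟩
    obtain ⟨v, ⟨η, n, hη⟩, h8⟩ := hC (pb x y z r) (fun ω₁ m₁ ω₂ m₂ => by
      obtain ⟨c1, e1⟩ := h1 ω₁ m₁
      obtain ⟨d1, e2⟩ := h1 ω₂ m₂
      rw [e1, e2]
      rcases zz c1 with rfl | rfl
      · exact Or.inl (zero_smul _ _)
      · rcases zz d1 with rfl | rfl
        · exact Or.inr (Or.inl (zero_smul _ _))
        · exact Or.inr (Or.inr rfl)) ⟨ω, m, by rw [hω]; exact h0⟩
    refine ⟨v, ?_, h8⟩
    obtain ⟨c, hc⟩ := h1 η n
    rw [hc, LinearMap.smul_apply, smul_eq_mul] at hη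
    rcases zz (h v) with h2 | h2
    · rw [h2, mul_zero] at hη
      exact absurd rfl hη
    · exact h2
  rcases hforms with ⟨h, g, k, hI, hF'⟩ | ⟨h, g2, g1, g3, hI, hF'⟩
  · have hFA := convA hL hodd hno hF'
    obtain ⟨v, hv, h8⟩ := key h (by
      rintro rfl
      exact one_ne_zero (hI 1 0 0 (by module)).1)
      (fun ω m => by
        obtain ⟨c1, -, -, -, -, -, -, e1, -, -⟩ := hFA.1 ω m
        exact ⟨c1, e1⟩)
      (by
        obtain ⟨ω, m, e1, -, -⟩ := hFA.2 1 0 1 0 0 0 (by decide)
        exact ⟨ω, m, by rw [e1, one_smul]⟩)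
    obtain ⟨hI', hF2⟩ := FA_norm hI hFA (g v) (k v)
    refine noA8 hsym hL hI' hF2 (faithA hI' hF2 h32) hv ?_ ?_ h8
    · rw [LinearMap.add_apply, LinearMap.smul_apply, hv, smul_eq_mul, mul_one]
      exact CharTwo.add_self_eq_zero _
    · rw [LinearMap.add_apply, LinearMap.smul_apply, hv, smul_eq_mul, mul_one]
      exact CharTwo.add_self_eq_zero _
  · have hFB := convB hL hodd hno hF'
    obtain ⟨v, hv, h8⟩ := key h (by
      rintro rfl
      exact one_ne_zero (hI 1 0 0 0 (by module)).1)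
      (fun ω m => by
        obtain ⟨c1, -, -, -, -, -, -, e1, -, -⟩ := hFB.1 ω m
        exact ⟨c1, e1⟩)
      (by
        obtain ⟨ω, m, e1, -, -⟩ := hFB.2 1 0 0 1 0 0 (by decide)
        exact ⟨ω, m, by rw [e1, one_smul]⟩)
    obtain ⟨hI', hF2⟩ := FB_norm hI hFB (g2 v) (g1 v) (g3 v)
    refine noB8 hsym hL hI' hF2 (faithB hI' hF2 h32) hv ?_ ?_ ?_ h8
    · rw [LinearMap.add_apply, LinearMap.smul_apply, hv, smul_eq_mul, mul_one]
      exact CharTwo.add_self_eq_zero _
    · rw [LinearMap.add_apply, LinearMap.smul_apply, hv, smul_eq_mul, mul_one]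
      exact CharTwo.add_self_eq_zero _
    · rw [LinearMap.add_apply, LinearMap.smul_apply, hv, smul_eq_mul, mul_one]
      exact CharTwo.add_self_eq_zero _

theorem linked_listE [Finite V] (l : List V) : ∀ A : Fam V, EFam e A → Linked A →
    HE A → Linked (l.foldl (fun B u => res B (ann u)) A) := by
  induction l with
  | nil => intro A _ h _; exact h
  | cons u l ih =>
    intro A hA hL hS
    exact ih _ (hA.res _) (linked_ann hA hL (fun x y z => planeE hA hL hS x y z) u)
      (hS.mono (res_le A _))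

theorem hered_of_E [Finite V] {A : Fam V} (hA : EFam e A) (hL : Linked A) (hS : HE A) :
    Hered A := by
  classical
  intro X
  have : Fintype V := Fintype.ofFinite V
  let l : List V := (Finset.univ.filter (fun b : V => ∀ g ∈ X, g b = 0)).toList
  have hl : ∀ b, b ∈ l ↔ ∀ g ∈ X, g b = 0 := by
    intro b
    simp [l]
  have h1 : l.foldl (fun B u => res B (ann u)) A = res A X := by
    ext ω
    rw [mem_list l A hA ω]
    constructor
    · rintro ⟨h1, h2⟩
      refine ⟨h1, fun y => mem_of_coann fun b hb => ?_⟩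
      rw [(hA ω h1).symm, h2 b ((hl b).2 hb)]
      rfl
    · rintro ⟨h1, h2⟩
      refine ⟨h1, fun u hu => ?_⟩
      ext y
      rw [(hA ω h1).symm]
      exact (hl u).1 hu _ (h2 y)
  rw [← h1]
  exact linked_listE l A hA hL hS

end

theorem elem_of_E (S : QData) (hS : IsQuat S) (hfin : Finite S.G) {B : Type v}
    [AddCommGroup B] (hB : ∀ b : B, b + b = 0) (β : S.G → S.G → B)
    (hmul : ∀ a b c, β a (b * c) = β a b + β a c)
    (hiff : ∀ a b c d, β a b = β c d ↔ S.q a b = S.q c d)
    (hfB : Finite B) (hcB : Nat.card B ≤ 32)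
    (hsmall : ∀ a : S.G, Nat.card (Qs β a) = 2 → ∃ b : S.G, S.q a b ≠ S.zero ∧
      Nat.card (Qs β b) ≤ 8) :
    Elem S := by
  classical
  obtain ⟨hcore, hPL, hout, hconv⟩ := Pool.Agent.W622.ETG.all_parts
  let _ : Module (ZMod 2) (Additive S.G) := AddCommGroup.zmodModule (n := 2) (by
    intro x
    rw [two_smul]
    exact hS.exp2 x.toMul)
  have hfV : Finite (Additive S.G) := hfin
  have q1 : ∀ a, S.q a 1 = S.zero := by
    intro a
    have := (hS.qs3 a 1 1).1 rfl
    rwa [mul_one] at this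
  have b1 : ∀ a, β a 1 = 0 := by
    intro a
    have := hmul a 1 1
    rw [mul_one] at this
    exact left_eq_add.1 this
  have hz : ∀ a b, β a b = 0 ↔ S.q a b = S.zero := by
    intro a b
    rw [← b1 a, ← q1 a, hiff]
  have hsym : ∀ a b, β a b = β b a := fun a b => (hiff _ _ _ _).2 (hS.qs2 a b)
  have hmul' : ∀ a b c, β (a * b) c = β a c + β b c := by
    intro a b c
    rw [hsym, hmul, hsym c, hsym c]
  -- the form of a character
  let frm (l : B →+ ZMod 2) : Frm (Additive S.G) :=
    AddMonoidHom.toZModLinearMap 2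
      { toFun := fun a => AddMonoidHom.toZModLinearMap 2
          { toFun := fun b => l (β a.toMul b.toMul)
            map_zero' := by
              show l (β a.toMul 1) = 0
              rw [b1, map_zero]
            map_add' := fun b c => by
              show l (β a.toMul (b.toMul * c.toMul)) = _
              rw [hmul, map_add] }
        map_zero' := by
          ext b
          show l (β 1 b.toMul) = 0
          rw [hsym, b1, map_zero]
        map_add' := fun a a' => by
          ext b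
          show l (β (a.toMul * a'.toMul) b.toMul) = l _ + l _
          rw [hmul', map_add] }
  have hfrm : ∀ l a b, frm l a b = l (β a.toMul b.toMul) := fun _ _ _ => rfl
  let A : Fam (Additive S.G) :=
    { carrier := {ω | ∃ l : B →+ ZMod 2, ω = frm l}
      add_mem' := by
        rintro _ _ ⟨l, rfl⟩ ⟨l', rfl⟩
        exact ⟨l + l', by ext a b; rfl⟩
      zero_mem' := ⟨0, by ext a b; rfl⟩
      smul_mem' := by
        rintro c _ ⟨l, rfl⟩
        refine ⟨c.val • l, ?_⟩
        ext a b
        rw [LinearMap.smul_apply, LinearMap.smul_apply, hfrm, hfrm, AddMonoidHom.nsmul_apply]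
        simp }
  have hAm : ∀ ω, ω ∈ A ↔ ∃ l : B →+ ZMod 2, ω = frm l := fun _ => Iff.rfl
  set e : Additive S.G := Additive.ofMul S.neg with he
  have hEF : EFam e A := by
    rintro ω ⟨l, rfl⟩
    constructor
    · intro a b
      rw [hfrm, hfrm, hsym]
    · intro a
      have h1 : β a.toMul (S.neg * a.toMul) = 0 := (hz _ _).2 (hS.qs1 a.toMul)
      rw [hmul] at h1
      have h2 : β a.toMul a.toMul = β a.toMul S.neg := by
        have h3 := hB (β a.toMul S.neg)
        rw [← h3] at h1
        exact add_left_cancel h1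
      rw [hfrm, hfrm, h2]
      rfl
  -- linkage by gluing
  have hL : Linked A := by
    rintro ω ⟨l, rfl⟩ η ⟨m, rfl⟩ a c hac
    have hac' : ∀ b, l (β a.toMul b) = m (β c.toMul b) := by
      intro b
      have := LinearMap.congr_fun hac (Additive.ofMul b)
      rwa [hfrm, hfrm] at this
    let Φ : Additive S.G × Additive S.G →+ B :=
      AddMonoidHom.mk' (fun z => β a.toMul z.1.toMul + β c.toMul z.2.toMul) (by
        intro z z'
        simp only [Prod.fst_add, Prod.snd_add, toMul_add, hmul]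
        abel)
    let Λ : Additive S.G × Additive S.G →+ ZMod 2 :=
      AddMonoidHom.mk' (fun z => l (β a.toMul z.1.toMul) + m (β c.toMul z.2.toMul)) (by
        intro z z'
        simp only [Prod.fst_add, Prod.snd_add, toMul_add, hmul, map_add]
        abel)
    obtain ⟨k, hk⟩ := exists_factor hB Φ Λ (by
      rintro ⟨b, d⟩ h
      have h1 : β a.toMul b.toMul + β c.toMul d.toMul = 0 := h
      have h2 : β a.toMul b.toMul = β c.toMul d.toMul := by
        have h3 := hB (β c.toMul d.toMul)
        rw [← h3] at h1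
        exact add_right_cancel h1
      obtain ⟨x, hx1, hx2⟩ := hS.qs4 _ _ _ _ ((hiff _ _ _ _).1 h2)
      have e1 := (hiff _ _ _ _).2 hx1
      have e2 := (hiff _ _ _ _).2 hx2
      show l (β a.toMul b.toMul) + m (β c.toMul d.toMul) = 0
      rw [e1, e2, hac']
      exact CharTwo.add_self_eq_zero _)
    refine ⟨frm k, ⟨k, rfl⟩, ?_, ?_⟩
    · ext b
      rw [hfrm, hfrm]
      have := hk (b, 0)
      have h1 : Φ (b, 0) = β a.toMul b.toMul := by
        show β a.toMul b.toMul + β c.toMul 1 = _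
        rw [b1, add_zero]
      have h2 : Λ (b, 0) = l (β a.toMul b.toMul) := by
        show l (β a.toMul b.toMul) + m (β c.toMul 1) = _
        rw [b1, map_zero, add_zero]
      rw [h1, h2] at this
      exact this
    · ext b
      rw [hfrm, hfrm]
      have := hk (0, b)
      have h1 : Φ (0, b) = β c.toMul b.toMul := by
        show β a.toMul 1 + β c.toMul b.toMul = _
        rw [b1, zero_add]
      have h2 : Λ (0, b) = m (β c.toMul b.toMul) := by
        show l (β a.toMul 1) + m (β c.toMul b.toMul) = _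
        rw [b1, map_zero, zero_add]
      rw [h1, h2] at this
      rw [this]
      exact (hac' _).symm
  -- finiteness of the groups `Q_p`
  have hQ : ∀ p : S.G, ∀ h, h ∈ Qs β p ↔ ∃ b, β p b = h := by
    intro p h
    constructor
    · intro hh
      refine AddSubgroup.closure_induction (p := fun h _ => ∃ b, β p b = h) ?_ ?_ ?_ ?_ hh
      · rintro _ ⟨b, rfl⟩; exact ⟨b, rfl⟩
      · exact ⟨1, b1 p⟩
      · rintro _ _ _ _ ⟨b, rfl⟩ ⟨c, rfl⟩
        exact ⟨b * c, hmul _ _ _⟩
      · rintro _ _ ⟨b, rfl⟩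
        exact ⟨b, (neg_eq_iff_add_eq_zero.2 (hB _)).symm⟩
    · rintro ⟨b, rfl⟩
      exact AddSubgroup.subset_closure ⟨b, rfl⟩
  have hQfin : ∀ p : S.G, Finite (Qs β p) := by
    intro p
    have hsurj : Function.Surjective
        (fun b : S.G => (⟨β p b, AddSubgroup.subset_closure ⟨b, rfl⟩⟩ : Qs β p)) := by
      rintro ⟨h, hh⟩
      obtain ⟨b, rfl⟩ := (hQ p h).1 hh
      exact ⟨b, rfl⟩
    exact Finite.of_surjective _ hsurj
  have hvan : ∀ (l : B →+ ZMod 2) (p : Additive S.G), (∀ h ∈ Qs β p.toMul, l h = 0) ↔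
      frm l p = 0 := by
    intro l p
    constructor
    · intro h
      ext b
      rw [hfrm]
      exact h _ ((hQ _ _).2 ⟨_, rfl⟩)
    · intro h k hk
      obtain ⟨b, rfl⟩ := (hQ _ _).1 hk
      have := LinearMap.congr_fun h (Additive.ofMul b)
      rwa [hfrm] at this
  have heqv : ∀ (l m : B →+ ZMod 2) (p : Additive S.G),
      (∀ h ∈ Qs β p.toMul, l h = m h) → frm l p = frm m p := by
    intro l m p h
    ext b
    rw [hfrm, hfrm]
    exact h _ ((hQ _ _).2 ⟨_, rfl⟩)
  obtain ⟨hfC, hcC⟩ := dual_cardU B hB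
  have hHE : HE A := by
    right
    refine ⟨?_, fun p hp ⟨ω0, m0, hω0⟩ => ?_⟩
    · have hs : Function.Surjective (fun l : B →+ ZMod 2 => (⟨frm l, ⟨l, rfl⟩⟩ : A)) := by
        rintro ⟨ω, hω⟩
        obtain ⟨l, rfl⟩ := (hAm ω).1 hω
        exact ⟨l, rfl⟩
      exact ((Nat.card_le_card_of_surjective _ hs).trans hcC).trans hcB
    · obtain ⟨l0, rfl⟩ := (hAm ω0).1 m0
      have hfp := hQfin p.toMul
      have h1 : Nat.card (Qs β p.toMul) ≠ 1 := by
        intro h1
        apply hω0
        rw [← hvan]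
        intro k hk
        have hs := (Nat.card_eq_one_iff_unique.1 h1).1
        have h3 : (⟨k, hk⟩ : Qs β p.toMul) = 0 := Subsingleton.elim _ _
        have h4 : k = 0 := congrArg Subtype.val h3
        rw [h4, map_zero]
      have h5 : 0 < Nat.card (Qs β p.toMul) := Nat.card_pos
      have h2 : ¬ 2 < Nat.card (Qs β p.toMul) := by
        intro h2
        obtain ⟨u, v, hu0, hv0, huv⟩ : ∃ u v : Qs β p.toMul, u ≠ 0 ∧ v ≠ 0 ∧ u ≠ v := by
          by_contra hcon
          push Not at hcon
          have h3 := Nat.card_le_card_of_injective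
            (fun u : Qs β p.toMul => (decide (u = 0) : Bool)) (by
              intro u v huv
              by_cases hu : u = 0
              · by_cases hv : v = 0
                · rw [hu, hv]
                · simp [hu, hv] at huv
              · by_cases hv : v = 0
                · simp [hu, hv] at huv
                · exact hcon u v hu hv)
          rw [Nat.card_eq_fintype_card (α := Bool), Fintype.card_bool] at h3
          omega
        have hu1 : u.1 ≠ 0 := fun h => hu0 (Subtype.ext h)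
        have hv1 : v.1 ≠ 0 := fun h => hv0 (Subtype.ext h)
        have huv1 : u.1 ≠ v.1 := fun h => huv (Subtype.ext h)
        obtain ⟨l1, z1, n1⟩ := exists_char (two hB u.1) (fun t => by
          rw [hB]; exact zero_mem _) v.1 (by
            rintro (h | h)
            · exact hv1 h
            · exact huv1 h.symm)
        obtain ⟨l2, z2, n2⟩ := exists_char (two hB v.1) (fun t => by
          rw [hB]; exact zero_mem _) u.1 (by
            rintro (h | h)
            · exact hu1 h
            · exact huv1 h)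
        have k1 : l1 u.1 = 0 := z1 _ (Or.inr rfl)
        have k2 : l2 v.1 = 0 := z2 _ (Or.inr rfl)
        rcases hp (frm l1) ⟨l1, rfl⟩ (frm l2) ⟨l2, rfl⟩ with h | h | h
        · exact n1 ((hvan l1 p).2 h v.1 v.2)
        · exact n2 ((hvan l2 p).2 h u.1 u.2)
        · have h3 : frm (l1 - l2) p = 0 := by
            ext b
            have h4 := LinearMap.congr_fun h b
            rw [hfrm, hfrm] at h4
            rw [hfrm, AddMonoidHom.sub_apply, h4, sub_self]
            rfl
          have h4 := (hvan (l1 - l2) p).2 h3 u.1 u.2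
          rw [AddMonoidHom.sub_apply, k1, zero_sub, neg_eq_zero] at h4
          exact n2 h4
      obtain ⟨b, hb, hb8⟩ := hsmall p.toMul (by omega)
      refine ⟨Additive.ofMul b, ?_, ?_⟩
      · obtain ⟨l, -, hl⟩ := exists_char (⊥ : AddSubgroup B) (fun x => by
          rw [AddSubgroup.mem_bot]; exact hB x) (β p.toMul b) (by
            rw [AddSubgroup.mem_bot, hz]; exact hb)
        exact ⟨frm l, ⟨l, rfl⟩, hl⟩
      · have hfb := hQfin b
        obtain ⟨d1, d2⟩ := dual_cardU (Qs β b) (fun x => Subtype.ext (hB x.1))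
        have hch' : ∀ t : {f : Dl (Additive S.G) | In A (Additive.ofMul b) f},
            ∃ l : B →+ ZMod 2, t.1 = frm l (Additive.ofMul b) := by
          rintro ⟨_, ω, hω, rfl⟩
          obtain ⟨l, rfl⟩ := (hAm ω).1 hω
          exact ⟨l, rfl⟩
        choose L hLL using hch'
        have hinj : Function.Injective
            (fun t : {f : Dl (Additive S.G) | In A (Additive.ofMul b) f} =>
              (L t).comp (Qs β b).subtype) := by
          intro t t' htt
          refine Subtype.ext ?_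
          rw [hLL t, hLL t']
          exact heqv _ _ (Additive.ofMul b) fun k hk => DFunLike.congr_fun htt ⟨k, hk⟩
        exact ((Nat.card_le_card_of_injective _ hinj).trans d2).trans hb8
  have hher : Hered A := hered_of_E hEF hL hHE
  have hElem : Elem (QD e A) := hout _ _ _ (hcore _ _ _ hEF hher)
  refine Elem.iso _ _ hElem ⟨MulEquiv.multiplicativeAdditive S.G, rfl, ?_⟩
  intro a b c d
  refine Iff.trans (QD_eq A a b c d) ?_
  constructor
  · intro h
    refine (hiff _ _ _ _).1 ?_
    by_contra hne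
    obtain ⟨l, -, hl⟩ := exists_char (⊥ : AddSubgroup B) (fun x => by
      rw [AddSubgroup.mem_bot]; exact hB x)
      (β a.toAdd.toMul b.toAdd.toMul - β c.toAdd.toMul d.toAdd.toMul) (by
        rw [AddSubgroup.mem_bot, sub_eq_zero]; exact hne)
    apply hl
    rw [map_sub, sub_eq_zero]
    exact h (frm l) ⟨l, rfl⟩
  · rintro h ω ⟨l, rfl⟩
    rw [hfrm, hfrm]
    congr 1
    exact (hiff _ _ _ _).2 h

end Pool.Agent.Run7.h948.QF
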