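import Pool.Agent.Run7.h948.QF.Three

/-! The structure theorem: one small value group in each affine plane. -/

set_option autoImplicit false

namespace Pool.Agent.Run7.h948.QF

open Pool.Agent.N88.TS Pool.Agent.W622.ETG Pool.Agent.TH188.ETP Pool.Agent.TH188.ETV
  Pool.Agent.H315R3.ETC Module
open Pool.Agent.TH188.ET (exists_char exists_factor)
open Pool.Agent.TH188.ET8 (QD_eq)
open Pool.Agent.R649.ETS (mem_Qs vals_ncard)

universe v

section
variable {V : Type} [AddCommGroup V] [Module (ZMod 2) V] {e : V}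

/-- restriction to a subgroup -/
def rs (P : AddSubgroup V) (ω : Frm V) : P → Dl V := fun p => ω p.1

/-- the restrictions of the members -/
def resF (A : Fam V) (P : AddSubgroup V) : AddSubgroup (P → Dl V) where
  carrier := {t | ∃ ω ∈ A, rs P ω = t}
  zero_mem' := ⟨0, A.zero_mem, rfl⟩
  add_mem' := by
    rintro _ _ ⟨ω, h, rfl⟩ ⟨η, h', rfl⟩
    exact ⟨ω + η, A.add_mem h h', rfl⟩
  neg_mem' := by
    rintro _ ⟨ω, h, rfl⟩
    have h1 : rs P ω + rs P ω = 0 := by
      funext p
      exact self2 _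
    exact ⟨ω, h, (neg_eq_iff_add_eq_zero.2 h1).symm⟩

theorem mem_resF {A : Fam V} {P : AddSubgroup V} {ω : Frm V} (h : ω ∈ A) : rs P ω ∈ resF A P :=
  ⟨ω, h, rfl⟩

/-- at most 32 restrictions, and no point with exactly one nonzero value -/
def FF (A : Fam V) (P : AddSubgroup V) : Prop :=
  Nat.card (resF A P) ≤ 32 ∧ ∀ p ∈ P, R1 A p → ∀ ω ∈ A, ω p = 0

/-- good subgroups -/
def GoodSub (A : Fam V) (P : AddSubgroup V) : Prop :=
  (valsOn A P).ncard ≤ 27 ∨ (∃ p ∈ P, C2s A p P) ∨
  (∃ p ∈ P, ∃ q ∈ P, (p ≠ 0 ∧ q ≠ 0 ∧ p ≠ q) ∧ R1 A p ∧ R1 A q) ∨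
  (∀ w : V, (valsOn A (AddSubgroup.closure ((P : Set V) ∪ {w}))).ncard ≤ 31) ∨ FF A P

/-- the local hypothesis -/
def Hyp (A : Fam V) : Prop := ∀ x y z : V, Ind3 x y z →
  (R2 A x ∨ R2 A y ∨ R2 A z ∨ R2 A (x + y + z)) ∨ GoodSub A (AddSubgroup.closure {x, y, z})

theorem valsOn_mono [Finite V] {A B : Fam V} (hBA : B ≤ A) (P : AddSubgroup V) :
    (valsOn B P).ncard ≤ (valsOn A P).ncard := by
  have hfA := fin_fam A
  let F : (A → ZMod 2) → (B → ZMod 2) := fun t ω => t ⟨ω.1, hBA ω.2⟩
  have h1 : valsOn B P ⊆ F '' valsOn A P := by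
    rintro t ⟨p, hp, b, rfl⟩
    exact ⟨_, ⟨p, hp, b, rfl⟩, rfl⟩
  exact (Set.ncard_le_ncard h1 ((Set.toFinite _).image F)).trans
    (Set.ncard_image_le (Set.toFinite _))

theorem R2_mono {A B : Fam V} (hBA : B ≤ A) {p : V} (h : R2 A p) : R2 B p :=
  fun ω₁ m₁ ω₂ m₂ ω₃ m₃ => h ω₁ (hBA m₁) ω₂ (hBA m₂) ω₃ (hBA m₃)

theorem R1_mono {A B : Fam V} (hBA : B ≤ A) {p : V} (h : R1 A p) : R1 B p :=
  fun ω₁ m₁ ω₂ m₂ => h ω₁ (hBA m₁) ω₂ (hBA m₂)

theorem ex_res (P : AddSubgroup V) (t : P → Dl V) : t + t = 0 := by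
  funext p
  exact self2 (t p)

/-- values are determined by the restrictions -/
def toVal (A : Fam V) (P : AddSubgroup V) : (resF A P →+ ZMod 2) →+ (A → ZMod 2) where
  toFun φ := fun ω => φ ⟨rs P ω.1, mem_resF ω.2⟩
  map_zero' := rfl
  map_add' _ _ := rfl

theorem toVal_vl (A : Fam V) (P : AddSubgroup V) {p : V} (hp : p ∈ P) (b : V) :
    ∃ φ, toVal A P φ = vl A p b :=
  ⟨(AddMonoidHom.mk' (fun t : P → Dl V => t ⟨p, hp⟩ b) (fun _ _ => rfl)).comp
    (resF A P).subtype, rfl⟩

theorem dual_cardU (B : Type v) [AddCommGroup B] [Finite B] (hB : ∀ b : B, b + b = 0) :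
    Finite (B →+ ZMod 2) ∧ Nat.card (B →+ ZMod 2) ≤ Nat.card B := by
  let _ : Module (ZMod 2) B := AddCommGroup.zmodModule (n := 2) (by
    intro x
    rw [two_smul]
    exact hB x)
  have hf : Finite (Module.Dual (ZMod 2) B) := DFunLike.finite _
  have hinj : Function.Injective (fun f : B →+ ZMod 2 =>
      (AddMonoidHom.toZModLinearMap 2 f : Module.Dual (ZMod 2) B)) := by
    intro f g hfg
    ext b
    exact LinearMap.congr_fun hfg b
  refine ⟨Finite.of_injective _ hinj, ?_⟩
  have h1 := Nat.card_le_card_of_injective _ hinj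
  have h2 : Nat.card (Module.Dual (ZMod 2) B) = Nat.card B := by
    rw [Module.natCard_eq_pow_finrank (K := ZMod 2), Module.natCard_eq_pow_finrank (K := ZMod 2)
      (V := B), Subspace.dual_finrank_eq]
  exact h1.trans h2.le

theorem fin_resF [Finite V] (A : Fam V) (P : AddSubgroup V) : Finite (resF A P) := by
  have hfD : Finite (Dl V) := DFunLike.finite _
  infer_instance

theorem valsOn_le [Finite V] (A : Fam V) (P : AddSubgroup V) :
    (valsOn A P).ncard ≤ Nat.card (resF A P) := by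
  have hf := fin_resF A P
  obtain ⟨h1, h2⟩ := dual_cardU (resF A P) (fun t => Subtype.ext (ex_res P t.1))
  have hsub : valsOn A P ⊆ (toVal A P) '' Set.univ := by
    rintro t ⟨p, hp, b, rfl⟩
    obtain ⟨φ, hφ⟩ := toVal_vl A P hp b
    exact ⟨φ, trivial, hφ⟩
  refine (Set.ncard_le_ncard hsub ((Set.toFinite _).image _)).trans
    ((Set.ncard_image_le (Set.toFinite _)).trans ?_)
  rw [Set.ncard_univ]
  exact h2

theorem FF_mono [Finite V] {A B : Fam V} (hBA : B ≤ A) {P : AddSubgroup V} (h : FF A P) :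
    FF B P ∨ (valsOn B P).ncard ≤ 27 := by
  have hle : resF B P ≤ resF A P := fun t ⟨ω, h, e⟩ => ⟨ω, hBA h, e⟩
  have hfA := fin_resF A P
  have hfB := fin_resF B P
  by_cases he : resF B P = resF A P
  · left
    refine ⟨by rw [he]; exact h.1, fun p hp hR ω hω => h.2 p hp ?_ ω (hBA hω)⟩
    intro ω₁ m₁ ω₂ m₂
    obtain ⟨η₁, n₁, e₁⟩ : rs P ω₁ ∈ resF B P := by rw [he]; exact mem_resF m₁
    obtain ⟨η₂, n₂, e₂⟩ : rs P ω₂ ∈ resF B P := by rw [he]; exact mem_resF m₂
    have h1 : η₁ p = ω₁ p := congrFun e₁ ⟨p, hp⟩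
    have h2 : η₂ p = ω₂ p := congrFun e₂ ⟨p, hp⟩
    rw [← h1, ← h2]
    exact hR η₁ n₁ η₂ n₂
  · right
    refine (valsOn_le B P).trans ?_
    obtain ⟨m, hm⟩ := AddSubgroup.card_dvd_of_le hle
    have hpos : 0 < Nat.card (resF A P) := Nat.card_pos
    have h32 := h.1
    have hm0 : m ≠ 0 := by
      rintro rfl
      omega
    have hm1 : m ≠ 1 := by
      rintro rfl
      exact he (AddSubgroup.eq_of_le_of_card_ge hle (by rw [hm, mul_one]))
    have h2 : Nat.card (resF B P) * 2 ≤ Nat.card (resF A P) := by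
      rw [hm]
      exact Nat.mul_le_mul_left _ (by omega)
    omega

/-- the values at the points of a plane -/
theorem EP_card [Finite V] (A : Fam V) (x y z : V) (f : Dl V) {P : AddSubgroup V}
    (hP : ∀ u : Q3, pb x y z u ∈ P) : Nat.card (EP A x y z f) ≤ Nat.card (resF A P) * 2 := by
  have hf := fin_resF A P
  have hfA := fin_fam A
  obtain ⟨h1, h2⟩ := dual_cardU (resF A P) (fun t => Subtype.ext (ex_res P t.1))
  let Ψ : (resF A P →+ ZMod 2) × ZMod 2 →+ (A → ZMod 2) × ZMod 2 :=
    (toVal A P).prodMap (AddMonoidHom.id _)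
  have hr : ∀ u : Q3, (gp A x y z f u).range ≤ Ψ.range := by
    rintro u _ ⟨b, rfl⟩
    obtain ⟨φ, hφ⟩ := toVal_vl A P (hP u) b
    refine ⟨(φ, ep u * f b), ?_⟩
    rw [gp_apply, ← hφ]
    rfl
  have hle : EP A x y z f ≤ Ψ.range := sup_le (sup_le (hr _) (hr _)) (hr _)
  have h3 : Nat.card (EP A x y z f) ≤ Nat.card Ψ.range :=
    Nat.card_le_card_of_injective _ (AddSubgroup.inclusion_injective hle)
  have h4 : Nat.card Ψ.range ≤ Nat.card ((resF A P →+ ZMod 2) × ZMod 2) :=
    Nat.card_le_card_of_surjective _ Ψ.rangeRestrict_surjective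
  rw [Nat.card_prod, Nat.card_zmod] at h4
  omega

theorem no_F [Finite V] {A : Fam V} {x y z : V} {f : Dl V} (hL : Linked A)
    (hodd : ∀ p : P3, ep p = 1 → In A (pb x y z p) f)
    (hno : ∀ ω ∈ A, ω x = f → ω y = f → ω z = f → False) {P : AddSubgroup V}
    (hP : ∀ u : Q3, pb x y z u ∈ P) (hF : FF A P) : False := by
  have hfA := fin_fam A
  obtain ⟨hfW, hcW⟩ := dual_card (EP A x y z f) (fun t => Subtype.ext (ex2 A t.1))
  have h64 : Nat.card (EP A x y z f →+ ZMod 2) ≤ 64 := by
    have h1 := EP_card A x y z f hP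
    have h2 := hF.1
    omega
  obtain ⟨r, a, b, er, ea, eb, hDB, hE, hforms⟩ := Sys.cls (sysOf hL hodd hno) h64
  have key : ∀ h : Dl V, h ≠ 0 → (∀ ω ∈ A, ∃ c : ZMod 2, ω (pb x y z r) = c • h) →
      (∃ ω ∈ A, ω (pb x y z r) = h) → False := by
    rintro h h0 h1 ⟨ω, m, hω⟩
    apply h0
    rw [← hω]
    refine hF.2 (pb x y z r) (hP r) (fun ω₁ m₁ ω₂ m₂ => ?_) ω m
    obtain ⟨c1, e1⟩ := h1 ω₁ m₁
    obtain ⟨d1, e2⟩ := h1 ω₂ m₂
    rw [e1, e2]
    rcases zz c1 with rfl | rfl
    · exact Or.inl (zero_smul _ _)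
    · rcases zz d1 with rfl | rfl
      · exact Or.inr (Or.inl (zero_smul _ _))
      · exact Or.inr (Or.inr rfl)
  rcases hforms with ⟨h, g, k, hI, hF'⟩ | ⟨h, g2, g1, g3, hI, hF'⟩
  · have hA := convA hL hodd hno hF'
    refine key h ?_ (fun ω m => ?_) ?_
    · rintro rfl
      exact one_ne_zero (hI 1 0 0 (by module)).1
    · obtain ⟨c1, -, -, -, -, -, -, e1, -, -⟩ := hA.1 ω m
      exact ⟨c1, e1⟩
    · obtain ⟨ω, m, e1, -, -⟩ := hA.2 1 0 1 0 0 0 (by decide)
      exact ⟨ω, m, by rw [e1, one_smul]⟩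
  · have hB := convB hL hodd hno hF'
    refine key h ?_ (fun ω m => ?_) ?_
    · rintro rfl
      exact one_ne_zero (hI 1 0 0 0 (by module)).1
    · obtain ⟨c1, -, -, -, -, -, -, e1, -, -⟩ := hB.1 ω m
      exact ⟨c1, e1⟩
    · obtain ⟨ω, m, e1, -, -⟩ := hB.2 1 0 0 1 0 0 (by decide)
      exact ⟨ω, m, by rw [e1, one_smul]⟩

theorem Hyp.mono [Finite V] {A B : Fam V} (hBA : B ≤ A) (h : Hyp A) : Hyp B := by
  intro x y z hI
  rcases h x y z hI with (h | h | h | h) | h | ⟨p, hp, h⟩ | ⟨p, hp, q, hq, hne, h1, h2⟩ | h | h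
  · exact Or.inl (Or.inl (R2_mono hBA h))
  · exact Or.inl (Or.inr (Or.inl (R2_mono hBA h)))
  · exact Or.inl (Or.inr (Or.inr (Or.inl (R2_mono hBA h))))
  · exact Or.inl (Or.inr (Or.inr (Or.inr (R2_mono hBA h))))
  · exact Or.inr (Or.inl ((valsOn_mono hBA _).trans h))
  · exact Or.inr (Or.inr (Or.inl ⟨p, hp, fun ω₁ m₁ ω₂ m₂ => h ω₁ (hBA m₁) ω₂ (hBA m₂)⟩))
  · exact Or.inr (Or.inr (Or.inr (Or.inl ⟨p, hp, q, hq, hne, R1_mono hBA h1, R1_mono hBA h2⟩)))
  · exact Or.inr (Or.inr (Or.inr (Or.inr (Or.inl fun w => (valsOn_mono hBA _).trans (h w)))))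
  · rcases FF_mono hBA h with h | h
    · exact Or.inr (Or.inr (Or.inr (Or.inr (Or.inr h))))
    · exact Or.inr (Or.inl h)

theorem planeT [Finite V] {A : Fam V} (hA : EFam e A) (hL : Linked A) (H : Hyp A) (x y z : V) :
    PlaneAt A x y z := by
  intro f fx fy fz fw
  by_contra hno'
  have hno : ∀ ω ∈ A, ω x = f → ω y = f → ω z = f → False :=
    fun ω hω h1 h2 h3 => hno' ⟨ω, hω, h1, h2, h3⟩
  have hfA := fin_fam A
  have hodd := in_odd fx fy fz fw
  have hne : ∀ p : Q3, p ≠ 0 → pb x y z p ≠ 0 := fun p hp => pb_ne hL hodd hno hp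
  rcases span_or (fun p => R2 A (pb x y z p)) with ⟨p, q, r, ⟨h1, h2, h3⟩, hI⟩ | ⟨e0, he0, hX⟩
  · exact no_three hL hodd hno hI h1 h2 h3
  obtain ⟨p1, p2, p3, ⟨d1, d2, d3⟩, hI⟩ := aff e0 he0
  have hI3 : Ind3 (pb x y z p1) (pb x y z p2) (pb x y z p3) := by
    intro i j k hijk
    have h1 : pb x y z (i • p1 + j • p2 + k • p3) = 0 := by
      rw [pb_add, pb_add, pb_smul, pb_smul, pb_smul, hijk]
    have h2 : i • p1 + j • p2 + k • p3 = 0 := by
      by_contra hcon
      exact hne _ hcon h1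
    exact indq_ind p1 p2 p3 hI i j k h2
  have hsum : pb x y z p1 + pb x y z p2 + pb x y z p3 = pb x y z (p1 + p2 + p3) := by
    rw [pb_add, pb_add]
  have hPin : ∀ u : Q3, pb x y z u ∈
      AddSubgroup.closure {pb x y z p1, pb x y z p2, pb x y z p3} := by
    intro u
    obtain ⟨i, j, k, hu⟩ := indq_span p1 p2 p3 hI u
    have hs : ∀ (c : ZMod 2) (u : V),
        u ∈ AddSubgroup.closure {pb x y z p1, pb x y z p2, pb x y z p3} →
        c • u ∈ AddSubgroup.closure {pb x y z p1, pb x y z p2, pb x y z p3} := by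
      intro c u hu
      rcases zz c with rfl | rfl
      · rw [zero_smul]; exact zero_mem _
      · rw [one_smul]; exact hu
    rw [hu, pb_add, pb_add, pb_smul, pb_smul, pb_smul]
    exact add_mem (add_mem (hs _ _ (AddSubgroup.subset_closure (by simp)))
      (hs _ _ (AddSubgroup.subset_closure (by simp))))
      (hs _ _ (AddSubgroup.subset_closure (by simp)))
  have hPout : ∀ v ∈ AddSubgroup.closure {pb x y z p1, pb x y z p2, pb x y z p3},
      ∃ u : Q3, v = pb x y z u := by
    have h0 : pb x y z 0 = 0 := by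
      have h := pb_add x y z 0 0
      rw [add_zero] at h
      exact left_eq_add.1 h
    intro v hv
    refine AddSubgroup.closure_induction (p := fun v _ => ∃ u : Q3, v = pb x y z u) ?_ ?_ ?_ ?_ hv
    · intro v hv
      rcases hv with rfl | rfl | hv
      · exact ⟨p1, rfl⟩
      · exact ⟨p2, rfl⟩
      · rw [Set.mem_singleton_iff] at hv
        exact ⟨p3, hv⟩
    · exact ⟨0, h0.symm⟩
    · rintro _ _ _ _ ⟨u, rfl⟩ ⟨u', rfl⟩
      exact ⟨u + u', (pb_add x y z u u').symm⟩
    · rintro _ _ ⟨u, rfl⟩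
      refine ⟨u, ?_⟩
      exact neg_eq_iff_add_eq_zero.2 (vadd2 _)
  have hxyz : x = pb x y z (1, 0, 0) ∧ y = pb x y z (0, 1, 0) ∧ z = pb x y z (0, 0, 1) := by
    refine ⟨?_, ?_, ?_⟩ <;> simp [pb]
  rcases H _ _ _ hI3 with (h | h | h | h) | h | ⟨p, hp, h⟩ | ⟨p, hp, q, hq, ⟨n1, n2, n3⟩, h1, h2⟩ |
    h | h
  · exact hX p1 d1 h
  · exact hX p2 d2 h
  · exact hX p3 d3 h
  · rw [hsum] at h
    refine hX _ ?_ h
    rw [dot_add', dot_add', d1, d2, d3]
    decide
  · -- 27 values
    refine hno' (dual' V A hL x y z ?_ f fx fy fz fw)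
    refine (Set.ncard_le_ncard ?_ (Set.toFinite _)).trans h
    rintro t ⟨i, j, k, b, rfl⟩
    exact ⟨pb x y z (i, j, k), hPin _, b, rfl⟩
  · obtain ⟨u, rfl⟩ := hPout p hp
    exact no_C2 hL hodd hno hPin h
  · obtain ⟨u, rfl⟩ := hPout p hp
    obtain ⟨u', rfl⟩ := hPout q hq
    refine no_two hL hodd hno (p := u) (q := u') ⟨?_, ?_, ?_⟩ h1 h2
    · rintro rfl
      exact n1 (by
        have h := pb_add x y z 0 0
        rw [add_zero] at h
        exact left_eq_add.1 h)
    · rintro rfl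
      exact n2 (by
        have h := pb_add x y z 0 0
        rw [add_zero] at h
        exact left_eq_add.1 h)
    · rintro rfl
      exact n3 rfl
  · refine hno' (plane31 hA hL (fun w => ?_) f fx fy fz fw)
    refine (Set.ncard_le_ncard ?_ (Set.toFinite _)).trans (h w)
    have hle : AddSubgroup.closure {x, y, z, w} ≤ AddSubgroup.closure
        ((AddSubgroup.closure {pb x y z p1, pb x y z p2, pb x y z p3} : Set V) ∪ {w}) := by
      rw [AddSubgroup.closure_le]
      intro v hv
      refine AddSubgroup.subset_closure ?_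
      rcases hv with hv | hv | hv | hv
      · have h1 := hPin (1, 0, 0)
        rw [← hxyz.1] at h1
        rw [hv]
        exact Or.inl h1
      · have h1 := hPin (0, 1, 0)
        rw [← hxyz.2.1] at h1
        rw [hv]
        exact Or.inl h1
      · have h1 := hPin (0, 0, 1)
        rw [← hxyz.2.2] at h1
        rw [hv]
        exact Or.inl h1
      · exact Or.inr hv
    rintro t ⟨p, hp, b, rfl⟩
    exact ⟨p, hle hp, b, rfl⟩
  · exact no_F hL hodd hno hPin h

theorem linked_listT [Finite V] (l : List V) : ∀ A : Fam V, EFam e A → Linked A →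
    Hyp A → Linked (l.foldl (fun B u => res B (ann u)) A) := by
  induction l with
  | nil => intro A _ h _; exact h
  | cons u l ih =>
    intro A hA hL hS
    exact ih _ (hA.res _) (linked_ann hA hL (fun x y z => planeT hA hL hS x y z) u)
      (hS.mono (res_le A _))

theorem hered_of_T [Finite V] {A : Fam V} (hA : EFam e A) (hL : Linked A) (hS : Hyp A) :
    Hered A := by
  classical
  intro X
  have : Fintype V := Fintype.ofFinite V
  let l : List V := (Finset.univ.filter (fun b : V => ∀ g ∈ X, g b = 0)).toList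
  have hl : ∀ b, b ∈ l ↔ ∀ g ∈ X, g b = 0 := by
    intro b
    simp [l]
  have h1 : l.foldl (fun B u => res B (ann u)) A = res A X := by
    ext ω
    rw [mem_list l A hA ω]
    constructor
    · rintro ⟨h1, h2⟩
      refine ⟨h1, fun y => mem_of_coann fun b hb => ?_⟩
      rw [(hA ω h1).symm, h2 b ((hl b).2 hb)]
      rfl
    · rintro ⟨h1, h2⟩
      refine ⟨h1, fun u hu => ?_⟩
      ext y
      rw [(hA ω h1).symm]
      exact (hl u).1 hu _ (h2 y)
  rw [← h1]
  exact linked_listT l A hA hL hS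

end

/-- three independent elements of a group of exponent two -/
def Indep {G : Type} [CommGroup G] (x y z : G) : Prop :=
  x ≠ 1 ∧ y ≠ 1 ∧ y ≠ x ∧ z ≠ 1 ∧ z ≠ x ∧ z ≠ y ∧ z ≠ x * y

/-- the subgroup `{0, u}` -/
def two {B : Type v} [AddCommGroup B] (hB : ∀ b : B, b + b = 0) (u : B) : AddSubgroup B where
  carrier := {t | t = 0 ∨ t = u}
  zero_mem' := Or.inl rfl
  add_mem' := by
    rintro a b (rfl | rfl) (rfl | rfl)
    · exact Or.inl (add_zero _)
    · exact Or.inr (zero_add _)
    · exact Or.inr (add_zero _)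
    · exact Or.inl (hB _)
  neg_mem' := by
    rintro a (rfl | rfl)
    · exact Or.inl neg_zero
    · exact Or.inr (neg_eq_iff_add_eq_zero.2 (hB _))

/-- at most two elements -/
theorem comb1 {B : Type v} [AddCommGroup B] (H : AddSubgroup B) (hf : Finite H)
    (hc : Nat.card H ≤ 2) (l1 l2 : B →+ ZMod 2) :
    (∀ h ∈ H, l1 h = 0) ∨ (∀ h ∈ H, l2 h = 0) ∨ (∀ h ∈ H, l1 h = l2 h) := by
  have key : ∀ u ∈ H, ∀ v ∈ H, u ≠ 0 → v ≠ 0 → u = v := by
    intro u hu v hv hu0 hv0
    by_contra huv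
    have hinj : Function.Injective (![0, ⟨u, hu⟩, ⟨v, hv⟩] : Fin 3 → H) := by
      intro i j hij
      fin_cases i <;> fin_cases j <;> first
        | rfl
        | (exfalso
           have h1 := congrArg Subtype.val hij
           first
             | exact hu0 h1
             | exact hu0 h1.symm
             | exact hv0 h1
             | exact hv0 h1.symm
             | exact huv h1
             | exact huv h1.symm)
    have h1 := Nat.card_le_card_of_injective _ hinj
    rw [Nat.card_fin] at h1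
    omega
  by_cases h1 : ∀ h ∈ H, l1 h = 0
  · exact Or.inl h1
  by_cases h2 : ∀ h ∈ H, l2 h = 0
  · exact Or.inr (Or.inl h2)
  push Not at h1 h2
  obtain ⟨u, hu, hu1⟩ := h1
  obtain ⟨v, hv, hv1⟩ := h2
  have hu0 : u ≠ 0 := by
    rintro rfl
    exact hu1 (map_zero _)
  have hv0 : v ≠ 0 := by
    rintro rfl
    exact hv1 (map_zero _)
  have huv := key u hu v hv hu0 hv0
  subst huv
  refine Or.inr (Or.inr fun h hh => ?_)
  by_cases h0 : h = 0
  · rw [h0, map_zero, map_zero]
  · rw [← key u hu h hh hu0 h0, (zz _).resolve_left hu1, (zz _).resolve_left hv1]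

theorem elem_of_T (S : QData) (hS : IsQuat S) (hfin : Finite S.G) {B : Type v}
    [AddCommGroup B] (hB : ∀ b : B, b + b = 0) (β : S.G → S.G → B)
    (hmul : ∀ a b c, β a (b * c) = β a b + β a c)
    (hiff : ∀ a b c d, β a b = β c d ↔ S.q a b = S.q c d)
    (hsmall : ∀ x y z : S.G, Indep x y z →
      (∃ p : S.G, (p = x ∨ p = y ∨ p = z ∨ p = x * y * z) ∧ Nat.card (Qs β p) ≤ 4) ∨
      {t : B | ∃ g ∈ Subgroup.closure {x, y, z}, ∃ b, β g b = t}.ncard ≤ 27 ∨
      (∃ p ∈ Subgroup.closure {x, y, z},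
        ∀ u ∈ Qs β x ⊔ Qs β y ⊔ Qs β z, ∀ v ∈ Qs β x ⊔ Qs β y ⊔ Qs β z,
        u ∈ Qs β p ∨ v ∈ Qs β p ∨ u + v ∈ Qs β p) ∨
      (∃ p ∈ Subgroup.closure {x, y, z}, ∃ q ∈ Subgroup.closure {x, y, z},
        (p ≠ 1 ∧ q ≠ 1 ∧ p ≠ q) ∧ Nat.card (Qs β p) ≤ 2 ∧ Nat.card (Qs β q) ≤ 2) ∨
      (∀ w : S.G, {t : B | ∃ g ∈ Subgroup.closure {x, y, z, w}, ∃ b, β g b = t}.ncard ≤ 31) ∨
      (Nat.card (Qs β x ⊔ Qs β y ⊔ Qs β z : AddSubgroup B) ≤ 32 ∧
        ∀ p ∈ Subgroup.closure {x, y, z}, Nat.card (Qs β p) ≠ 2)) :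
    Elem S := by
  classical
  obtain ⟨hcore, hPL, hout, hconv⟩ := Pool.Agent.W622.ETG.all_parts
  let _ : Module (ZMod 2) (Additive S.G) := AddCommGroup.zmodModule (n := 2) (by
    intro x
    rw [two_smul]
    exact hS.exp2 x.toMul)
  have hfV : Finite (Additive S.G) := hfin
  have q1 : ∀ a, S.q a 1 = S.zero := by
    intro a
    have := (hS.qs3 a 1 1).1 rfl
    rwa [mul_one] at this
  have b1 : ∀ a, β a 1 = 0 := by
    intro a
    have := hmul a 1 1
    rw [mul_one] at this
    exact left_eq_add.1 this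
  have hz : ∀ a b, β a b = 0 ↔ S.q a b = S.zero := by
    intro a b
    rw [← b1 a, ← q1 a, hiff]
  have hsym : ∀ a b, β a b = β b a := fun a b => (hiff _ _ _ _).2 (hS.qs2 a b)
  have hmul' : ∀ a b c, β (a * b) c = β a c + β b c := by
    intro a b c
    rw [hsym, hmul, hsym c, hsym c]
  -- the form of a character
  let frm (l : B →+ ZMod 2) : Frm (Additive S.G) :=
    AddMonoidHom.toZModLinearMap 2
      { toFun := fun a => AddMonoidHom.toZModLinearMap 2
          { toFun := fun b => l (β a.toMul b.toMul)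
            map_zero' := by
              show l (β a.toMul 1) = 0
              rw [b1, map_zero]
            map_add' := fun b c => by
              show l (β a.toMul (b.toMul * c.toMul)) = _
              rw [hmul, map_add] }
        map_zero' := by
          ext b
          show l (β 1 b.toMul) = 0
          rw [hsym, b1, map_zero]
        map_add' := fun a a' => by
          ext b
          show l (β (a.toMul * a'.toMul) b.toMul) = l _ + l _
          rw [hmul', map_add] }
  have hfrm : ∀ l a b, frm l a b = l (β a.toMul b.toMul) := fun _ _ _ => rfl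
  let A : Fam (Additive S.G) :=
    { carrier := {ω | ∃ l : B →+ ZMod 2, ω = frm l}
      add_mem' := by
        rintro _ _ ⟨l, rfl⟩ ⟨l', rfl⟩
        exact ⟨l + l', by ext a b; rfl⟩
      zero_mem' := ⟨0, by ext a b; rfl⟩
      smul_mem' := by
        rintro c _ ⟨l, rfl⟩
        refine ⟨c.val • l, ?_⟩
        ext a b
        rw [LinearMap.smul_apply, LinearMap.smul_apply, hfrm, hfrm, AddMonoidHom.nsmul_apply]
        simp }
  have hAm : ∀ ω, ω ∈ A ↔ ∃ l : B →+ ZMod 2, ω = frm l := fun _ => Iff.rfl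
  set e : Additive S.G := Additive.ofMul S.neg with he
  have hEF : EFam e A := by
    rintro ω ⟨l, rfl⟩
    constructor
    · intro a b
      rw [hfrm, hfrm, hsym]
    · intro a
      have h1 : β a.toMul (S.neg * a.toMul) = 0 := (hz _ _).2 (hS.qs1 a.toMul)
      rw [hmul] at h1
      have h2 : β a.toMul a.toMul = β a.toMul S.neg := by
        have h3 := hB (β a.toMul S.neg)
        rw [← h3] at h1
        exact add_left_cancel h1
      rw [hfrm, hfrm, h2]
      rfl
  -- linkage by gluing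
  have hL : Linked A := by
    rintro ω ⟨l, rfl⟩ η ⟨m, rfl⟩ a c hac
    have hac' : ∀ b, l (β a.toMul b) = m (β c.toMul b) := by
      intro b
      have := LinearMap.congr_fun hac (Additive.ofMul b)
      rwa [hfrm, hfrm] at this
    let Φ : Additive S.G × Additive S.G →+ B :=
      AddMonoidHom.mk' (fun z => β a.toMul z.1.toMul + β c.toMul z.2.toMul) (by
        intro z z'
        simp only [Prod.fst_add, Prod.snd_add, toMul_add, hmul]
        abel)
    let Λ : Additive S.G × Additive S.G →+ ZMod 2 :=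
      AddMonoidHom.mk' (fun z => l (β a.toMul z.1.toMul) + m (β c.toMul z.2.toMul)) (by
        intro z z'
        simp only [Prod.fst_add, Prod.snd_add, toMul_add, hmul, map_add]
        abel)
    obtain ⟨k, hk⟩ := exists_factor hB Φ Λ (by
      rintro ⟨b, d⟩ h
      have h1 : β a.toMul b.toMul + β c.toMul d.toMul = 0 := h
      have h2 : β a.toMul b.toMul = β c.toMul d.toMul := by
        have h3 := hB (β c.toMul d.toMul)
        rw [← h3] at h1
        exact add_right_cancel h1
      obtain ⟨x, hx1, hx2⟩ := hS.qs4 _ _ _ _ ((hiff _ _ _ _).1 h2)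
      have e1 := (hiff _ _ _ _).2 hx1
      have e2 := (hiff _ _ _ _).2 hx2
      show l (β a.toMul b.toMul) + m (β c.toMul d.toMul) = 0
      rw [e1, e2, hac']
      exact CharTwo.add_self_eq_zero _)
    refine ⟨frm k, ⟨k, rfl⟩, ?_, ?_⟩
    · ext b
      rw [hfrm, hfrm]
      have := hk (b, 0)
      have h1 : Φ (b, 0) = β a.toMul b.toMul := by
        show β a.toMul b.toMul + β c.toMul 1 = _
        rw [b1, add_zero]
      have h2 : Λ (b, 0) = l (β a.toMul b.toMul) := by
        show l (β a.toMul b.toMul) + m (β c.toMul 1) = _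
        rw [b1, map_zero, add_zero]
      rw [h1, h2] at this
      exact this
    · ext b
      rw [hfrm, hfrm]
      have := hk (0, b)
      have h1 : Φ (0, b) = β c.toMul b.toMul := by
        show β a.toMul 1 + β c.toMul b.toMul = _
        rw [b1, zero_add]
      have h2 : Λ (0, b) = m (β c.toMul b.toMul) := by
        show l (β a.toMul 1) + m (β c.toMul b.toMul) = _
        rw [b1, map_zero, zero_add]
      rw [h1, h2] at this
      rw [this]
      exact (hac' _).symm
  -- finiteness of the groups `Q_p`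
  have hQ : ∀ p : S.G, ∀ h, h ∈ Qs β p ↔ ∃ b, β p b = h := by
    intro p h
    constructor
    · intro hh
      refine AddSubgroup.closure_induction (p := fun h _ => ∃ b, β p b = h) ?_ ?_ ?_ ?_ hh
      · rintro _ ⟨b, rfl⟩; exact ⟨b, rfl⟩
      · exact ⟨1, b1 p⟩
      · rintro _ _ _ _ ⟨b, rfl⟩ ⟨c, rfl⟩
        exact ⟨b * c, hmul _ _ _⟩
      · rintro _ _ ⟨b, rfl⟩
        exact ⟨b, (neg_eq_iff_add_eq_zero.2 (hB _)).symm⟩
    · rintro ⟨b, rfl⟩
      exact AddSubgroup.subset_closure ⟨b, rfl⟩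
  have hQfin : ∀ p : S.G, Finite (Qs β p) := by
    intro p
    have hsurj : Function.Surjective
        (fun b : S.G => (⟨β p b, AddSubgroup.subset_closure ⟨b, rfl⟩⟩ : Qs β p)) := by
      rintro ⟨h, hh⟩
      obtain ⟨b, rfl⟩ := (hQ p h).1 hh
      exact ⟨b, rfl⟩
    exact Finite.of_surjective _ hsurj
  have hvan : ∀ (l : B →+ ZMod 2) (p : Additive S.G), (∀ h ∈ Qs β p.toMul, l h = 0) ↔
      frm l p = 0 := by
    intro l p
    constructor
    · intro h
      ext b
      rw [hfrm]
      exact h _ ((hQ _ _).2 ⟨_, rfl⟩)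
    · intro h k hk
      obtain ⟨b, rfl⟩ := (hQ _ _).1 hk
      have := LinearMap.congr_fun h (Additive.ofMul b)
      rwa [hfrm] at this
  have heqv : ∀ (l m : B →+ ZMod 2) (p : Additive S.G),
      (∀ h ∈ Qs β p.toMul, l h = m h) → frm l p = frm m p := by
    intro l m p h
    ext b
    rw [hfrm, hfrm]
    exact h _ ((hQ _ _).2 ⟨_, rfl⟩)
  have hR : ∀ p : Additive S.G, Nat.card (Qs β p.toMul) ≤ 4 → R2 A p := by
    intro p hp
    rintro ω₁ ⟨l1, rfl⟩ ω₂ ⟨l2, rfl⟩ ω₃ ⟨l3, rfl⟩
    rcases comb3 _ (hQfin _) hp l1 l2 l3 with h | h | h | h | h | h | h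
    · exact Or.inl ((hvan _ _).1 h)
    · exact Or.inr (Or.inl ((hvan _ _).1 h))
    · exact Or.inr (Or.inr (Or.inl ((hvan _ _).1 h)))
    · exact Or.inr (Or.inr (Or.inr (Or.inl (heqv _ _ _ h))))
    · exact Or.inr (Or.inr (Or.inr (Or.inr (Or.inl (heqv _ _ _ h)))))
    · exact Or.inr (Or.inr (Or.inr (Or.inr (Or.inr (Or.inl (heqv _ _ _ h))))))
    · refine Or.inr (Or.inr (Or.inr (Or.inr (Or.inr (Or.inr ?_)))))
      ext b
      rw [LinearMap.add_apply, hfrm, hfrm, hfrm]
      exact h _ ((hQ _ _).2 ⟨_, rfl⟩)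
  have hCC : ∀ (p x y z : Additive S.G),
      (∀ u ∈ Qs β x.toMul ⊔ Qs β y.toMul ⊔ Qs β z.toMul,
        ∀ v ∈ Qs β x.toMul ⊔ Qs β y.toMul ⊔ Qs β z.toMul,
        u ∈ Qs β p.toMul ∨ v ∈ Qs β p.toMul ∨ u + v ∈ Qs β p.toMul) →
      C2 A p x y z := by
    intro p x y z hp
    have hx : Qs β x.toMul ≤ Qs β x.toMul ⊔ Qs β y.toMul ⊔ Qs β z.toMul :=
      le_sup_of_le_left le_sup_left
    have hy : Qs β y.toMul ≤ Qs β x.toMul ⊔ Qs β y.toMul ⊔ Qs β z.toMul :=
      le_sup_of_le_left le_sup_right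
    have hz' : Qs β z.toMul ≤ Qs β x.toMul ⊔ Qs β y.toMul ⊔ Qs β z.toMul := le_sup_right
    rintro ω₁ ⟨l1, rfl⟩ ω₂ ⟨l2, rfl⟩ e1 e2
    rcases comb2 _ _ hp l1 l2 ((hvan _ _).2 e1) ((hvan _ _).2 e2) with h | h | h
    · exact Or.inl ⟨(hvan _ _).1 fun k hk => h k (hx hk), (hvan _ _).1 fun k hk => h k (hy hk),
        (hvan _ _).1 fun k hk => h k (hz' hk)⟩
    · exact Or.inr (Or.inl ⟨(hvan _ _).1 fun k hk => h k (hx hk),
        (hvan _ _).1 fun k hk => h k (hy hk), (hvan _ _).1 fun k hk => h k (hz' hk)⟩)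
    · exact Or.inr (Or.inr ⟨heqv _ _ _ fun k hk => h k (hx hk),
        heqv _ _ _ fun k hk => h k (hy hk), heqv _ _ _ fun k hk => h k (hz' hk)⟩)
  have hch : ∀ ω : A, ∃ l : B →+ ZMod 2, ω.1 = frm l := fun ω => (hAm ω.1).1 ω.2
  choose lam hlam using hch
  have hmem : ∀ (W : Subgroup S.G) (i : ZMod 2) (x : Additive S.G), x.toMul ∈ W →
      (i • x).toMul ∈ W := by
    intro W i x hx
    rcases z2 i with rfl | rfl
    · rw [zero_smul]; exact W.one_mem
    · rw [one_smul]; exact hx
  have hR1 : ∀ p : Additive S.G, Nat.card (Qs β p.toMul) ≤ 2 → R1 A p := by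
    intro p hp
    rintro ω₁ ⟨l1, rfl⟩ ω₂ ⟨l2, rfl⟩
    rcases comb1 _ (hQfin _) hp l1 l2 with h | h | h
    · exact Or.inl ((hvan _ _).1 h)
    · exact Or.inr (Or.inl ((hvan _ _).1 h))
    · exact Or.inr (Or.inr (heqv _ _ _ h))
  have hcl3 : ∀ (x y z p : Additive S.G), p.toMul ∈ Subgroup.closure {x.toMul, y.toMul, z.toMul} →
      p ∈ AddSubgroup.closure {x, y, z} := by
    intro x y z p hp
    refine Subgroup.closure_induction (p := fun (p : S.G) _ =>
      Additive.ofMul p ∈ AddSubgroup.closure {x, y, z}) ?_ ?_ ?_ ?_ hp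
    · intro u hu
      refine AddSubgroup.subset_closure ?_
      rcases hu with rfl | rfl | hu
      · exact Or.inl rfl
      · exact Or.inr (Or.inl rfl)
      · rw [Set.mem_singleton_iff] at hu
        subst hu
        exact Or.inr (Or.inr rfl)
    · exact zero_mem _
    · intro u v _ _ hu hv
      exact add_mem hu hv
    · intro u _ hu
      exact neg_mem hu
  have hcl4 : ∀ (x y z w p : Additive S.G),
      p ∈ AddSubgroup.closure ((AddSubgroup.closure {x, y, z} : Set (Additive S.G)) ∪ {w}) →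
      p.toMul ∈ Subgroup.closure {x.toMul, y.toMul, z.toMul, w.toMul} := by
    intro x y z w p hp
    have h3 : ∀ p ∈ AddSubgroup.closure {x, y, z},
        p.toMul ∈ Subgroup.closure {x.toMul, y.toMul, z.toMul, w.toMul} := by
      intro p hp
      refine AddSubgroup.closure_induction (p := fun p _ =>
        p.toMul ∈ Subgroup.closure {x.toMul, y.toMul, z.toMul, w.toMul}) ?_ ?_ ?_ ?_ hp
      · intro u hu
        refine Subgroup.subset_closure ?_
        rcases hu with rfl | rfl | hu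
        · exact Or.inl rfl
        · exact Or.inr (Or.inl rfl)
        · rw [Set.mem_singleton_iff] at hu
          subst hu
          exact Or.inr (Or.inr (Or.inl rfl))
      · exact Subgroup.one_mem _
      · intro u v _ _ hu hv
        exact Subgroup.mul_mem _ hu hv
      · intro u _ hu
        exact Subgroup.inv_mem _ hu
    refine AddSubgroup.closure_induction (p := fun p _ =>
      p.toMul ∈ Subgroup.closure {x.toMul, y.toMul, z.toMul, w.toMul}) ?_ ?_ ?_ ?_ hp
    · intro u hu
      rcases hu with hu | hu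
      · exact h3 u hu
      · rw [Set.mem_singleton_iff] at hu
        subst hu
        exact Subgroup.subset_closure (Or.inr (Or.inr (Or.inr rfl)))
    · exact Subgroup.one_mem _
    · intro u v _ _ hu hv
      exact Subgroup.mul_mem _ hu hv
    · intro u _ hu
      exact Subgroup.inv_mem _ hu
  have hfT : ∀ W : Set S.G, {t : B | ∃ g ∈ W, ∃ b, β g b = t}.Finite := by
    intro W
    refine (Set.finite_range (fun p : S.G × S.G => β p.1 p.2)).subset ?_
    rintro t ⟨g, -, b, rfl⟩
    exact ⟨(g, b), rfl⟩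
  have hval : ∀ (P : AddSubgroup (Additive S.G)) (W : Subgroup S.G),
      (∀ p ∈ P, p.toMul ∈ W) → (valsOn A P).ncard ≤
        {t : B | ∃ g ∈ W, ∃ b, β g b = t}.ncard := by
    intro P W hPW
    let F : B → (A → ZMod 2) := fun t ω => lam ω t
    have hsub : valsOn A P ⊆ F '' {t : B | ∃ g ∈ W, ∃ b, β g b = t} := by
      rintro t ⟨p, hp, b, rfl⟩
      refine ⟨β p.toMul b.toMul, ⟨_, hPW p hp, _, rfl⟩, ?_⟩
      funext ω
      show lam ω _ = ω.1 p b
      rw [hlam ω, hfrm]
    exact (Set.ncard_le_ncard hsub ((hfT W).image F)).trans (Set.ncard_image_le (hfT W))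
  have hsm : Hyp A := by
    intro x y z hI
    have hone : (1 : ZMod 2) ≠ 0 := one_ne_zero
    have hIG : Indep x.toMul y.toMul z.toMul := by
      refine ⟨?_, ?_, ?_, ?_, ?_, ?_, ?_⟩
      · intro h
        have h' : x = 0 := h
        exact hone (hI 1 0 0 (by rw [h']; module)).1
      · intro h
        have h' : y = 0 := h
        exact hone (hI 0 1 0 (by rw [h']; module)).2.1
      · intro h
        have h' : y = x := h
        exact hone (hI 1 1 0 (by
          rw [h', one_smul, zero_smul, add_zero]; exact vadd2 x)).1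
      · intro h
        have h' : z = 0 := h
        exact hone (hI 0 0 1 (by rw [h']; module)).2.2
      · intro h
        have h' : z = x := h
        exact hone (hI 1 0 1 (by
          rw [h', one_smul, zero_smul, add_zero]; exact vadd2 x)).1
      · intro h
        have h' : z = y := h
        exact hone (hI 0 1 1 (by
          rw [h', one_smul, zero_smul, zero_add]; exact vadd2 y)).2.1
      · intro h
        have h' : z = x + y := h
        exact hone (hI 1 1 1 (by
          rw [h', one_smul, one_smul, one_smul]; exact vadd2 (x + y))).1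
    have gen : ∀ ω : Frm (Additive S.G), ω x = 0 → ω y = 0 → ω z = 0 →
        ∀ v ∈ AddSubgroup.closure {x, y, z}, ω v = 0 := by
      intro ω e1 e2 e3 v hv
      have h3 : AddSubgroup.closure {x, y, z} ≤ ω.toAddMonoidHom.ker := by
        rw [AddSubgroup.closure_le]
        intro u hu
        rcases hu with rfl | rfl | hu
        · exact e1
        · exact e2
        · rw [Set.mem_singleton_iff] at hu
          subst hu
          exact e3
      exact h3 hv
    rcases hsmall x.toMul y.toMul z.toMul hIG with ⟨p, hp, h⟩ | h | ⟨p, hp, h⟩ |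
      ⟨p, hp, q, hq, hne, h1, h2⟩ | h | ⟨h32, hbig⟩
    · left
      rcases hp with rfl | rfl | rfl | rfl
      · exact Or.inl (hR _ h)
      · exact Or.inr (Or.inl (hR _ h))
      · exact Or.inr (Or.inr (Or.inl (hR _ h)))
      · exact Or.inr (Or.inr (Or.inr (hR (x + y + z) h)))
    · refine Or.inr (Or.inl ((hval _ _ fun p hp => ?_).trans h))
      refine AddSubgroup.closure_induction (p := fun p _ =>
        p.toMul ∈ Subgroup.closure {x.toMul, y.toMul, z.toMul}) ?_ ?_ ?_ ?_ hp
      · intro u hu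
        refine Subgroup.subset_closure ?_
        rcases hu with rfl | rfl | hu
        · exact Or.inl rfl
        · exact Or.inr (Or.inl rfl)
        · rw [Set.mem_singleton_iff] at hu
          subst hu
          exact Or.inr (Or.inr rfl)
      · exact Subgroup.one_mem _
      · intro u v _ _ hu hv
        exact Subgroup.mul_mem _ hu hv
      · intro u _ hu
        exact Subgroup.inv_mem _ hu
    · refine Or.inr (Or.inr (Or.inl ⟨Additive.ofMul p, hcl3 x y z _ hp, ?_⟩))
      have h2 := hCC (Additive.ofMul p) x y z h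
      intro ω₁ m₁ ω₂ m₂ z1 z2
      rcases h2 ω₁ m₁ ω₂ m₂ z1 z2 with ⟨e1, e2, e3⟩ | ⟨e1, e2, e3⟩ | ⟨e1, e2, e3⟩
      · exact Or.inl (gen ω₁ e1 e2 e3)
      · exact Or.inr (Or.inl (gen ω₂ e1 e2 e3))
      · refine Or.inr (Or.inr fun v hv => ?_)
        have h4 := gen (ω₁ - ω₂) (by rw [LinearMap.sub_apply, e1, sub_self])
          (by rw [LinearMap.sub_apply, e2, sub_self]) (by rw [LinearMap.sub_apply, e3, sub_self])
          v hv
        rw [LinearMap.sub_apply] at h4
        exact sub_eq_zero.1 h4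
    · exact Or.inr (Or.inr (Or.inr (Or.inl ⟨Additive.ofMul p, hcl3 x y z _ hp,
        Additive.ofMul q, hcl3 x y z _ hq, hne, hR1 _ h1, hR1 _ h2⟩)))
    · exact Or.inr (Or.inr (Or.inr (Or.inr (Or.inl fun w =>
        (hval _ _ fun p hp => hcl4 x y z w p hp).trans (h w.toMul)))))
    · refine Or.inr (Or.inr (Or.inr (Or.inr (Or.inr ⟨?_, ?_⟩))))
      · -- at most 32 restrictions
        have hfH : Finite (Qs β x.toMul ⊔ Qs β y.toMul ⊔ Qs β z.toMul : AddSubgroup B) := by
          have h5 : ((Qs β x.toMul ⊔ Qs β y.toMul ⊔ Qs β z.toMul : AddSubgroup B) : Set B).Finite := by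
            refine (Set.finite_range (fun t : S.G × S.G × S.G =>
              β x.toMul t.1 + β y.toMul t.2.1 + β z.toMul t.2.2)).subset ?_
            intro h hh
            obtain ⟨s, hs, w, hw, rfl⟩ := AddSubgroup.mem_sup.1 hh
            obtain ⟨u, hu, v, hv, rfl⟩ := AddSubgroup.mem_sup.1 hs
            obtain ⟨a, rfl⟩ := (hQ _ _).1 hu
            obtain ⟨b, rfl⟩ := (hQ _ _).1 hv
            obtain ⟨c, rfl⟩ := (hQ _ _).1 hw
            exact ⟨(a, b, c), rfl⟩
          exact h5.to_subtype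
        obtain ⟨d1, d2⟩ := dual_cardU
          (Qs β x.toMul ⊔ Qs β y.toMul ⊔ Qs β z.toMul : AddSubgroup B)
          (fun b => Subtype.ext (hB b.1))
        have hch' : ∀ t : resF A (AddSubgroup.closure {x, y, z}), ∃ l : B →+ ZMod 2,
            t.1 = rs _ (frm l) := by
          rintro ⟨_, ω, hω, rfl⟩
          obtain ⟨l, rfl⟩ := (hAm ω).1 hω
          exact ⟨l, rfl⟩
        choose L hLL using hch'
        have hinj : Function.Injective (fun t : resF A (AddSubgroup.closure {x, y, z}) =>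
            (L t).comp (Qs β x.toMul ⊔ Qs β y.toMul ⊔ Qs β z.toMul : AddSubgroup B).subtype) := by
          intro t t' htt
          have hag : ∀ h ∈ (Qs β x.toMul ⊔ Qs β y.toMul ⊔ Qs β z.toMul : AddSubgroup B),
              L t h = L t' h := fun h hh => DFunLike.congr_fun htt ⟨h, hh⟩
          have hx : Qs β x.toMul ≤ Qs β x.toMul ⊔ Qs β y.toMul ⊔ Qs β z.toMul :=
            le_sup_of_le_left le_sup_left
          have hy : Qs β y.toMul ≤ Qs β x.toMul ⊔ Qs β y.toMul ⊔ Qs β z.toMul :=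
            le_sup_of_le_left le_sup_right
          have hz' : Qs β z.toMul ≤ Qs β x.toMul ⊔ Qs β y.toMul ⊔ Qs β z.toMul := le_sup_right
          refine Subtype.ext ?_
          rw [hLL t, hLL t']
          funext v
          have h4 := gen (frm (L t) - frm (L t'))
            (by rw [LinearMap.sub_apply, heqv _ _ _ fun k hk => hag k (hx hk), sub_self])
            (by rw [LinearMap.sub_apply, heqv _ _ _ fun k hk => hag k (hy hk), sub_self])
            (by rw [LinearMap.sub_apply, heqv _ _ _ fun k hk => hag k (hz' hk), sub_self])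
            v.1 v.2
          rw [LinearMap.sub_apply] at h4
          exact sub_eq_zero.1 h4
        exact ((Nat.card_le_card_of_injective _ hinj).trans d2).trans h32
      · intro p hp hR
        by_contra hcon0
        push Not at hcon0
        obtain ⟨ω0, m0, hω0⟩ := hcon0
        obtain ⟨l0, rfl⟩ := (hAm ω0).1 m0
        have hpG : p.toMul ∈ Subgroup.closure {x.toMul, y.toMul, z.toMul} := by
          refine AddSubgroup.closure_induction (p := fun p _ =>
            p.toMul ∈ Subgroup.closure {x.toMul, y.toMul, z.toMul}) ?_ ?_ ?_ ?_ hp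
          · intro u hu
            refine Subgroup.subset_closure ?_
            rcases hu with rfl | rfl | hu
            · exact Or.inl rfl
            · exact Or.inr (Or.inl rfl)
            · rw [Set.mem_singleton_iff] at hu
              subst hu
              exact Or.inr (Or.inr rfl)
          · exact Subgroup.one_mem _
          · intro u v _ _ hu hv
            exact Subgroup.mul_mem _ hu hv
          · intro u _ hu
            exact Subgroup.inv_mem _ hu
        have h0 := hbig p.toMul hpG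
        have hfp := hQfin p.toMul
        have h1 : Nat.card (Qs β p.toMul) ≠ 1 := by
          intro h1
          apply hω0
          rw [← hvan]
          intro k hk
          have hs := (Nat.card_eq_one_iff_unique.1 h1).1
          have h3 : (⟨k, hk⟩ : Qs β p.toMul) = 0 := Subsingleton.elim _ _
          have h4 : k = 0 := congrArg Subtype.val h3
          rw [h4, map_zero]
        have h5 : 0 < Nat.card (Qs β p.toMul) := Nat.card_pos
        have h2 : 2 < Nat.card (Qs β p.toMul) := by omega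
        obtain ⟨u, v, hu0, hv0, huv⟩ : ∃ u v : Qs β p.toMul, u ≠ 0 ∧ v ≠ 0 ∧ u ≠ v := by
          by_contra hcon
          push Not at hcon
          have h3 := Nat.card_le_card_of_injective
            (fun u : Qs β p.toMul => (decide (u = 0) : Bool)) (by
              intro u v huv
              by_cases hu : u = 0
              · by_cases hv : v = 0
                · rw [hu, hv]
                · simp [hu, hv] at huv
              · by_cases hv : v = 0
                · simp [hu, hv] at huv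
                · exact hcon u v hu hv)
          rw [Nat.card_eq_fintype_card (α := Bool), Fintype.card_bool] at h3
          omega
        have hu1 : u.1 ≠ 0 := fun h => hu0 (Subtype.ext h)
        have hv1 : v.1 ≠ 0 := fun h => hv0 (Subtype.ext h)
        have huv1 : u.1 ≠ v.1 := fun h => huv (Subtype.ext h)
        obtain ⟨l1, z1, n1⟩ := exists_char (two hB u.1) (fun t => by
          rw [hB]; exact zero_mem _) v.1 (by
            rintro (h | h)
            · exact hv1 h
            · exact huv1 h.symm)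
        obtain ⟨l2, z2, n2⟩ := exists_char (two hB v.1) (fun t => by
          rw [hB]; exact zero_mem _) u.1 (by
            rintro (h | h)
            · exact hu1 h
            · exact huv1 h)
        have k1 : l1 u.1 = 0 := z1 _ (Or.inr rfl)
        have k2 : l2 v.1 = 0 := z2 _ (Or.inr rfl)
        rcases hR (frm l1) ⟨l1, rfl⟩ (frm l2) ⟨l2, rfl⟩ with h | h | h
        · exact n1 ((hvan l1 p).2 h v.1 v.2)
        · exact n2 ((hvan l2 p).2 h u.1 u.2)
        · have h3 : frm (l1 - l2) p = 0 := by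
            ext b
            have h4 := LinearMap.congr_fun h b
            rw [hfrm, hfrm] at h4
            rw [hfrm, AddMonoidHom.sub_apply, h4, sub_self]
            rfl
          have h4 := (hvan (l1 - l2) p).2 h3 u.1 u.2
          rw [AddMonoidHom.sub_apply, k1, zero_sub, neg_eq_zero] at h4
          exact n2 h4
  have hher : Hered A := hered_of_T hEF hL hsm
  have hElem : Elem (QD e A) := hout _ _ _ (hcore _ _ _ hEF hher)
  refine Elem.iso _ _ hElem ⟨MulEquiv.multiplicativeAdditive S.G, rfl, ?_⟩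
  intro a b c d
  refine Iff.trans (QD_eq A a b c d) ?_
  constructor
  · intro h
    refine (hiff _ _ _ _).1 ?_
    by_contra hne
    obtain ⟨l, -, hl⟩ := exists_char (⊥ : AddSubgroup B) (fun x => by
      rw [AddSubgroup.mem_bot]; exact hB x)
      (β a.toAdd.toMul b.toAdd.toMul - β c.toAdd.toMul d.toAdd.toMul) (by
        rw [AddSubgroup.mem_bot, sub_eq_zero]; exact hne)
    apply hl
    rw [map_sub, sub_eq_zero]
    exact h (frm l) ⟨l, rfl⟩
  · rintro h ω ⟨l, rfl⟩
    rw [hfrm, hfrm]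
    congr 1
    exact (hiff _ _ _ _).2 h

theorem elemT (S : QData) (hS : IsQuat S) (hfin : Finite S.G) {B : Type v}
    [AddCommGroup B] (hB : ∀ b : B, b + b = 0) (β : S.G → S.G → B)
    (hmul : ∀ a b c, β a (b * c) = β a b + β a c)
    (hiff : ∀ a b c d, β a b = β c d ↔ S.q a b = S.q c d)
    (h : ∀ x y z : S.G, Indep x y z →
      (∃ p : S.G, (p = x ∨ p = y ∨ p = z ∨ p = x * y * z) ∧ Nat.card (Qs β p) ≤ 4) ∨
      {t : S.Q | ∃ g ∈ Subgroup.closure {x, y, z}, ∃ b, S.q g b = t}.ncard ≤ 27 ∨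
      (∃ p ∈ Subgroup.closure {x, y, z},
        ∀ u ∈ Qs β x ⊔ Qs β y ⊔ Qs β z, ∀ v ∈ Qs β x ⊔ Qs β y ⊔ Qs β z,
        u ∈ Qs β p ∨ v ∈ Qs β p ∨ u + v ∈ Qs β p) ∨
      (∃ p ∈ Subgroup.closure {x, y, z}, ∃ q ∈ Subgroup.closure {x, y, z},
        (p ≠ 1 ∧ q ≠ 1 ∧ p ≠ q) ∧ Nat.card (Qs β p) ≤ 2 ∧ Nat.card (Qs β q) ≤ 2) ∨
      (∀ w : S.G, {t : S.Q | ∃ g ∈ Subgroup.closure {x, y, z, w}, ∃ b, S.q g b = t}.ncard ≤ 31) ∨
      (Nat.card (Qs β x ⊔ Qs β y ⊔ Qs β z : AddSubgroup B) ≤ 32 ∧
        ∀ p ∈ Subgroup.closure {x, y, z}, Nat.card (Qs β p) ≠ 2)) :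
    Elem S := by
  refine elem_of_T S hS hfin hB β hmul hiff fun x y z hI => ?_
  rcases h x y z hI with h | h | h | h | h | h
  · exact Or.inl h
  · obtain ⟨h1, h2⟩ := vals_ncard β hiff (Subgroup.closure {x, y, z} : Subgroup S.G)
    exact Or.inr (Or.inl (h2.trans h))
  · exact Or.inr (Or.inr (Or.inl h))
  · exact Or.inr (Or.inr (Or.inr (Or.inl h)))
  · refine Or.inr (Or.inr (Or.inr (Or.inr (Or.inl fun w => ?_))))
    obtain ⟨h1, h2⟩ := vals_ncard β hiff (Subgroup.closure {x, y, z, w} : Subgroup S.G)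
    exact h2.trans (h w)
  · exact Or.inr (Or.inr (Or.inr (Or.inr (Or.inr h))))

end Pool.Agent.Run7.h948.QF
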