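import Pool.Agent.Run7.h948.QF.StrE
import Pool.Agent.Run7.h948.QF.FullB

/-! Structures with at most 32 quaternions in a group and no element whose quaternions are the
whole group. -/

set_option autoImplicit false

namespace Pool.Agent.Run7.h948.QF

open Pool.Agent.N88.TS Pool.Agent.W622.ETG Pool.Agent.TH188.ETP Pool.Agent.TH188.ETV
  Pool.Agent.H315R3.ETC Module
open Pool.Agent.TH188.ET (exists_char exists_factor)
open Pool.Agent.TH188.ET8 (QD_eq)

universe v

section
variable {V : Type} [AddCommGroup V] [Module (ZMod 2) V] {e : V}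

/-- the points at which only the zero form vanishes -/
def Un (A : Fam V) : Set V := {v | ∀ ω ∈ A, ω v = 0 → ω = 0}

/-- less than one eighth of the points are of this kind -/
def CU (A : Fam V) : Prop := 8 * (Un A).ncard < Nat.card V

/-- triples of coefficients -/
abbrev T8 : Type := ZMod 2 × ZMod 2 × ZMod 2

omit [Module (ZMod 2) V] in
theorem cnt [Finite V] (U : Set V) (c : T8 → V) (h : ∀ v, ∃ t, v + c t ∈ U) :
    Nat.card V ≤ 8 * U.ncard := by
  choose t ht using h
  have hinj : Function.Injective (fun v : V => ((t v, ⟨v + c (t v), ht v⟩) : T8 × U)) := by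
    intro v v' hh
    have h1 : t v = t v' := congrArg Prod.fst hh
    have h2 : v + c (t v) = v' + c (t v') := congrArg (fun z : T8 × U => z.2.1) hh
    rw [h1] at h2
    exact add_right_cancel h2
  have h1 := Nat.card_le_card_of_injective _ hinj
  have h8 : Nat.card T8 = 8 := by
    rw [Nat.card_eq_fintype_card]
    decide
  rw [Nat.card_prod, h8, Nat.card_coe_set_eq] at h1
  exact h1

theorem ex1 {h : Dl V} (h0 : h ≠ 0) : ∃ y, h y = 1 := by
  by_contra hcon
  push Not at hcon
  exact h0 (LinearMap.ext fun v => (zz _).resolve_right (hcon v))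

theorem cntA [Finite V] {A : Fam V} {R P Q : V} (hsym : ∀ ω ∈ A, ∀ a b : V, ω a b = ω b a)
    (hL : Linked A) {h g k : Dl V} (hI : Ind3 h g k) (hF : FA A R P Q h g k)
    (hfa : ∀ ω ∈ A, ω R = 0 → ω P = 0 → ω Q = 0 → ω = 0) :
    Nat.card V ≤ 8 * (Un A).ncard := by
  obtain ⟨y0, hy0⟩ := ex1 (h := h) (by
    rintro rfl
    exact one_ne_zero (hI 1 0 0 (by module)).1)
  obtain ⟨x0, hx0, gx0⟩ := ex01 (h := h) (g := g) (fun i j hij => by
    have h1 := hI i j 0 (by rw [zero_smul, add_zero]; exact hij)
    exact ⟨h1.1, h1.2.1⟩)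
  refine cnt (Un A) (fun t => t.1 • y0 + t.2.1 • x0) fun v => ?_
  refine ⟨(h v, g v + h v * g y0 + 1, 0), fun κ hκ hz => ?_⟩
  by_contra hne
  refine noAu hsym hL hI hF hfa (x := v + (h v • y0 + (g v + h v * g y0 + 1) • x0)) ?_ ?_ hκ
    hne hz
  · rw [map_add, map_add, map_smul, map_smul, hy0, hx0, smul_eq_mul, smul_zero, mul_one,
      add_zero]
    exact CharTwo.add_self_eq_zero _
  · rw [map_add, map_add, map_smul, map_smul, gx0, smul_eq_mul, smul_eq_mul, mul_one]
    generalize g v = a
    generalize h v * g y0 = b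
    revert a b
    decide

theorem cntB [Finite V] {A : Fam V} {R P Q : V} (hsym : ∀ ω ∈ A, ∀ a b : V, ω a b = ω b a)
    (hL : Linked A) {h g2 g1 g3 : Dl V} (hI : Ind4 h g2 g1 g3) (hF : FB A R P Q h g2 g1 g3)
    (hfa : ∀ ω ∈ A, ω R = 0 → ω P = 0 → ω Q = 0 → ω = 0) :
    Nat.card V ≤ 8 * (Un A).ncard := by
  obtain ⟨y0, hy0⟩ := ex1 (h := h) (by
    rintro rfl
    exact one_ne_zero (hI 1 0 0 0 (by module)).1)
  refine cnt (Un A) (fun t => t.1 • y0 + (t.2.1 • P + t.2.2 • Q)) fun v => ?_
  by_contra hcon
  have hk : ∀ (w : V) (t : T8), w = v + (t.1 • y0 + (t.2.1 • P + t.2.2 • Q)) →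
      ∃ ω ∈ A, ω ≠ 0 ∧ ω w = 0 := by
    rintro w t hw
    by_contra hc
    push Not at hc
    refine hcon ⟨t, fun ω hω hz => ?_⟩
    by_contra hne
    exact hc ω hω hne (by rw [hw]; exact hz)
  refine noBu hsym hL hI hF hfa (y := v + (h v + 1) • y0) ?_ (hk _ (h v + 1, 0, 0) ?_)
    (hk _ (h v + 1, 1, 0) ?_) (hk _ (h v + 1, 0, 1) ?_) (hk _ (h v + 1, 1, 1) ?_)
  · rw [map_add, map_smul, hy0, smul_eq_mul, mul_one]
    generalize h v = a
    revert a
    decide
  · show v + (h v + 1) • y0 = v + ((h v + 1) • y0 + ((0 : ZMod 2) • P + (0 : ZMod 2) • Q))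
    module
  · show v + (h v + 1) • y0 + P = v + ((h v + 1) • y0 + ((1 : ZMod 2) • P + (0 : ZMod 2) • Q))
    module
  · show v + (h v + 1) • y0 + Q = v + ((h v + 1) • y0 + ((0 : ZMod 2) • P + (1 : ZMod 2) • Q))
    module
  · show v + (h v + 1) • y0 + P + Q =
      v + ((h v + 1) • y0 + ((1 : ZMod 2) • P + (1 : ZMod 2) • Q))
    module

/-- the hypothesis -/
def HU (A : Fam V) : Prop := Nat.card A ≤ 16 ∨ (Nat.card A ≤ 32 ∧ CU A)

theorem HU.mono [Finite V] {A B : Fam V} (hBA : B ≤ A) (h : HU A) : HU B := by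
  have hfA : Finite A := fin_fam A
  have hmon : Nat.card B ≤ Nat.card A :=
    Nat.card_le_card_of_injective (fun ω : B => (⟨ω.1, hBA ω.2⟩ : A)) (by
      intro ω ω' hh
      have h1 : ω.1 = ω'.1 := congrArg (fun t : A => t.1) hh
      exact Subtype.ext h1)
  rcases h with h | ⟨h, hC⟩
  · exact Or.inl (hmon.trans h)
  · by_cases he : A ≤ B
    · rw [le_antisymm hBA he]
      exact Or.inr ⟨h, hC⟩
    · left
      obtain ⟨u, hu, huB⟩ := SetLike.not_le_iff_exists.1 he
      have hinj : Function.Injective (fun t : B × ZMod 2 =>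
          (⟨t.1.1 + t.2 • u, A.add_mem (hBA t.1.2) (A.smul_mem _ hu)⟩ : A)) := by
        rintro ⟨⟨ω, m⟩, s⟩ ⟨⟨ω', m'⟩, s'⟩ hh
        have h1 : ω + s • u = ω' + s' • u := congrArg Subtype.val hh
        have h2 : s = s' := by
          by_contra hne
          apply huB
          have h3 : u = ω + ω' := by
            have h4 : ω + s • u + (ω' + s' • u) = 0 := by
              rw [h1]
              exact LinearMap.ext fun v => self2 _
            have h5 : s + s' = 1 := by
              rcases zz s with rfl | rfl <;> rcases zz s' with rfl | rfl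
              · exact absurd rfl hne
              · exact zero_add 1
              · exact add_zero 1
              · exact absurd rfl hne
            have h6 : ω + s • u + (ω' + s' • u) = (ω + ω') + (s + s') • u := by module
            rw [h6, h5, one_smul] at h4
            refine LinearMap.ext fun v => ?_
            have h7 := LinearMap.congr_fun h4 v
            exact (eq_of_add h7).symm
          rw [h3]
          exact B.add_mem m m'
        subst h2
        have h3 : ω = ω' := LinearMap.ext fun v => add_right_cancel (LinearMap.congr_fun h1 v)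
        subst h3
        rfl
      have h1 := Nat.card_le_card_of_injective _ hinj
      rw [Nat.card_prod, Nat.card_zmod] at h1
      omega

theorem planeU [Finite V] {A : Fam V} (hA : EFam e A) (hL : Linked A) (H : HU A) (x y z : V) :
    PlaneAt A x y z := by
  intro f fx fy fz fw
  by_contra hno'
  have hno : ∀ ω ∈ A, ω x = f → ω y = f → ω z = f → False :=
    fun ω hω h1 h2 h3 => hno' ⟨ω, hω, h1, h2, h3⟩
  have hfA := fin_fam A
  have hodd := in_odd fx fy fz fw
  have hsym : ∀ ω ∈ A, ∀ a b : V, ω a b = ω b a := fun ω hω => (hA ω hω).symm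
  rcases H with h16 | ⟨h32, hC⟩
  · refine hno' (dual' V A hL x y z ?_ f fx fy fz fw)
    have h1 : (vals A x y z).ncard ≤ (valsOn A ⊤).ncard := by
      refine Set.ncard_le_ncard ?_ (Set.toFinite _)
      rintro t ⟨i, j, k, b, rfl⟩
      exact ⟨pb x y z (i, j, k), AddSubgroup.mem_top _, b, rfl⟩
    have h2 := valsOn_le A ⊤
    have h3 := resF_le A ⊤
    omega
  obtain ⟨hfW, hcW⟩ := dual_card (EP A x y z f) (fun t => Subtype.ext (ex2 A t.1))
  have h64 : Nat.card (EP A x y z f →+ ZMod 2) ≤ 64 := by
    have h1 := EP_card A x y z f (P := ⊤) (fun u => AddSubgroup.mem_top _)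
    have h2 := resF_le A ⊤
    omega
  obtain ⟨r, a, b, er, ea, eb, hDB, hE, hforms⟩ := Sys.cls (sysOf hL hodd hno) h64
  rcases hforms with ⟨h, g, k, hI, hF'⟩ | ⟨h, g2, g1, g3, hI, hF'⟩
  · have hFA := convA hL hodd hno hF'
    exact absurd (cntA hsym hL hI hFA (faithA hI hFA h32)) (not_le.2 hC)
  · have hFB := convB hL hodd hno hF'
    exact absurd (cntB hsym hL hI hFB (faithB hI hFB h32)) (not_le.2 hC)

theorem linked_listU [Finite V] (l : List V) : ∀ A : Fam V, EFam e A → Linked A →
    HU A → Linked (l.foldl (fun B u => res B (ann u)) A) := by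
  induction l with
  | nil => intro A _ h _; exact h
  | cons u l ih =>
    intro A hA hL hS
    exact ih _ (hA.res _) (linked_ann hA hL (fun x y z => planeU hA hL hS x y z) u)
      (hS.mono (res_le A _))

theorem hered_of_U [Finite V] {A : Fam V} (hA : EFam e A) (hL : Linked A) (hS : HU A) :
    Hered A := by
  classical
  intro X
  have : Fintype V := Fintype.ofFinite V
  let l : List V := (Finset.univ.filter (fun b : V => ∀ g ∈ X, g b = 0)).toList
  have hl : ∀ b, b ∈ l ↔ ∀ g ∈ X, g b = 0 := by
    intro b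
    simp [l]
  have h1 : l.foldl (fun B u => res B (ann u)) A = res A X := by
    ext ω
    rw [mem_list l A hA ω]
    constructor
    · rintro ⟨h1, h2⟩
      refine ⟨h1, fun y => mem_of_coann fun b hb => ?_⟩
      rw [(hA ω h1).symm, h2 b ((hl b).2 hb)]
      rfl
    · rintro ⟨h1, h2⟩
      refine ⟨h1, fun u hu => ?_⟩
      ext y
      rw [(hA ω h1).symm]
      exact (hl u).1 hu _ (h2 y)
  rw [← h1]
  exact linked_listU l A hA hL hS

end

theorem elem_of_U (S : QData) (hS : IsQuat S) (hfin : Finite S.G) {B : Type v}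
    [AddCommGroup B] (hB : ∀ b : B, b + b = 0) (β : S.G → S.G → B)
    (hmul : ∀ a b c, β a (b * c) = β a b + β a c)
    (hiff : ∀ a b c d, β a b = β c d ↔ S.q a b = S.q c d)
    (hfB : Finite B) (hcB : Nat.card B ≤ 32)
    (hsmall : 8 * {a : S.G | 16 < Nat.card (Qs β a)}.ncard < Nat.card S.G) :
    Elem S := by
  classical
  obtain ⟨hcore, hPL, hout, hconv⟩ := Pool.Agent.W622.ETG.all_parts
  let _ : Module (ZMod 2) (Additive S.G) := AddCommGroup.zmodModule (n := 2) (by
    intro x
    rw [two_smul]
    exact hS.exp2 x.toMul)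
  have hfV : Finite (Additive S.G) := hfin
  have q1 : ∀ a, S.q a 1 = S.zero := by
    intro a
    have := (hS.qs3 a 1 1).1 rfl
    rwa [mul_one] at this
  have b1 : ∀ a, β a 1 = 0 := by
    intro a
    have := hmul a 1 1
    rw [mul_one] at this
    exact left_eq_add.1 this
  have hz : ∀ a b, β a b = 0 ↔ S.q a b = S.zero := by
    intro a b
    rw [← b1 a, ← q1 a, hiff]
  have hsym : ∀ a b, β a b = β b a := fun a b => (hiff _ _ _ _).2 (hS.qs2 a b)
  have hmul' : ∀ a b c, β (a * b) c = β a c + β b c := by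
    intro a b c
    rw [hsym, hmul, hsym c, hsym c]
  -- the form of a character
  let frm (l : B →+ ZMod 2) : Frm (Additive S.G) :=
    AddMonoidHom.toZModLinearMap 2
      { toFun := fun a => AddMonoidHom.toZModLinearMap 2
          { toFun := fun b => l (β a.toMul b.toMul)
            map_zero' := by
              show l (β a.toMul 1) = 0
              rw [b1, map_zero]
            map_add' := fun b c => by
              show l (β a.toMul (b.toMul * c.toMul)) = _
              rw [hmul, map_add] }
        map_zero' := by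
          ext b
          show l (β 1 b.toMul) = 0
          rw [hsym, b1, map_zero]
        map_add' := fun a a' => by
          ext b
          show l (β (a.toMul * a'.toMul) b.toMul) = l _ + l _
          rw [hmul', map_add] }
  have hfrm : ∀ l a b, frm l a b = l (β a.toMul b.toMul) := fun _ _ _ => rfl
  let A : Fam (Additive S.G) :=
    { carrier := {ω | ∃ l : B →+ ZMod 2, ω = frm l}
      add_mem' := by
        rintro _ _ ⟨l, rfl⟩ ⟨l', rfl⟩
        exact ⟨l + l', by ext a b; rfl⟩
      zero_mem' := ⟨0, by ext a b; rfl⟩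
      smul_mem' := by
        rintro c _ ⟨l, rfl⟩
        refine ⟨c.val • l, ?_⟩
        ext a b
        rw [LinearMap.smul_apply, LinearMap.smul_apply, hfrm, hfrm, AddMonoidHom.nsmul_apply]
        simp }
  have hAm : ∀ ω, ω ∈ A ↔ ∃ l : B →+ ZMod 2, ω = frm l := fun _ => Iff.rfl
  set e : Additive S.G := Additive.ofMul S.neg with he
  have hEF : EFam e A := by
    rintro ω ⟨l, rfl⟩
    constructor
    · intro a b
      rw [hfrm, hfrm, hsym]
    · intro a
      have h1 : β a.toMul (S.neg * a.toMul) = 0 := (hz _ _).2 (hS.qs1 a.toMul)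
      rw [hmul] at h1
      have h2 : β a.toMul a.toMul = β a.toMul S.neg := by
        have h3 := hB (β a.toMul S.neg)
        rw [← h3] at h1
        exact add_left_cancel h1
      rw [hfrm, hfrm, h2]
      rfl
  -- linkage by gluing
  have hL : Linked A := by
    rintro ω ⟨l, rfl⟩ η ⟨m, rfl⟩ a c hac
    have hac' : ∀ b, l (β a.toMul b) = m (β c.toMul b) := by
      intro b
      have := LinearMap.congr_fun hac (Additive.ofMul b)
      rwa [hfrm, hfrm] at this
    let Φ : Additive S.G × Additive S.G →+ B :=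
      AddMonoidHom.mk' (fun z => β a.toMul z.1.toMul + β c.toMul z.2.toMul) (by
        intro z z'
        simp only [Prod.fst_add, Prod.snd_add, toMul_add, hmul]
        abel)
    let Λ : Additive S.G × Additive S.G →+ ZMod 2 :=
      AddMonoidHom.mk' (fun z => l (β a.toMul z.1.toMul) + m (β c.toMul z.2.toMul)) (by
        intro z z'
        simp only [Prod.fst_add, Prod.snd_add, toMul_add, hmul, map_add]
        abel)
    obtain ⟨k, hk⟩ := exists_factor hB Φ Λ (by
      rintro ⟨b, d⟩ h
      have h1 : β a.toMul b.toMul + β c.toMul d.toMul = 0 := h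
      have h2 : β a.toMul b.toMul = β c.toMul d.toMul := by
        have h3 := hB (β c.toMul d.toMul)
        rw [← h3] at h1
        exact add_right_cancel h1
      obtain ⟨x, hx1, hx2⟩ := hS.qs4 _ _ _ _ ((hiff _ _ _ _).1 h2)
      have e1 := (hiff _ _ _ _).2 hx1
      have e2 := (hiff _ _ _ _).2 hx2
      show l (β a.toMul b.toMul) + m (β c.toMul d.toMul) = 0
      rw [e1, e2, hac']
      exact CharTwo.add_self_eq_zero _)
    refine ⟨frm k, ⟨k, rfl⟩, ?_, ?_⟩
    · ext b
      rw [hfrm, hfrm]
      have := hk (b, 0)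
      have h1 : Φ (b, 0) = β a.toMul b.toMul := by
        show β a.toMul b.toMul + β c.toMul 1 = _
        rw [b1, add_zero]
      have h2 : Λ (b, 0) = l (β a.toMul b.toMul) := by
        show l (β a.toMul b.toMul) + m (β c.toMul 1) = _
        rw [b1, map_zero, add_zero]
      rw [h1, h2] at this
      exact this
    · ext b
      rw [hfrm, hfrm]
      have := hk (0, b)
      have h1 : Φ (0, b) = β c.toMul b.toMul := by
        show β a.toMul 1 + β c.toMul b.toMul = _
        rw [b1, zero_add]
      have h2 : Λ (0, b) = m (β c.toMul b.toMul) := by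
        show l (β a.toMul 1) + m (β c.toMul b.toMul) = _
        rw [b1, map_zero, zero_add]
      rw [h1, h2] at this
      rw [this]
      exact (hac' _).symm
  -- finiteness of the groups `Q_p`
  have hQ : ∀ p : S.G, ∀ h, h ∈ Qs β p ↔ ∃ b, β p b = h := by
    intro p h
    constructor
    · intro hh
      refine AddSubgroup.closure_induction (p := fun h _ => ∃ b, β p b = h) ?_ ?_ ?_ ?_ hh
      · rintro _ ⟨b, rfl⟩; exact ⟨b, rfl⟩
      · exact ⟨1, b1 p⟩
      · rintro _ _ _ _ ⟨b, rfl⟩ ⟨c, rfl⟩
        exact ⟨b * c, hmul _ _ _⟩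
      · rintro _ _ ⟨b, rfl⟩
        exact ⟨b, (neg_eq_iff_add_eq_zero.2 (hB _)).symm⟩
    · rintro ⟨b, rfl⟩
      exact AddSubgroup.subset_closure ⟨b, rfl⟩
  have hQfin : ∀ p : S.G, Finite (Qs β p) := by
    intro p
    have hsurj : Function.Surjective
        (fun b : S.G => (⟨β p b, AddSubgroup.subset_closure ⟨b, rfl⟩⟩ : Qs β p)) := by
      rintro ⟨h, hh⟩
      obtain ⟨b, rfl⟩ := (hQ p h).1 hh
      exact ⟨b, rfl⟩
    exact Finite.of_surjective _ hsurj
  have hvan : ∀ (l : B →+ ZMod 2) (p : Additive S.G), (∀ h ∈ Qs β p.toMul, l h = 0) ↔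
      frm l p = 0 := by
    intro l p
    constructor
    · intro h
      ext b
      rw [hfrm]
      exact h _ ((hQ _ _).2 ⟨_, rfl⟩)
    · intro h k hk
      obtain ⟨b, rfl⟩ := (hQ _ _).1 hk
      have := LinearMap.congr_fun h (Additive.ofMul b)
      rwa [hfrm] at this
  have heqv : ∀ (l m : B →+ ZMod 2) (p : Additive S.G),
      (∀ h ∈ Qs β p.toMul, l h = m h) → frm l p = frm m p := by
    intro l m p h
    ext b
    rw [hfrm, hfrm]
    exact h _ ((hQ _ _).2 ⟨_, rfl⟩)
  obtain ⟨hfC, hcC⟩ := dual_cardU B hB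
  have hHE : HU A := by
    by_cases h16 : Nat.card A ≤ 16
    · exact Or.inl h16
    right
    refine ⟨?_, ?_⟩
    · have hs : Function.Surjective (fun l : B →+ ZMod 2 => (⟨frm l, ⟨l, rfl⟩⟩ : A)) := by
        rintro ⟨ω, hω⟩
        obtain ⟨l, rfl⟩ := (hAm ω).1 hω
        exact ⟨l, rfl⟩
      exact ((Nat.card_le_card_of_surjective _ hs).trans hcC).trans hcB
    · have hle : (Un A).ncard ≤ {a : S.G | 16 < Nat.card (Qs β a)}.ncard := by
        refine Set.ncard_le_ncard_of_injOn (fun v : Additive S.G => v.toMul) ?_ ?_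
          (Set.toFinite _)
        · intro v hv
          show 16 < Nat.card (Qs β v.toMul)
          by_contra hle
          apply h16
          have hfb := hQfin v.toMul
          obtain ⟨d1, d2⟩ := dual_cardU (Qs β v.toMul) (fun x => Subtype.ext (hB x.1))
          have hch' : ∀ t : A, ∃ l : B →+ ZMod 2, t.1 = frm l := fun t => (hAm t.1).1 t.2
          choose L hLL using hch'
          have hinj : Function.Injective
              (fun t : A => (L t).comp (Qs β v.toMul).subtype) := by
            intro t t' htt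
            have h1 : frm (L t) v = frm (L t') v :=
              heqv _ _ v fun k hk => DFunLike.congr_fun htt ⟨k, hk⟩
            rw [← hLL t, ← hLL t'] at h1
            refine Subtype.ext ?_
            have h0 : t.1 + t'.1 = 0 := hv (t.1 + t'.1) (A.add_mem t.2 t'.2) (by
              rw [LinearMap.add_apply, h1]
              exact self2 _)
            refine LinearMap.ext fun x => ?_
            exact eq_of_add (LinearMap.congr_fun h0 x)
          exact ((Nat.card_le_card_of_injective _ hinj).trans d2).trans (not_lt.1 hle)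
        · intro v _ v' _ hvv
          exact hvv
      have hcV : Nat.card (Additive S.G) = Nat.card S.G := rfl
      show 8 * (Un A).ncard < Nat.card (Additive S.G)
      rw [hcV]
      omega
  have hher : Hered A := hered_of_U hEF hL hHE
  have hElem : Elem (QD e A) := hout _ _ _ (hcore _ _ _ hEF hher)
  refine Elem.iso _ _ hElem ⟨MulEquiv.multiplicativeAdditive S.G, rfl, ?_⟩
  intro a b c d
  refine Iff.trans (QD_eq A a b c d) ?_
  constructor
  · intro h
    refine (hiff _ _ _ _).1 ?_
    by_contra hne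
    obtain ⟨l, -, hl⟩ := exists_char (⊥ : AddSubgroup B) (fun x => by
      rw [AddSubgroup.mem_bot]; exact hB x)
      (β a.toAdd.toMul b.toAdd.toMul - β c.toAdd.toMul d.toAdd.toMul) (by
        rw [AddSubgroup.mem_bot, sub_eq_zero]; exact hne)
    apply hl
    rw [map_sub, sub_eq_zero]
    exact h (frm l) ⟨l, rfl⟩
  · rintro h ω ⟨l, rfl⟩
    rw [hfrm, hfrm]
    congr 1
    exact (hiff _ _ _ _).2 h

end Pool.Agent.Run7.h948.QF
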