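import Pool.Agent.Run7.h948.QF.Main
import Pool.Agent.Run7.h948.QF.Fano2

/-! Planes which contain three independent small points, or two points with one value, or a large
point. -/

set_option autoImplicit false

namespace Pool.Agent.Run7.h948.QF

open Pool.Agent.N88.TS Pool.Agent.W622.ETG Pool.Agent.TH188.ETP Pool.Agent.TH188.ETV
  Pool.Agent.H315R3.ETC Module
open Pool.Agent.TH188.ET (exists_char exists_factor)

section
variable {V : Type} [AddCommGroup V] [Module (ZMod 2) V] {A : Fam V}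

/-- at most one nonzero value -/
def R1 (A : Fam V) (p : V) : Prop := ∀ ω₁ ∈ A, ∀ ω₂ ∈ A, ω₁ p = 0 ∨ ω₂ p = 0 ∨ ω₁ p = ω₂ p

/-- the members killing `p` have at most two restrictions -/
def C2s (A : Fam V) (p : V) (P : AddSubgroup V) : Prop :=
  ∀ ω₁ ∈ A, ∀ ω₂ ∈ A, ω₁ p = 0 → ω₂ p = 0 → (∀ v ∈ P, ω₁ v = 0) ∨ (∀ v ∈ P, ω₂ v = 0) ∨
    (∀ v ∈ P, ω₁ v = ω₂ v)

theorem noR2A {R P Q : V} {h g k : Dl V} (hI : Ind3 h g k) (hF : FA A R P Q h g k)
    (α γ : ZMod 2) : ¬ R2 A (α • R + γ • P + Q) := by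
  intro hR
  obtain ⟨ω1, m1, r1, p1, q1⟩ := hF.2 0 0 0 1 0 0 (by decide)
  obtain ⟨ω2, m2, r2, p2, q2⟩ := hF.2 0 0 0 0 1 0 (by decide)
  obtain ⟨ω3, m3, r3, p3, q3⟩ := hF.2 1 0 0 0 0 1 (by decide)
  have e1 : ω1 (α • R + γ • P + Q) = h := by
    rw [map_add, map_add, map_smul, map_smul, r1, p1, q1]; module
  have e2 : ω2 (α • R + γ • P + Q) = g := by
    rw [map_add, map_add, map_smul, map_smul, r2, p2, q2]; module
  have e3 : ω3 (α • R + γ • P + Q) = α • h + k := by
    rw [map_add, map_add, map_smul, map_smul, r3, p3, q3]; module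
  have h1 := hR ω1 m1 ω2 m2 ω3 m3
  rw [e1, e2, e3] at h1
  have key : ∀ i j l : ZMod 2, i • h + j • g + l • k = 0 → ¬ (i = 0 ∧ j = 0 ∧ l = 0) → False :=
    fun i j l h2 h3 => h3 (hI i j l h2)
  rcases h1 with h1 | h1 | h1 | h1 | h1 | h1 | h1
  · exact key 1 0 0 (by rw [h1]; module) (by rintro ⟨a, -, -⟩; exact one_ne_zero a)
  · exact key 0 1 0 (by rw [h1]; module) (by rintro ⟨-, a, -⟩; exact one_ne_zero a)
  · exact key α 0 1 (by rw [← h1]; module) (by rintro ⟨-, -, a⟩; exact one_ne_zero a)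
  · refine key 1 1 0 ?_ (by rintro ⟨a, -, -⟩; exact one_ne_zero a)
    rw [h1, one_smul, zero_smul, add_zero]
    exact self2 _
  · refine key (α + 1) 0 1 ?_ (by rintro ⟨-, -, a⟩; exact one_ne_zero a)
    have h2 : (α + 1) • h + (0 : ZMod 2) • g + (1 : ZMod 2) • k = (α • h + k) + h := by module
    rw [h2, ← h1]
    exact self2 _
  · refine key α 1 1 ?_ (by rintro ⟨-, -, a⟩; exact one_ne_zero a)
    have h2 : α • h + (1 : ZMod 2) • g + (1 : ZMod 2) • k = (α • h + k) + g := by module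
    rw [h2, ← h1]
    exact self2 _
  · refine key (α + 1) 1 1 ?_ (by rintro ⟨-, -, a⟩; exact one_ne_zero a)
    have h2 : (α + 1) • h + (1 : ZMod 2) • g + (1 : ZMod 2) • k = (g + (α • h + k)) + h := by
      module
    rw [h2, ← h1]
    exact self2 _

/-- three values which are independent -/
theorem noR2 {p : V} {x y z : Dl V} (hI : Ind3 x y z) (hx : In A p x) (hy : In A p y)
    (hz : In A p z) : ¬ R2 A p := by
  intro hR
  obtain ⟨ω1, m1, e1⟩ := hx
  obtain ⟨ω2, m2, e2⟩ := hy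
  obtain ⟨ω3, m3, e3⟩ := hz
  have h1 := hR ω1 m1 ω2 m2 ω3 m3
  rw [e1, e2, e3] at h1
  have key : ∀ i j l : ZMod 2, i • x + j • y + l • z = 0 → ¬ (i = 0 ∧ j = 0 ∧ l = 0) → False :=
    fun i j l h2 h3 => h3 (hI i j l h2)
  rcases h1 with h1 | h1 | h1 | h1 | h1 | h1 | h1
  · exact key 1 0 0 (by rw [h1]; module) (by rintro ⟨a, -, -⟩; exact one_ne_zero a)
  · exact key 0 1 0 (by rw [h1]; module) (by rintro ⟨-, a, -⟩; exact one_ne_zero a)
  · exact key 0 0 1 (by rw [h1]; module) (by rintro ⟨-, -, a⟩; exact one_ne_zero a)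
  · refine key 1 1 0 ?_ (by rintro ⟨a, -, -⟩; exact one_ne_zero a)
    rw [h1, one_smul, zero_smul, add_zero]
    exact self2 _
  · refine key 1 0 1 ?_ (by rintro ⟨a, -, -⟩; exact one_ne_zero a)
    rw [h1, one_smul, zero_smul, add_zero]
    exact self2 _
  · refine key 0 1 1 ?_ (by rintro ⟨-, a, -⟩; exact one_ne_zero a)
    rw [h1, one_smul, zero_smul, zero_add]
    exact self2 _
  · refine key 1 1 1 ?_ (by rintro ⟨a, -, -⟩; exact one_ne_zero a)
    rw [h1, one_smul, one_smul, one_smul]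
    have h2 : y + z + y + z = (y + z) + (y + z) := by abel
    rw [h2]
    exact self2 _

theorem noR2B {R P Q : V} {h g2 g1 g3 : Dl V} (hI : Ind4 h g2 g1 g3)
    (hF : FB A R P Q h g2 g1 g3) (α γ δ : ZMod 2) (hγδ : ¬ (γ = 0 ∧ δ = 0)) :
    ¬ R2 A (α • R + γ • P + δ • Q) := by
  obtain ⟨ω1, m1, r1, p1, q1⟩ := hF.2 0 1 0 0 0 0 (by decide)
  obtain ⟨ω2, m2, r2, p2, q2⟩ := hF.2 0 0 1 0 0 0 (by decide)
  obtain ⟨ω3, m3, r3, p3, q3⟩ := hF.2 1 0 0 1 0 0 (by decide)
  obtain ⟨ω4, m4, r4, p4, q4⟩ := hF.2 1 0 0 0 1 0 (by decide)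
  obtain ⟨ω5, m5, r5, p5, q5⟩ := hF.2 1 0 0 0 0 1 (by decide)
  have e1 : ω1 (α • R + γ • P + δ • Q) = γ • h := by
    rw [map_add, map_add, map_smul, map_smul, map_smul, r1, p1, q1]; module
  have e2 : ω2 (α • R + γ • P + δ • Q) = δ • h := by
    rw [map_add, map_add, map_smul, map_smul, map_smul, r2, p2, q2]; module
  have e3 : ω3 (α • R + γ • P + δ • Q) = α • h + γ • g2 := by
    rw [map_add, map_add, map_smul, map_smul, map_smul, r3, p3, q3]; module
  have e4 : ω4 (α • R + γ • P + δ • Q) = α • h + δ • g1 := by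
    rw [map_add, map_add, map_smul, map_smul, map_smul, r4, p4, q4]; module
  have e5 : ω5 (α • R + γ • P + δ • Q) = α • h + (γ + δ) • g3 := by
    rw [map_add, map_add, map_smul, map_smul, map_smul, r5, p5, q5]; module
  rcases zz γ with rfl | rfl <;> rcases zz δ with rfl | rfl
  · exact absurd ⟨rfl, rfl⟩ hγδ
  · refine noR2 (x := h) (y := α • h + g1) (z := α • h + g3) ?_ ⟨ω2, m2, ?_⟩ ⟨ω4, m4, ?_⟩
      ⟨ω5, m5, ?_⟩
    · intro i j l hh
      obtain ⟨z1, -, z3, z4⟩ := hI (i + j * α + l * α) 0 j l (by rw [← hh]; module)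
      subst z3 z4
      rw [zero_mul, add_zero, add_zero] at z1
      exact ⟨z1, rfl, rfl⟩
    · rw [e2, one_smul]
    · rw [e4, one_smul]
    · rw [e5, zero_add, one_smul]
  · refine noR2 (x := h) (y := α • h + g2) (z := α • h + g3) ?_ ⟨ω1, m1, ?_⟩ ⟨ω3, m3, ?_⟩
      ⟨ω5, m5, ?_⟩
    · intro i j l hh
      obtain ⟨z1, z2, -, z4⟩ := hI (i + j * α + l * α) j 0 l (by rw [← hh]; module)
      subst z2 z4
      rw [zero_mul, add_zero, add_zero] at z1
      exact ⟨z1, rfl, rfl⟩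
    · rw [e1, one_smul]
    · rw [e3, one_smul]
    · rw [e5, add_zero, one_smul]
  · refine noR2 (x := h) (y := α • h + g2) (z := α • h + g1) ?_ ⟨ω1, m1, ?_⟩ ⟨ω3, m3, ?_⟩
      ⟨ω4, m4, ?_⟩
    · intro i j l hh
      obtain ⟨z1, z2, z3, -⟩ := hI (i + j * α + l * α) j l 0 (by rw [← hh]; module)
      subst z2 z3
      rw [zero_mul, add_zero, add_zero] at z1
      exact ⟨z1, rfl, rfl⟩
    · rw [e1, one_smul]
    · rw [e3, one_smul]
    · rw [e4, one_smul]

/-- different lines, different members -/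
theorem T_ne {W F : Type} [AddCommGroup W] [Module (ZMod 2) W] [AddCommGroup F]
    [Module (ZMod 2) F] {S : Sys W F} {e e' : Q3} {x x' : F} {w w' : W} (h : S.T e x w)
    (h' : S.T e' x' w') (hx : x ≠ 0) (hx' : x' ≠ 0) (hne : e ≠ e') : w ≠ w' := by
  rintro rfl
  obtain ⟨u, hu⟩ := exl' (e + e') (fun h => hne (eq_of_add h))
  rw [dot_add] at hu
  have h1 := h u
  rw [h' u] at h1
  rcases zz (dot e u) with h2 | h2 <;> rcases zz (dot e' u) with h3 | h3
  · rw [h2, h3, add_zero] at hu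
    exact zero_ne_one hu
  · rw [h2, h3, zero_smul, one_smul] at h1
    exact hx' h1
  · rw [h2, h3, zero_smul, one_smul] at h1
    exact hx h1.symm
  · rw [h2, h3] at hu
    exact absurd hu (by decide)

section fail
variable [Finite V] {x y z : V} {f : Dl V} (hL : Linked A)
  (hodd : ∀ p : P3, ep p = 1 → In A (pb x y z p) f)
  (hno : ∀ ω ∈ A, ω x = f → ω y = f → ω z = f → False)

include hL hodd hno

theorem val_mem (p : Q3) (w : EP A x y z f →+ ZMod 2) :
    In A (pb x y z p) ((sysOf hL hodd hno).v p w) := by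
  obtain ⟨u, hu, -, hu1⟩ := (sysOf hL hodd hno).out p p
  rcases zz ((sysOf hL hodd hno).th w) with h0 | h1
  · obtain ⟨ω, hω, h⟩ := mem_of_sys hL hodd hno w h0
    exact ⟨ω, hω, (h p).symm⟩
  · obtain ⟨ω, hω, h⟩ := mem_of_sys hL hodd hno (w + u) (by
      rw [map_add, h1, hu1]
      decide)
    refine ⟨ω, hω, ?_⟩
    rw [← h p, map_add, hu, add_zero]

omit hL hodd hno in
theorem card4 {p : V} (h : R2 A p) : {f : Dl V | In A p f}.ncard ≤ 4 := by
  classical
  have hfD : Finite (Dl V) := DFunLike.finite _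
  by_cases h1 : ∃ f, In A p f ∧ f ≠ 0
  · obtain ⟨f, hf, hf0⟩ := h1
    by_cases h2 : ∃ g, In A p g ∧ g ≠ 0 ∧ g ≠ f
    · obtain ⟨g, hg, hg0, hgf⟩ := h2
      have h3 : {f : Dl V | In A p f} ⊆ (({0, f, g, f + g} : Finset (Dl V)) : Set (Dl V)) := by
        intro k hk
        rcases h.mem hf hg hk hf0 hg0 hgf with h4 | h4 | h4 | h4 <;> simp [h4]
      refine (Set.ncard_le_ncard h3 (Finset.finite_toSet _)).trans ?_
      rw [Set.ncard_coe_finset]
      exact Finset.card_le_four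
    · push Not at h2
      have h3 : {f : Dl V | In A p f} ⊆ (({0, f} : Finset (Dl V)) : Set (Dl V)) := by
        intro k hk
        by_cases hk0 : k = 0
        · simp [hk0]
        · simp [h2 k hk hk0]
      refine (Set.ncard_le_ncard h3 (Finset.finite_toSet _)).trans ?_
      rw [Set.ncard_coe_finset]
      exact (Finset.card_le_two).trans (by norm_num)
  · push Not at h1
    have h3 : {f : Dl V | In A p f} ⊆ (({0} : Finset (Dl V)) : Set (Dl V)) := by
      intro k hk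
      simp [h1 k hk]
    refine (Set.ncard_le_ncard h3 (Finset.finite_toSet _)).trans ?_
    rw [Set.ncard_coe_finset]
    simp

theorem card64 {p q r : Q3} (hI : IndQ p q r) (hp : R2 A (pb x y z p)) (hq : R2 A (pb x y z q))
    (hr : R2 A (pb x y z r)) : Nat.card (EP A x y z f →+ ZMod 2) ≤ 64 := by
  have hfD : Finite (Dl V) := DFunLike.finite _
  have hsm : ∀ (c : ZMod 2) (p : Q3) (w : EP A x y z f →+ ZMod 2),
      (sysOf hL hodd hno).v (c • p) w = c • (sysOf hL hodd hno).v p w := by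
    intro c p w
    rcases zz c with rfl | rfl
    · rw [zero_smul, zero_smul]
      exact Sys.v0 w
    · rw [one_smul, one_smul]
  let φ : (EP A x y z f →+ ZMod 2) → Dl V × Dl V × Dl V := fun w =>
    ((sysOf hL hodd hno).v p w, (sysOf hL hodd hno).v q w, (sysOf hL hodd hno).v r w)
  have hφ : Function.Injective φ := by
    intro w w' hww
    have h1 : (sysOf hL hodd hno).v p w = (sysOf hL hodd hno).v p w' := congrArg Prod.fst hww
    have h2 : (sysOf hL hodd hno).v q w = (sysOf hL hodd hno).v q w' :=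
      congrArg (fun t => t.2.1) hww
    have h3 : (sysOf hL hodd hno).v r w = (sysOf hL hodd hno).v r w' :=
      congrArg (fun t => t.2.2) hww
    have h4 : w - w' = 0 := by
      refine (sysOf hL hodd hno).inj _ fun u => ?_
      obtain ⟨i, j, k, hu⟩ := indq_span p q r hI u
      rw [hu, (sysOf hL hodd hno).lin, (sysOf hL hodd hno).lin, hsm, hsm, hsm, map_sub, map_sub,
        map_sub, h1, h2, h3, sub_self, sub_self, sub_self, smul_zero, smul_zero, smul_zero,
        add_zero, add_zero]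
    exact sub_eq_zero.1 h4
  have hsub : Set.range φ ⊆ {g : Dl V | In A (pb x y z p) g} ×ˢ
      ({g : Dl V | In A (pb x y z q) g} ×ˢ {g : Dl V | In A (pb x y z r) g}) := by
    rintro _ ⟨w, rfl⟩
    exact ⟨val_mem hL hodd hno p w, val_mem hL hodd hno q w, val_mem hL hodd hno r w⟩
  have h1 : Nat.card (EP A x y z f →+ ZMod 2) = (Set.range φ).ncard := by
    rw [← Set.image_univ, Set.ncard_image_of_injective _ hφ, Set.ncard_univ]
  rw [h1]
  refine (Set.ncard_le_ncard hsub (Set.toFinite _)).trans ?_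
  rw [Set.ncard_prod, Set.ncard_prod]
  exact Nat.mul_le_mul (card4 hp) (Nat.mul_le_mul (card4 hq) (card4 hr))

theorem no_three {p q r : Q3} (hI : IndQ p q r) (hp : R2 A (pb x y z p))
    (hq : R2 A (pb x y z q)) (hr : R2 A (pb x y z r)) : False := by
  have hfA := fin_fam A
  obtain ⟨hfW, -⟩ := dual_card (EP A x y z f) (fun t => Subtype.ext (ex2 A t.1))
  have h64 := card64 hL hodd hno hI hp hq hr
  obtain ⟨s, a, b, es, ea, eb, hDB, hE, hforms⟩ := Sys.cls (sysOf hL hodd hno) h64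
  have hexp := pb_exp x y z hE
  rcases hforms with ⟨h, g, k, hI3, hF⟩ | ⟨h, g2, g1, g3, hI4, hF⟩
  · have hF0 := convA hL hodd hno hF
    have key : ∀ u : Q3, R2 A (pb x y z u) → dot eb u = 0 := by
      intro u hu
      rcases zz (dot eb u) with h1 | h1
      · exact h1
      · exfalso
        rw [hexp, h1, one_smul] at hu
        exact noR2A hI3 hF0 _ _ hu
    have h1 := hI eb (key p hp) (key q hq) (key r hr)
    have h2 := hDB.2.2.2.2
    rw [h1] at h2
    exact absurd h2 (by simp [dot])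
  · have hF0 := convB hL hodd hno hF
    have key : ∀ u : Q3, R2 A (pb x y z u) → dot ea u = 0 ∧ dot eb u = 0 := by
      intro u hu
      by_contra hcon
      rw [hexp] at hu
      exact noR2B hI4 hF0 _ _ _ hcon hu
    have h1 := hI eb (key p hp).2 (key q hq).2 (key r hr).2
    have h2 := hDB.2.2.2.2
    rw [h1] at h2
    exact absurd h2 (by simp [dot])

theorem no_two {p q : Q3} (hpq : NE2 p q) (hp : R1 A (pb x y z p)) (hq : R1 A (pb x y z q)) :
    False := by
  obtain ⟨e1, e2, ⟨n1, n2, n3⟩, ⟨a1, a2⟩, ⟨a3, a4⟩⟩ := lines2 p q hpq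
  obtain ⟨x1, w1, t1, s1⟩ := Sys.line (S := sysOf hL hodd hno) e1 n1
  obtain ⟨x2, w2, t2, s2⟩ := Sys.line (S := sysOf hL hodd hno) e2 n2
  obtain ⟨x3, w3, t3, s3⟩ := Sys.line (S := sysOf hL hodd hno) (e1 + e2) n3
  have i1 : In A (pb x y z p) x1 := by
    have h1 := val_mem hL hodd hno p w1
    rwa [t1 p, a1, one_smul] at h1
  have i2 : In A (pb x y z q) x2 := by
    have h1 := val_mem hL hodd hno q w2
    rwa [t2 q, a4, one_smul] at h1
  have i3 : In A (pb x y z p) x3 := by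
    have h1 := val_mem hL hodd hno p w3
    rwa [t3 p, dot_add, a1, a3, add_zero, one_smul] at h1
  have i4 : In A (pb x y z q) x3 := by
    have h1 := val_mem hL hodd hno q w3
    rwa [t3 q, dot_add, a2, a4, zero_add, one_smul] at h1
  have z1 := t1.ne_zero s1
  have z2 := t2.ne_zero s2
  have z3 := t3.ne_zero s3
  have e13 : x1 = x3 := by
    obtain ⟨ω, m, rfl⟩ := i1
    obtain ⟨η, m', rfl⟩ := i3
    rcases hp ω m η m' with h1 | h1 | h1
    · exact absurd h1 z1
    · exact absurd h1 z3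
    · exact h1
  have e23 : x2 = x3 := by
    obtain ⟨ω, m, rfl⟩ := i2
    obtain ⟨η, m', h5⟩ := i4
    rw [← h5] at z3
    rcases hq ω m η m' with h1 | h1 | h1
    · exact absurd h1 z2
    · exact absurd h1 z3
    · rw [h1, h5]
  rw [e13] at t1
  rw [e23] at t2
  have h1 := (t1.add t2).uniq t3
  have h2 := congrArg (sysOf hL hodd hno).th h1
  rw [map_add, s1, s2, s3] at h2
  exact absurd h2 (by decide)

theorem no_C2 {p : Q3} {P : AddSubgroup V} (hP : ∀ u : Q3, pb x y z u ∈ P)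
    (h : C2s A (pb x y z p) P) : False := by
  obtain ⟨e1, e2, e3, ⟨⟨n1, n2, n3⟩, n12, n13, n23⟩, a1, a2, a3⟩ := lines3 p
  obtain ⟨x1, w1, t1, s1⟩ := Sys.line (S := sysOf hL hodd hno) e1 n1
  obtain ⟨x2, w2, t2, s2⟩ := Sys.line (S := sysOf hL hodd hno) e2 n2
  obtain ⟨x3, w3, t3, s3⟩ := Sys.line (S := sysOf hL hodd hno) e3 n3
  obtain ⟨ω1, m1, h1⟩ := mem_of_sys hL hodd hno (w1 + w2) (by
    rw [map_add, s1, s2]; decide)
  obtain ⟨ω2, m2, h2⟩ := mem_of_sys hL hodd hno (w1 + w3) (by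
    rw [map_add, s1, s3]; decide)
  have z1 := t1.ne_zero s1
  have z2 := t2.ne_zero s2
  have z3 := t3.ne_zero s3
  rcases h ω1 m1 ω2 m2 (by rw [← h1, map_add, t1 p, t2 p, a1, a2, zero_smul, zero_smul, add_zero])
    (by rw [← h2, map_add, t1 p, t3 p, a1, a3, zero_smul, zero_smul, add_zero]) with h3 | h3 | h3
  · have h4 : w1 + w2 = 0 := (sysOf hL hodd hno).inj _ fun u => by rw [h1]; exact h3 _ (hP u)
    exact T_ne t1 t2 z1 z2 n12 (eq_of_add h4)
  · have h4 : w1 + w3 = 0 := (sysOf hL hodd hno).inj _ fun u => by rw [h2]; exact h3 _ (hP u)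
    exact T_ne t1 t3 z1 z3 n13 (eq_of_add h4)
  · have h4 : (w1 + w2) - (w1 + w3) = 0 := (sysOf hL hodd hno).inj _ fun u => by
      rw [map_sub, h1, h2, h3 _ (hP u), sub_self]
    have h5 : w2 = w3 := by
      have h6 := sub_eq_zero.1 h4
      exact add_left_cancel h6
    exact T_ne t2 t3 z2 z3 n23 h5

theorem pb_ne {p : Q3} (hp : p ≠ 0) : pb x y z p ≠ 0 := by
  intro h0
  obtain ⟨e, he, hep⟩ := exl p hp
  obtain ⟨x1, w1, t1, s1⟩ := Sys.line (S := sysOf hL hodd hno) e he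
  apply t1.ne_zero s1
  have h1 := val_mem hL hodd hno p w1
  rw [t1 p, hep, one_smul] at h1
  obtain ⟨ω, -, h2⟩ := h1
  rw [← h2, h0, map_zero]

end fail

end

end Pool.Agent.Run7.h948.QF
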